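import Mathlib

set_option autoImplicit false

namespace Pool.Agent.Helper18.Bogatyi

open Metric

/-- Euclidean space of dimension `d + 1`, in which the sphere `S^d` lives. -/
abbrev Amb (d : ℕ) : Type := EuclideanSpace ℝ (Fin (d + 1))

/-- `F` contains a congruent copy of `A`: some rotation (matrix in `SO(d+1)`) maps `A` into `F`. -/
def ContainsCopy (d : ℕ) (F A : Set (Amb d)) : Prop :=
  ∃ ρ ∈ Matrix.specialOrthogonalGroup (Fin (d + 1)) ℝ,
    (fun x : Amb d => Matrix.toEuclideanLin ρ x) '' A ⊆ F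

/-- The assertion of the question for the pair `(d, m)`: for every cover of the unit sphere `S^d`
by `m` closed sets there is one index `i` such that `F i` contains a congruent copy of every
subset `A` of the sphere with exactly `d - m + 3` points. -/
def BogatyiProperty (d m : ℕ) : Prop :=
  ∀ F : Fin m → Set (Amb d), (∀ i, IsClosed (F i)) → (⋃ i, F i) = sphere (0 : Amb d) 1 →
    ∃ i, ∀ A : Finset (Amb d), (A : Set (Amb d)) ⊆ sphere (0 : Amb d) 1 →
      (A.card : ℤ) = (d : ℤ) - (m : ℤ) + 3 → ContainsCopy d (F i) (A : Set (Amb d))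

/-- standard basis vector -/
noncomputable def e (d : ℕ) (j : Fin (d + 1)) : Amb d := EuclideanSpace.single j (1 : ℝ)

lemma apply_e (d : ℕ) (ρ : Matrix (Fin (d + 1)) (Fin (d + 1)) ℝ) (i j : Fin (d + 1)) :
    (Matrix.toEuclideanLin ρ (e d j)) i = ρ i j := by
  simp [e, Matrix.toEuclideanLin]

lemma row_norm (d : ℕ) (ρ : Matrix (Fin (d + 1)) (Fin (d + 1)) ℝ)
    (hρ : ρ ∈ Matrix.specialOrthogonalGroup (Fin (d + 1)) ℝ) :
    ∑ j, (ρ 0 j) ^ 2 = 1 := by
  have h1 := (Matrix.mem_specialOrthogonalGroup_iff.1 hρ).1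
  have h2 := (Matrix.mem_orthogonalGroup_iff (Fin (d + 1)) ℝ).1 h1
  have h3 := congrFun (congrFun h2 0) 0
  simp only [Matrix.mul_apply, Matrix.one_apply_eq] at h3
  rw [← h3]
  exact Finset.sum_congr rfl (fun j _ => by rw [Matrix.transpose_apply]; ring)

/-- the threshold -/
noncomputable def thr (d : ℕ) : ℝ := Real.sqrt (2 / (2 * (d : ℝ) + 3))

lemma thr_sq (d : ℕ) : thr d ^ 2 = 2 / (2 * (d : ℝ) + 3) := by
  unfold thr
  rw [Real.sq_sqrt]
  positivity

lemma thr_nonneg (d : ℕ) : 0 ≤ thr d := Real.sqrt_nonneg _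

/-- the two sets of the cover: the band around the equator and the two opposite caps -/
noncomputable def cov (d : ℕ) : Fin 2 → Set (Amb d) :=
  ![{x | x ∈ sphere (0 : Amb d) 1 ∧ |x 0| ≤ thr d}, {x | x ∈ sphere (0 : Amb d) 1 ∧ thr d ≤ |x 0|}]

lemma cont0 (d : ℕ) : Continuous (fun x : Amb d => |x 0|) := by fun_prop

lemma cov_closed (d : ℕ) (i : Fin 2) : IsClosed (cov d i) := by
  fin_cases i
  · exact IsClosed.inter isClosed_sphere (isClosed_le (cont0 d) continuous_const)
  · exact IsClosed.inter isClosed_sphere (isClosed_le continuous_const (cont0 d))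

lemma cov_union (d : ℕ) : (⋃ i, cov d i) = sphere (0 : Amb d) 1 := by
  ext x
  simp only [Set.mem_iUnion, Fin.exists_fin_two]
  constructor
  · rintro (h | h)
    · exact h.1
    · exact h.1
  · intro h
    rcases le_total (|x 0|) (thr d) with h1 | h1
    · exact Or.inl ⟨h, h1⟩
    · exact Or.inr ⟨h, h1⟩

/-- the orthonormal basis as a finite set -/
noncomputable def basisSet (d : ℕ) : Finset (Amb d) := Finset.univ.image (e d)

lemma e_injective (d : ℕ) : Function.Injective (e d) := by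
  intro i j h
  by_contra hne
  have := congrArg (fun v : Amb d => v i) h
  simp [e, hne] at this

lemma basisSet_card (d : ℕ) : (basisSet d).card = d + 1 := by
  unfold basisSet
  rw [Finset.card_image_of_injective _ (e_injective d)]
  simp

lemma e_sphere (d : ℕ) (j : Fin (d + 1)) : e d j ∈ sphere (0 : Amb d) 1 := by
  simp [e]

/-- the second bad configuration: three vectors at mutual angles `120` degrees in a plane, together
with orthonormal vectors orthogonal to that plane -/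
noncomputable def v (d : ℕ) (hd : 2 ≤ d) (j : Fin (d + 1)) : Amb d :=
  if j.1 = 0 then e d 0
  else if j.1 = 1 then
    (-(1 / 2) : ℝ) • e d 0 + (Real.sqrt 3 / 2) • e d ⟨1, by omega⟩
  else if j.1 = 2 then
    (-(1 / 2) : ℝ) • e d 0 - (Real.sqrt 3 / 2) • e d ⟨1, by omega⟩
  else e d j

lemma e_apply (d : ℕ) (i j : Fin (d + 1)) : e d j i = if i = j then 1 else 0 := by
  simp [e]

lemma sqrt3_pos : 0 < Real.sqrt 3 := Real.sqrt_pos.2 (by norm_num)

lemma v0 (d : ℕ) (hd : 2 ≤ d) (j : Fin (d + 1)) : v d hd j 0 =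
    if j.1 = 0 then 1 else if j.1 = 1 then -(1 / 2) else if j.1 = 2 then -(1 / 2) else 0 := by
  unfold v
  split_ifs <;> (simp [e_apply, Fin.ext_iff]; try omega)

lemma v1 (d : ℕ) (hd : 2 ≤ d) (j : Fin (d + 1)) : v d hd j ⟨1, by omega⟩ =
    if j.1 = 0 then 0 else if j.1 = 1 then Real.sqrt 3 / 2 else
      if j.1 = 2 then - (Real.sqrt 3 / 2) else 0 := by
  unfold v
  split_ifs <;> (simp [e_apply, Fin.ext_iff]; try omega)

lemma vbig (d : ℕ) (hd : 2 ≤ d) (j k : Fin (d + 1)) (hk : 3 ≤ k.1) : v d hd j k =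
    if k = j then 1 else 0 := by
  have e0 : k ≠ 0 := by rintro rfl; simp at hk
  have e1 : k ≠ ⟨1, by omega⟩ := by
    intro hh; have := congrArg Fin.val hh; simp at this; omega
  unfold v
  by_cases h0 : j.1 = 0
  · have hkj : k ≠ j := by rintro rfl; omega
    rw [if_pos h0]; simp [e_apply, e0, hkj]
  · by_cases h1 : j.1 = 1
    · have hkj : k ≠ j := by rintro rfl; omega
      rw [if_neg h0, if_pos h1]; simp [e_apply, e0, e1, hkj]
    · by_cases h2 : j.1 = 2
      · have hkj : k ≠ j := by rintro rfl; omega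
        rw [if_neg h0, if_neg h1, if_pos h2]; simp [e_apply, e0, e1, hkj]
      · rw [if_neg h0, if_neg h1, if_neg h2, e_apply]

lemma v_injective (d : ℕ) (hd : 2 ≤ d) : Function.Injective (v d hd) := by
  intro i j h
  have hs := sqrt3_pos
  have key : ∀ k : Fin (d + 1), v d hd i k = v d hd j k := fun k => by rw [h]
  by_cases hi : 3 ≤ i.1
  · have := key i
    rw [vbig d hd i i hi, vbig d hd j i hi] at this
    by_contra hne
    simp [hne] at this
  by_cases hj : 3 ≤ j.1
  · have := key j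
    rw [vbig d hd i j hj, vbig d hd j j hj] at this
    by_contra hne
    simp [Ne.symm hne] at this
  have h0 := key 0
  have h1 := key ⟨1, by omega⟩
  rw [v0, v0] at h0
  rw [v1, v1] at h1
  have hi' : i.1 = 0 ∨ i.1 = 1 ∨ i.1 = 2 := by omega
  have hj' : j.1 = 0 ∨ j.1 = 1 ∨ j.1 = 2 := by omega
  apply Fin.ext
  rcases hi' with hi' | hi' | hi' <;> rcases hj' with hj' | hj' | hj' <;>
    first
    | omega
    | (exfalso; rw [hi', hj'] at h0 h1; first
        | (norm_num at h0; done)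
        | (norm_num at h1; done)
        | (norm_num at h1; linarith))

noncomputable def vSet (d : ℕ) (hd : 2 ≤ d) : Finset (Amb d) := Finset.univ.image (v d hd)

lemma vSet_card (d : ℕ) (hd : 2 ≤ d) : (vSet d hd).card = d + 1 := by
  unfold vSet
  rw [Finset.card_image_of_injective _ (v_injective d hd)]
  simp

lemma norm_comb (d : ℕ) (hd : 2 ≤ d) (s : ℝ) (hs : s ^ 2 = 3 / 4) :
    ‖(-(1 / 2) : ℝ) • e d 0 + s • e d ⟨1, by omega⟩‖ = 1 := by
  have n01 : (0 : Fin (d + 1)) ≠ ⟨1, by omega⟩ := by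
    intro hh; have := congrArg Fin.val hh; simp at this
  have horth : inner ℝ ((-(1 / 2) : ℝ) • e d 0) (s • e d ⟨1, by omega⟩) = 0 := by
    have h0 : inner ℝ (e d 0) (e d ⟨1, by omega⟩) = (0 : ℝ) := by
      unfold e
      rw [EuclideanSpace.inner_single_left]
      simp [n01]
    rw [inner_smul_left, inner_smul_right, h0]
    simp
  have h := norm_add_sq_eq_norm_sq_add_norm_sq_real horth
  have hn : ∀ j, ‖e d j‖ = 1 := fun j => by simp [e]
  rw [norm_smul, norm_smul, hn, hn] at h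
  have h2 : ‖(-(1 / 2) : ℝ) • e d 0 + s • e d ⟨1, by omega⟩‖ *
      ‖(-(1 / 2) : ℝ) • e d 0 + s • e d ⟨1, by omega⟩‖ = 1 := by
    rw [h]
    have : ‖s‖ * ‖s‖ = s ^ 2 := by rw [Real.norm_eq_abs, abs_mul_abs_self]; ring
    have h3 : ‖(-(1 / 2) : ℝ)‖ = 1 / 2 := by rw [norm_neg]; norm_num
    rw [h3]
    nlinarith
  nlinarith [norm_nonneg ((-(1 / 2) : ℝ) • e d 0 + s • e d ⟨1, by omega⟩)]

lemma v_sphere (d : ℕ) (hd : 2 ≤ d) (j : Fin (d + 1)) : v d hd j ∈ sphere (0 : Amb d) 1 := by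
  have h3 : Real.sqrt 3 ^ 2 = 3 := Real.sq_sqrt (by norm_num)
  rw [mem_sphere_zero_iff_norm]
  unfold v
  split_ifs
  · simp [e]
  · exact norm_comb d hd _ (by nlinarith)
  · rw [sub_eq_add_neg, ← neg_smul]
    exact norm_comb d hd _ (by nlinarith)
  · simp [e]

lemma band_misses (d : ℕ) : ¬ ContainsCopy d (cov d 0) (basisSet d : Set (Amb d)) := by
  rintro ⟨ρ, hρ, h⟩
  have hb : ∀ j, |ρ 0 j| ≤ thr d := by
    intro j
    have hmem : (fun x : Amb d => Matrix.toEuclideanLin ρ x) (e d j) ∈ cov d 0 :=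
      h ⟨e d j, by simp [basisSet], rfl⟩
    have h2 := hmem.2
    simp only [apply_e] at h2
    exact h2
  have hsum := row_norm d ρ hρ
  have hle : ∑ j : Fin (d + 1), (ρ 0 j) ^ 2 ≤ ∑ _j : Fin (d + 1), thr d ^ 2 :=
    Finset.sum_le_sum (fun j _ => by
      have := hb j
      have h0 := thr_nonneg d
      rw [← sq_abs]
      exact pow_le_pow_left₀ (abs_nonneg _) this 2)
  rw [hsum, Finset.sum_const, Finset.card_univ, Fintype.card_fin, thr_sq, nsmul_eq_mul] at hle
  have hpos : (0 : ℝ) < 2 * (d : ℝ) + 3 := by positivity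
  rw [mul_div_assoc'] at hle
  rw [le_div_iff₀ hpos] at hle
  push_cast at hle
  linarith

lemma caps_miss (d : ℕ) (hd : 2 ≤ d) : ¬ ContainsCopy d (cov d 1) (vSet d hd : Set (Amb d)) := by
  rintro ⟨ρ, hρ, h⟩
  have h3 : Real.sqrt 3 ^ 2 = 3 := Real.sq_sqrt (by norm_num)
  have hb : ∀ j, thr d ≤ |(Matrix.toEuclideanLin ρ (v d hd j)) 0| := by
    intro j
    have hmem : (fun x : Amb d => Matrix.toEuclideanLin ρ x) (v d hd j) ∈ cov d 1 :=
      h ⟨v d hd j, by simp [vSet], rfl⟩
    exact hmem.2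
  set p := ρ 0 0 with hp
  set q := ρ 0 ⟨1, by omega⟩ with hq
  have h0 : thr d ≤ |p| := by
    have := hb 0
    simp only [v, Fin.val_zero, if_true, apply_e] at this
    exact this
  have h1 : thr d ≤ |-(1 / 2) * p + Real.sqrt 3 / 2 * q| := by
    have := hb ⟨1, by omega⟩
    simp only [v, one_ne_zero, if_false, if_true, map_add, map_smul, PiLp.add_apply,
      PiLp.smul_apply, apply_e, smul_eq_mul] at this
    exact this
  have h2 : thr d ≤ |-(1 / 2) * p - Real.sqrt 3 / 2 * q| := by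
    have := hb ⟨2, by omega⟩
    simp only [v, OfNat.ofNat_ne_zero, OfNat.ofNat_ne_one, if_false, if_true, map_sub, map_smul,
      PiLp.sub_apply, PiLp.smul_apply, apply_e, smul_eq_mul] at this
    exact this
  have hk : ∀ j : Fin (d + 1), 3 ≤ j.1 → thr d ^ 2 ≤ (ρ 0 j) ^ 2 := by
    intro j hj
    have := hb j
    have e0 : j.1 ≠ 0 := by omega
    have e1 : j.1 ≠ 1 := by omega
    have e2 : j.1 ≠ 2 := by omega
    simp only [v, e0, e1, e2, if_false, apply_e] at this
    rw [← sq_abs (ρ 0 j)]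
    exact pow_le_pow_left₀ (thr_nonneg d) this 2
  have hpq : 4 * thr d ^ 2 ≤ p ^ 2 + q ^ 2 := by
    have ht := thr_nonneg d
    set t := thr d
    set a := -(1 / 2) * p + Real.sqrt 3 / 2 * q with ha
    set b := -(1 / 2) * p - Real.sqrt 3 / 2 * q with hb'
    have hsum : p + a + b = 0 := by rw [ha, hb']; ring
    have hsq : p ^ 2 + a ^ 2 + b ^ 2 = 3 / 2 * (p ^ 2 + q ^ 2) := by
      rw [ha, hb']; nlinarith
    have : 6 * t ^ 2 ≤ p ^ 2 + a ^ 2 + b ^ 2 := by
      have hb2 : b = - p - a := by linarith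
      rw [hb2] at h2 ⊢
      clear_value t a p
      rcases le_abs.1 h0 with h0 | h0 <;> rcases le_abs.1 h1 with h1 | h1 <;>
        rcases le_abs.1 h2 with h2 | h2 <;> nlinarith
    linarith
  have hsum := row_norm d ρ hρ
  obtain ⟨n, rfl⟩ : ∃ n, d = n + 2 := ⟨d - 2, by omega⟩
  rw [Fin.sum_univ_succ, Fin.sum_univ_succ, Fin.sum_univ_succ] at hsum
  have hrest : ∑ j : Fin n, thr (n + 2) ^ 2 ≤
      ∑ j : Fin n, ρ 0 (Fin.succ (Fin.succ (Fin.succ j))) ^ 2 :=
    Finset.sum_le_sum (fun j _ => hk _ (by simp))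
  rw [Finset.sum_const, Finset.card_univ, Fintype.card_fin, nsmul_eq_mul] at hrest
  have hq' : ρ 0 (Fin.succ 0) = q := by
    rw [hq]; rfl
  rw [hq'] at hsum
  have h22 : 0 ≤ ρ 0 (Fin.succ (Fin.succ 0)) ^ 2 := sq_nonneg _
  have ht := thr_sq (n + 2)
  rw [ht] at hrest hpq
  have hpos : (0 : ℝ) < 2 * ((n + 2 : ℕ) : ℝ) + 3 := by positivity
  have hfin : ((n : ℝ) + 4) * (2 / (2 * ((n + 2 : ℕ) : ℝ) + 3)) ≤ 1 := by linarith
  rw [mul_div_assoc', div_le_one hpos] at hfin
  push_cast at hfin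
  linarith

/-- In every dimension `d ≥ 2` the assertion fails already for covers by two closed sets. -/
theorem not_property_two (d : ℕ) (hd : 2 ≤ d) : ¬ BogatyiProperty d 2 := by
  intro H
  obtain ⟨i, hi⟩ := H (cov d) (cov_closed d) (cov_union d)
  fin_cases i
  · refine band_misses d (hi (basisSet d) ?_ ?_)
    · intro x hx
      simp only [basisSet, Finset.coe_image, Finset.coe_univ, Set.image_univ, Set.mem_range] at hx
      obtain ⟨j, rfl⟩ := hx
      exact e_sphere d j
    · rw [basisSet_card]; push_cast; ring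
  · refine caps_miss d hd (hi (vSet d hd) ?_ ?_)
    · intro x hx
      simp only [vSet, Finset.coe_image, Finset.coe_univ, Set.image_univ, Set.mem_range] at hx
      obtain ⟨j, rfl⟩ := hx
      exact v_sphere d hd j
    · rw [vSet_card]; push_cast; ring

end Pool.Agent.Helper18.Bogatyi
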