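import Mathlib

set_option autoImplicit false

open Set Filter Topology

namespace Pool.Agent.Helper18.CU

/-- rank of `j` in its fibre -/
noncomputable def rk {X : Type} (f : ℕ → X) (j : ℕ) : ℕ := by
  classical exact ((Finset.range j).filter fun i => f i = f j).card

/-- compatibility of a permutation block with the parameters -/
def Compat {X : Type} [MetricSpace X] (x : X) (L F a s N : ℕ) (π : Equiv.Perm (Fin N)) : Prop :=
  ∃ f : ℕ → X, f 0 = x ∧ (∀ i, dist (f i) (f (i+1)) ≤ L) ∧ (∀ j, rk f j < F) ∧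
    ∀ t : Fin N, dist (f (a + s * t)) (f (a + s * (N + π t))) ≤ L

theorem rk_inj {X : Type} (f : ℕ → X) (j j' : ℕ) (h : f j = f j') (hr : rk f j = rk f j') : j = j' := by
  classical
  by_contra hne
  wlog hlt : j < j' generalizing j j'
  · exact this j' j h.symm hr.symm (Ne.symm hne) (by omega)
  have : rk f j < rk f j' := by
    unfold rk
    refine Finset.card_lt_card ?_
    refine (Finset.ssubset_iff_of_subset ?_).mpr ⟨j, ?_, ?_⟩
    · intro i hi
      rw [Finset.mem_filter, Finset.mem_range] at hi ⊢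
      exact ⟨by omega, by rw [hi.2, h]⟩
    · rw [Finset.mem_filter, Finset.mem_range]
      exact ⟨hlt, h⟩
    · rw [Finset.mem_filter, Finset.mem_range]
      intro hc
      exact lt_irrefl _ hc.1
  omega

theorem rk_congr {X : Type} (f g : ℕ → X) (j : ℕ) (h : ∀ i ≤ j, f i = g i) : rk f j = rk g j := by
  classical
  unfold rk
  congr 1
  ext i
  rw [Finset.mem_filter, Finset.mem_filter, Finset.mem_range]
  constructor
  · rintro ⟨h1, h2⟩
    exact ⟨h1, by rw [← h i h1.le, ← h j le_rfl]; exact h2⟩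
  · rintro ⟨h1, h2⟩
    exact ⟨h1, by rw [h i h1.le, h j le_rfl]; exact h2⟩

theorem block {X : Type} [MetricSpace X] (L F M : ℕ) (e : X → X → ℕ)
    (he : ∀ p, ∀ q ∈ Metric.closedBall p (L:ℝ), e p q < M)
    (hinj : ∀ p, InjOn (e p) (Metric.closedBall p (L:ℝ))) (x : X) (a s N : ℕ) (hs : 0 < s)
    (hbig : M^(a + 2 * N * s) * (M * F)^N < N.factorial) :
    ∃ π : Equiv.Perm (Fin N), ¬ Compat x L F a s N π := by
  classical
  by_contra hcon
  push Not at hcon
  choose f hf0 hf1 hf2 hf3 using hcon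
  have hb : ∀ π i, f π (i+1) ∈ Metric.closedBall (f π i) (L:ℝ) := by
    intro π i
    rw [Metric.mem_closedBall, dist_comm]; exact hf1 π i
  have hb2 : ∀ π (t : Fin N), f π (a + s * (N + π t)) ∈ Metric.closedBall (f π (a + s * t)) (L:ℝ) := by
    intro π t
    rw [Metric.mem_closedBall, dist_comm]; exact hf3 π t
  let code : Equiv.Perm (Fin N) → (Fin (a + 2 * N * s) → Fin M) × (Fin N → Fin M × Fin F) := fun π =>
    (fun i => ⟨e (f π i) (f π (i+1)), he _ _ (hb π i)⟩,
      fun t => (⟨e (f π (a + s * t)) (f π (a + s * (N + π t))), he _ _ (hb2 π t)⟩, ⟨rk (f π) (a + s * (N + π t)), hf2 π _⟩))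
  have hcard : Fintype.card ((Fin (a + 2 * N * s) → Fin M) × (Fin N → Fin M × Fin F)) <
      Fintype.card (Equiv.Perm (Fin N)) := by
    rw [Fintype.card_perm, Fintype.card_fin]
    simp only [Fintype.card_prod, Fintype.card_fun, Fintype.card_fin]
    exact hbig
  obtain ⟨π, π', hne, hcode⟩ := Fintype.exists_ne_map_eq_of_card_lt code hcard
  apply hne
  have h1 : ∀ i : Fin (a + 2 * N * s), e (f π i) (f π (i+1)) = e (f π' i) (f π' (i+1)) := by
    intro i
    have := congrFun (congrArg Prod.fst hcode) i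
    exact congrArg Fin.val this
  have h2 : ∀ t : Fin N, e (f π (a + s * t)) (f π (a + s * (N + π t))) = e (f π' (a + s * t)) (f π' (a + s * (N + π' t))) := by
    intro t
    have := congrFun (congrArg Prod.snd hcode) t
    exact congrArg Fin.val (congrArg Prod.fst this)
  have h3 : ∀ t : Fin N, rk (f π) (a + s * (N + π t)) = rk (f π') (a + s * (N + π' t)) := by
    intro t
    have := congrFun (congrArg Prod.snd hcode) t
    exact congrArg Fin.val (congrArg Prod.snd this)
  have hff : ∀ i, i ≤ a + 2 * N * s → f π i = f π' i := by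
    intro i
    induction i with
    | zero => intro _; rw [hf0, hf0]
    | succ i ih =>
      intro hi
      have ih' := ih (by omega)
      have h4 := h1 ⟨i, by omega⟩
      simp only at h4
      rw [ih'] at h4
      refine hinj (f π' i) ?_ (hb π' i) h4
      rw [← ih']; exact hb π i
  ext t
  have ht := t.2
  have hp := (π t).2
  have hp' := (π' t).2
  have k1 : a + s * t ≤ a + 2 * N * s := by
    have : s * (t:ℕ) ≤ s * (2 * N) := Nat.mul_le_mul_left s (by omega)
    calc a + s * t ≤ a + s * (2 * N) := by omega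
      _ = a + 2 * N * s := by ring
  have k2 : a + s * (N + (π' t : ℕ)) ≤ a + 2 * N * s := by
    have : s * (N + (π' t : ℕ)) ≤ s * (2 * N) := Nat.mul_le_mul_left s (by omega)
    calc a + s * (N + (π' t : ℕ)) ≤ a + s * (2 * N) := by omega
      _ = a + 2 * N * s := by ring
  have h5 := h2 t
  have h6 : f π (a + s * t) = f π' (a + s * t) := hff _ k1
  rw [h6] at h5
  have h7 : f π (a + s * (N + π t)) = f π' (a + s * (N + π' t)) := by
    refine hinj (f π' (a + s * t)) ?_ (hb2 π' t) h5
    rw [← h6]; exact hb2 π t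
  have h8 : f π' (a + s * (N + π' t)) = f π (a + s * (N + π' t)) := (hff _ k2).symm
  have h9 : rk (f π') (a + s * (N + π' t)) = rk (f π) (a + s * (N + π' t)) :=
    (rk_congr _ _ _ fun i hi => hff i (hi.trans k2)).symm
  have h10 := rk_inj (f π) _ _ (h7.trans h8) ((h3 t).trans h9)
  have h11 := Nat.eq_of_mul_eq_mul_left hs (Nat.add_left_cancel h10)
  omega

theorem exists_big (M F a s : ℕ) : ∃ N, 1 ≤ N ∧ M^(a + 2 * N * s) * (M * F)^N < N.factorial := by
  have h := FloorSemiring.tendsto_pow_div_factorial_atTop ((M:ℝ)^(2 * s) * (M * F))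
  have hpos : (0:ℝ) < 1 / ((M:ℝ)^a + 1) := by positivity
  have hev := (h.eventually (gt_mem_nhds hpos)).and (eventually_ge_atTop 1)
  obtain ⟨N, hN, hN1⟩ := hev.exists
  refine ⟨N, hN1, ?_⟩
  have hf : (0:ℝ) < (N.factorial : ℝ) := by positivity
  rw [div_lt_div_iff₀ hf (by positivity), one_mul] at hN
  have h2 : ((M^(a + 2 * N * s) * (M * F)^N : ℕ) : ℝ) < (N.factorial : ℝ) := by
    push_cast
    have h3 : (M:ℝ)^(a + 2 * N * s) * ((M:ℝ) * F)^N = (M:ℝ)^a * ((M:ℝ)^(2 * s) * (M * F))^N := by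
      rw [pow_add, mul_pow ((M:ℝ)^(2*s)), ← pow_mul, mul_assoc]
      congr 3; ring
    rw [h3]
    have h4 : 0 ≤ ((M:ℝ)^(2 * s) * (M * F))^N := by positivity
    nlinarith [pow_nonneg (Nat.cast_nonneg M : (0:ℝ) ≤ M) a]
  exact_mod_cast h2

/-- bounded geometry -/
def BoundedGeometry (X : Type) [MetricSpace X] : Prop :=
  ∀ r : ℝ, 0 < r → ∃ N : ℕ, ∀ x : X, (Metric.closedBall x r).Finite ∧ (Metric.closedBall x r).ncard ≤ N

theorem exists_enc {X : Type} [MetricSpace X] (hX : BoundedGeometry X) (L : ℕ) :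
    ∃ (M : ℕ) (e : X → X → ℕ), (∀ p, ∀ q ∈ Metric.closedBall p (L:ℝ), e p q < M) ∧
      ∀ p, InjOn (e p) (Metric.closedBall p (L:ℝ)) := by
  classical
  obtain ⟨M, hM⟩ := hX (L + 1) (by positivity)
  have hfin : ∀ p : X, (Metric.closedBall p (L:ℝ)).Finite := fun p =>
    (hM p).1.subset (Metric.closedBall_subset_closedBall (by linarith))
  have hcard : ∀ p : X, (hfin p).toFinset.card ≤ M := by
    intro p
    rw [← Set.ncard_eq_toFinset_card _ (hfin p)]
    exact (Set.ncard_le_ncard (Metric.closedBall_subset_closedBall (by linarith)) (hM p).1).trans (hM p).2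
  refine ⟨M, fun p q => if h : q ∈ (hfin p).toFinset then ((hfin p).toFinset.equivFin ⟨q, h⟩ : ℕ) else 0, ?_, ?_⟩
  · intro p q hq
    have h : q ∈ (hfin p).toFinset := (hfin p).mem_toFinset.mpr hq
    simp only [h, dif_pos]
    exact lt_of_lt_of_le ((hfin p).toFinset.equivFin ⟨q, h⟩).2 (hcard p)
  · intro p q hq q' hq' heq
    have h : q ∈ (hfin p).toFinset := (hfin p).mem_toFinset.mpr hq
    have h' : q' ∈ (hfin p).toFinset := (hfin p).mem_toFinset.mpr hq'
    simp only [h, h', dif_pos] at heq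
    have := (hfin p).toFinset.equivFin.injective (Fin.ext heq)
    exact congrArg Subtype.val this

theorem exists_block {X : Type} [MetricSpace X] (hX : BoundedGeometry X) (x : X) (L F a s : ℕ) (hs : 0 < s) :
    ∃ N, 1 ≤ N ∧ ∃ π : Equiv.Perm (Fin N), ¬ Compat x L F a s N π := by
  obtain ⟨M, e, he, hinj⟩ := exists_enc hX L
  obtain ⟨N, hN1, hN⟩ := exists_big M F a s
  exact ⟨N, hN1, block L F M e he hinj x a s N hs hN⟩

end Pool.Agent.Helper18.CU
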