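import Pool.Agent.Helper18.CU1

set_option autoImplicit false

open Set Filter Topology

namespace Pool.Agent.Helper18.CU

structure Dat where
  a : ℕ → ℕ
  s : ℕ → ℕ
  N : ℕ → ℕ
  pi : ∀ k, Equiv.Perm (Fin (N k))
  a0 : a 0 = 0
  asucc : ∀ k, a (k+1) = a k + 2 * N k * s k
  hN : ∀ k, 1 ≤ N k
  hs : ∀ k, s k = k + 1

namespace Dat
variable (D : Dat)

/-- matched pairs -/
def Mt (i j : ℕ) : Prop := ∃ k, ∃ t : Fin (D.N k), i = D.a k + D.s k * t ∧ j = D.a k + D.s k * (D.N k + D.pi k t)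

theorem a_lt (k : ℕ) : D.a k < D.a (k+1) := by
  rw [D.asucc]
  have h1 := D.hN k
  have h2 := D.hs k
  have : 0 < 2 * D.N k * D.s k := by rw [h2]; positivity
  omega

theorem a_mono : StrictMono D.a := strictMono_nat_of_lt_succ D.a_lt

theorem in_block {k x : ℕ} (hx : x < 2 * D.N k) : D.a k ≤ D.a k + D.s k * x ∧ D.a k + D.s k * x < D.a (k+1) := by
  refine ⟨Nat.le_add_right _ _, ?_⟩
  rw [D.asucc]
  have h2 := D.hs k
  have : D.s k * x < D.s k * (2 * D.N k) := Nat.mul_lt_mul_of_pos_left hx (by omega)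
  have h3 : D.s k * (2 * D.N k) = 2 * D.N k * D.s k := by ring
  omega

theorem block_unique {k k' i : ℕ} (h1 : D.a k ≤ i) (h2 : i < D.a (k+1)) (h3 : D.a k' ≤ i) (h4 : i < D.a (k'+1)) :
    k = k' := by
  have m := D.a_mono
  have e1 : k < k' + 1 := m.lt_iff_lt.mp (lt_of_le_of_lt h1 h4)
  have e2 : k' < k + 1 := m.lt_iff_lt.mp (lt_of_le_of_lt h3 h2)
  omega

theorem Mt_right {i j j' : ℕ} (h : D.Mt i j) (h' : D.Mt i j') : j = j' := by
  obtain ⟨k, t, h1, h2⟩ := h
  obtain ⟨k', t', h3, h4⟩ := h'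
  have ht := t.2
  have ht' := t'.2
  have b1 := D.in_block (k := k) (x := t) (by omega)
  have b2 := D.in_block (k := k') (x := t') (by omega)
  rw [← h1] at b1
  rw [← h3] at b2
  have hk := D.block_unique b1.1 b1.2 b2.1 b2.2
  subst hk
  have hs := D.hs k
  have h5 : D.s k * t = D.s k * t' := by omega
  have h6 := Nat.eq_of_mul_eq_mul_left (by omega : 0 < D.s k) h5
  have h7 : t = t' := Fin.ext h6
  subst h7
  rw [h2, h4]

theorem Mt_left {i j j' : ℕ} (h : D.Mt j i) (h' : D.Mt j' i) : j = j' := by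
  obtain ⟨k, t, h1, h2⟩ := h
  obtain ⟨k', t', h3, h4⟩ := h'
  have ht := (D.pi k t).2
  have ht' := (D.pi k' t').2
  have b1 := D.in_block (k := k) (x := D.N k + D.pi k t) (by omega)
  have b2 := D.in_block (k := k') (x := D.N k' + D.pi k' t') (by omega)
  rw [← h2] at b1
  rw [← h4] at b2
  have hk := D.block_unique b1.1 b1.2 b2.1 b2.2
  subst hk
  have hs := D.hs k
  have h5 : D.s k * (D.N k + D.pi k t) = D.s k * (D.N k + D.pi k t') := by omega
  have h6 := Nat.eq_of_mul_eq_mul_left (by omega : 0 < D.s k) h5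
  have h7 : D.pi k t = D.pi k t' := Fin.ext (by omega)
  have h8 := (D.pi k).injective h7
  subst h8
  rw [h1, h3]

/-- the graph -/
def gr : SimpleGraph ℕ where
  Adj i j := i ≠ j ∧ (i + 1 = j ∨ j + 1 = i ∨ D.Mt i j ∨ D.Mt j i)
  symm := ⟨by
    rintro i j ⟨h1, h2⟩
    refine ⟨h1.symm, ?_⟩
    tauto⟩
  loopless := ⟨fun i h => h.1 rfl⟩

theorem adj_succ (i : ℕ) : D.gr.Adj i (i+1) := ⟨by omega, Or.inl rfl⟩

theorem conn : D.gr.Connected := by
  have h : ∀ n, D.gr.Reachable 0 n := by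
    intro n
    induction n with
    | zero => exact SimpleGraph.Reachable.refl _
    | succ n ih => exact ih.trans (D.adj_succ n).reachable
  haveI : Nonempty ℕ := ⟨0⟩
  exact SimpleGraph.Connected.mk fun i j => (h i).symm.trans (h j)

open Classical in
noncomputable def out (i : ℕ) : ℕ := if h : ∃ j, D.Mt i j then h.choose else i
open Classical in
noncomputable def inn (i : ℕ) : ℕ := if h : ∃ j, D.Mt j i then h.choose else i

theorem adj_cases {i j : ℕ} (h : D.gr.Adj i j) : j = i + 1 ∨ j = i - 1 ∨ j = D.out i ∨ j = D.inn i := by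
  rcases h.2 with h | h | h | h
  · left; omega
  · right; left; omega
  · right; right; left
    have hex : ∃ j, D.Mt i j := ⟨j, h⟩
    rw [out, dif_pos hex]
    exact D.Mt_right h hex.choose_spec
  · right; right; right
    have hex : ∃ j, D.Mt j i := ⟨j, h⟩
    rw [inn, dif_pos hex]
    exact D.Mt_left h hex.choose_spec

noncomputable def Bs : ℕ → ℕ → Finset ℕ
  | 0, i => {i}
  | r+1, i => Bs r i ∪ Bs r (i+1) ∪ Bs r (i-1) ∪ Bs r (D.out i) ∪ Bs r (D.inn i)

theorem Bs_card (r i : ℕ) : (D.Bs r i).card ≤ 5^r := by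
  induction r generalizing i with
  | zero => simp [Bs]
  | succ r ih =>
    rw [Bs]
    have h1 := Finset.card_union_le (D.Bs r i ∪ D.Bs r (i+1) ∪ D.Bs r (i-1) ∪ D.Bs r (D.out i)) (D.Bs r (D.inn i))
    have h2 := Finset.card_union_le (D.Bs r i ∪ D.Bs r (i+1) ∪ D.Bs r (i-1)) (D.Bs r (D.out i))
    have h3 := Finset.card_union_le (D.Bs r i ∪ D.Bs r (i+1)) (D.Bs r (i-1))
    have h4 := Finset.card_union_le (D.Bs r i) (D.Bs r (i+1))
    have e1 := ih i
    have e2 := ih (i+1)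
    have e3 := ih (i-1)
    have e4 := ih (D.out i)
    have e5 := ih (D.inn i)
    have : 5^(r+1) = 5 * 5^r := by ring
    omega

theorem Bs_self (r i : ℕ) : i ∈ D.Bs r i := by
  induction r with
  | zero => simp [Bs]
  | succ r ih => rw [Bs]; simp [ih]

theorem Bs_walk {i j : ℕ} (w : D.gr.Walk i j) : ∀ r, w.length ≤ r → j ∈ D.Bs r i := by
  induction w with
  | nil => intro r _; exact D.Bs_self r _
  | cons h p ih =>
    intro r hr
    rw [SimpleGraph.Walk.length_cons] at hr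
    obtain ⟨r', rfl⟩ : ∃ r', r = r' + 1 := ⟨r - 1, by omega⟩
    have h1 := ih r' (by omega)
    rw [Bs]
    simp only [Finset.mem_union]
    rcases D.adj_cases h with rfl | rfl | rfl | rfl
    · left; left; left; right; exact h1
    · left; left; right; exact h1
    · left; right; exact h1
    · right; exact h1

theorem Bs_dist (i j r : ℕ) (h : D.gr.dist i j ≤ r) : j ∈ D.Bs r i := by
  obtain ⟨w, hw⟩ := D.conn.exists_walk_length_eq_dist i j
  exact D.Bs_walk w r (by rw [hw]; exact h)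

end Dat

/-- the space -/
@[ext] structure YY (D : Dat) where
  v : ℕ

noncomputable instance (D : Dat) : MetricSpace (YY D) where
  dist i j := (D.gr.dist i.v j.v : ℝ)
  dist_self i := by
    rw [SimpleGraph.dist_self]; simp
  dist_comm i j := by
    rw [SimpleGraph.dist_comm]
  dist_triangle i j k := by
    exact_mod_cast D.conn.dist_triangle
  eq_of_dist_eq_zero {i j} h := by
    have h2 : D.gr.dist i.v j.v = 0 := by exact_mod_cast h
    exact YY.ext ((D.conn.dist_eq_zero_iff).mp h2)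

theorem YY_dist (D : Dat) (i j : YY D) : dist i j = (D.gr.dist i.v j.v : ℝ) := rfl

theorem YY_ball (D : Dat) (i : YY D) (r : ℝ) : YY.v '' Metric.closedBall i r ⊆ (↑(D.Bs ⌊r⌋₊ i.v) : Set ℕ) := by
  rintro _ ⟨j, hj, rfl⟩
  rw [Metric.mem_closedBall, dist_comm] at hj
  have h : ((D.gr.dist i.v j.v : ℕ) : ℝ) ≤ r := hj
  exact D.Bs_dist i.v j.v _ (Nat.le_floor h)

theorem YY_inj (D : Dat) : Function.Injective (YY.v : YY D → ℕ) := fun _ _ h => YY.ext h

theorem YY_ball' (D : Dat) (i : YY D) (r : ℝ) : (Metric.closedBall i r).Finite ∧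
    (Metric.closedBall i r).ncard ≤ 5^⌊r⌋₊ := by
  have h1 : (↑(D.Bs ⌊r⌋₊ i.v) : Set ℕ).Finite := Finset.finite_toSet _
  refine ⟨Set.Finite.of_finite_image (h1.subset (YY_ball D i r)) (YY_inj D).injOn, ?_⟩
  rw [← Set.ncard_image_of_injective _ (YY_inj D)]
  refine (Set.ncard_le_ncard (YY_ball D i r) h1).trans ?_
  rw [Set.ncard_coe_finset]
  exact D.Bs_card _ _

theorem YY_bg (D : Dat) : BoundedGeometry (YY D) := fun r _ => ⟨5^⌊r⌋₊, fun x => YY_ball' D x r⟩

/-- coarse containment -/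
def CoarselyContains (X Y : Type) [MetricSpace X] [MetricSpace Y] : Prop :=
  ∃ (f : Y → X) (lo up : ℝ → ℝ), MonotoneOn lo (Ici 0) ∧ MonotoneOn up (Ici 0) ∧
    (∀ t, 0 ≤ t → 0 ≤ lo t ∧ 0 ≤ up t) ∧ Tendsto lo atTop atTop ∧
    ∀ y y' : Y, lo (dist y y') ≤ dist (f y) (f y') ∧ dist (f y) (f y') ≤ up (dist y y')

theorem compat_of {X : Type} [MetricSpace X] (D : Dat) (f : YY D → X) (lo up : ℝ → ℝ)
    (hlo : Tendsto lo atTop atTop)
    (hf : ∀ y y' : YY D, lo (dist y y') ≤ dist (f y) (f y') ∧ dist (f y) (f y') ≤ up (dist y y')) :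
    ∃ L F : ℕ, ∀ k, Compat (f ⟨0⟩) L F (D.a k) (D.s k) (D.N k) (D.pi k) := by
  classical
  obtain ⟨L, hL⟩ := exists_nat_ge (up 1)
  obtain ⟨t0, ht0⟩ := (hlo.eventually (eventually_gt_atTop 0)).exists_forall_of_atTop
  refine ⟨L, 5^⌊t0⌋₊, fun k => ?_⟩
  set g : ℕ → X := fun n => f ⟨n⟩ with hg
  have hadj : ∀ i j : ℕ, D.gr.Adj i j → dist (g i) (g j) ≤ L := by
    intro i j hij
    have h1 : D.gr.dist i j = 1 := SimpleGraph.dist_eq_one_iff_adj.mpr hij
    have h2 := (hf ⟨i⟩ ⟨j⟩).2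
    rw [YY_dist, h1, Nat.cast_one] at h2
    exact h2.trans hL
  refine ⟨g, rfl, fun i => hadj i (i+1) (D.adj_succ i), fun j => ?_, fun t => ?_⟩
  · -- fibre bound
    have hsub : insert j ((Finset.range j).filter fun i => g i = g j) ⊆ D.Bs ⌊t0⌋₊ j := by
      intro i hi
      have hfi : f ⟨i⟩ = f ⟨j⟩ := by
        rw [Finset.mem_insert, Finset.mem_filter] at hi
        rcases hi with rfl | hi
        · rfl
        · exact hi.2
      have h1 := (hf ⟨j⟩ ⟨i⟩).1
      rw [hfi, dist_self, YY_dist] at h1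
      refine D.Bs_dist j i _ (Nat.le_floor ?_)
      by_contra hcon
      have := ht0 _ (not_le.mp hcon).le
      linarith
    have h2 := Finset.card_le_card hsub
    rw [Finset.card_insert_of_notMem (by simp)] at h2
    have h3 := D.Bs_card ⌊t0⌋₊ j
    have h4 : rk g j = ((Finset.range j).filter fun i => g i = g j).card := by
      unfold rk
      congr
    rw [h4]
    omega
  · refine hadj _ _ ⟨?_, Or.inr (Or.inr (Or.inl ⟨k, t, rfl, rfl⟩))⟩
    have ht := t.2
    have hs := D.hs k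
    intro h
    have h5 : D.s k * (t : ℕ) = D.s k * (D.N k + D.pi k t) := by omega
    have h6 := Nat.eq_of_mul_eq_mul_left (by omega : 0 < D.s k) h5
    omega

theorem bg_countable {X : Type} [MetricSpace X] (hX : BoundedGeometry X) : Countable X := by
  rcases isEmpty_or_nonempty X with h | ⟨⟨x0⟩⟩
  · infer_instance
  · rw [← Set.countable_univ_iff]
    have : (Set.univ : Set X) = ⋃ n : ℕ, Metric.closedBall x0 ((n:ℝ) + 1) := by
      symm
      rw [Set.eq_univ_iff_forall]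
      intro x
      obtain ⟨n, hn⟩ := exists_nat_ge (dist x x0)
      exact mem_iUnion.mpr ⟨n, by rw [Metric.mem_closedBall]; linarith⟩
    rw [this]
    refine Set.countable_iUnion fun n => ?_
    obtain ⟨N, hN⟩ := hX ((n:ℝ) + 1) (by positivity)
    exact (hN x0).1.countable

theorem exists_dat {X : Type} [MetricSpace X] (hX : BoundedGeometry X) :
    ∃ D : Dat, ¬ CoarselyContains X (YY D) := by
  rcases isEmpty_or_nonempty X with h | hne
  · let a : ℕ → ℕ := fun k => Nat.rec 0 (fun k a => a + 2 * 1 * (k+1)) k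
    refine ⟨⟨a, fun k => k+1, fun _ => 1, fun _ => 1, rfl, fun k => rfl, fun _ => le_rfl, fun _ => rfl⟩, ?_⟩
    rintro ⟨f, -⟩
    exact h.false (f ⟨0⟩)
  · haveI := bg_countable hX
    obtain ⟨σ, hσ⟩ := exists_surjective_nat (X × ℕ × ℕ)
    have hex : ∀ k a : ℕ, ∃ N, 1 ≤ N ∧ ∃ π : Equiv.Perm (Fin N), ¬ Compat (σ k).1 (σ k).2.1 (σ k).2.2 a (k+1) N π :=
      fun k a => exists_block hX _ _ _ _ _ (by omega)
    choose N hN π hπ using hex
    let a : ℕ → ℕ := fun k => Nat.rec 0 (fun k a => a + 2 * N k a * (k+1)) k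
    let D : Dat := ⟨a, fun k => k+1, fun k => N k (a k), fun k => π k (a k), rfl, fun k => rfl,
      fun k => hN k (a k), fun _ => rfl⟩
    refine ⟨D, ?_⟩
    rintro ⟨f, lo, up, -, -, -, hlo, hf⟩
    obtain ⟨L, F, hc⟩ := compat_of D f lo up hlo hf
    obtain ⟨k, hk⟩ := hσ (f ⟨0⟩, L, F)
    have h1 := hπ k (a k)
    rw [hk] at h1
    exact h1 (hc k)

end Pool.Agent.Helper18.CU
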