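import Pool.Agent.Helper18.CU2

set_option autoImplicit false

open Set Filter Topology

namespace Pool.Agent.Helper18.CU

section prob
variable {Y : Type}

/-- nonnegative with sum one -/
def Pr (v : lp (fun _ : Y => ℝ) 1) : Prop := (∀ z, 0 ≤ v z) ∧ HasSum (fun z => v z) 1

theorem Pr.norm {v : lp (fun _ : Y => ℝ) 1} (h : Pr v) : ‖v‖ = 1 := by
  have h1 := lp.norm_eq_tsum_rpow (p := 1) (by simp) v
  simp only [ENNReal.toReal_one, Real.rpow_one, div_one] at h1
  rw [h1]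
  have h2 : (fun i => ‖v i‖) = fun i => v i := by
    funext i; rw [Real.norm_eq_abs, abs_of_nonneg (h.1 i)]
  rw [h2]
  exact h.2.tsum_eq

theorem Pr.comb {v w : lp (fun _ : Y => ℝ) 1} (hv : Pr v) (hw : Pr w) (a b : ℝ) (ha : 0 ≤ a) (hb : 0 ≤ b)
    (hab : a + b = 1) : Pr (a • v + b • w) := by
  refine ⟨fun z => ?_, ?_⟩
  · have : (a • v + b • w : lp (fun _ : Y => ℝ) 1) z = a * v z + b * w z := rfl
    rw [this]
    exact add_nonneg (mul_nonneg ha (hv.1 z)) (mul_nonneg hb (hw.1 z))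
  · have h1 := (hv.2.mul_left a).add (hw.2.mul_left b)
    rw [mul_one, mul_one, hab] at h1
    exact h1

open Classical in
/-- point mass -/
noncomputable def dl (z : Y) : lp (fun _ : Y => ℝ) 1 := lp.single 1 z (1:ℝ)

theorem dl_norm (z : Y) : ‖dl z‖ = 1 := by
  classical
  rw [dl, lp.norm_single (by simp)]; simp

theorem dl_pr (z : Y) : Pr (dl z) := by
  classical
  refine ⟨fun w => ?_, ?_⟩
  · rw [dl, lp.single_apply]
    by_cases h : w = z
    · subst h; simp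
    · rw [Pi.single_eq_of_ne h]
  · have : (fun w => (dl z : lp (fun _ : Y => ℝ) 1) w) = Pi.single z (1:ℝ) := by
      funext w; rw [dl, lp.single_apply]
    rw [this]
    exact hasSum_pi_single z 1

theorem dl_ne (z w : Y) (h : (dl z : lp (fun _ : Y => ℝ) 1) w ≠ 0) : w = z := by
  classical
  by_contra hne
  apply h
  rw [dl, lp.single_apply, Pi.single_eq_of_ne hne]

/-- uniform measure on the first `n` values -/
noncomputable def Un (n : ℕ) (c : ℕ → Y) : lp (fun _ : Y => ℝ) 1 := (1/(n:ℝ)) • ∑ i ∈ Finset.range n, dl (c i)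

theorem Un_apply (n : ℕ) (c : ℕ → Y) (z : Y) :
    (Un n c : lp (fun _ : Y => ℝ) 1) z = (1/(n:ℝ)) * ∑ i ∈ Finset.range n, (dl (c i) : lp (fun _ : Y => ℝ) 1) z := by
  have h1 : (Un n c : lp (fun _ : Y => ℝ) 1) z = (1/(n:ℝ)) * (∑ i ∈ Finset.range n, dl (c i) : lp (fun _ : Y => ℝ) 1) z := rfl
  rw [h1, lp.coeFn_sum, Finset.sum_apply]

theorem Un_pr (n : ℕ) (hn : 0 < n) (c : ℕ → Y) : Pr (Un n c) := by
  refine ⟨fun z => ?_, ?_⟩
  · rw [Un_apply]
    exact mul_nonneg (by positivity) (Finset.sum_nonneg fun i _ => (dl_pr (c i)).1 z)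
  · have h1 : HasSum (fun z => ∑ i ∈ Finset.range n, (dl (c i) : lp (fun _ : Y => ℝ) 1) z) (∑ i ∈ Finset.range n, (1:ℝ)) :=
      hasSum_sum fun i _ => (dl_pr (c i)).2
    have h2 := h1.mul_left (1/(n:ℝ))
    have h3 : (1/(n:ℝ)) * ∑ i ∈ Finset.range n, (1:ℝ) = 1 := by
      rw [Finset.sum_const, Finset.card_range, nsmul_eq_mul, mul_one]
      field_simp
    rw [h3] at h2
    have h4 : (fun z => (Un n c : lp (fun _ : Y => ℝ) 1) z) =
        fun z => (1/(n:ℝ)) * ∑ i ∈ Finset.range n, (dl (c i) : lp (fun _ : Y => ℝ) 1) z := funext (Un_apply n c)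
    rw [h4]
    exact h2

theorem Un_ne (n : ℕ) (c : ℕ → Y) (z : Y) (h : (Un n c : lp (fun _ : Y => ℝ) 1) z ≠ 0) : ∃ i < n, c i = z := by
  by_contra hcon
  push Not at hcon
  apply h
  rw [Un_apply]
  have : ∑ i ∈ Finset.range n, (dl (c i) : lp (fun _ : Y => ℝ) 1) z = 0 := by
    refine Finset.sum_eq_zero fun i hi => ?_
    by_contra h1
    exact hcon i (Finset.mem_range.mp hi) (dl_ne _ _ h1).symm
  rw [this, mul_zero]

theorem shift (n : ℕ) (c c' : ℕ → Y) (h : ∀ i, c' (i+1) = c i) : ‖Un n c - Un n c'‖ ≤ 2/(n:ℝ) := by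
  have h1 : ∑ i ∈ Finset.range n, (dl (c i) : lp (fun _ : Y => ℝ) 1) - ∑ i ∈ Finset.range n, dl (c' i)
      = dl (c' n) - dl (c' 0) := by
    have h2 := Finset.sum_range_succ (fun i => (dl (c' i) : lp (fun _ : Y => ℝ) 1)) n
    have h3 := Finset.sum_range_succ' (fun i => (dl (c' i) : lp (fun _ : Y => ℝ) 1)) n
    simp only [h] at h3
    rw [h2] at h3
    rw [sub_eq_sub_iff_add_eq_add, ← h3, add_comm]
  rw [Un, Un, ← smul_sub, h1, norm_smul]
  have h4 : ‖(dl (c' n) : lp (fun _ : Y => ℝ) 1) - dl (c' 0)‖ ≤ 2 := by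
    refine (norm_sub_le _ _).trans ?_
    rw [dl_norm, dl_norm]; norm_num
  rw [Real.norm_eq_abs, abs_of_nonneg (by positivity)]
  calc 1/(n:ℝ) * _ ≤ 1/(n:ℝ) * 2 := mul_le_mul_of_nonneg_left h4 (by positivity)
    _ = 2/(n:ℝ) := by ring

theorem mix (v1 v2 w1 w2 : lp (fun _ : Y => ℝ) 1) (a b δ η : ℝ) (ha : 0 ≤ a) (ha1 : a ≤ 1)
    (hv : ‖v1 - v2‖ ≤ δ) (hw : ‖w1 - w2‖ ≤ δ) (hv2 : ‖v2‖ = 1) (hw2 : ‖w2‖ = 1) (hab : |a - b| ≤ η) :
    ‖((1 - a) • v1 + a • w1) - ((1 - b) • v2 + b • w2)‖ ≤ δ + 2 * η := by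
  have h1 : ((1 - a) • v1 + a • w1) - ((1 - b) • v2 + b • w2) =
      (1 - a) • (v1 - v2) + a • (w1 - w2) + (b - a) • v2 + (a - b) • w2 := by module
  rw [h1]
  have e1 : ‖(1 - a) • (v1 - v2)‖ ≤ (1 - a) * δ := by
    rw [norm_smul, Real.norm_eq_abs, abs_of_nonneg (by linarith)]
    exact mul_le_mul_of_nonneg_left hv (by linarith)
  have e2 : ‖a • (w1 - w2)‖ ≤ a * δ := by
    rw [norm_smul, Real.norm_eq_abs, abs_of_nonneg ha]
    exact mul_le_mul_of_nonneg_left hw ha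
  have e3 : ‖(b - a) • v2‖ ≤ η := by
    rw [norm_smul, hv2, mul_one, Real.norm_eq_abs, abs_sub_comm]; exact hab
  have e4 : ‖(a - b) • w2‖ ≤ η := by
    rw [norm_smul, hw2, mul_one, Real.norm_eq_abs]; exact hab
  have f1 := norm_add_le ((1 - a) • (v1 - v2) + a • (w1 - w2) + (b - a) • v2) ((a - b) • w2)
  have f2 := norm_add_le ((1 - a) • (v1 - v2) + a • (w1 - w2)) ((b - a) • v2)
  have f3 := norm_add_le ((1 - a) • (v1 - v2)) (a • (w1 - w2))
  nlinarith

end prob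

section geo
variable (D : Dat) (h n : ℕ)

theorem Dat.spacing {k k' u u' k0 : ℕ} (hu : u < 2 * D.N k) (hu' : u' < 2 * D.N k') (hk : k0 ≤ k)
    (hlt : D.a k + D.s k * u < D.a k' + D.s k' * u') : D.a k + D.s k * u + k0 < D.a k' + D.s k' * u' := by
  have hs := D.hs k
  rcases lt_trichotomy k k' with hkk | hkk | hkk
  · have h1 : D.a (k+1) ≤ D.a k' := D.a_mono.monotone hkk
    have h2 : D.s k * (u + 1) ≤ D.s k * (2 * D.N k) := Nat.mul_le_mul_left _ hu
    have h3 : D.s k * (u + 1) = D.s k * u + D.s k := by ring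
    have h4 : D.s k * (2 * D.N k) = 2 * D.N k * D.s k := by ring
    have h5 := D.asucc k
    omega
  · subst hkk
    have h1 : D.s k * u < D.s k * u' := by omega
    have h2 : u < u' := Nat.lt_of_mul_lt_mul_left h1
    have h3 : D.s k * (u + 1) ≤ D.s k * u' := Nat.mul_le_mul_left _ h2
    have h4 : D.s k * (u + 1) = D.s k * u + D.s k := by ring
    omega
  · have h1 : D.a (k'+1) ≤ D.a k := D.a_mono.monotone hkk
    have h2 := (D.in_block hu').2
    omega

/-- left junctions in late blocks -/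
def LJ (p q : ℕ) : Prop := ∃ k, 2 * h + 2 ≤ k ∧ ∃ t : Fin (D.N k), p = D.a k + D.s k * t ∧
  q = D.a k + D.s k * (D.N k + D.pi k t)

theorem LJ_Mt {p q : ℕ} (hl : LJ D h p q) : D.Mt p q := by
  obtain ⟨k, -, t, h1, h2⟩ := hl
  exact ⟨k, t, h1, h2⟩

theorem LJ_sp {p q p' q' : ℕ} (hl : LJ D h p q) (hl' : LJ D h p' q') (hlt : p < p') : p + 2 * h + 2 < p' := by
  obtain ⟨k, hk, t, h1, h2⟩ := hl
  obtain ⟨k', hk', t', h3, h4⟩ := hl'
  have ht := t.2
  have ht' := t'.2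
  have := D.spacing (k := k) (k' := k') (k0 := 2 * h + 2) (u := t) (u' := t') (by omega) (by omega) hk (by omega)
  omega

theorem LJ_sp2 {p q p' q' : ℕ} (hl : LJ D h p q) (hl' : LJ D h p' q') : q + 2 * h + 2 < p' ∨ p' + 2 * h + 2 < q := by
  obtain ⟨k, hk, t, h1, h2⟩ := hl
  obtain ⟨k', hk', t', h3, h4⟩ := hl'
  have ht := (D.pi k t).2
  have ht' := t'.2
  rcases lt_trichotomy q p' with hlt | heq | hlt
  · left
    have := D.spacing (k := k) (k' := k') (k0 := 2 * h + 2) (u := D.N k + D.pi k t) (u' := t') (by omega) (by omega) hk (by omega)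
    omega
  · exfalso
    have b1 := D.in_block (k := k) (x := D.N k + D.pi k t) (by omega)
    have b2 := D.in_block (k := k') (x := t') (by omega)
    rw [← h2] at b1
    rw [← h3, ← heq] at b2
    have hkk := D.block_unique b1.1 b1.2 b2.1 b2.2
    subst hkk
    have hs := D.hs k
    have h5 : D.s k * (D.N k + D.pi k t) = D.s k * t' := by omega
    have h6 := Nat.eq_of_mul_eq_mul_left (by omega : 0 < D.s k) h5
    omega
  · right
    have := D.spacing (k := k') (k' := k) (k0 := 2 * h + 2) (u := t') (u' := D.N k + D.pi k t) (by omega) (by omega) hk' (by omega)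
    omega

/-- forward ray -/
def Fq (x : ℕ) : ℕ → YY D := fun i => ⟨x + i⟩
/-- ray through the junction -/
def Bq (p q x : ℕ) : ℕ → YY D := fun i =>
  ⟨if p ≤ x then (if i ≤ x - p then x - i else q + (i - (x - p) - 1))
    else (if i ≤ p - x then x + i else q + (i - (p - x) - 1))⟩

theorem Bq_right {p q x : ℕ} (hx : p ≤ x) (i : ℕ) : Bq D p q (x+1) (i+1) = Bq D p q x i := by
  apply YY.ext
  simp only [Bq]
  split_ifs <;> omega

theorem Bq_left {p q x : ℕ} (hx : x + 1 ≤ p) (i : ℕ) : Bq D p q x (i+1) = Bq D p q (x+1) i := by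
  apply YY.ext
  simp only [Bq]
  split_ifs <;> omega

theorem Bq_mid (p q i : ℕ) : Bq D p q p (i+1) = Fq D q i := by
  apply YY.ext
  simp only [Bq, Fq]
  split_ifs <;> omega

/-- tent -/
noncomputable def tent (p x : ℕ) : ℝ := max 0 (1 - |(x:ℝ) - p| / h)

theorem tent_nonneg (p x : ℕ) : 0 ≤ tent h p x := le_max_left _ _
theorem tent_le (p x : ℕ) : tent h p x ≤ 1 := max_le zero_le_one (by
  have : 0 ≤ |(x:ℝ) - p| / h := by positivity
  linarith)

theorem tent_lip (p x : ℕ) : |tent h p x - tent h p (x+1)| ≤ 1/(h:ℝ) := by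
  have h1 : |tent h p x - tent h p (x+1)| ≤ |(1 - |(x:ℝ) - p| / h) - (1 - |((x+1 : ℕ):ℝ) - p| / h)| := by
    simp only [tent]
    have := abs_max_sub_max_le_abs (1 - |(x:ℝ) - p| / h) (1 - |((x+1 : ℕ):ℝ) - p| / h) 0
    rw [max_comm 0, max_comm 0]
    exact this
  refine h1.trans ?_
  have h2 : (1 - |(x:ℝ) - p| / h) - (1 - |((x+1 : ℕ):ℝ) - p| / h) = (|((x+1 : ℕ):ℝ) - p| - |(x:ℝ) - p|) / h := by ring
  rw [h2, abs_div, abs_of_nonneg (Nat.cast_nonneg h : (0:ℝ) ≤ h)]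
  have h3 : |(|((x+1 : ℕ):ℝ) - p| - |(x:ℝ) - p|)| ≤ 1 := by
    refine (abs_abs_sub_abs_le_abs_sub _ _).trans ?_
    push_cast
    have : (x:ℝ) + 1 - p - (x - p) = 1 := by ring
    rw [this]; norm_num
  gcongr

/-- mixed vector -/
noncomputable def Xi (p q x : ℕ) : lp (fun _ : YY D => ℝ) 1 :=
  (1 - tent h p x) • Un n (Fq D x) + tent h p x • Un n (Bq D p q x)

theorem F_adj (x : ℕ) : ‖Un n (Fq D x) - Un n (Fq D (x+1))‖ ≤ 2/(n:ℝ) := by
  rw [norm_sub_rev]
  exact shift n _ _ fun i => YY.ext (by simp only [Fq]; omega)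

theorem B_adj (p q x : ℕ) : ‖Un n (Bq D p q x) - Un n (Bq D p q (x+1))‖ ≤ 2/(n:ℝ) := by
  by_cases hx : p ≤ x
  · exact shift n _ _ fun i => Bq_right D hx i
  · rw [norm_sub_rev]
    exact shift n _ _ fun i => Bq_left D (by omega) i

variable (hn : 0 < n)
include hn

theorem Xi_adj (p q x : ℕ) : ‖Xi D h n p q x - Xi D h n p q (x+1)‖ ≤ 2/(n:ℝ) + 2 * (1/(h:ℝ)) :=
  mix _ _ _ _ _ _ _ _ (tent_nonneg h p x) (tent_le h p x) (F_adj D n x) (B_adj D n p q x)
    (Un_pr n hn _).norm (Un_pr n hn _).norm (tent_lip h p x)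

theorem Xi_pr (p q x : ℕ) : Pr (Xi D h n p q x) :=
  (Un_pr n hn _).comb (Un_pr n hn _) _ _ (by linarith [tent_le h p x]) (tent_nonneg h p x) (by ring)

omit hn

open Classical in
/-- final vectors -/
noncomputable def Zv (x : ℕ) : lp (fun _ : YY D => ℝ) 1 :=
  if H : ∃ pq : ℕ × ℕ, LJ D h pq.1 pq.2 ∧ x < pq.1 + h ∧ pq.1 < x + h then Xi D h n H.choose.1 H.choose.2 x
  else Un n (Fq D x)

theorem Zv_eq (hh : 0 < h) {x p q : ℕ} (hl : LJ D h p q) (h1 : x ≤ p + h) (h2 : p ≤ x + h) :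
    Zv D h n x = Xi D h n p q x := by
  by_cases H : ∃ pq : ℕ × ℕ, LJ D h pq.1 pq.2 ∧ x < pq.1 + h ∧ pq.1 < x + h
  · rw [Zv, dif_pos H]
    have hs := H.choose_spec
    set p1 := H.choose.1
    set q1 := H.choose.2
    have hp : p1 = p := by
      rcases lt_trichotomy p1 p with hlt | heq | hlt
      · have := LJ_sp D h hs.1 hl hlt; omega
      · exact heq
      · have := LJ_sp D h hl hs.1 hlt; omega
    have hq : q1 = q := by
      have m1 := LJ_Mt D h hs.1
      rw [hp] at m1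
      exact D.Mt_right m1 (LJ_Mt D h hl)
    rw [hp, hq]
  · rw [Zv, dif_neg H]
    have hnn : ¬ (x < p + h ∧ p < x + h) := fun hc => H ⟨(p, q), hl, hc⟩
    have hcase : x = p + h ∨ p = x + h := by omega
    have ht : tent h p x = 0 := by
      have hh' : (h:ℝ) ≠ 0 := by positivity
      have habs : |(x:ℝ) - p| = h := by
        rcases hcase with rfl | rfl
        · push_cast; rw [add_sub_cancel_left, abs_of_nonneg (Nat.cast_nonneg h)]
        · push_cast
          have : (x:ℝ) - (x + h) = -h := by ring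
          rw [this, abs_neg, abs_of_nonneg (Nat.cast_nonneg h)]
      rw [tent, habs, div_self hh', sub_self, max_self]
    rw [Xi, ht, sub_zero, one_smul, zero_smul, add_zero]

theorem Zv_adj (hh : 0 < h) (hn : 0 < n) (x : ℕ) : ‖Zv D h n x - Zv D h n (x+1)‖ ≤ 2/(n:ℝ) + 2 * (1/(h:ℝ)) := by
  by_cases H : ∃ pq : ℕ × ℕ, LJ D h pq.1 pq.2 ∧ x < pq.1 + h ∧ pq.1 < x + h
  · obtain ⟨⟨p, q⟩, hl, h1, h2⟩ := H
    simp only at hl h1 h2
    rw [Zv_eq D h n hh hl (by omega) (by omega), Zv_eq D h n hh hl (by omega) (by omega)]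
    exact Xi_adj D h n hn p q x
  · by_cases H' : ∃ pq : ℕ × ℕ, LJ D h pq.1 pq.2 ∧ x + 1 < pq.1 + h ∧ pq.1 < x + 1 + h
    · obtain ⟨⟨p, q⟩, hl, h1, h2⟩ := H'
      simp only at hl h1 h2
      rw [Zv_eq D h n hh hl (by omega) (by omega), Zv_eq D h n hh hl (by omega) (by omega)]
      exact Xi_adj D h n hn p q x
    · rw [Zv, dif_neg H, Zv, dif_neg H']
      have := F_adj D n x
      have h3 : 0 ≤ 2 * (1/(h:ℝ)) := by positivity
      linarith

theorem Zv_match (hh : 0 < h) {p q : ℕ} (hl : LJ D h p q) : ‖Zv D h n p - Zv D h n q‖ ≤ 2/(n:ℝ) := by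
  have h1 : Zv D h n p = Un n (Bq D p q p) := by
    rw [Zv_eq D h n hh hl (by omega) (by omega)]
    have ht : tent h p p = 1 := by simp [tent]
    rw [Xi, ht, sub_self, zero_smul, zero_add, one_smul]
  have h2 : Zv D h n q = Un n (Fq D q) := by
    have H : ¬ ∃ pq : ℕ × ℕ, LJ D h pq.1 pq.2 ∧ q < pq.1 + h ∧ pq.1 < q + h := by
      rintro ⟨⟨p', q'⟩, hl', h3, h4⟩
      simp only at hl' h3 h4
      rcases LJ_sp2 D h hl hl' with h5 | h5 <;> omega
    rw [Zv, dif_neg H]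
  rw [h1, h2, norm_sub_rev]
  exact shift n _ _ fun i => Bq_mid D p q i

theorem Zv_pr (hn : 0 < n) (x : ℕ) : Pr (Zv D h n x) := by
  rw [Zv]
  split_ifs with H
  · exact Xi_pr D h n hn _ _ _
  · exact Un_pr n hn _

theorem pdist (i j : ℕ) : dist (⟨i⟩ : YY D) ⟨i + j⟩ ≤ j := by
  induction j with
  | zero => simp
  | succ j ih =>
    have h1 : dist (⟨i + j⟩ : YY D) ⟨i + (j + 1)⟩ = 1 := by
      rw [YY_dist]
      have : D.gr.dist (i + j) (i + (j + 1)) = 1 := SimpleGraph.dist_eq_one_iff_adj.mpr (D.adj_succ (i + j))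
      simp only
      rw [this]; simp
    have := dist_triangle (⟨i⟩ : YY D) ⟨i + j⟩ ⟨i + (j + 1)⟩
    push_cast
    linarith

theorem Zv_supp (x : ℕ) (z : YY D) (hz : Zv D h n x z ≠ 0) : dist (⟨x⟩ : YY D) z ≤ 2 * n + 1 := by
  have hF : (Un n (Fq D x) : lp (fun _ : YY D => ℝ) 1) z ≠ 0 → dist (⟨x⟩ : YY D) z ≤ 2 * n + 1 := by
    intro h1
    obtain ⟨i, hi, rfl⟩ := Un_ne n _ z h1
    have h2 := pdist D x i
    have h3 : (i:ℝ) < n := by exact_mod_cast hi
    have h4 : (0:ℝ) ≤ n := Nat.cast_nonneg n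
    simp only [Fq]
    linarith
  rw [Zv] at hz
  split_ifs at hz with H
  · have hs := H.choose_spec
    set p := H.choose.1
    set q := H.choose.2
    have h0 : (Xi D h n p q x) z = (1 - tent h p x) * (Un n (Fq D x) : lp (fun _ : YY D => ℝ) 1) z +
        tent h p x * (Un n (Bq D p q x) : lp (fun _ : YY D => ℝ) 1) z := rfl
    rw [h0] at hz
    by_cases h1 : (Un n (Fq D x) : lp (fun _ : YY D => ℝ) 1) z = 0
    · have h2 : (Un n (Bq D p q x) : lp (fun _ : YY D => ℝ) 1) z ≠ 0 := by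
        intro h3; apply hz; rw [h1, h3]; ring
      obtain ⟨i, hi, hiz⟩ := Un_ne n _ z h2
      have hadj : dist (⟨p⟩ : YY D) ⟨q⟩ ≤ 1 := by
        have hne : p ≠ q := by
          obtain ⟨k, hk, t, e1, e2⟩ := hs.1
          have hs' := D.hs k
          intro heq
          have h5 : D.s k * (t : ℕ) = D.s k * (D.N k + D.pi k t) := by omega
          have h6 := Nat.eq_of_mul_eq_mul_left (by omega : 0 < D.s k) h5
          have := t.2
          omega
        have : D.gr.dist p q = 1 := SimpleGraph.dist_eq_one_iff_adj.mpr ⟨hne, Or.inr (Or.inr (Or.inl (LJ_Mt D h hs.1)))⟩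
        rw [YY_dist]
        simp only
        rw [this]; simp
      have hin : (i:ℝ) < n := by exact_mod_cast hi
      have hn0 : (0:ℝ) ≤ n := Nat.cast_nonneg n
      rw [← hiz]
      simp only [Bq]
      by_cases hpx : p ≤ x
      · rw [if_pos hpx]
        by_cases hix : i ≤ x - p
        · rw [if_pos hix]
          have h7 := pdist D (x - i) i
          rw [Nat.sub_add_cancel (by omega), dist_comm] at h7
          linarith
        · rw [if_neg hix]
          have h7 := pdist D p (x - p)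
          rw [Nat.add_sub_cancel' hpx, dist_comm] at h7
          have h8 := pdist D q (i - (x - p) - 1)
          have h9 : ((x - p : ℕ) : ℝ) ≤ n := by exact_mod_cast (by omega : x - p ≤ n)
          have h10 : ((i - (x - p) - 1 : ℕ) : ℝ) ≤ n := by exact_mod_cast (by omega : i - (x - p) - 1 ≤ n)
          have t1 := dist_triangle (⟨x⟩ : YY D) ⟨p⟩ ⟨q + (i - (x - p) - 1)⟩
          have t2 := dist_triangle (⟨p⟩ : YY D) ⟨q⟩ ⟨q + (i - (x - p) - 1)⟩
          linarith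
      · rw [if_neg hpx]
        by_cases hix : i ≤ p - x
        · rw [if_pos hix]
          have h7 := pdist D x i
          linarith
        · rw [if_neg hix]
          have h7 := pdist D x (p - x)
          rw [Nat.add_sub_cancel' (by omega)] at h7
          have h8 := pdist D q (i - (p - x) - 1)
          have h9 : ((p - x : ℕ) : ℝ) ≤ n := by exact_mod_cast (by omega : p - x ≤ n)
          have h10 : ((i - (p - x) - 1 : ℕ) : ℝ) ≤ n := by exact_mod_cast (by omega : i - (p - x) - 1 ≤ n)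
          have t1 := dist_triangle (⟨x⟩ : YY D) ⟨p⟩ ⟨q + (i - (p - x) - 1)⟩
          have t2 := dist_triangle (⟨p⟩ : YY D) ⟨q⟩ ⟨q + (i - (p - x) - 1)⟩
          linarith
    · exact hF h1
  · exact hF hz

/-- the Property A map -/
noncomputable def xi (x : YY D) : lp (fun _ : YY D => ℝ) 1 := Zv D h n (max x.v (D.a (2 * h + 2)))

theorem xi_adj (hh : 0 < h) (hn : 0 < n) {i j : ℕ} (hij : D.gr.Adj i j) :
    ‖xi D h n ⟨i⟩ - xi D h n ⟨j⟩‖ ≤ 2/(n:ℝ) + 2 * (1/(h:ℝ)) := by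
  have hnn : 0 ≤ 2/(n:ℝ) + 2 * (1/(h:ℝ)) := by positivity
  have hsucc : ∀ i, ‖xi D h n ⟨i⟩ - xi D h n ⟨i+1⟩‖ ≤ 2/(n:ℝ) + 2 * (1/(h:ℝ)) := by
    intro i
    simp only [xi]
    rcases le_or_gt (D.a (2 * h + 2)) i with hle | hlt
    · rw [max_eq_left hle, max_eq_left (by omega)]
      exact Zv_adj D h n hh hn i
    · rw [max_eq_right hlt.le, max_eq_right (by omega), sub_self, norm_zero]
      exact hnn
  have hmt : ∀ i j, D.Mt i j → ‖xi D h n ⟨i⟩ - xi D h n ⟨j⟩‖ ≤ 2/(n:ℝ) + 2 * (1/(h:ℝ)) := by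
    rintro i j ⟨k, t, h1, h2⟩
    have ht := t.2
    have ht' := (D.pi k t).2
    have b1 := D.in_block (k := k) (x := t) (by omega)
    have b2 := D.in_block (k := k) (x := D.N k + D.pi k t) (by omega)
    rw [← h1] at b1
    rw [← h2] at b2
    simp only [xi]
    rcases le_or_gt (2 * h + 2) k with hle | hlt
    · have h3 : D.a (2 * h + 2) ≤ D.a k := D.a_mono.monotone hle
      rw [max_eq_left (by omega), max_eq_left (by omega)]
      have := Zv_match D h n hh ⟨k, hle, t, h1, h2⟩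
      have h4 : 0 ≤ 2 * (1/(h:ℝ)) := by positivity
      linarith
    · have h3 : D.a (k + 1) ≤ D.a (2 * h + 2) := D.a_mono.monotone hlt
      rw [max_eq_right (by omega), max_eq_right (by omega), sub_self, norm_zero]
      exact hnn
  rcases hij.2 with h1 | h1 | h1 | h1
  · subst h1; exact hsucc i
  · subst h1; rw [norm_sub_rev]; exact hsucc j
  · exact hmt i j h1
  · rw [norm_sub_rev]; exact hmt j i h1

theorem xi_walk (hh : 0 < h) (hn : 0 < n) {i j : ℕ} (w : D.gr.Walk i j) :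
    ‖xi D h n ⟨i⟩ - xi D h n ⟨j⟩‖ ≤ w.length * (2/(n:ℝ) + 2 * (1/(h:ℝ))) := by
  induction w with
  | nil => simp
  | @cons a b c hab p ih =>
    have h1 := xi_adj D h n hh hn hab
    rw [SimpleGraph.Walk.length_cons]
    have h2 : xi D h n ⟨a⟩ - xi D h n ⟨c⟩ = (xi D h n ⟨a⟩ - xi D h n ⟨b⟩) + (xi D h n ⟨b⟩ - xi D h n ⟨c⟩) := by abel
    rw [h2]
    have h3 := norm_add_le (xi D h n ⟨a⟩ - xi D h n ⟨b⟩) (xi D h n ⟨b⟩ - xi D h n ⟨c⟩)
    push_cast
    linarith

end geo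

/-- Property A (Yu) -/
def PropertyA (X : Type) [MetricSpace X] : Prop :=
  ∀ R ε : ℝ, 0 < R → 0 < ε → ∃ S : ℝ, 0 < S ∧ ∃ ξ : X → lp (fun _ : X => ℝ) 1,
    (∀ x, ‖ξ x‖ = 1) ∧ (∀ x z, ξ x z ≠ 0 → dist x z ≤ S) ∧ ∀ x y, dist x y ≤ R → ‖ξ x - ξ y‖ ≤ ε

theorem YY_A (D : Dat) : PropertyA (YY D) := by
  intro R ε hR hε
  obtain ⟨N, hN⟩ := exists_nat_gt (4 * R / ε)
  have hN0 : 0 < N := by
    have h1 : (0:ℝ) < N := lt_trans (by positivity) hN
    exact_mod_cast h1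
  have hNr : (0:ℝ) < N := by exact_mod_cast hN0
  have hsmall : R * (2/(N:ℝ) + 2 * (1/(N:ℝ))) ≤ ε := by
    have h1 : R * (2/(N:ℝ) + 2 * (1/(N:ℝ))) = 4 * R / N := by ring
    rw [h1, div_le_iff₀ hNr]
    rw [div_lt_iff₀ hε] at hN
    linarith
  refine ⟨D.a (2 * N + 2) + 2 * N + 1, by positivity, xi D N N, ?_, ?_, ?_⟩
  · intro x
    exact (Zv_pr D N N hN0 _).norm
  · intro x z hz
    have h1 := Zv_supp D N N _ z hz
    have h2 : dist x (⟨max x.v (D.a (2 * N + 2))⟩ : YY D) ≤ D.a (2 * N + 2) := by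
      rcases le_total (D.a (2 * N + 2)) x.v with hle | hle
      · rw [max_eq_left hle]
        have : x = ⟨x.v⟩ := rfl
        rw [← this, dist_self]; positivity
      · rw [max_eq_right hle]
        have h3 := pdist D x.v (D.a (2 * N + 2) - x.v)
        rw [Nat.add_sub_cancel' hle] at h3
        have h4 : ((D.a (2 * N + 2) - x.v : ℕ) : ℝ) ≤ D.a (2 * N + 2) := by exact_mod_cast Nat.sub_le _ _
        exact h3.trans h4
    have := dist_triangle x (⟨max x.v (D.a (2 * N + 2))⟩ : YY D) z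
    linarith
  · intro x y hxy
    obtain ⟨w, hw⟩ := D.conn.exists_walk_length_eq_dist x.v y.v
    have h1 := xi_walk D N N hN0 hN0 w
    rw [hw] at h1
    have h2 : ((D.gr.dist x.v y.v : ℕ) : ℝ) ≤ R := hxy
    have h3 : 0 ≤ (2/(N:ℝ) + 2 * (1/(N:ℝ))) := by positivity
    have h4 := mul_le_mul_of_nonneg_right h2 h3
    exact h1.trans (h4.trans hsmall)

end Pool.Agent.Helper18.CU
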