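import Mathlib

set_option autoImplicit false

namespace Pool.Agent.Helper18.Conf

open Set Topology

/-! ### Confluence and separation -/

/-- separation form of confluence over one set `K` -/
def HQ {X Y : Type} [TopologicalSpace X] (f : X → Y) (K : Set Y) : Prop :=
  ∀ U U' : Set X, IsOpen U → IsOpen U' → Disjoint U U' → f ⁻¹' K ⊆ U ∪ U' →
    (∃ x ∈ U, f x ∈ K) → K ⊆ f '' U

theorem conf_of_HQ {X Y : Type} [TopologicalSpace X] [TopologicalSpace Y] [CompactSpace X]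
    [T2Space X] [T1Space Y] (f : X → Y) (hf : Continuous f) (K : Set Y) (hK : IsClosed K)
    (HQK : HQ f K) (x : X) (hx : f x ∈ K) : f '' connectedComponentIn (f ⁻¹' K) x = K := by
  apply Subset.antisymm
  · rintro _ ⟨z, hz, rfl⟩
    exact connectedComponentIn_subset (f ⁻¹' K) x hz
  · intro y hy
    by_contra hno
    have hxE : x ∈ f ⁻¹' K := hx
    rw [connectedComponentIn_eq_image hxE] at hno
    have hcE : IsClosed (f ⁻¹' K) := hK.preimage hf
    have : CompactSpace ↥(f ⁻¹' K) := isCompact_iff_compactSpace.1 hcE.isCompact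
    -- the fibre of y
    let T : Set ↥(f ⁻¹' K) := {z | f z = y}
    have hT : IsCompact T := by
      apply IsClosed.isCompact
      exact isClosed_singleton.preimage (hf.comp continuous_subtype_val)
    have hcov : T ⊆ ⋃ s : {s : Set ↥(f ⁻¹' K) // IsClopen s ∧ (⟨x, hxE⟩ : ↥(f ⁻¹' K)) ∈ s},
        (s.1)ᶜ := by
      intro z hz
      by_contra hz2
      apply hno
      refine ⟨z, ⟨z, ?_, rfl⟩, hz⟩
      rw [connectedComponent_eq_iInter_isClopen]
      rw [mem_iInter]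
      intro s
      by_contra hs
      apply hz2
      rw [mem_iUnion]
      exact ⟨s, hs⟩
    have hdir : Directed (· ⊆ ·) (fun s : {s : Set ↥(f ⁻¹' K) // IsClopen s ∧
        (⟨x, hxE⟩ : ↥(f ⁻¹' K)) ∈ s} => (s.1)ᶜ) := by
      intro s t
      refine ⟨⟨s.1 ∩ t.1, s.2.1.inter t.2.1, s.2.2, t.2.2⟩, ?_, ?_⟩
      · exact compl_subset_compl.2 inter_subset_left
      · exact compl_subset_compl.2 inter_subset_right
    have : Nonempty {s : Set ↥(f ⁻¹' K) // IsClopen s ∧ (⟨x, hxE⟩ : ↥(f ⁻¹' K)) ∈ s} :=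
      ⟨⟨univ, isClopen_univ, mem_univ _⟩⟩
    obtain ⟨⟨s, hs1, hs2⟩, hs3⟩ := hT.elim_directed_cover _ (fun s => s.2.1.compl.isOpen) hcov hdir
    have hA : IsCompact (Subtype.val '' s) := (hs1.isClosed.isCompact).image continuous_subtype_val
    have hB : IsCompact (Subtype.val '' sᶜ) :=
      (hs1.compl.isClosed.isCompact).image continuous_subtype_val
    have hAB : Disjoint (Subtype.val '' s) (Subtype.val '' sᶜ) := by
      rw [Set.disjoint_left]
      rintro _ ⟨a, ha, rfl⟩ ⟨b, hb, hab⟩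
      rw [Subtype.ext hab] at hb
      exact hb ha
    obtain ⟨U, U', hU, hU', hAU, hBU, hd⟩ := SeparatedNhds.of_isCompact_isCompact hA hB hAB
    have h1 : f ⁻¹' K ⊆ U ∪ U' := by
      intro z hz
      by_cases hzs : (⟨z, hz⟩ : ↥(f ⁻¹' K)) ∈ s
      · left; exact hAU ⟨_, hzs, rfl⟩
      · right; exact hBU ⟨_, hzs, rfl⟩
    obtain ⟨z, hzU, hzy⟩ := HQK U U' hU hU' hd h1 ⟨x, hAU ⟨_, hs2, rfl⟩, hx⟩ hy
    have hzE : z ∈ f ⁻¹' K := by
      show f z ∈ K
      rw [hzy]; exact hy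
    by_cases hzs : (⟨z, hzE⟩ : ↥(f ⁻¹' K)) ∈ s
    · exact hs3 (show (⟨z, hzE⟩ : ↥(f ⁻¹' K)) ∈ T from hzy) hzs
    · exact Set.disjoint_left.1 hd hzU (hBU ⟨_, hzs, rfl⟩)

theorem HQ_of_conf {X Y : Type} [TopologicalSpace X] (f : X → Y) (K : Set Y)
    (h : ∀ x, f x ∈ K → f '' connectedComponentIn (f ⁻¹' K) x = K) : HQ f K := by
  intro U U' hU hU' hd hcov ⟨x, hxU, hx⟩
  have hsub : connectedComponentIn (f ⁻¹' K) x ⊆ U := by
    apply IsPreconnected.subset_left_of_subset_union hU hU' hd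
    · exact (connectedComponentIn_subset _ _).trans hcov
    · exact ⟨x, mem_connectedComponentIn hx, hxU⟩
    · exact isPreconnected_connectedComponentIn
  calc K = f '' connectedComponentIn (f ⁻¹' K) x := (h x hx).symm
    _ ⊆ f '' U := image_mono hsub

/-- open maps of compact spaces have property `HQ` over preconnected sets -/
theorem HQ_of_open {X Y : Type} [TopologicalSpace X] [TopologicalSpace Y] [CompactSpace X]
    [T2Space Y] (f : X → Y) (hf : Continuous f) (ho : IsOpenMap f) (K : Set Y)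
    (hK : IsPreconnected K) : HQ f K := by
  intro U U' hU hU' hd hcov ⟨x, hxU, hx⟩
  have hV1 : IsOpen (f '' U) := ho U hU
  have hV2 : IsOpen (f '' U'ᶜ)ᶜ := by
    rw [isOpen_compl_iff]
    exact ((hU'.isClosed_compl.isCompact).image hf).isClosed
  have hsub : K ⊆ f '' U ∪ (f '' U'ᶜ)ᶜ := by
    intro y hy
    by_cases h : y ∈ (f '' U'ᶜ)ᶜ
    · right; exact h
    · left
      rw [mem_compl_iff, not_not] at h
      obtain ⟨z, hz, rfl⟩ := h
      rcases hcov hy with h1 | h1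
      · exact ⟨z, h1, rfl⟩
      · exact absurd h1 hz
  intro y hy
  rcases hsub hy with h | h
  · exact h
  · exfalso
    obtain ⟨w, -, hw1, hw2⟩ := hK _ _ hV1 hV2 hsub ⟨f x, hx, x, hxU, rfl⟩ ⟨y, hy, h⟩
    obtain ⟨z, hz, rfl⟩ := hw1
    exact hw2 ⟨z, fun h' => Set.disjoint_left.1 hd hz h', rfl⟩

/-! ### Inverse limits of arcs -/

abbrev I := unitInterval

abbrev Lim (g : ℕ → I → I) : Type := {x : ℕ → I // ∀ k, x k = g k (x (k + 1))}

theorem open_surj (g : I → I) (hc : Continuous g) (ho : IsOpenMap g) : Function.Surjective g := by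
  have h1 : IsClopen (range g) := ⟨(isCompact_range hc).isClosed, ho.isOpen_range⟩
  rcases isClopen_iff.1 h1 with h | h
  · exact absurd h (range_nonempty g).ne_empty
  · exact range_eq_univ.1 h

theorem compact_lim (g : ℕ → I → I) (hg : ∀ k, Continuous (g k)) : CompactSpace (Lim g) := by
  have hcl : IsClosed {x : ℕ → I | ∀ k, x k = g k (x (k + 1))} := by
    rw [Set.ofPred_forall]
    refine isClosed_iInter fun k => ?_
    exact isClosed_eq (continuous_apply k) ((hg k).comp (continuous_apply (k + 1)))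
  exact hcl.isClosedEmbedding_subtypeVal.compactSpace

theorem surj_aux (i : ℕ) : ∀ (g : ℕ → I → I), (∀ k, Function.Surjective (g k)) → ∀ t : I,
    ∃ x : ℕ → I, (∀ k, x k = g k (x (k + 1))) ∧ x i = t := by
  induction i with
  | zero =>
    intro g hg t
    choose s hs using hg
    let x : ℕ → I := fun n => Nat.rec t (fun n y => s n y) n
    refine ⟨x, ?_, rfl⟩
    intro k
    show x k = g k (s k (x k))
    exact (hs k (x k)).symm
  | succ i ih =>
    intro g hg t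
    obtain ⟨y, hy1, hy2⟩ := ih (fun k => g (k + 1)) (fun k => hg (k + 1)) t
    refine ⟨fun n => Nat.casesOn n (g 0 (y 0)) y, ?_, hy2⟩
    intro k
    cases k with
    | zero => rfl
    | succ k => exact hy1 k

theorem proj_surj (g : ℕ → I → I) (hg : ∀ k, Continuous (g k) ∧ IsOpenMap (g k)) (i : ℕ) (t : I) :
    ∃ x : Lim g, x.1 i = t := by
  obtain ⟨x, hx1, hx2⟩ := surj_aux i g (fun k => open_surj _ (hg k).1 (hg k).2) t
  exact ⟨⟨x, hx1⟩, hx2⟩

theorem coord (g : ℕ → I → I) (hg : ∀ k, Continuous (g k) ∧ IsOpenMap (g k)) (a n : ℕ) :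
    ∃ T : I → I, Continuous T ∧ IsOpenMap T ∧ ∀ z : Lim g, z.1 a = T (z.1 (a + n)) := by
  induction n with
  | zero => exact ⟨id, continuous_id, IsOpenMap.id, fun _ => rfl⟩
  | succ n ih =>
    obtain ⟨T, h1, h2, h3⟩ := ih
    refine ⟨T ∘ g (a + n), h1.comp (hg _).1, h2.comp (hg _).2, ?_⟩
    intro z
    rw [h3 z]
    show T (z.1 (a + n)) = T (g (a + n) (z.1 (a + (n + 1))))
    rw [z.2 (a + n)]
    rfl

theorem coord_le (g : ℕ → I → I) (hg : ∀ k, Continuous (g k) ∧ IsOpenMap (g k)) {a k : ℕ}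
    (h : a ≤ k) :
    ∃ T : I → I, Continuous T ∧ IsOpenMap T ∧ ∀ z : Lim g, z.1 a = T (z.1 k) := by
  obtain ⟨n, rfl⟩ := Nat.exists_eq_add_of_le h
  exact coord g hg a n

theorem base (g : ℕ → I → I) (hg : ∀ k, Continuous (g k) ∧ IsOpenMap (g k)) (i : ℕ)
    (O : Set (Lim g)) (hO : IsOpen O) (x : Lim g) (hx : x ∈ O) :
    ∃ k, i ≤ k ∧ ∃ V : Set I, IsOpen V ∧ x.1 k ∈ V ∧ ∀ z : Lim g, z.1 k ∈ V → z ∈ O := by
  classical
  obtain ⟨O', hO', rfl⟩ := isOpen_induced_iff.1 hO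
  obtain ⟨J, u, hu1, hu2⟩ := isOpen_pi_iff.1 hO' x.1 hx
  let k := i + J.sup id
  have hk : ∀ a ∈ J, a ≤ k := by
    intro a ha
    have : a ≤ J.sup id := Finset.le_sup (f := id) ha
    omega
  have hT : ∀ a : ℕ, ∃ T : I → I, Continuous T ∧ (a ∈ J → ∀ z : Lim g, z.1 a = T (z.1 k)) := by
    intro a
    by_cases ha : a ∈ J
    · obtain ⟨T, h1, -, h3⟩ := coord_le g hg (hk a ha)
      exact ⟨T, h1, fun _ => h3⟩
    · exact ⟨id, continuous_id, fun h => absurd h ha⟩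
  choose T hT1 hT2 using hT
  refine ⟨k, Nat.le_add_right _ _, ⋂ a ∈ J, (T a) ⁻¹' (u a), ?_, ?_, ?_⟩
  · apply isOpen_biInter_finset
    intro a ha
    exact (hu1 a ha).1.preimage (hT1 a)
  · rw [mem_iInter₂]
    intro a ha
    show T a (x.1 k) ∈ u a
    rw [← hT2 a ha x]
    exact (hu1 a ha).2
  · intro z hz
    apply hu2
    intro a ha
    have := mem_iInter₂.1 hz a ha
    rw [hT2 a ha z]
    exact this

theorem open_proj (g : ℕ → I → I) (hg : ∀ k, Continuous (g k) ∧ IsOpenMap (g k)) (i : ℕ) :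
    IsOpenMap (fun x : Lim g => x.1 i) := by
  intro O hO
  rw [isOpen_iff_mem_nhds]
  rintro _ ⟨x, hx, rfl⟩
  obtain ⟨k, hik, V, hV, hxV, hVO⟩ := base g hg i O hO x hx
  obtain ⟨T, hT1, hT2, hT3⟩ := coord_le g hg hik
  apply Filter.mem_of_superset ((hT2 V hV).mem_nhds ?_)
  · rintro _ ⟨v, hv, rfl⟩
    obtain ⟨z, hz⟩ := proj_surj g hg k v
    refine ⟨z, hVO z (by rw [hz]; exact hv), ?_⟩
    show z.1 i = T v
    rw [hT3 z, hz]
  · show x.1 i ∈ T '' V
    rw [hT3 x]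
    exact ⟨_, hxV, rfl⟩

theorem cont_proj (g : ℕ → I → I) (i : ℕ) : Continuous (fun x : Lim g => x.1 i) :=
  (continuous_apply i).comp continuous_subtype_val

/-! ### Approximable implies confluent -/

theorem sep (g h : ℕ → I → I) (hg : ∀ k, Continuous (g k)) (hh : ∀ k, Continuous (h k))
    (f : Lim g → Lim h) (hf : Continuous f) (N : Set (Lim g)) (hN : IsClosed N)
    (K : Set (Lim h)) (hK : IsClosed K) (hNK : ∀ z ∈ N, f z ∉ K) :
    ∃ j₀, ∀ j, j₀ ≤ j → ∀ z ∈ N, ∀ k ∈ K, (f z).1 j ≠ k.1 j := by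
  have := compact_lim g hg
  have := compact_lim h hh
  let L : ℕ → Set (Lim g × Lim h) := fun j => {p | p.1 ∈ N ∧ p.2 ∈ K ∧ (f p.1).1 j = p.2.1 j}
  have hanti : ∀ j, L (j + 1) ⊆ L j := by
    rintro j ⟨z, k⟩ ⟨h1, h2, h3⟩
    refine ⟨h1, h2, ?_⟩
    show (f z).1 j = k.1 j
    rw [(f z).2 j, k.2 j]
    exact congrArg _ h3
  have hcl : ∀ j, IsClosed (L j) := by
    intro j
    apply IsClosed.inter (hN.preimage continuous_fst)
    apply IsClosed.inter (hK.preimage continuous_snd)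
    exact isClosed_eq ((cont_proj h j).comp (hf.comp continuous_fst))
      ((cont_proj h j).comp continuous_snd)
  by_cases hall : ∀ j, (L j).Nonempty
  · exfalso
    obtain ⟨⟨z, k⟩, hzk⟩ := IsCompact.nonempty_iInter_of_sequence_nonempty_isCompact_isClosed
      L hanti hall (hcl 0).isCompact hcl
    rw [mem_iInter] at hzk
    apply hNK z (hzk 0).1
    have : f z = k := by
      apply Subtype.ext
      funext j
      exact (hzk j).2.2
    rw [this]
    exact (hzk 0).2.1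
  · push Not at hall
    obtain ⟨j₀, hj₀⟩ := hall
    refine ⟨j₀, ?_⟩
    intro j hj z hz k hk heq
    have hmono : ∀ n, L (j₀ + n) ⊆ L j₀ := by
      intro n
      induction n with
      | zero => exact Subset.refl _
      | succ n ih => exact (hanti (j₀ + n)).trans ih
    obtain ⟨n, rfl⟩ := Nat.exists_eq_add_of_le hj
    have : (z, k) ∈ L j₀ := hmono n ⟨hz, hk, heq⟩
    rw [hj₀] at this
    exact this

theorem HQ_of_approx (g h : ℕ → I → I) (hg : ∀ k, Continuous (g k) ∧ IsOpenMap (g k))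
    (hh : ∀ k, Continuous (h k) ∧ IsOpenMap (h k)) (f : Lim g → Lim h) (hf : Continuous f)
    (happ : ∀ j : ℕ, ∃ F : ℕ → I → I, (∀ i, Continuous (F i) ∧ IsOpenMap (F i)) ∧
      TendstoUniformly (fun (i : ℕ) (x : Lim g) => F i (x.1 i)) (fun x => (f x).1 j) Filter.atTop)
    (K : Set (Lim h)) (hK : IsClosed K) (hKc : IsConnected K) : HQ f K := by
  have := compact_lim g (fun k => (hg k).1)
  have := compact_lim h (fun k => (hh k).1)
  intro U U' hU hU' hd hcov ⟨x, hxU, hx⟩ y hy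
  by_contra hno
  -- `y` is not in the image of the complement of `U'`
  have h1 : ∀ z ∈ U'ᶜ, f z ∉ ({y} : Set (Lim h)) := by
    intro z hz hzy
    rw [mem_singleton_iff] at hzy
    apply hno
    have hzK : z ∈ f ⁻¹' K := by
      show f z ∈ K
      rw [hzy]; exact hy
    rcases hcov hzK with h2 | h2
    · exact ⟨z, h2, hzy⟩
    · exact absurd h2 hz
  obtain ⟨j₁, hj₁⟩ := sep g h (fun k => (hg k).1) (fun k => (hh k).1) f hf U'ᶜ hU'.isClosed_compl
    {y} isClosed_singleton h1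
  have h2 : ∀ z ∈ (U ∪ U')ᶜ, f z ∉ K := fun z hz hzK => hz (hcov hzK)
  obtain ⟨j₂, hj₂⟩ := sep g h (fun k => (hg k).1) (fun k => (hh k).1) f hf (U ∪ U')ᶜ
    (hU.union hU').isClosed_compl K hK h2
  let j := max j₁ j₂
  let Kj : Set I := (fun k : Lim h => k.1 j) '' K
  have hKjc : IsPreconnected Kj := hKc.isPreconnected.image _ (cont_proj h j).continuousOn
  have hφ : Continuous (fun z => (f z).1 j) := (cont_proj h j).comp hf
  -- epsilon from `y`
  obtain ⟨ε₁, hε₁, hball⟩ : ∃ ε > 0, ∀ z ∈ U'ᶜ, ε ≤ dist ((f z).1 j) (y.1 j) := by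
    have hcl : IsClosed ((fun z => (f z).1 j) '' U'ᶜ) :=
      ((hU'.isClosed_compl.isCompact).image hφ).isClosed
    have hmem : y.1 j ∈ ((fun z => (f z).1 j) '' U'ᶜ)ᶜ := by
      rintro ⟨z, hz, hz2⟩
      exact hj₁ j (le_max_left _ _) z hz y rfl hz2
    obtain ⟨ε, hε, hb⟩ := Metric.isOpen_iff.1 hcl.isOpen_compl _ hmem
    refine ⟨ε, hε, ?_⟩
    intro z hz
    by_contra hlt
    push Not at hlt
    exact hb (Metric.mem_ball.2 hlt) ⟨z, hz, rfl⟩
  -- epsilon for `K`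
  obtain ⟨ε₂, hε₂, hth⟩ : ∃ ε > 0, ∀ z : Lim g, (∃ k ∈ Kj, dist ((f z).1 j) k < ε) → z ∈ U ∪ U' := by
    have hcl : IsClosed ((fun z => (f z).1 j) '' (U ∪ U')ᶜ) :=
      (((hU.union hU').isClosed_compl.isCompact).image hφ).isClosed
    have hKjcomp : IsCompact Kj := hK.isCompact.image (cont_proj h j)
    have hsub : Kj ⊆ ((fun z => (f z).1 j) '' (U ∪ U')ᶜ)ᶜ := by
      rintro _ ⟨k, hk, rfl⟩ ⟨z, hz, hz2⟩
      exact hj₂ j (le_max_right _ _) z hz k hk hz2
    obtain ⟨ε, hε, hb⟩ := hKjcomp.exists_thickening_subset_open hcl.isOpen_compl hsub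
    refine ⟨ε, hε, ?_⟩
    rintro z ⟨k, hk, hd⟩
    by_contra hz
    exact hb (Metric.mem_thickening_iff.2 ⟨k, hk, hd⟩) ⟨z, hz, rfl⟩
  -- approximate
  obtain ⟨F, hF1, hF2⟩ := happ j
  let ε := min ε₁ (ε₂ / 2)
  have hε : 0 < ε := lt_min hε₁ (half_pos hε₂)
  rw [Metric.tendstoUniformly_iff] at hF2
  obtain ⟨i, hi⟩ := (hF2 ε hε).exists
  let Φ : Lim g → I := fun z => F i (z.1 i)
  have hΦc : Continuous Φ := (hF1 i).1.comp (cont_proj g i)
  have hΦo : IsOpenMap Φ := (hF1 i).2.comp (open_proj g hg i)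
  let K' : Set I := {t | ∃ k ∈ Kj, dist t k ≤ ε}
  have hKjo : Kj.OrdConnected := hKjc.ordConnected
  have hK' : IsPreconnected K' := by
    apply Set.OrdConnected.isPreconnected
    constructor
    rintro t₁ ⟨k₁, hk₁, hd₁⟩ t₂ ⟨k₂, hk₂, hd₂⟩ t ⟨ht1, ht2⟩
    rw [Subtype.dist_eq, Real.dist_eq, abs_le] at hd₁ hd₂
    have ht1' : (t₁ : ℝ) ≤ t := ht1
    have ht2' : (t : ℝ) ≤ t₂ := ht2
    by_cases h3 : (t : ℝ) < k₁
    · refine ⟨k₁, hk₁, ?_⟩
      rw [Subtype.dist_eq, Real.dist_eq, abs_le]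
      constructor <;> linarith
    · by_cases h4 : (k₂ : ℝ) < t
      · refine ⟨k₂, hk₂, ?_⟩
        rw [Subtype.dist_eq, Real.dist_eq, abs_le]
        constructor <;> linarith
      · push Not at h3 h4
        refine ⟨t, hKjo.out hk₁ hk₂ ⟨h3, h4⟩, ?_⟩
        rw [dist_self]
        exact hε.le
  have hQ := HQ_of_open Φ hΦc hΦo K' hK' U U' hU hU' hd (by
    rintro z ⟨k, hk, hzk⟩
    apply hth
    refine ⟨k, hk, ?_⟩
    calc dist ((f z).1 j) k ≤ dist ((f z).1 j) (Φ z) + dist (Φ z) k := dist_triangle _ _ _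
      _ < ε + ε := add_lt_add_of_lt_of_le (hi z) hzk
      _ ≤ ε₂ / 2 + ε₂ / 2 := add_le_add (min_le_right _ _) (min_le_right _ _)
      _ = ε₂ := by ring)
    ⟨x, hxU, (f x).1 j, ⟨f x, hx, rfl⟩, by rw [dist_comm]; exact (hi x).le⟩
  obtain ⟨z, hzU, hz⟩ := hQ (show y.1 j ∈ K' from ⟨y.1 j, ⟨y, hy, rfl⟩, by rw [dist_self]; exact hε.le⟩)
  have hz2 := hball z (fun h' => Set.disjoint_left.1 hd hzU h')
  have hz3 := hi z
  have hz4 : dist ((f z).1 j) (y.1 j) < ε := by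
    rw [← hz]
    exact hz3
  exact absurd (lt_of_lt_of_le hz4 (min_le_left _ _)) (not_lt.2 hz2)

end Pool.Agent.Helper18.Conf
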