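import Mathlib

set_option autoImplicit false

/-!
Sets of constant width `1` in Euclidean `d`-space and the midpoints of their diametral chords.
-/

open Metric Set
open scoped RealInnerProductSpace

namespace Pool.Agent.Helper18.ConstantWidth

/-- `K ⊂ ℝ^d` is a set of constant width `1`: compact, convex, nonempty, and for every unit vector
`u` the distance between the two supporting hyperplanes orthogonal to `u` (that is,
`sup ⟨x,u⟩ - inf ⟨x,u⟩` over `x ∈ K`) is `1`. -/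
def IsConstantWidthOne {d : ℕ} (K : Set (EuclideanSpace ℝ (Fin d))) : Prop :=
  IsCompact K ∧ Convex ℝ K ∧ K.Nonempty ∧
    ∀ u : EuclideanSpace ℝ (Fin d), ‖u‖ = 1 →
      sSup ((fun x => ⟪x, u⟫) '' K) - sInf ((fun x => ⟪x, u⟫) '' K) = 1

/-- The set of midpoints of diametral chords of `K`. -/
def midpoints {d : ℕ} (K : Set (EuclideanSpace ℝ (Fin d))) : Set (EuclideanSpace ℝ (Fin d)) :=
  {p | ∃ x ∈ K, ∃ y ∈ K, ‖x - y‖ = 1 ∧ p = (1 / 2 : ℝ) • (x + y)}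

variable {d : ℕ}


lemma dist_le_one {K : Set (EuclideanSpace ℝ (Fin d))} (hK : IsConstantWidthOne K)
    {x y : EuclideanSpace ℝ (Fin d)} (hx : x ∈ K) (hy : y ∈ K) : ‖x - y‖ ≤ 1 := by
  by_cases hxy : x = y
  · simp [hxy]
  have hpos : 0 < ‖x - y‖ := norm_pos_iff.2 (sub_ne_zero.2 hxy)
  set u : EuclideanSpace ℝ (Fin d) := (‖x - y‖)⁻¹ • (x - y) with hu
  have hu1 : ‖u‖ = 1 := by
    rw [hu, norm_smul, norm_inv, norm_norm, inv_mul_cancel₀ hpos.ne']
  have h := hK.2.2.2 u hu1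
  have hcont : Continuous (fun x : EuclideanSpace ℝ (Fin d) => ⟪x, u⟫) := by fun_prop
  have hc : IsCompact ((fun x => ⟪x, u⟫) '' K) := hK.1.image hcont
  have h1 : ⟪x, u⟫ ≤ sSup ((fun x => ⟪x, u⟫) '' K) := le_csSup hc.bddAbove ⟨x, hx, rfl⟩
  have h2 : sInf ((fun x => ⟪x, u⟫) '' K) ≤ ⟪y, u⟫ := csInf_le hc.bddBelow ⟨y, hy, rfl⟩
  have h3 : ⟪x, u⟫ - ⟪y, u⟫ = ‖x - y‖ := by
    rw [← inner_sub_left, hu, real_inner_smul_right, real_inner_self_eq_norm_sq]
    field_simp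
  linarith

/-- Euler's quadrilateral identity. -/
lemma euler_identity (x y z w : EuclideanSpace ℝ (Fin d)) :
    ‖x + y - z - w‖ ^ 2 = ‖x - z‖ ^ 2 + ‖x - w‖ ^ 2 + ‖y - z‖ ^ 2 + ‖y - w‖ ^ 2
      - ‖x - y‖ ^ 2 - ‖z - w‖ ^ 2 := by
  have e : x + y - z - w = (x + y) - (z + w) := by abel
  rw [e]
  simp only [@norm_sub_sq_real, @norm_add_sq_real, inner_add_left, inner_add_right]
  ring

lemma mid_dist (x y z w : EuclideanSpace ℝ (Fin d)) :
    ‖(1 / 2 : ℝ) • (x + y) - (1 / 2 : ℝ) • (z + w)‖ = ‖x + y - z - w‖ / 2 := by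
  rw [← smul_sub, norm_smul]
  have e : x + y - z - w = (x + y) - (z + w) := by abel
  rw [e]
  norm_num
  ring

/-- Upper bound in every dimension. -/
lemma upper_all {K : Set (EuclideanSpace ℝ (Fin d))} (hK : IsConstantWidthOne K)
    {p q : EuclideanSpace ℝ (Fin d)} (hp : p ∈ midpoints K) (hq : q ∈ midpoints K) :
    ‖p - q‖ ≤ √2 / 2 := by
  obtain ⟨x, hx, y, hy, hxy, rfl⟩ := hp
  obtain ⟨z, hz, w, hw, hzw, rfl⟩ := hq
  rw [mid_dist]
  have h := euler_identity x y z w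
  have h1 := dist_le_one hK hx hz
  have h2 := dist_le_one hK hx hw
  have h3 := dist_le_one hK hy hz
  have h4 := dist_le_one hK hy hw
  have g : ∀ t : ℝ, 0 ≤ t → t ≤ 1 → t ^ 2 ≤ 1 := fun t ht ht' => by nlinarith
  have g1 := g _ (norm_nonneg _) h1
  have g2 := g _ (norm_nonneg _) h2
  have g3 := g _ (norm_nonneg _) h3
  have g4 := g _ (norm_nonneg _) h4
  have h5 : ‖x + y - z - w‖ ^ 2 ≤ 2 := by
    rw [h, hxy, hzw]; linarith
  have h6 : ‖x + y - z - w‖ ≤ √2 := Real.le_sqrt_of_sq_le h5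
  linarith

/-- A set with all distances `≤ 1` is contained in a set of constant width `1`. -/
theorem exists_completion (S : Set (EuclideanSpace ℝ (Fin d))) (hS : S.Nonempty)
    (hS1 : ∀ x ∈ S, ∀ y ∈ S, ‖x - y‖ ≤ 1) :
    ∃ K : Set (EuclideanSpace ℝ (Fin d)), S ⊆ K ∧ IsConstantWidthOne K := by
  obtain ⟨K, hSK, hKmax⟩ := zorn_subset_nonempty
    {K : Set (EuclideanSpace ℝ (Fin d)) | ∀ x ∈ K, ∀ y ∈ K, ‖x - y‖ ≤ 1}
    (by
      intro c hc hchain hne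
      refine ⟨⋃₀ c, ?_, fun s hs => subset_sUnion_of_mem hs⟩
      rintro x ⟨A, hA, hxA⟩ y ⟨B, hB, hyB⟩
      rcases hchain.total hA hB with h | h
      · exact hc hB x (h hxA) y hyB
      · exact hc hA x hxA y (h hyB)) S hS1
  have hK1 : ∀ x ∈ K, ∀ y ∈ K, ‖x - y‖ ≤ 1 := hKmax.1
  have hcomp : ∀ z, (∀ k ∈ K, ‖z - k‖ ≤ 1) → z ∈ K := by
    intro z hz
    have hin : insert z K ∈ {K : Set (EuclideanSpace ℝ (Fin d)) | ∀ x ∈ K, ∀ y ∈ K, ‖x - y‖ ≤ 1} := by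
      rintro x (rfl | hx) y (rfl | hy)
      · simp
      · exact hz y hy
      · rw [norm_sub_rev]; exact hz x hx
      · exact hK1 x hx y hy
    exact hKmax.2 hin (subset_insert z K) (mem_insert z K)
  have hKeq : K = ⋂ k ∈ K, closedBall k 1 := by
    ext z
    simp only [mem_iInter, mem_closedBall, dist_eq_norm]
    exact ⟨fun hz k hk => hK1 z hz k hk, hcomp z⟩
  have hclosed : IsClosed K := by
    rw [hKeq]
    exact isClosed_biInter fun k _ => isClosed_closedBall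
  have hconv : Convex ℝ K := by
    rw [hKeq]
    exact convex_iInter fun k => convex_iInter fun _ => convex_closedBall k 1
  obtain ⟨s0, hs0⟩ := hS
  have hs0K : s0 ∈ K := hSK hs0
  have hcpt : IsCompact K := by
    apply IsCompact.of_isClosed_subset (isCompact_closedBall s0 1) hclosed
    intro z hz
    rw [mem_closedBall, dist_eq_norm]
    exact hK1 z hz s0 hs0K
  refine ⟨K, hSK, hcpt, hconv, ⟨s0, hs0K⟩, ?_⟩
  intro u hu
  have hcont : Continuous (fun x : EuclideanSpace ℝ (Fin d) => ⟪x, u⟫) := by fun_prop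
  obtain ⟨x, hx, hxmax⟩ := hcpt.exists_isMaxOn ⟨s0, hs0K⟩ hcont.continuousOn
  have hxmax' : ∀ k ∈ K, ⟪k, u⟫ ≤ ⟪x, u⟫ := fun k hk => hxmax hk
  -- the key claim
  have key : x - u ∈ K := by
    apply hcomp
    intro k hk
    by_contra hcon
    push Not at hcon
    set a := k - x with ha
    have ha1 : ‖a‖ ≤ 1 := hK1 k hk x hx
    have h1 : 1 < ‖a + u‖ := by
      have : x - u - k = -(a + u) := by rw [ha]; abel
      rw [this, norm_neg] at hcon
      exact hcon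
    have h2 : 0 < ‖a‖ ^ 2 + 2 * ⟪a, u⟫ := by
      have := @norm_add_sq_real _ _ _ a u
      rw [hu] at this
      nlinarith
    set β := -⟪a, u⟫ with hβ
    have hβ0 : 0 ≤ β := by
      have := hxmax' k hk
      rw [hβ, ha, inner_sub_left]; linarith
    obtain ⟨β', hβ1, hβ2⟩ : ∃ β', β < β' ∧ β' < ‖a‖ ^ 2 / 2 := exists_between (by linarith)
    set t : ℝ := min 1 ((‖a‖ ^ 2 - 2 * β') / 4) with ht
    have ht0 : 0 < t := lt_min one_pos (by linarith)
    have ht1 : t ≤ 1 := min_le_left _ _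
    have ht2 : 4 * t ≤ ‖a‖ ^ 2 - 2 * β' := by
      have := min_le_right 1 ((‖a‖ ^ 2 - 2 * β') / 4)
      rw [← ht] at this
      linarith
    have hm : x + (t • a + (t * β') • u) ∈ K := by
      apply hcomp
      intro c hc
      set p := x - c with hp
      have hp1 : ‖p‖ ≤ 1 := hK1 x hx c hc
      have hpa : ‖p + a‖ ≤ 1 := by
        have : p + a = k - c := by rw [hp, ha]; abel
        rw [this]; exact hK1 k hk c hc
      have e1 : x + (t • a + (t * β') • u) - c = p + t • (a + β' • u) := by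
        rw [hp, smul_add, smul_smul]; abel
      rw [e1]
      have hC : ‖a + β' • u‖ ≤ 2 := by
        calc ‖a + β' • u‖ ≤ ‖a‖ + ‖β' • u‖ := norm_add_le _ _
          _ = ‖a‖ + β' := by rw [norm_smul, hu, Real.norm_of_nonneg (by linarith)]; ring
          _ ≤ 2 := by nlinarith [norm_nonneg a]
      have hq1 : ‖p + a‖ ^ 2 = ‖p‖ ^ 2 + 2 * ⟪p, a⟫ + ‖a‖ ^ 2 := norm_add_sq_real _ _
      have hq2 : ‖p + a‖ ^ 2 ≤ 1 := by nlinarith [norm_nonneg (p + a)]
      have hq3 : ⟪p, u⟫ ≤ ‖p‖ := by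
        have := real_inner_le_norm p u
        rwa [hu, mul_one] at this
      have hq4 : ‖p + t • (a + β' • u)‖ ^ 2 =
          ‖p‖ ^ 2 + 2 * (t * (⟪p, a⟫ + β' * ⟪p, u⟫)) + t ^ 2 * ‖a + β' • u‖ ^ 2 := by
        rw [norm_add_sq_real, norm_smul, real_inner_smul_right, inner_add_right,
          real_inner_smul_right, mul_pow, Real.norm_eq_abs, sq_abs]
      have hq5 : ‖a + β' • u‖ ^ 2 ≤ 4 := by nlinarith [norm_nonneg (a + β' • u)]
      have hq6 : ‖p + t • (a + β' • u)‖ ^ 2 ≤ 1 := by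
        rw [hq4]
        have hβ'0 : 0 ≤ β' := by linarith
        have i1 : t ^ 2 * ‖a + β' • u‖ ^ 2 ≤ t * (4 * t) := by nlinarith [sq_nonneg t]
        have i2 : t * (4 * t) ≤ t * (‖a‖ ^ 2 - 2 * β') := by nlinarith
        have i3 : 2 * (t * ⟪p, a⟫) ≤ t * (1 - ‖a‖ ^ 2 - ‖p‖ ^ 2) := by nlinarith
        have i4 : t * (β' * ⟪p, u⟫) ≤ t * (β' * 1) := by
          apply mul_le_mul_of_nonneg_left _ ht0.le
          apply mul_le_mul_of_nonneg_left _ hβ'0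
          linarith
        have i5 : (1 - t) * ‖p‖ ^ 2 ≤ (1 - t) * 1 := by
          apply mul_le_mul_of_nonneg_left _ (by linarith)
          nlinarith [norm_nonneg p]
        nlinarith
      nlinarith [norm_nonneg (p + t • (a + β' • u))]
    have h3 := hxmax' _ hm
    rw [inner_add_left, inner_add_left, real_inner_smul_left, real_inner_smul_left,
      real_inner_self_eq_norm_sq, hu] at h3
    have h4 : ⟪a, u⟫ = -β := by rw [hβ]; ring
    rw [h4] at h3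
    nlinarith
  have hsup : sSup ((fun x => ⟪x, u⟫) '' K) = ⟪x, u⟫ := by
    apply le_antisymm
    · apply csSup_le (Set.Nonempty.image _ ⟨x, hx⟩)
      rintro _ ⟨k, hk, rfl⟩
      exact hxmax' k hk
    · exact le_csSup (hcpt.image hcont).bddAbove ⟨x, hx, rfl⟩
  have hinf : sInf ((fun x => ⟪x, u⟫) '' K) = ⟪x, u⟫ - 1 := by
    have e : ⟪x - u, u⟫ = ⟪x, u⟫ - 1 := by
      rw [inner_sub_left, real_inner_self_eq_norm_sq, hu]; norm_num
    apply le_antisymm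
    · rw [← e]
      exact csInf_le (hcpt.image hcont).bddBelow ⟨x - u, key, rfl⟩
    · apply le_csInf (Set.Nonempty.image _ ⟨x, hx⟩)
      rintro _ ⟨k, hk, rfl⟩
      have h1 : ⟪x - k, u⟫ ≤ ‖x - k‖ * ‖u‖ := real_inner_le_norm _ _
      rw [inner_sub_left, hu] at h1
      have h2 := hK1 x hx k hk
      show ⟪x, u⟫ - 1 ≤ ⟪k, u⟫
      linarith
  rw [hsup, hinf]; ring

/-- The planar inequality, in coordinates. -/
lemma plane_ineq (D0 D1 e0 e1 f0 f1 : ℝ) (h1 : e0 * f0 + e1 * f1 = 0)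
    (h2 : e0 ^ 2 + e1 ^ 2 + f0 ^ 2 + f1 ^ 2 = 1)
    (h3 : (D0 + e0) ^ 2 + (D1 + e1) ^ 2 ≤ 1) (h4 : (D0 - e0) ^ 2 + (D1 - e1) ^ 2 ≤ 1)
    (h5 : (D0 + f0) ^ 2 + (D1 + f1) ^ 2 ≤ 1) (h6 : (D0 - f0) ^ 2 + (D1 - f1) ^ 2 ≤ 1) :
    D0 ^ 2 + D1 ^ 2 ≤ 1 / 4 := by
  by_cases hs : f0 ^ 2 + f1 ^ 2 ≤ 1 / 4
  · nlinarith
  by_cases hc : e0 ^ 2 + e1 ^ 2 ≤ 1 / 4
  · nlinarith
  push Not at hs hc
  set A : ℝ := |D0 * e0 + D1 * e1| with hA
  set B : ℝ := |D0 * f0 + D1 * f1| with hB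
  have hA0 : 0 ≤ A := abs_nonneg _
  have hB0 : 0 ≤ B := abs_nonneg _
  have g1 : D0 ^ 2 + D1 ^ 2 + 2 * A ≤ f0 ^ 2 + f1 ^ 2 := by
    rcases abs_cases (D0 * e0 + D1 * e1) with ⟨h, _⟩ | ⟨h, _⟩ <;> rw [hA, h] <;> nlinarith
  have g2 : D0 ^ 2 + D1 ^ 2 + 2 * B ≤ e0 ^ 2 + e1 ^ 2 := by
    rcases abs_cases (D0 * f0 + D1 * f1) with ⟨h, _⟩ | ⟨h, _⟩ <;> rw [hB, h] <;> nlinarith
  set r : ℝ := √(D0 ^ 2 + D1 ^ 2) with hr
  have hr0 : 0 ≤ r := Real.sqrt_nonneg _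
  have hr2 : r ^ 2 = D0 ^ 2 + D1 ^ 2 := Real.sq_sqrt (by positivity)
  -- the vector f is a multiple of the rotated vector e
  have hcpos : 0 < e0 ^ 2 + e1 ^ 2 := by linarith
  obtain ⟨τ, hf0, hf1⟩ : ∃ τ : ℝ, f0 = -τ * e1 ∧ f1 = τ * e0 := by
    refine ⟨(f1 * e0 - f0 * e1) / (e0 ^ 2 + e1 ^ 2), ?_, ?_⟩
    · field_simp
      linear_combination e0 * h1
    · field_simp
      linear_combination e1 * h1
  have hτ : τ ^ 2 * (e0 ^ 2 + e1 ^ 2) = f0 ^ 2 + f1 ^ 2 := by rw [hf0, hf1]; ring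
  have hA2 : A ^ 2 = (D0 * e0 + D1 * e1) ^ 2 := sq_abs _
  have hB2 : B ^ 2 = τ ^ 2 * (D1 * e0 - D0 * e1) ^ 2 := by
    rw [hB, sq_abs, hf0, hf1]; ring
  have hsum : (D0 * e0 + D1 * e1) ^ 2 + (D1 * e0 - D0 * e1) ^ 2 =
      r ^ 2 * (e0 ^ 2 + e1 ^ 2) := by rw [hr2]; ring
  have hAB : r ^ 2 / 4 ≤ A ^ 2 + B ^ 2 := by
    rw [hA2, hB2]
    by_cases ht : 1 ≤ τ ^ 2
    · nlinarith [sq_nonneg (D1 * e0 - D0 * e1), sq_nonneg r]
    · push Not at ht
      have : τ ^ 2 * (r ^ 2 * (e0 ^ 2 + e1 ^ 2)) ≤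
          (D0 * e0 + D1 * e1) ^ 2 + τ ^ 2 * (D1 * e0 - D0 * e1) ^ 2 := by
        rw [← hsum]
        nlinarith [sq_nonneg (D0 * e0 + D1 * e1)]
      have h7 : τ ^ 2 * (r ^ 2 * (e0 ^ 2 + e1 ^ 2)) = r ^ 2 * (f0 ^ 2 + f1 ^ 2) := by
        rw [← hτ]; ring
      nlinarith [sq_nonneg r]
  have hABr : r / 2 ≤ A + B := by
    apply le_of_sq_le_sq _ (by positivity)
    have := mul_nonneg hA0 hB0
    clear_value A B r
    nlinarith only [this, hAB]
  have h8 : 2 * r ^ 2 + r ≤ 1 := by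
    rw [hr2]; linarith
  clear_value r
  have hfin : r ≤ 1 / 2 := by
    by_contra hcon
    push Not at hcon
    nlinarith only [hcon, h8]
  rw [← hr2]
  nlinarith only [hfin, hr0]

lemma norm_sq_two (v : EuclideanSpace ℝ (Fin 2)) : ‖v‖ ^ 2 = v 0 ^ 2 + v 1 ^ 2 := by
  rw [EuclideanSpace.real_norm_sq_eq, Fin.sum_univ_two]

/-- Upper bound in the plane. -/
lemma upper_two {K : Set (EuclideanSpace ℝ (Fin 2))} (hK : IsConstantWidthOne K)
    {p q : EuclideanSpace ℝ (Fin 2)} (hp : p ∈ midpoints K) (hq : q ∈ midpoints K) :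
    ‖p - q‖ ≤ 1 / 2 := by
  obtain ⟨x, hx, y, hy, hxy, rfl⟩ := hp
  obtain ⟨z, hz, w, hw, hzw, rfl⟩ := hq
  have h1 := dist_le_one hK hx hz
  have h2 := dist_le_one hK hx hw
  have h3 := dist_le_one hK hy hz
  have h4 := dist_le_one hK hy hw
  have g : ∀ v : EuclideanSpace ℝ (Fin 2), ‖v‖ ≤ 1 → v 0 ^ 2 + v 1 ^ 2 ≤ 1 := fun v hv => by
    rw [← norm_sq_two]; nlinarith [norm_nonneg v]
  have g' : ∀ v : EuclideanSpace ℝ (Fin 2), ‖v‖ = 1 → v 0 ^ 2 + v 1 ^ 2 = 1 := fun v hv => by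
    rw [← norm_sq_two, hv]; norm_num
  have k1 := g _ h1
  have k2 := g _ h2
  have k3 := g _ h3
  have k4 := g _ h4
  have k5 := g' _ hxy
  have k6 := g' _ hzw
  simp only [PiLp.sub_apply] at k1 k2 k3 k4 k5 k6
  have key := plane_ineq ((x 0 + y 0 - z 0 - w 0) / 2) ((x 1 + y 1 - z 1 - w 1) / 2)
    ((x 0 - y 0 + (z 0 - w 0)) / 2) ((x 1 - y 1 + (z 1 - w 1)) / 2)
    ((x 0 - y 0 - (z 0 - w 0)) / 2) ((x 1 - y 1 - (z 1 - w 1)) / 2)
    (by nlinarith) (by nlinarith) (by nlinarith) (by nlinarith) (by nlinarith) (by nlinarith)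
  have h5 : ‖(1 / 2 : ℝ) • (x + y) - (1 / 2 : ℝ) • (z + w)‖ ^ 2 ≤ (1 / 2) ^ 2 := by
    rw [norm_sq_two]
    simp only [PiLp.sub_apply, PiLp.smul_apply, PiLp.add_apply, smul_eq_mul]
    nlinarith
  exact le_of_sq_le_sq h5 (by norm_num)

/-- The midpoint set is bounded. -/
lemma midpoints_subset {K : Set (EuclideanSpace ℝ (Fin d))} (hK : IsConstantWidthOne K) :
    midpoints K ⊆ K := by
  rintro _ ⟨x, hx, y, hy, _, rfl⟩
  have := hK.2.1 hx hy (by norm_num : (0:ℝ) ≤ 1/2) (by norm_num : (0:ℝ) ≤ 1/2) (by norm_num)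
  rwa [← smul_add] at this

lemma diam_le_of {K : Set (EuclideanSpace ℝ (Fin d))} {c : ℝ} (hc : 0 ≤ c)
    (h : ∀ p ∈ midpoints K, ∀ q ∈ midpoints K, ‖p - q‖ ≤ c) : Metric.diam (midpoints K) ≤ c :=
  Metric.diam_le_of_forall_dist_le hc fun p hp q hq => by rw [dist_eq_norm]; exact h p hp q hq

lemma le_diam_of {K : Set (EuclideanSpace ℝ (Fin d))} (hK : IsConstantWidthOne K)
    {p q : EuclideanSpace ℝ (Fin d)} (hp : p ∈ midpoints K) (hq : q ∈ midpoints K) :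
    ‖p - q‖ ≤ Metric.diam (midpoints K) := by
  rw [← dist_eq_norm]
  exact Metric.dist_le_diam_of_mem (hK.1.isBounded.subset (midpoints_subset hK)) hp hq

/-- In the plane the value `1/2` is attained. -/
theorem attained_two : ∃ K : Set (EuclideanSpace ℝ (Fin 2)), IsConstantWidthOne K ∧
    Metric.diam (midpoints K) = 1 / 2 := by
  let x : EuclideanSpace ℝ (Fin 2) := !₂[0, 0]
  let y : EuclideanSpace ℝ (Fin 2) := !₂[1, 0]
  let z : EuclideanSpace ℝ (Fin 2) := !₂[1 / 2, √3 / 2]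
  have h3 : √3 ^ 2 = 3 := Real.sq_sqrt (by norm_num)
  have gen : ∀ v : EuclideanSpace ℝ (Fin 2), v 0 ^ 2 + v 1 ^ 2 = 1 → ‖v‖ = 1 := fun v hv => by
    rw [← norm_sq_two] at hv
    nlinarith [norm_nonneg v]
  have hxy : ‖x - y‖ = 1 := gen _ (by simp [x, y])
  have hxz : ‖x - z‖ = 1 := gen _ (by simp [x, z]; nlinarith)
  have hyz : ‖y - z‖ = 1 := gen _ (by simp [y, z]; nlinarith)
  obtain ⟨K, hSK, hK⟩ := exists_completion ({x, y, z} : Set (EuclideanSpace ℝ (Fin 2)))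
    ⟨x, by simp⟩ (by
      rintro a (rfl | rfl | rfl) b (rfl | rfl | rfl)
      · simp
      · exact hxy.le
      · exact hxz.le
      · rw [norm_sub_rev]; exact hxy.le
      · simp
      · exact hyz.le
      · rw [norm_sub_rev]; exact hxz.le
      · rw [norm_sub_rev]; exact hyz.le
      · simp)
  have hx : x ∈ K := hSK (by simp)
  have hy : y ∈ K := hSK (by simp)
  have hz : z ∈ K := hSK (by simp)
  refine ⟨K, hK, le_antisymm (diam_le_of (by norm_num) fun p hp q hq => upper_two hK hp hq) ?_⟩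
  have h := le_diam_of hK (p := (1 / 2 : ℝ) • (x + y)) (q := (1 / 2 : ℝ) • (x + z))
    ⟨x, hx, y, hy, hxy, rfl⟩ ⟨x, hx, z, hz, hxz, rfl⟩
  have e : ‖(1 / 2 : ℝ) • (x + y) - (1 / 2 : ℝ) • (x + z)‖ = 1 / 2 := by
    have : (1 / 2 : ℝ) • (x + y) - (1 / 2 : ℝ) • (x + z) = (1 / 2 : ℝ) • (y - z) := by
      rw [← smul_sub]; congr 1; abel
    rw [this, norm_smul, hyz]; norm_num
  linarith

/-- In dimension at least three the value `√2/2` is attained. -/
theorem attained_ge (hd : 3 ≤ d) : ∃ K : Set (EuclideanSpace ℝ (Fin d)), IsConstantWidthOne K ∧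
    Metric.diam (midpoints K) = √2 / 2 := by
  let b := EuclideanSpace.basisFun (Fin d) ℝ
  let i0 : Fin d := ⟨0, by omega⟩
  let i1 : Fin d := ⟨1, by omega⟩
  let i2 : Fin d := ⟨2, by omega⟩
  have h01 : i0 ≠ i1 := by simp [i0, i1]
  have h02 : i0 ≠ i2 := by simp [i0, i2]
  have h12 : i1 ≠ i2 := by simp [i1, i2]
  have hs2 : √2 ^ 2 = 2 := Real.sq_sqrt (by norm_num)
  set s : ℝ := √2 / 4 with hs
  have hss : s ^ 2 = 1 / 8 := by rw [hs]; nlinarith
  have hs0 : 0 < s := by positivity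
  have pair : ∀ i j : Fin d, i ≠ j → ∀ ε η : ℝ, ε ^ 2 = 1 → η ^ 2 = 1 →
      ‖(2 * s) • (ε • b i + η • b j)‖ = 1 := by
    intro i j hij ε η hε hη
    have h1 : ‖(2 * s) • (ε • b i + η • b j)‖ ^ 2 = 1 := by
      rw [norm_smul, mul_pow, norm_add_sq_real, real_inner_smul_left, real_inner_smul_right,
        b.inner_eq_zero hij, norm_smul, norm_smul, b.norm_eq_one, b.norm_eq_one,
        Real.norm_eq_abs, Real.norm_eq_abs, Real.norm_eq_abs, sq_abs, mul_one, mul_one, sq_abs,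
        sq_abs, hε, hη]
      nlinarith
    nlinarith [norm_nonneg ((2 * s) • (ε • b i + η • b j))]
  let x : EuclideanSpace ℝ (Fin d) := s • (b i0 + b i1 + b i2)
  let y : EuclideanSpace ℝ (Fin d) := s • (b i0 - b i1 - b i2)
  let z : EuclideanSpace ℝ (Fin d) := s • (-b i0 + b i1 - b i2)
  let w : EuclideanSpace ℝ (Fin d) := s • (-b i0 - b i1 + b i2)
  have hxy : ‖x - y‖ = 1 := by
    rw [← pair i1 i2 h12 1 1 (by norm_num) (by norm_num)]; congr 1; simp only [x, y]; module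
  have hxz : ‖x - z‖ = 1 := by
    rw [← pair i0 i2 h02 1 1 (by norm_num) (by norm_num)]; congr 1; simp only [x, z]; module
  have hxw : ‖x - w‖ = 1 := by
    rw [← pair i0 i1 h01 1 1 (by norm_num) (by norm_num)]; congr 1; simp only [x, w]; module
  have hyz : ‖y - z‖ = 1 := by
    rw [← pair i0 i1 h01 1 (-1) (by norm_num) (by norm_num)]; congr 1; simp only [y, z]; module
  have hyw : ‖y - w‖ = 1 := by
    rw [← pair i0 i2 h02 1 (-1) (by norm_num) (by norm_num)]; congr 1; simp only [y, w]; module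
  have hzw : ‖z - w‖ = 1 := by
    rw [← pair i1 i2 h12 1 (-1) (by norm_num) (by norm_num)]; congr 1; simp only [z, w]; module
  obtain ⟨K, hSK, hK⟩ := exists_completion ({x, y, z, w} : Set (EuclideanSpace ℝ (Fin d)))
    ⟨x, by simp⟩ (by
      rintro a (rfl | rfl | rfl | rfl) b (rfl | rfl | rfl | rfl)
      · simp
      · exact hxy.le
      · exact hxz.le
      · exact hxw.le
      · rw [norm_sub_rev]; exact hxy.le
      · simp
      · exact hyz.le
      · exact hyw.le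
      · rw [norm_sub_rev]; exact hxz.le
      · rw [norm_sub_rev]; exact hyz.le
      · simp
      · exact hzw.le
      · rw [norm_sub_rev]; exact hxw.le
      · rw [norm_sub_rev]; exact hyw.le
      · rw [norm_sub_rev]; exact hzw.le
      · simp)
  have hx : x ∈ K := hSK (by simp)
  have hy : y ∈ K := hSK (by simp)
  have hz : z ∈ K := hSK (by simp)
  have hw : w ∈ K := hSK (by simp)
  refine ⟨K, hK, le_antisymm (diam_le_of (by positivity) fun p hp q hq => upper_all hK hp hq) ?_⟩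
  have h := le_diam_of hK (p := (1 / 2 : ℝ) • (x + y)) (q := (1 / 2 : ℝ) • (z + w))
    ⟨x, hx, y, hy, hxy, rfl⟩ ⟨z, hz, w, hw, hzw, rfl⟩
  have e : ‖(1 / 2 : ℝ) • (x + y) - (1 / 2 : ℝ) • (z + w)‖ = √2 / 2 := by
    have : (1 / 2 : ℝ) • (x + y) - (1 / 2 : ℝ) • (z + w) = (2 * s) • b i0 := by
      simp only [x, y, z, w]; module
    rw [this, norm_smul, b.norm_eq_one, Real.norm_of_nonneg (by positivity), hs]; ring
  linarith

end Pool.Agent.Helper18.ConstantWidth
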