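import Mathlib

set_option autoImplicit false

/-!
Grothendieck spaces in the sense of Arhangel'skii, and their products with countable spaces.
For a space `X`, the space `C_p(X)` is the subtype `{f : X → ℝ // Continuous f}` of the product
`X → ℝ`, with the subspace topology (topology of pointwise convergence).
-/

open Set Filter Topology

namespace Pool.Agent.Helper18.Grothendieck

universe u v

/-- `A ⊆ Z` is countably compact in `Z`: every infinite subset of `A` has an accumulation point
in `Z` (a point all of whose neighbourhoods contain a point of the subset other than itself). -/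
def CountablyCompactIn {Z : Type u} [TopologicalSpace Z] (A : Set Z) : Prop :=
  ∀ I : Set Z, I ⊆ A → I.Infinite → ∃ z : Z, AccPt z (𝓟 I)

/-- `Z` is a g-space: the closure in `Z` of every set countably compact in `Z` is compact. -/
def IsGSpace (Z : Type u) [TopologicalSpace Z] : Prop :=
  ∀ A : Set Z, CountablyCompactIn A → IsCompact (closure A)

/-- `X` is weakly Grothendieck: `C_p(X)` is a g-space. -/
def IsWeaklyGrothendieck (X : Type u) [TopologicalSpace X] : Prop :=
  IsGSpace {f : X → ℝ // Continuous f}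

/-- `X` is Grothendieck: every subspace of `C_p(X)` is a g-space. -/
def IsGrothendieck (X : Type u) [TopologicalSpace X] : Prop :=
  ∀ S : Set {f : X → ℝ // Continuous f}, IsGSpace S

/-- sequential closure property along a set -/
def SeqAt {Z : Type u} [TopologicalSpace Z] (B : Set Z) : Prop :=
  ∀ p ∈ closure B, ∃ b : ℕ → Z, (∀ n, b n ∈ B) ∧ Tendsto b atTop (𝓝 p)

lemma accPt_of_seq {Z : Type u} [TopologicalSpace Z] {b : ℕ → Z} (hb : Function.Injective b)
    {I : Set Z} (hI : ∀ n, b n ∈ I) {q : Z} (hq : ∀ V ∈ 𝓝 q, ∃ᶠ n in atTop, b n ∈ V) :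
    AccPt q (𝓟 I) := by
  rw [accPt_iff_nhds]
  intro V hV
  have h := hq V hV
  -- infinitely many n, at most one with `b n = q`
  by_contra hcon
  push Not at hcon
  have h1 : ∀ n, b n ∈ V → b n = q := fun n hn => hcon (b n) ⟨hn, hI n⟩
  obtain ⟨n, hn⟩ := h.exists
  have h2 : ∃ᶠ m in atTop, b m ∈ V ∧ n < m := h.and_eventually (eventually_gt_atTop n)
  obtain ⟨m, hm, hnm⟩ := h2.exists
  have := hb ((h1 n hn).trans (h1 m hm).symm)
  omega

/-- Claim 1 -/
lemma seqAt_of_hered {Z : Type u} [TopologicalSpace Z] [T2Space Z]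
    (h : ∀ S : Set Z, IsGSpace S) {K B : Set Z} (hK : IsCompact K) (hB : B ⊆ K) : SeqAt B := by
  intro p hp
  by_cases hpB : p ∈ B
  · exact ⟨fun _ => p, fun _ => hpB, tendsto_const_nhds⟩
  by_contra hcon
  push Not at hcon
  set S : Set Z := K \ {p} with hS
  have hBS : B ⊆ S := fun b hb => ⟨hB hb, fun hbp => hpB (hbp ▸ hb)⟩
  set B' : Set S := Subtype.val ⁻¹' B with hB'
  have hcc : CountablyCompactIn B' := by
    intro I hI hinf
    obtain ⟨b, hb⟩ : ∃ b : ℕ → I, Function.Injective b :=
      ⟨(hinf.natEmbedding I), (hinf.natEmbedding I).injective⟩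
    have hbB : ∀ n, ((b n).1 : Z) ∈ B := fun n => hI (b n).2
    have hnot := hcon (fun n => ((b n).1 : Z)) hbB
    obtain ⟨U, hUo, hpU, hU⟩ : ∃ U : Set Z, IsOpen U ∧ p ∈ U ∧
        ∃ᶠ n in atTop, ((b n).1 : Z) ∉ U := by
      by_contra hc
      push Not at hc
      apply hnot
      rw [tendsto_nhds]
      intro U hUo hpU
      exact hc U hUo hpU
    set F : Filter ℕ := atTop ⊓ 𝓟 {n | ((b n).1 : Z) ∉ U} with hF
    have : F.NeBot := by
      rw [hF]
      rw [Filter.frequently_iff_neBot] at hU
      exact hU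
    have hmap : Filter.map (fun n => ((b n).1 : Z)) F ≤ 𝓟 (K \ U) := by
      rw [Filter.le_principal_iff, Filter.mem_map]
      have : {n | ((b n).1 : Z) ∉ U} ∈ F := Filter.mem_inf_of_right (Filter.mem_principal_self _)
      filter_upwards [this] with n hn
      exact ⟨hB (hbB n), hn⟩
    obtain ⟨q, ⟨hqK, hqU⟩, hq⟩ := (hK.diff hUo) hmap
    have hqp : q ≠ p := fun hh => hqU (hh ▸ hpU)
    refine ⟨⟨q, hqK, hqp⟩, ?_⟩
    apply accPt_of_seq (b := fun n => (b n).1) (fun m n hmn => hb (Subtype.ext hmn))
      (fun n => (b n).2)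
    intro V hV
    obtain ⟨W, hW, hWV⟩ := (mem_nhds_subtype _ _ _).1 hV
    have h1 : ∃ᶠ z in Filter.map (fun n => ((b n).1 : Z)) F, z ∈ W := hq.frequently hW
    rw [Filter.frequently_map] at h1
    exact (h1.filter_mono inf_le_left).mono fun n hn => hWV hn
  have hcomp := h S B' hcc
  have hcomp' : IsCompact (Subtype.val '' closure B') := hcomp.image continuous_subtype_val
  have hsub : B ⊆ Subtype.val '' closure B' := by
    intro b hb
    exact ⟨⟨b, hBS hb⟩, subset_closure hb, rfl⟩
  obtain ⟨⟨q, hq1, hq2⟩, _, hqp⟩ := closure_minimal hsub hcomp'.isClosed hp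
  exact hq2 hqp

/-- Claim 2 -/
lemma seqAt_pi {X : Type u} {Y : Type v} [TopologicalSpace X] [Countable Y]
    (h : IsGrothendieck X) {K B : Set (Y → {f : X → ℝ // Continuous f})} (hK : IsCompact K)
    (hB : B ⊆ K) : SeqAt B := by
  intro p hp
  have := Encodable.ofCountable Y
  obtain ⟨w, hw0, c, hw, -⟩ := posSumOfEncodable (ε := (1 : ℝ)) one_pos Y
  have hws : Summable w := hw.summable
  let N : (Y → {f : X → ℝ // Continuous f}) → {f : X → ℝ // Continuous f} := fun f =>
    ⟨fun x => ∑' y, w y * min |(f y).1 x - (p y).1 x| 1, by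
      apply continuous_tsum (u := w)
      · intro y
        have h1 := (f y).2
        have h2 := (p y).2
        fun_prop
      · exact hws
      · intro y x
        rw [norm_mul, Real.norm_of_nonneg (hw0 y).le, Real.norm_of_nonneg (by positivity)]
        exact mul_le_of_le_one_right (hw0 y).le (min_le_right _ _)⟩
  have hNc : Continuous N := by
    apply Continuous.subtype_mk
    apply continuous_pi
    intro x
    apply continuous_tsum (u := w)
    · intro y
      have h1 : Continuous (fun f : Y → {f : X → ℝ // Continuous f} => (f y).1 x) :=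
        (continuous_apply x).comp (continuous_subtype_val.comp (continuous_apply y))
      exact continuous_const.mul ((h1.sub continuous_const).abs.min continuous_const)
    · exact hws
    · intro y f
      rw [norm_mul, Real.norm_of_nonneg (hw0 y).le, Real.norm_of_nonneg (by positivity)]
      exact mul_le_of_le_one_right (hw0 y).le (min_le_right _ _)
  have hNp : ∀ x, (N p).1 x = 0 := by
    intro x
    simp [N]
  obtain ⟨c, hc, hct⟩ := seqAt_of_hered h (hK.image hNc) (image_mono hB) (N p)
    (image_closure_subset_closure_image hNc ⟨p, hp, rfl⟩)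
  choose b hb hbc using hc
  refine ⟨b, hb, ?_⟩
  rw [tendsto_pi_nhds]
  intro y
  rw [tendsto_subtype_rng, tendsto_pi_nhds]
  intro x
  have h1 : Tendsto (fun n => (c n).1 x) atTop (𝓝 0) := by
    have := ((continuous_apply x).comp continuous_subtype_val).tendsto (N p)
    have h2 := this.comp hct
    simp only [Function.comp_def, hNp] at h2
    exact h2
  have h2 : ∀ n, w y * min |(b n y).1 x - (p y).1 x| 1 ≤ (c n).1 x := by
    intro n
    rw [← hbc n]
    have hsum : Summable (fun y => w y * min |(b n y).1 x - (p y).1 x| 1) := by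
      apply Summable.of_nonneg_of_le _ _ hws
      · intro y; have := hw0 y; positivity
      · intro y; exact mul_le_of_le_one_right (hw0 y).le (min_le_right _ _)
    exact hsum.le_tsum y (fun y' _ => by have := hw0 y'; positivity)
  have h3 : Tendsto (fun n => w y * min |(b n y).1 x - (p y).1 x| 1) atTop (𝓝 0) :=
    squeeze_zero (fun n => by have := hw0 y; positivity) h2 h1
  have h4 : Tendsto (fun n => min |(b n y).1 x - (p y).1 x| 1) atTop (𝓝 0) := by
    have := h3.const_mul (w y)⁻¹
    simp only [← mul_assoc, inv_mul_cancel₀ (hw0 y).ne', one_mul, mul_zero] at this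
    exact this
  have h5 : Tendsto (fun n => |(b n y).1 x - (p y).1 x|) atTop (𝓝 0) := by
    have hev : ∀ᶠ n in atTop, min |(b n y).1 x - (p y).1 x| 1 < 1 :=
      (tendsto_order.1 h4).2 1 one_pos
    apply h4.congr'
    filter_upwards [hev] with n hn
    rcases min_choice |(b n y).1 x - (p y).1 x| 1 with hh | hh
    · exact hh
    · rw [hh] at hn; exact absurd hn (lt_irrefl _)
  rw [tendsto_iff_dist_tendsto_zero]
  exact h5

lemma acc_inter_infinite {Z : Type u} [TopologicalSpace Z] [T1Space Z] {z : Z} {I U : Set Z}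
    (hz : AccPt z (𝓟 I)) (hU : U ∈ 𝓝 z) : (I ∩ U).Infinite := by
  intro hfin
  rw [accPt_iff_nhds] at hz
  have hV : U ∩ ((I ∩ U) \ {z})ᶜ ∈ 𝓝 z := by
    apply Filter.inter_mem hU
    apply IsOpen.mem_nhds
    · exact (hfin.subset sdiff_subset).isClosed.isOpen_compl
    · exact fun hh => hh.2 rfl
  obtain ⟨y, ⟨⟨hyU, hyn⟩, hyI⟩, hyz⟩ := hz _ hV
  exact hyn ⟨⟨hyI, hyU⟩, hyz⟩

lemma exists_preimage_of_tendsto {Z : Type u} {W : Type v} [TopologicalSpace Z] [T1Space Z]
    [TopologicalSpace W] [T2Space W] {φ : Z → W} (hφ : Continuous φ) {A : Set Z}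
    (hA : CountablyCompactIn A) {a : ℕ → Z} (ha : ∀ n, a n ∈ A) {w : W}
    (hw : Tendsto (fun n => φ (a n)) atTop (𝓝 w)) : ∃ z, φ z = w := by
  by_cases hfin : (range a).Finite
  · have hfin' : (range (fun n => φ (a n))).Finite := by
      have : range (fun n => φ (a n)) = φ '' range a := by
        rw [← range_comp]; rfl
      rw [this]; exact hfin.image _
    obtain ⟨n, hn⟩ := hfin'.isClosed.mem_of_tendsto hw (Eventually.of_forall fun n => ⟨n, rfl⟩)
    exact ⟨a n, hn⟩
  · obtain ⟨z, hz⟩ := hA (range a) (by rintro _ ⟨n, rfl⟩; exact ha n) hfin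
    refine ⟨z, ?_⟩
    by_contra hne
    obtain ⟨U, V, hU, hV, hzU, hpV, hUV⟩ := t2_separation hne
    have hinf := acc_inter_infinite hz ((hU.preimage hφ).mem_nhds hzU)
    have hev : ∀ᶠ n in atTop, φ (a n) ∈ V := hw (hV.mem_nhds hpV)
    obtain ⟨M, hM⟩ := eventually_atTop.1 hev
    apply hinf
    apply ((Finset.range M).finite_toSet.image a).subset
    rintro _ ⟨⟨n, rfl⟩, hn⟩
    refine ⟨n, ?_, rfl⟩
    simp only [Finset.coe_range, mem_Iio]
    by_contra hMn
    push Not at hMn
    exact (disjoint_left.1 hUV) hn (hM n hMn)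

/-- a criterion for being hereditarily a g-space -/
lemma hered_of {Z : Type u} [TopologicalSpace Z] [T2Space Z]
    (h : ∀ A : Set Z, CountablyCompactIn A → IsCompact (closure A) ∧ SeqAt A) (S : Set Z) :
    IsGSpace S := by
  intro A hA
  set A' : Set Z := Subtype.val '' A with hA'
  have hcc : CountablyCompactIn A' := by
    intro I hI hinf
    have hpre : ((Subtype.val : S → Z) '' (Subtype.val ⁻¹' I)) = I := by
      rw [Subtype.image_preimage_coe]
      apply inter_eq_right.2
      intro z hz
      obtain ⟨s, _, rfl⟩ := hI hz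
      exact s.2
    obtain ⟨z, hz⟩ := hA (Subtype.val ⁻¹' I) (by
      intro s hs
      obtain ⟨s', hs', he⟩ := hI hs
      rwa [Subtype.ext he] at hs') (by
      intro hfin
      exact hinf (hpre ▸ hfin.image _))
    refine ⟨z.1, ?_⟩
    rw [accPt_iff_nhds] at hz ⊢
    intro U hU
    obtain ⟨y, ⟨hy1, hy2⟩, hyz⟩ := hz (Subtype.val ⁻¹' U) (continuous_subtype_val.continuousAt hU)
    exact ⟨y.1, ⟨hy1, hy2⟩, fun he => hyz (Subtype.ext he)⟩
  obtain ⟨hcomp, hseq⟩ := h A' hcc
  have hsub : closure A' ⊆ S := by
    intro p hp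
    obtain ⟨b, hb, hbp⟩ := hseq p hp
    choose a ha hab using hb
    obtain ⟨z, rfl⟩ := exists_preimage_of_tendsto (φ := (Subtype.val : S → Z))
      continuous_subtype_val hA ha (w := p) (by simpa only [hab] using hbp)
    exact z.2
  rw [Topology.IsEmbedding.subtypeVal.isCompact_iff]
  have : (Subtype.val : S → Z) '' closure A = closure A' := by
    rw [Topology.IsEmbedding.subtypeVal.closure_eq_preimage_closure_image,
      Subtype.image_preimage_coe]
    exact inter_eq_right.2 hsub
  rw [this]; exact hcomp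

lemma gspace_of_hered {Z : Type u} [TopologicalSpace Z] (h : ∀ S : Set Z, IsGSpace S) :
    IsGSpace Z := by
  intro A hA
  have hcc : CountablyCompactIn ((Subtype.val : ↥(univ : Set Z) → Z) ⁻¹' A) := by
    intro I hI hinf
    obtain ⟨z, hz⟩ := hA (Subtype.val '' I) (by rintro _ ⟨s, hs, rfl⟩; exact hI hs)
      (hinf.image Subtype.val_injective.injOn)
    refine ⟨⟨z, mem_univ _⟩, ?_⟩
    rw [accPt_iff_nhds] at hz ⊢
    intro U hU
    obtain ⟨W, hW, hWU⟩ := (mem_nhds_subtype _ _ _).1 hU
    obtain ⟨y, ⟨hy1, ⟨s, hs, rfl⟩⟩, hyz⟩ := hz W hW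
    exact ⟨s, ⟨hWU hy1, hs⟩, fun he => hyz (congrArg Subtype.val he)⟩
  have hcomp := h univ _ hcc
  have h2 := hcomp.image (continuous_subtype_val)
  have h3 : Subtype.val '' closure ((Subtype.val : ↥(univ : Set Z) → Z) ⁻¹' A) = closure A := by
    rw [Topology.IsEmbedding.subtypeVal.closure_eq_preimage_closure_image,
      Subtype.image_preimage_coe, Subtype.image_preimage_coe]
    simp
  rwa [h3] at h2

/-- the canonical embedding of `C_p(X × Y)` in `C_p(X)^Y` -/
def emb {X : Type u} {Y : Type v} [TopologicalSpace X] [TopologicalSpace Y]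
    (f : {f : X × Y → ℝ // Continuous f}) : Y → {f : X → ℝ // Continuous f} :=
  fun y => ⟨fun x => f.1 (x, y), f.2.comp (by fun_prop)⟩

lemma emb_isEmbedding {X : Type u} {Y : Type v} [TopologicalSpace X] [TopologicalSpace Y] :
    Topology.IsEmbedding (emb (X := X) (Y := Y)) := by
  constructor
  · constructor
    have h1 : (instTopologicalSpaceSubtype : TopologicalSpace {f : X × Y → ℝ // Continuous f}) =
        TopologicalSpace.induced (fun f (q : X × Y) => f.1 q) Pi.topologicalSpace := rfl
    rw [h1]
    have h2 : (Pi.topologicalSpace : TopologicalSpace (Y → {f : X → ℝ // Continuous f})) =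
        TopologicalSpace.induced (fun g (y : Y) (x : X) => (g y).1 x) Pi.topologicalSpace := by
      simp only [Pi.topologicalSpace, instTopologicalSpaceSubtype, induced_iInf, induced_compose]
      rfl
    rw [h2, induced_compose]
    simp only [Pi.topologicalSpace, induced_iInf, induced_compose]
    rw [iInf_prod, iInf_comm]
    rfl
  · intro f g h
    apply Subtype.ext
    funext ⟨x, y⟩
    exact congrFun (congrArg Subtype.val (congrFun h y)) x

/-- The product of a Grothendieck space with a countable space is Grothendieck. -/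
theorem prod_countable {X : Type u} {Y : Type v} [TopologicalSpace X] [TopologicalSpace Y]
    [Countable Y] (h : IsGrothendieck X) : IsGrothendieck (X × Y) := by
  apply hered_of
  intro A hA
  have hgX : IsGSpace {f : X → ℝ // Continuous f} := gspace_of_hered h
  -- coordinatewise closures
  have hcc : ∀ y : Y, CountablyCompactIn ((fun f => emb f y) '' A) := by
    intro y I hI hinf
    have hφ : Continuous (fun f : {f : X × Y → ℝ // Continuous f} => emb f y) :=
      (continuous_apply y).comp emb_isEmbedding.continuous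
    have hI' : ∀ i ∈ I, ∃ f ∈ A, emb f y = i := fun i hi => hI hi
    have : Nonempty {f : X × Y → ℝ // Continuous f} := ⟨⟨fun _ => 0, continuous_const⟩⟩
    choose! l hlA hl using hI'
    have hinj : InjOn l I := by
      intro i hi j hj hij
      rw [← hl i hi, ← hl j hj, hij]
    obtain ⟨z, hz⟩ := hA (l '' I) (by rintro _ ⟨i, hi, rfl⟩; exact hlA i hi) (hinf.image hinj)
    refine ⟨emb z y, ?_⟩
    rw [accPt_iff_nhds]
    intro U hU
    have h1 := acc_inter_infinite hz (hφ.continuousAt hU)
    have h2 : InjOn (fun f : {f : X × Y → ℝ // Continuous f} => emb f y)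
        (l '' I ∩ (fun f => emb f y) ⁻¹' U) := by
      rintro _ ⟨⟨i, hi, rfl⟩, _⟩ _ ⟨⟨j, hj, rfl⟩, _⟩ hij
      simp only at hij
      rw [hl i hi, hl j hj] at hij
      rw [hij]
    obtain ⟨w, hw, hwz⟩ := (h1.image h2).exists_notMem_finite (finite_singleton (emb z y))
    obtain ⟨_, ⟨⟨i, hi, rfl⟩, hiU⟩, rfl⟩ := hw
    refine ⟨emb (l i) y, ⟨hiU, ?_⟩, fun he => hwz he⟩
    have : emb (l i) y = i := hl i hi
    rw [this]; exact hi
  set K : Set (Y → {f : X → ℝ // Continuous f}) :=
    Set.pi univ fun y => closure ((fun f => emb f y) '' A) with hKdef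
  have hK : IsCompact K := isCompact_univ_pi fun y => hgX _ (hcc y)
  have hAK : emb '' A ⊆ K := by
    rintro _ ⟨f, hf, rfl⟩ y _
    exact subset_closure ⟨f, hf, rfl⟩
  have hseq := seqAt_pi h hK hAK
  have hrange : closure (emb '' A) ⊆ range (emb (X := X) (Y := Y)) := by
    intro F hF
    obtain ⟨b, hb, hbF⟩ := hseq F hF
    choose a ha hab using hb
    exact exists_preimage_of_tendsto emb_isEmbedding.continuous hA ha
      (by simpa only [hab] using hbF)
  constructor
  · rw [emb_isEmbedding.isCompact_iff]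
    have : emb '' closure A = closure (emb '' A) := by
      rw [emb_isEmbedding.closure_eq_preimage_closure_image, image_preimage_eq_inter_range]
      exact inter_eq_left.2 hrange
    rw [this]
    exact hK.of_isClosed_subset isClosed_closure (closure_minimal hAK hK.isClosed)
  · intro p hp
    have hp' : emb p ∈ closure (emb '' A) :=
      image_closure_subset_closure_image emb_isEmbedding.continuous ⟨p, hp, rfl⟩
    obtain ⟨b, hb, hbF⟩ := hseq _ hp'
    choose a ha hab using hb
    refine ⟨a, ha, ?_⟩
    rw [emb_isEmbedding.tendsto_nhds_iff]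
    have : emb ∘ a = b := by funext n; exact hab n
    rw [this]; exact hbF

end Pool.Agent.Helper18.Grothendieck
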