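import Mathlib

set_option autoImplicit false

open Set Topology Filter

namespace Pool.Agent.Helper18.PL

/-- sixth root of unity -/
noncomputable def om : ℂ := Complex.exp (Complex.I * (Real.pi / 3))

theorem om6 : om ^ 6 = 1 := by
  rw [om, ← Complex.exp_nat_mul]
  have : ((6 : ℕ) : ℂ) * (Complex.I * (Real.pi / 3)) = 2 * Real.pi * Complex.I := by
    push_cast; ring
  rw [this, Complex.exp_two_pi_mul_I]

theorem om3 : om ^ 3 = -1 := by
  rw [om, ← Complex.exp_nat_mul]
  have : ((3 : ℕ) : ℂ) * (Complex.I * (Real.pi / 3)) = Real.pi * Complex.I := by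
    push_cast; ring
  rw [this, Complex.exp_pi_mul_I]

theorem om_norm : ‖om‖ = 1 := by
  have : om = Complex.exp (((Real.pi / 3 : ℝ) : ℂ) * Complex.I) := by
    rw [om]; congr 1; push_cast; ring
  rw [this, Complex.norm_exp_ofReal_mul_I]

theorem om_ne : om ≠ 0 := Complex.exp_ne_zero _

theorem aux1 (A B : ℂ) (hA : A ≠ 0) : B / A - 1 = (B - A) / A := by field_simp

theorem aux2 (A B C : ℂ) (hA : A ≠ 0) : A / C * (B / A) = B / C := by field_simp

/-- continuous logarithm on the disc -/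
theorem exists_log (F : ℂ → ℂ) (hF : ContinuousOn F (Metric.closedBall 0 1))
    (hne : ∀ z ∈ Metric.closedBall (0:ℂ) 1, F z ≠ 0) :
    ∃ l : ℂ → ℂ, ContinuousOn l (Metric.closedBall 0 1) ∧
      ∀ z ∈ Metric.closedBall (0:ℂ) 1, Complex.exp (l z) = F z / F 0 := by
  have hcomp : IsCompact (Metric.closedBall (0:ℂ) 1) := isCompact_closedBall 0 1
  have hne' : (Metric.closedBall (0:ℂ) 1).Nonempty := ⟨0, by simp⟩
  obtain ⟨z0, hz0, hz0'⟩ := hcomp.exists_isMinOn hne' (f := fun z => ‖F z‖) hF.norm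
  have hmpos : 0 < ‖F z0‖ := norm_pos_iff.mpr (hne z0 hz0)
  have hunif := hcomp.uniformContinuousOn_of_continuous hF
  rw [Metric.uniformContinuousOn_iff] at hunif
  obtain ⟨δ, hδ, hδ'⟩ := hunif ‖F z0‖ hmpos
  obtain ⟨n, hn⟩ := exists_nat_one_div_lt hδ
  set N : ℕ := n + 1 with hN
  have hN0 : (0:ℝ) < N := by positivity
  -- points
  have hpt : ∀ (z : ℂ) (k : ℕ), z ∈ Metric.closedBall (0:ℂ) 1 → k ≤ N →
      ((k:ℂ)/(N:ℂ)) * z ∈ Metric.closedBall (0:ℂ) 1 := by
    intro z k hz hk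
    rw [mem_closedBall_zero_iff] at hz ⊢
    rw [norm_mul, norm_div, Complex.norm_natCast, Complex.norm_natCast]
    have : (k:ℝ)/(N:ℝ) ≤ 1 := by
      rw [div_le_one hN0]; exact_mod_cast hk
    have h0 : 0 ≤ (k:ℝ)/(N:ℝ) := by positivity
    nlinarith [norm_nonneg z]
  have hratio : ∀ (z : ℂ) (k : ℕ), z ∈ Metric.closedBall (0:ℂ) 1 → k < N →
      F (((k+1 : ℕ):ℂ)/(N:ℂ) * z) / F ((k:ℂ)/(N:ℂ) * z) ∈ Complex.slitPlane := by
    intro z k hz hk
    have h1 := hpt z (k+1) hz hk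
    have h2 := hpt z k hz hk.le
    have hd : dist (((k+1 : ℕ):ℂ)/(N:ℂ) * z) ((k:ℂ)/(N:ℂ) * z) < δ := by
      rw [dist_eq_norm]
      have : ((k+1 : ℕ):ℂ)/(N:ℂ) * z - (k:ℂ)/(N:ℂ) * z = (1/(N:ℂ)) * z := by
        push_cast; ring
      rw [this, norm_mul, norm_div, Complex.norm_natCast, norm_one]
      rw [mem_closedBall_zero_iff] at hz
      have h3 : 1/(N:ℝ) * ‖z‖ ≤ 1/(N:ℝ) := by
        have : 0 ≤ 1/(N:ℝ) := by positivity
        nlinarith [norm_nonneg z]
      refine lt_of_le_of_lt h3 ?_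
      rw [hN]; push_cast; exact hn
    have h3 := hδ' _ h1 _ h2 hd
    have h4 : ‖F z0‖ ≤ ‖F ((k:ℂ)/(N:ℂ) * z)‖ := hz0' h2
    have h5 := hne _ h2
    have h6 : 0 < ‖F ((k:ℂ)/(N:ℂ) * z)‖ := norm_pos_iff.mpr h5
    rw [dist_eq_norm] at h3
    have h7 : ‖F (((k+1 : ℕ):ℂ)/(N:ℂ) * z) / F ((k:ℂ)/(N:ℂ) * z) - 1‖ < 1 := by
      have : F (((k+1 : ℕ):ℂ)/(N:ℂ) * z) / F ((k:ℂ)/(N:ℂ) * z) - 1 =
          (F (((k+1 : ℕ):ℂ)/(N:ℂ) * z) - F ((k:ℂ)/(N:ℂ) * z)) / F ((k:ℂ)/(N:ℂ) * z) := aux1 _ _ h5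
      rw [this, norm_div, div_lt_one h6]
      exact h3.trans_le h4
    rw [Complex.mem_slitPlane_iff]
    left
    have h8 := (abs_lt.mp ((Complex.abs_re_le_norm _).trans_lt h7)).1
    rw [Complex.sub_re, Complex.one_re] at h8
    linarith
  have hcont : ∀ k : ℕ, k ≤ N → ContinuousOn (fun z => F ((k:ℂ)/(N:ℂ) * z)) (Metric.closedBall 0 1) := by
    intro k hk
    exact hF.comp (by fun_prop) (fun z hz => hpt z k hz hk)
  refine ⟨fun z => ∑ k ∈ Finset.range N, Complex.log (F (((k+1 : ℕ):ℂ)/(N:ℂ) * z) / F ((k:ℂ)/(N:ℂ) * z)),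
    ?_, ?_⟩
  · refine continuousOn_finsetSum _ fun k hk => ?_
    rw [Finset.mem_range] at hk
    refine ContinuousOn.clog ?_ (fun z hz => hratio z k hz hk)
    exact (hcont (k+1) hk).div (hcont k hk.le) (fun z hz => hne _ (hpt z k hz hk.le))
  · intro z hz
    rw [Complex.exp_sum]
    have hprod : ∀ j : ℕ, j ≤ N → ∏ k ∈ Finset.range j,
        Complex.exp (Complex.log (F (((k+1 : ℕ):ℂ)/(N:ℂ) * z) / F ((k:ℂ)/(N:ℂ) * z)))
        = F ((j:ℂ)/(N:ℂ) * z) / F 0 := by
      intro j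
      induction j with
      | zero =>
        intro _
        simp only [Finset.range_zero, Finset.prod_empty, Nat.cast_zero, zero_div, zero_mul]
        rw [div_self (hne 0 (by simp))]
      | succ j ih =>
        intro hj
        rw [Finset.prod_range_succ, ih (by omega)]
        have h5 := hne _ (hpt z j hz (by omega))
        have h6 := hne _ (hpt z (j+1) hz hj)
        have h7 := hne 0 (by simp)
        rw [Complex.exp_log (div_ne_zero h6 h5)]
        exact aux2 _ _ _ h5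
    rw [hprod N le_rfl]
    have hN' : (N:ℂ) ≠ 0 := by exact_mod_cast hN0.ne'
    rw [div_self hN', one_mul]

/-- continuous integer valued function on the line is constant -/
theorem int_const (f : ℝ → ℝ) (hf : Continuous f) (hint : ∀ x, ∃ k : ℤ, f x = k) (x y : ℝ) :
    f x = f y := by
  by_contra hne
  wlog hlt : f x < f y generalizing x y
  · exact this y x (fun h => hne h.symm) (lt_of_le_of_ne (not_lt.mp hlt) (fun h => hne h.symm))
  obtain ⟨a, ha⟩ := hint x
  obtain ⟨b, hb⟩ := hint y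
  have hab : (a:ℝ) + 1 ≤ b := by
    rw [ha, hb] at hlt
    have : a < b := by exact_mod_cast hlt
    exact_mod_cast this
  obtain ⟨t, ht⟩ := mem_range_of_exists_le_of_exists_ge hf (c := (a:ℝ) + 1/2)
    ⟨x, by rw [ha]; linarith⟩ ⟨y, by rw [hb]; linarith⟩
  obtain ⟨c, hc⟩ := hint t
  rw [hc] at ht
  have h1 : (2 * c : ℝ) = 2 * a + 1 := by linarith
  have h2 : 2 * c = 2 * a + 1 := by exact_mod_cast h1
  omega

/-- the degree argument -/
theorem no_map (F : ℂ → ℂ) (hF : ContinuousOn F (Metric.closedBall 0 1))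
    (hrot : ∀ z : ℂ, ‖z‖ = 1 → om^2 * F (om * z) = F z) :
    ∃ z ∈ Metric.closedBall (0:ℂ) 1, F z = 0 := by
  by_contra hcon
  push Not at hcon
  obtain ⟨l, hl, hl'⟩ := exists_log F hF hcon
  -- circle parametrisation
  have hmem : ∀ t : ℝ, Complex.exp (t * Complex.I) ∈ Metric.closedBall (0:ℂ) 1 := by
    intro t
    rw [mem_closedBall_zero_iff, Complex.norm_exp_ofReal_mul_I]
  have hLc : Continuous (fun t : ℝ => l (Complex.exp (t * Complex.I))) := by
    have : ContinuousOn (fun t : ℝ => l (Complex.exp (t * Complex.I))) univ :=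
      hl.comp (by fun_prop) (fun t _ => hmem t)
    exact continuousOn_univ.mp this
  set L : ℝ → ℂ := fun t => l (Complex.exp (t * Complex.I)) with hL
  have hexp : ∀ t : ℝ, Complex.exp (L t) = F (Complex.exp (t * Complex.I)) / F 0 := fun t => hl' _ (hmem t)
  have hF0 : F 0 ≠ 0 := hcon 0 (by simp)
  have hom : ∀ t : ℝ, Complex.exp (((t + Real.pi/3 : ℝ) : ℂ) * Complex.I) = om * Complex.exp (t * Complex.I) := by
    intro t
    rw [om, ← Complex.exp_add]
    congr 1
    push_cast; ring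
  have hdiff : ∀ t : ℝ, Complex.exp (L (t + Real.pi/3) - L t + (2 * Real.pi / 3) * Complex.I) = 1 := by
    intro t
    rw [Complex.exp_add, Complex.exp_sub, hexp, hexp, hom]
    have h1 := hrot (Complex.exp (t * Complex.I)) (Complex.norm_exp_ofReal_mul_I t)
    have h2 := hcon _ (hmem t)
    have h3 := hcon _ (by have := hmem (t + Real.pi/3); rwa [hom] at this : om * Complex.exp (t * Complex.I) ∈ _)
    have h4 : Complex.exp ((2 * Real.pi / 3) * Complex.I) = om^2 := by
      rw [om, ← Complex.exp_nat_mul]; congr 1; push_cast; ring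
    rw [h4]
    field_simp
    linear_combination h1
  set g : ℝ → ℝ := fun t => ((L (t + Real.pi/3) - L t + (2 * Real.pi / 3) * Complex.I)).im / (2 * Real.pi) with hg
  have hgc : Continuous g := by
    have : Continuous (fun t : ℝ => L (t + Real.pi/3)) := hLc.comp (by fun_prop)
    have h2 : Continuous (fun t : ℝ => L (t + Real.pi/3) - L t + (2 * Real.pi / 3) * Complex.I) :=
      (this.sub hLc).add continuous_const
    exact (Complex.continuous_im.comp h2).div_const _
  have hgi : ∀ t, ∃ k : ℤ, g t = k := by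
    intro t
    obtain ⟨k, hk⟩ := Complex.exp_eq_one_iff.mp (hdiff t)
    refine ⟨k, ?_⟩
    simp only [hg]
    rw [hk]
    have hpi := Real.pi_pos
    simp
  -- constancy
  obtain ⟨k, hk⟩ := hgi 0
  have hall : ∀ t, g t = k := fun t => (int_const g hgc hgi t 0).trans hk
  have hstep : ∀ t, (L (t + Real.pi/3)).im = (L t).im + 2 * Real.pi * k - 2 * Real.pi / 3 := by
    intro t
    have h1 := hall t
    simp only [hg] at h1
    have hpi := Real.pi_pos
    rw [div_eq_iff (by positivity)] at h1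
    simp only [Complex.add_im, Complex.sub_im, Complex.mul_im, Complex.I_im, Complex.I_re] at h1
    have h2 : ((2 * Real.pi / 3 : ℂ)).re = 2 * Real.pi / 3 := by
      have : (2 * Real.pi / 3 : ℂ) = ((2 * Real.pi / 3 : ℝ) : ℂ) := by push_cast; ring
      rw [this, Complex.ofReal_re]
    rw [h2] at h1
    linarith
  have h6 : L (0 + Real.pi/3 + Real.pi/3 + Real.pi/3 + Real.pi/3 + Real.pi/3 + Real.pi/3) = L 0 := by
    simp only [hL]
    have : (0 + Real.pi/3 + Real.pi/3 + Real.pi/3 + Real.pi/3 + Real.pi/3 + Real.pi/3 : ℝ) = 2 * Real.pi := by ring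
    have e1 : Complex.exp (((2 * Real.pi : ℝ) : ℂ) * Complex.I) = 1 := by
      push_cast; exact Complex.exp_two_pi_mul_I
    have e0 : Complex.exp (((0 : ℝ) : ℂ) * Complex.I) = 1 := by simp
    rw [this, e1, e0]
  have h7 := congrArg Complex.im h6
  rw [hstep, hstep, hstep, hstep, hstep, hstep] at h7
  have hpi := Real.pi_pos
  have h8 : (6 * (2 * Real.pi * k - 2 * Real.pi / 3)) = 0 := by linarith
  have h9 : (3 * (k:ℝ) - 1) * Real.pi = 0 := by linarith
  rcases mul_eq_zero.mp h9 with h | h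
  · have : 3 * k - 1 = 0 := by exact_mod_cast h
    omega
  · exact hpi.ne' h

end Pool.Agent.Helper18.PL
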