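import Pool.Agent.Helper18.PL1

set_option autoImplicit false

open Set Topology Filter

namespace Pool.Agent.Helper18.PL

/-- annulus region -/
def An : Set (ℂ × ℂ) := {u | 1/2 ≤ ‖u‖ ∧ ‖u‖ ≤ 1}

theorem An_compact : IsCompact An := by
  refine Metric.isCompact_of_isClosed_isBounded ?_ ?_
  · exact (isClosed_le continuous_const continuous_norm).inter (isClosed_le continuous_norm continuous_const)
  · exact (Metric.isBounded_closedBall (x := (0 : ℂ × ℂ)) (r := 1)).subset fun x hx => by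
      rw [mem_closedBall_zero_iff]; exact hx.2

theorem smul_An (c : ℂ) (hc : ‖c‖ = 1) (u : ℂ × ℂ) (hu : u ∈ An) : c • u ∈ An := by
  unfold An at *
  simp only [mem_ofPred_eq] at *
  rw [norm_smul, hc, one_mul]; exact hu

/-- radial function -/
theorem exists_rho (G : ℂ × ℂ → ℝ) (hG : Continuous G) (t0 c : ℝ) (ht0 : 0 < t0) (hG0 : G 0 < c)
    (hmono : ∀ u ∈ An, StrictMonoOn (fun t : ℝ => G (t • u)) (Icc 0 t0))
    (hbig : ∀ u ∈ An, c < G (t0 • u)) :
    ∃ ρ : ℂ × ℂ → ℝ, ContinuousOn ρ An ∧ ∀ u ∈ An, 0 < ρ u ∧ ρ u ≤ t0 ∧ G (ρ u • u) = c := by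
  have hray : ∀ u : ℂ × ℂ, Continuous (fun t : ℝ => G (t • u)) := fun u => hG.comp (by fun_prop)
  have hex : ∀ u ∈ An, ∃ r : ℝ, 0 < r ∧ r < t0 ∧ G (r • u) = c := by
    intro u hu
    obtain ⟨r, hr, hr'⟩ := intermediate_value_Icc ht0.le (hray u).continuousOn
      (show c ∈ Icc (G ((0:ℝ) • u)) (G (t0 • u)) by
        rw [zero_smul]; exact ⟨hG0.le, (hbig u hu).le⟩)
    refine ⟨r, lt_of_le_of_ne hr.1 ?_, lt_of_le_of_ne hr.2 ?_, hr'⟩
    · rintro rfl
      simp only [zero_smul] at hr'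
      exact hG0.ne hr'
    · rintro rfl
      exact (hbig u hu).ne' hr'
  choose! ρ h1 h2 h3 using hex
  refine ⟨ρ, ?_, fun u hu => ⟨h1 u hu, (h2 u hu).le, h3 u hu⟩⟩
  intro u0 hu0
  rw [Metric.continuousWithinAt_iff']
  intro ε hε
  set η := min (ε/2) (min (ρ u0 / 2) ((t0 - ρ u0)/2)) with hη
  have a1 := h1 u0 hu0
  have a2 := h2 u0 hu0
  have hη0 : 0 < η := by
    have : 0 < (t0 - ρ u0)/2 := by linarith
    positivity
  have b1 : η ≤ ε/2 := min_le_left _ _
  have b2 : η ≤ ρ u0 / 2 := (min_le_right _ _).trans (min_le_left _ _)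
  have b3 : η ≤ (t0 - ρ u0)/2 := (min_le_right _ _).trans (min_le_right _ _)
  have c1 : G ((ρ u0 - η) • u0) < c := by
    rw [← h3 u0 hu0]
    exact hmono u0 hu0 ⟨by linarith, by linarith⟩ ⟨by linarith, by linarith⟩ (by linarith)
  have c2 : c < G ((ρ u0 + η) • u0) := by
    have := hmono u0 hu0 (a := ρ u0) (b := ρ u0 + η) ⟨by linarith, by linarith⟩ ⟨by linarith, by linarith⟩
      (by linarith)
    simp only at this
    rwa [h3 u0 hu0] at this
  have d1 : ∀ᶠ u in 𝓝[An] u0, G ((ρ u0 - η) • u) < c :=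
    ((hG.comp (by fun_prop : Continuous fun u : ℂ × ℂ => (ρ u0 - η) • u)).continuousAt.eventually_lt
      continuousAt_const c1).filter_mono nhdsWithin_le_nhds
  have d2 : ∀ᶠ u in 𝓝[An] u0, c < G ((ρ u0 + η) • u) :=
    (continuousAt_const.eventually_lt
      (hG.comp (by fun_prop : Continuous fun u : ℂ × ℂ => (ρ u0 + η) • u)).continuousAt c2).filter_mono
        nhdsWithin_le_nhds
  filter_upwards [d1, d2, self_mem_nhdsWithin] with u e1 e2 hu
  have f1 := h1 u hu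
  have f2 := h2 u hu
  have f3 := h3 u hu
  rw [Real.dist_eq, abs_lt]
  constructor
  · by_contra hcon
    have hle : ρ u ≤ ρ u0 - η := by linarith
    have := (hmono u hu).monotoneOn (a := ρ u) (b := ρ u0 - η) ⟨f1.le, f2.le⟩ ⟨by linarith, by linarith⟩ hle
    linarith
  · by_contra hcon
    have hle : ρ u0 + η ≤ ρ u := by linarith
    have := (hmono u hu).monotoneOn (a := ρ u0 + η) (b := ρ u) ⟨by linarith, by linarith⟩ ⟨f1.le, f2.le⟩ hle
    linarith

/-- discrete harmonics -/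
noncomputable def hat (Φ : ℂ × ℂ → ℝ) (j : ℕ) (u : ℂ × ℂ) : ℂ :=
  ∑ k ∈ Finset.range 6, (Φ (om^k • u) : ℂ) * om^(j*k)

theorem hat_shift (Φ : ℂ × ℂ → ℝ) (j : ℕ) (u : ℂ × ℂ) : om^j * hat Φ j (om • u) = hat Φ j u := by
  simp only [hat, Finset.sum_range_succ, Finset.sum_range_zero, smul_smul]
  have e6 : om^5 * om = 1 := by rw [← pow_succ]; exact om6
  have e7 : om^(j*6) = 1 := by rw [mul_comm, pow_mul, om6, one_pow]
  have c0 : om^0 * om = om^1 := by ring
  have c1 : om^1 * om = om^2 := by ring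
  have c2 : om^2 * om = om^3 := by ring
  have c3 : om^3 * om = om^4 := by ring
  have c4 : om^4 * om = om^5 := by ring
  rw [c0, c1, c2, c3, c4, e6, pow_zero]
  have : (Φ ((1:ℂ) • u) : ℂ) * om^(j*0) = (Φ ((1:ℂ) • u) : ℂ) * om^(j*6) := by rw [e7, mul_zero, pow_zero]
  rw [this]
  ring

theorem hat_cont (Φ : ℂ × ℂ → ℝ) (hΦ : ContinuousOn Φ An) (j : ℕ) : ContinuousOn (hat Φ j) An := by
  unfold hat
  refine continuousOn_finsetSum _ fun k _ => ?_
  refine ContinuousOn.mul ?_ continuousOn_const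
  refine Complex.continuous_ofReal.comp_continuousOn ?_
  refine hΦ.comp (by fun_prop) fun u hu => smul_An _ (by rw [norm_pow, om_norm, one_pow]) u hu

/-- the linear coefficient -/
noncomputable def den (ρ : ℂ × ℂ → ℝ) (u : ℂ × ℂ) : ℂ :=
  hat ρ 0 u * hat ρ 0 u - hat ρ 2 u * (starRingEnd ℂ) (hat ρ 2 u)
noncomputable def bc (ρ H : ℂ × ℂ → ℝ) (u : ℂ × ℂ) : ℂ :=
  2 * (hat ρ 0 u * hat H 1 u - hat ρ 2 u * (starRingEnd ℂ) (hat H 1 u)) / den ρ u
noncomputable def sc (ρ H : ℂ × ℂ → ℝ) (u : ℂ × ℂ) : ℂ :=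
  hat H 2 u - ((starRingEnd ℂ) (bc ρ H u) * hat ρ 3 u + bc ρ H u * hat ρ 1 u) / 2

theorem om_re : om = ⟨1/2, √3/2⟩ := by
  have : om = Complex.exp (((Real.pi / 3 : ℝ) : ℂ) * Complex.I) := by
    rw [om]; congr 1; push_cast; ring
  rw [this]
  apply Complex.ext
  · rw [Complex.exp_ofReal_mul_I_re, Real.cos_pi_div_three]
  · rw [Complex.exp_ofReal_mul_I_im, Real.sin_pi_div_three]

theorem om2 : om^2 = om - 1 := by
  have h3 : √3 * √3 = (3:ℝ) := Real.mul_self_sqrt (by norm_num)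
  rw [om_re, sq]
  apply Complex.ext
  · simp only [Complex.mul_re, Complex.sub_re, Complex.one_re]; linarith
  · simp only [Complex.mul_im, Complex.sub_im, Complex.one_im]; ring

theorem conj_om : (starRingEnd ℂ) om = 1 - om := by
  rw [om_re]
  apply Complex.ext
  · simp; norm_num
  · simp

theorem om_conj : om * (starRingEnd ℂ) om = 1 := by
  rw [conj_om]; linear_combination -om2

/-- sum forms -/
theorem seq_formula (r : ℕ → ℝ) :
    ∑ k ∈ Finset.range 6, (r k : ℂ) * om^(0*k) = r 0 + r 1 + r 2 + r 3 + r 4 + r 5 ∧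
    ∑ k ∈ Finset.range 6, (r k : ℂ) * om^(1*k) = (r 0 - r 3) + (r 1 - r 4) * om + (r 2 - r 5) * (om - 1) ∧
    ∑ k ∈ Finset.range 6, (r k : ℂ) * om^(2*k) = (r 0 + r 3) + (r 1 + r 4) * (om - 1) - (r 2 + r 5) * om := by
  have e2 := om2
  have e3 := om3
  have e4 : om^4 = -om := by linear_combination om * e3
  have e5 : om^5 = -(om - 1) := by linear_combination om^2 * e3 - e2
  have e6 := om6
  have e8 : om^8 = om - 1 := by linear_combination om^2 * e6 + e2
  have e10 : om^10 = -om := by linear_combination om^4 * e6 + e4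
  refine ⟨?_, ?_, ?_⟩
  · simp only [Finset.sum_range_succ, Finset.sum_range_zero]; simp
  · simp only [Finset.sum_range_succ, Finset.sum_range_zero]
    simp only [mul_zero, mul_one, one_mul, pow_zero, pow_one, zero_add]
    linear_combination (r 2 : ℂ) * e2 + (r 3 : ℂ) * e3 + (r 4 : ℂ) * e4 + (r 5 : ℂ) * e5
  · simp only [Finset.sum_range_succ, Finset.sum_range_zero]
    norm_num
    linear_combination (r 1 : ℂ) * e2 + (r 2 : ℂ) * e4 + (r 3 : ℂ) * e6 + (r 4 : ℂ) * e8 + (r 5 : ℂ) * e10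

theorem indep (x y : ℝ) (h : (x : ℂ) + y * om = 0) : x = 0 ∧ y = 0 := by
  rw [om_re] at h
  have h1 := congrArg Complex.im h
  have h2 := congrArg Complex.re h
  have hs : 0 < √3 := Real.sqrt_pos.mpr (by norm_num)
  simp at h1 h2
  have hy : y = 0 := h1
  refine ⟨?_, hy⟩
  rw [hy] at h2; linarith

theorem seq_alt (r : ℕ → ℝ) (h0 : ∑ k ∈ Finset.range 6, r k = 0)
    (h1 : ∑ k ∈ Finset.range 6, (r k : ℂ) * om^(1*k) = 0)
    (h2 : ∑ k ∈ Finset.range 6, (r k : ℂ) * om^(2*k) = 0) : ∀ k < 5, r (k+1) = - r k := by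
  obtain ⟨-, f1, f2⟩ := seq_formula r
  rw [f1] at h1
  rw [f2] at h2
  simp only [Finset.sum_range_succ, Finset.sum_range_zero] at h0
  have a1 := indep ((r 0 - r 3) - (r 2 - r 5)) ((r 1 - r 4) + (r 2 - r 5)) (by
    push_cast; linear_combination h1)
  have a2 := indep ((r 0 + r 3) - (r 1 + r 4)) ((r 1 + r 4) - (r 2 + r 5)) (by
    push_cast; linear_combination h2)
  intro k hk
  interval_cases k <;> norm_num <;> linarith [a1.1, a1.2, a2.1, a2.2]

theorem den_pos (ρ : ℂ × ℂ → ℝ) (u : ℂ × ℂ) (h : ∀ k : ℕ, 0 < ρ (om^k • u)) :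
    ∃ d : ℝ, 0 < d ∧ den ρ u = d := by
  obtain ⟨f0, f1, f2⟩ := seq_formula (fun k => ρ (om^k • u))
  have g0 : hat ρ 0 u = _ := f0
  have g2 : hat ρ 2 u = _ := f2
  have p0 := h 0
  have p1 := h 1
  have p2 := h 2
  have p3 := h 3
  have p4 := h 4
  have p5 := h 5
  generalize ρ (om^0 • u) = r0 at *
  generalize ρ (om^1 • u) = r1 at *
  generalize ρ (om^2 • u) = r2 at *
  generalize ρ (om^3 • u) = r3 at *
  generalize ρ (om^4 • u) = r4 at *
  generalize ρ (om^5 • u) = r5 at *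
  refine ⟨3 * ((r0+r3)*(r1+r4) + (r1+r4)*(r2+r5) + (r2+r5)*(r0+r3)), by positivity, ?_⟩
  rw [den, g0, g2]
  simp only [map_add, map_sub, map_mul, Complex.conj_ofReal, conj_om, map_one]
  push_cast
  linear_combination (((r1:ℂ)+r4) - (r2+r5))^2 * om2

theorem den_ne (ρ : ℂ × ℂ → ℝ) (hρ : ∀ u ∈ An, 0 < ρ u) (u : ℂ × ℂ) (hu : u ∈ An) : den ρ u ≠ 0 := by
  obtain ⟨d, hd, hd'⟩ := den_pos ρ u fun k => hρ _ (smul_An _ (by rw [norm_pow, om_norm, one_pow]) u hu)
  rw [hd']; exact_mod_cast hd.ne'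

theorem sc_cont (ρ H : ℂ × ℂ → ℝ) (hρ : ∀ u ∈ An, 0 < ρ u) (hρc : ContinuousOn ρ An)
    (hHc : ContinuousOn H An) : ContinuousOn (sc ρ H) An := by
  have hconj : Continuous (fun z : ℂ => (starRingEnd ℂ) z) := Complex.continuous_conj
  have c0 := hat_cont ρ hρc 0
  have c1 := hat_cont ρ hρc 1
  have c2 := hat_cont ρ hρc 2
  have c3 := hat_cont ρ hρc 3
  have d1 := hat_cont H hHc 1
  have d2 := hat_cont H hHc 2
  have hden : ContinuousOn (den ρ) An := (c0.mul c0).sub (c2.mul (hconj.comp_continuousOn c2))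
  have hb : ContinuousOn (bc ρ H) An :=
    (continuousOn_const.mul ((c0.mul d1).sub (c2.mul (hconj.comp_continuousOn d1)))).div hden
      (fun u hu => den_ne ρ hρ u hu)
  exact d2.sub ((((hconj.comp_continuousOn hb).mul c3).add (hb.mul c1)).div_const 2)

theorem sc_shift (ρ H : ℂ × ℂ → ℝ) (u : ℂ × ℂ) : om^2 * sc ρ H (om • u) = sc ρ H u := by
  have hc := om_conj
  set oc := (starRingEnd ℂ) om with hoc
  have key : ∀ (Φ : ℂ × ℂ → ℝ) (j : ℕ), hat Φ j (om • u) = oc^j * hat Φ j u := by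
    intro Φ j
    rw [← hat_shift Φ j u, ← mul_assoc, ← mul_pow, mul_comm oc, hc, one_pow, one_mul]
  have hcc : (starRingEnd ℂ) oc = om := by rw [hoc, Complex.conj_conj]
  have hden : den ρ (om • u) = den ρ u := by
    simp only [den, key, map_mul, map_pow, hcc]
    linear_combination (-(hat ρ 2 u * (starRingEnd ℂ) (hat ρ 2 u)) * (om * oc + 1)) * hc
  have hb : bc ρ H (om • u) = oc * bc ρ H u := by
    simp only [bc, hden, key, map_mul, map_pow, hcc]
    rw [← mul_div_assoc]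
    congr 1
    linear_combination (-2 * oc * hat ρ 2 u * (starRingEnd ℂ) (hat H 1 u)) * hc
  simp only [sc, hb, key, map_mul, map_pow, hcc]
  linear_combination ((om * oc + 1) * hat H 2 u - (starRingEnd ℂ) (bc ρ H u) * hat ρ 3 u * ((om*oc)^2 + om * oc + 1) / 2
    - bc ρ H u * hat ρ 1 u * (om * oc + 1) / 2) * hc

theorem sum_om1 : ∑ k ∈ Finset.range 6, om^(1*k) = 0 := by
  have := (seq_formula (fun _ => 1)).2.1
  simp only [Complex.ofReal_one, one_mul] at this
  simp only [one_mul]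
  rw [this]; ring

theorem sum_om2 : ∑ k ∈ Finset.range 6, om^(2*k) = 0 := by
  have := (seq_formula (fun _ => 1)).2.2
  simp only [Complex.ofReal_one, one_mul] at this
  rw [this]; ring

theorem resid (ρ H : ℂ × ℂ → ℝ) (u : ℂ × ℂ) (hden : den ρ u ≠ 0) (hs : sc ρ H u = 0) :
    ∃ a : ℝ, ∀ k < 5, H (om^(k+1) • u) - a - ρ (om^(k+1) • u) * ((starRingEnd ℂ) (bc ρ H u) * om^(k+1)).re
      = - (H (om^k • u) - a - ρ (om^k • u) * ((starRingEnd ℂ) (bc ρ H u) * om^k).re) := by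
  set b := bc ρ H u with hb
  set a : ℝ := (∑ k ∈ Finset.range 6, (H (om^k • u) - ρ (om^k • u) * ((starRingEnd ℂ) b * om^k).re)) / 6 with ha
  refine ⟨a, ?_⟩
  have hre : ∀ k : ℕ, ((((starRingEnd ℂ) b * om^k).re : ℝ) : ℂ) =
      ((starRingEnd ℂ) b * om^k + b * ((starRingEnd ℂ) om)^k) / 2 := by
    intro k
    rw [Complex.re_eq_add_conj]
    simp only [map_mul, map_pow, Complex.conj_conj]
  have hoc : ∀ k : ℕ, ((starRingEnd ℂ) om)^k * om^k = 1 := by
    intro k; rw [← mul_pow, mul_comm, om_conj, one_pow]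
  refine seq_alt (fun k => H (om^k • u) - a - ρ (om^k • u) * ((starRingEnd ℂ) b * om^k).re) ?_ ?_ ?_
  · have : ∑ k ∈ Finset.range 6, (H (om^k • u) - a - ρ (om^k • u) * ((starRingEnd ℂ) b * om^k).re)
      = ∑ k ∈ Finset.range 6, (H (om^k • u) - ρ (om^k • u) * ((starRingEnd ℂ) b * om^k).re) - 6 * a := by
      have h1 : ∀ k, H (om^k • u) - a - ρ (om^k • u) * ((starRingEnd ℂ) b * om^k).re
        = (H (om^k • u) - ρ (om^k • u) * ((starRingEnd ℂ) b * om^k).re) - a := fun k => by ring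
      simp_rw [h1]
      rw [Finset.sum_sub_distrib]
      simp
    rw [this, ha]; ring
  · have h1 : ∀ k : ℕ, (((H (om^k • u) - a - ρ (om^k • u) * ((starRingEnd ℂ) b * om^k).re : ℝ)) : ℂ) * om^(1*k)
        = (H (om^k • u) : ℂ) * om^(1*k) - a * om^(1*k) - ((starRingEnd ℂ) b / 2) * ((ρ (om^k • u) : ℂ) * om^(2*k))
          - (b/2) * ((ρ (om^k • u) : ℂ) * om^(0*k)) := by
      intro k
      push_cast
      rw [hre k]
      have e1 : om^(1*k) = om^k := by rw [one_mul]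
      have e2 : om^(2*k) = om^k * om^k := by rw [two_mul, pow_add]
      have e3 : om^(0*k) = 1 := by rw [zero_mul, pow_zero]
      rw [e1, e2, e3]
      linear_combination (-(ρ (om^k • u) : ℂ) * b / 2) * hoc k
    simp_rw [h1]
    simp only [Finset.sum_sub_distrib, ← Finset.mul_sum]
    rw [sum_om1]
    have h2 : ∑ k ∈ Finset.range 6, (H (om^k • u) : ℂ) * om^(1*k) = hat H 1 u := rfl
    have h3 : ∑ k ∈ Finset.range 6, (ρ (om^k • u) : ℂ) * om^(2*k) = hat ρ 2 u := rfl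
    have h4 : ∑ k ∈ Finset.range 6, (ρ (om^k • u) : ℂ) * om^(0*k) = hat ρ 0 u := rfl
    rw [h2, h3, h4]
    -- uses definition of b
    have h5 : b * den ρ u = 2 * (hat ρ 0 u * hat H 1 u - hat ρ 2 u * (starRingEnd ℂ) (hat H 1 u)) := by
      rw [hb, bc, div_mul_cancel₀ _ hden]
    have hreal0 : (starRingEnd ℂ) (hat ρ 0 u) = hat ρ 0 u := by
      simp only [hat, map_sum, map_mul, Complex.conj_ofReal, zero_mul, pow_zero, map_one]
    have h6 := congrArg (starRingEnd ℂ) h5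
    have hdc : (starRingEnd ℂ) (den ρ u) = den ρ u := by
      simp only [den, map_sub, map_mul, hreal0, Complex.conj_conj]; ring
    simp only [map_mul, map_sub, hdc, hreal0, Complex.conj_conj] at h6
    have h7 : (starRingEnd ℂ) (2:ℂ) = 2 := map_ofNat _ 2
    rw [h7] at h6
    have h8 : den ρ u * (hat H 1 u - a * 0 - (starRingEnd ℂ) b / 2 * hat ρ 2 u - b / 2 * hat ρ 0 u) = 0 := by
      have hd : den ρ u = hat ρ 0 u * hat ρ 0 u - hat ρ 2 u * (starRingEnd ℂ) (hat ρ 2 u) := rfl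
      linear_combination (-hat ρ 0 u / 2) * h5 - (hat ρ 2 u / 2) * h6 + hat H 1 u * hd
    rcases mul_eq_zero.mp h8 with h | h
    · exact absurd h hden
    · exact h
  · have h1 : ∀ k : ℕ, (((H (om^k • u) - a - ρ (om^k • u) * ((starRingEnd ℂ) b * om^k).re : ℝ)) : ℂ) * om^(2*k)
        = (H (om^k • u) : ℂ) * om^(2*k) - a * om^(2*k) - ((starRingEnd ℂ) b / 2) * ((ρ (om^k • u) : ℂ) * om^(3*k))
          - (b/2) * ((ρ (om^k • u) : ℂ) * om^(1*k)) := by
      intro k
      push_cast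
      rw [hre k]
      have e1 : om^(1*k) = om^k := by rw [one_mul]
      have e2 : om^(2*k) = om^k * om^k := by rw [two_mul, pow_add]
      have e3 : om^(3*k) = om^k * om^k * om^k := by
        rw [show 3 * k = k + k + k by ring, pow_add, pow_add]
      rw [e1, e2, e3]
      linear_combination (-(ρ (om^k • u) : ℂ) * b / 2 * om^k) * hoc k
    simp_rw [h1]
    simp only [Finset.sum_sub_distrib, ← Finset.mul_sum]
    rw [sum_om2]
    have h2 : ∑ k ∈ Finset.range 6, (H (om^k • u) : ℂ) * om^(2*k) = hat H 2 u := rfl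
    have h3 : ∑ k ∈ Finset.range 6, (ρ (om^k • u) : ℂ) * om^(3*k) = hat ρ 3 u := rfl
    have h4 : ∑ k ∈ Finset.range 6, (ρ (om^k • u) : ℂ) * om^(1*k) = hat ρ 1 u := rfl
    rw [h2, h3, h4]
    have h5 : sc ρ H u = hat H 2 u - ((starRingEnd ℂ) b * hat ρ 3 u + b * hat ρ 1 u) / 2 := rfl
    rw [hs] at h5
    linear_combination -h5

/-- the path of points in `C^2` -/
noncomputable def U (z : ℂ) : ℂ × ℂ := (z, ((1 - ‖z‖ : ℝ) : ℂ))

theorem U_An (z : ℂ) (hz : ‖z‖ ≤ 1) : U z ∈ An := by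
  have h2 : ‖(((1 - ‖z‖ : ℝ) : ℂ))‖ = 1 - ‖z‖ := by
    rw [Complex.norm_real, Real.norm_eq_abs, abs_of_nonneg (by linarith)]
  have h1 : ‖U z‖ = max ‖z‖ (1 - ‖z‖) := by
    rw [U, Prod.norm_mk, h2]
  unfold An
  simp only [mem_ofPred_eq]
  rw [h1]
  constructor
  · rcases le_total (1/2) ‖z‖ with h | h
    · exact le_max_of_le_left h
    · exact le_max_of_le_right (by linarith)
  · exact max_le hz (by linarith [norm_nonneg z])

theorem U_cont : Continuous U := by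
  unfold U; fun_prop

theorem exists_zero (ρ H : ℂ × ℂ → ℝ) (hρ : ∀ u ∈ An, 0 < ρ u) (hρc : ContinuousOn ρ An)
    (hHc : ContinuousOn H An) : ∃ u ∈ An, sc ρ H u = 0 := by
  obtain ⟨z, hz, hz'⟩ := no_map (fun z => sc ρ H (U z)) (by
    refine (sc_cont ρ H hρ hρc hHc).comp U_cont.continuousOn fun z hz => ?_
    rw [mem_closedBall_zero_iff] at hz
    exact U_An z hz) (by
    intro z hz
    have h1 : U (om * z) = om • U z := by
      have hn : ‖om * z‖ = 1 := by rw [norm_mul, om_norm, hz, one_mul]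
      simp only [U, hn, hz, Prod.smul_mk, smul_eq_mul]
      simp
    show om^2 * sc ρ H (U (om * z)) = sc ρ H (U z)
    rw [h1, sc_shift])
  rw [mem_closedBall_zero_iff] at hz
  exact ⟨U z, U_An z hz, hz'⟩

end Pool.Agent.Helper18.PL
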