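import Pool.Agent.Helper18.PL2

set_option autoImplicit false

open Set Topology Filter

namespace Pool.Agent.Helper18.PL

theorem exp_An (t : ℝ) (u : ℂ × ℂ) (hu : u ∈ An) : Complex.exp (t * Complex.I) • u ∈ An :=
  smul_An _ (Complex.norm_exp_ofReal_mul_I t) u hu

theorem exp_om (k : ℕ) : Complex.exp (((k * (Real.pi/3) : ℝ) : ℂ) * Complex.I) = om^k := by
  rw [om, ← Complex.exp_nat_mul]; congr 1; push_cast; ring

/-- the main topological lemma -/
theorem lemmaA (G h : ℂ × ℂ → ℝ) (hG : Continuous G) (hh : Continuous h) (t0 c : ℝ) (ht0 : 0 < t0)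
    (hG0 : G 0 < c) (hmono : ∀ u ∈ An, StrictMonoOn (fun t : ℝ => G (t • u)) (Icc 0 t0))
    (hbig : ∀ u ∈ An, c < G (t0 • u)) :
    ∃ u ∈ An, ∃ (a : ℝ) (b : ℂ) (z : Fin 5 → ℂ), Function.Injective z ∧
      ∀ k, ‖z k‖ ≤ t0 ∧ G (z k • u) = c ∧ h (z k • u) = a + (b * z k).re := by
  obtain ⟨ρ, hρc, hρ⟩ := exists_rho G hG t0 c ht0 hG0 hmono hbig
  have hρpos : ∀ u ∈ An, 0 < ρ u := fun u hu => (hρ u hu).1
  set H : ℂ × ℂ → ℝ := fun v => h (ρ v • v) with hH
  have hHc : ContinuousOn H An := by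
    refine hh.comp_continuousOn ?_
    exact hρc.smul continuousOn_id
  obtain ⟨u, hu, hs⟩ := exists_zero ρ H hρpos hρc hHc
  obtain ⟨a, ha⟩ := resid ρ H u (den_ne ρ hρpos u hu) hs
  set b := (starRingEnd ℂ) (bc ρ H u) with hb
  -- residual as a function of the angle
  set R : ℝ → ℝ := fun t => H (Complex.exp (t * Complex.I) • u) - a -
    ρ (Complex.exp (t * Complex.I) • u) * (b * Complex.exp (t * Complex.I)).re with hR
  have hcirc : Continuous (fun t : ℝ => Complex.exp (t * Complex.I) • u) := by fun_prop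
  have hRc : Continuous R := by
    have h1 : Continuous (fun t : ℝ => H (Complex.exp (t * Complex.I) • u)) :=
      continuousOn_univ.mp (hHc.comp hcirc.continuousOn fun t _ => exp_An t u hu)
    have h2 : Continuous (fun t : ℝ => ρ (Complex.exp (t * Complex.I) • u)) :=
      continuousOn_univ.mp (hρc.comp hcirc.continuousOn fun t _ => exp_An t u hu)
    have h3 : Continuous (fun t : ℝ => (b * Complex.exp (t * Complex.I)).re) := by fun_prop
    exact (h1.sub continuous_const).sub (h2.mul h3)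
  have hRk : ∀ k : ℕ, k < 5 → R (((k+1 : ℕ) : ℝ) * (Real.pi/3)) = - R ((k : ℝ) * (Real.pi/3)) := by
    intro k hk
    have := ha k hk
    simp only [hR]
    rw [exp_om, exp_om]
    exact this
  have hpi := Real.pi_pos
  have hzero : ∀ k : Fin 5, ∃ t : ℝ, ((k : ℕ) : ℝ) * (Real.pi/3) ≤ t ∧ t < (((k : ℕ) : ℝ) + 1) * (Real.pi/3) ∧
      R t = 0 := by
    intro k
    have hk := hRk k k.2
    push_cast at hk
    set p := ((k : ℕ) : ℝ) * (Real.pi/3) with hp
    set q := (((k : ℕ) : ℝ) + 1) * (Real.pi/3) with hq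
    have hpq : p < q := by rw [hp, hq]; linarith
    by_cases h0 : R p = 0
    · exact ⟨p, le_rfl, hpq, h0⟩
    · have hq0 : R q ≠ 0 := by rw [hk]; exact neg_ne_zero.mpr h0
      have : ∃ t ∈ Icc p q, R t = 0 := by
        rcases lt_or_gt_of_ne h0 with h | h
        · exact intermediate_value_Icc hpq.le hRc.continuousOn ⟨h.le, by rw [hk]; linarith⟩
        · exact intermediate_value_Icc' hpq.le hRc.continuousOn ⟨by rw [hk]; linarith, h.le⟩
      obtain ⟨t, ht, ht0⟩ := this
      refine ⟨t, ht.1, lt_of_le_of_ne ht.2 ?_, ht0⟩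
      rintro rfl
      exact hq0 ht0
  choose t ht1 ht2 ht3 using hzero
  refine ⟨u, hu, a, b, fun k => (ρ (Complex.exp (t k * Complex.I) • u) : ℂ) * Complex.exp (t k * Complex.I),
    ?_, fun k => ?_⟩
  · intro j k hjk
    simp only at hjk
    have pj := hρpos _ (exp_An (t j) u hu)
    have pk := hρpos _ (exp_An (t k) u hu)
    have hn := congrArg norm hjk
    rw [norm_mul, norm_mul, Complex.norm_exp_ofReal_mul_I, Complex.norm_exp_ofReal_mul_I, mul_one, mul_one,
      Complex.norm_real, Complex.norm_real, Real.norm_eq_abs, Real.norm_eq_abs, abs_of_pos pj, abs_of_pos pk] at hn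
    rw [hn] at hjk
    have pk' : ((ρ (Complex.exp (t k * Complex.I) • u) : ℝ) : ℂ) ≠ 0 := by exact_mod_cast pk.ne'
    have he := mul_left_cancel₀ pk' hjk
    obtain ⟨n, hn'⟩ := Complex.exp_eq_exp_iff_exists_int.mp he
    have h1 : t j = t k + n * (2 * Real.pi) := by
      have h2 : ((t j : ℂ) - (t k + n * (2 * Real.pi))) * Complex.I = 0 := by
        linear_combination hn'
      rcases mul_eq_zero.mp h2 with h | h
      · have h3 : (t j : ℂ) = ((t k + n * (2 * Real.pi) : ℝ) : ℂ) := by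
          push_cast; linear_combination h
        exact_mod_cast h3
      · exact absurd h Complex.I_ne_zero
    have b1 := ht1 j
    have b2 := ht2 j
    have b3 := ht1 k
    have b4 := ht2 k
    have j4 : ((j : ℕ) : ℝ) ≤ 4 := by exact_mod_cast (Nat.lt_succ_iff.mp j.2)
    have k4 : ((k : ℕ) : ℝ) ≤ 4 := by exact_mod_cast (Nat.lt_succ_iff.mp k.2)
    have j0 : (0:ℝ) ≤ ((j : ℕ) : ℝ) := Nat.cast_nonneg _
    have k0 : (0:ℝ) ≤ ((k : ℕ) : ℝ) := Nat.cast_nonneg _
    have c1 : 0 ≤ t j := le_trans (by positivity) b1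
    have c2 : 0 ≤ t k := le_trans (by positivity) b3
    have c3 : t j < 2 * Real.pi := by nlinarith
    have c4 : t k < 2 * Real.pi := by nlinarith
    have hn0 : n = 0 := by
      have h5 : (n : ℝ) * (2 * Real.pi) < 1 * (2 * Real.pi) := by linarith
      have h6 : (-1 : ℝ) * (2 * Real.pi) < (n : ℝ) * (2 * Real.pi) := by linarith
      have h7 := lt_of_mul_lt_mul_right h5 (by positivity)
      have h8 := lt_of_mul_lt_mul_right h6 (by positivity)
      have h9 : n < 1 := by exact_mod_cast h7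
      have h10 : -1 < n := by exact_mod_cast h8
      omega
    rw [hn0] at h1
    simp only [Int.cast_zero, zero_mul, add_zero] at h1
    have e1 : ((j : ℕ) : ℝ) * (Real.pi/3) < (((k : ℕ) : ℝ) + 1) * (Real.pi/3) := by linarith
    have e2 : ((k : ℕ) : ℝ) * (Real.pi/3) < (((j : ℕ) : ℝ) + 1) * (Real.pi/3) := by linarith
    have e3 := lt_of_mul_lt_mul_right e1 (by positivity)
    have e4 := lt_of_mul_lt_mul_right e2 (by positivity)
    have e5 : (j : ℕ) < (k : ℕ) + 1 := by exact_mod_cast e3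
    have e6 : (k : ℕ) < (j : ℕ) + 1 := by exact_mod_cast e4
    exact Fin.ext (by omega)
  · set v := Complex.exp (t k * Complex.I) • u with hv
    obtain ⟨q1, q2, q3⟩ := hρ v (exp_An (t k) u hu)
    have hsm : ((ρ v : ℂ) * Complex.exp (t k * Complex.I)) • u = ρ v • v := by
      rw [mul_smul, ← hv]
      rfl
    refine ⟨?_, ?_, ?_⟩
    · rw [norm_mul, Complex.norm_exp_ofReal_mul_I, mul_one, Complex.norm_real, Real.norm_eq_abs,
        abs_of_pos q1]
      exact q2
    · rw [hsm]; exact q3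
    · rw [hsm]
      have h1 := ht3 k
      simp only [hR] at h1
      rw [← hv] at h1
      have h2 : (b * ((ρ v : ℂ) * Complex.exp (t k * Complex.I))).re =
          ρ v * (b * Complex.exp (t k * Complex.I)).re := by
        have : b * ((ρ v : ℂ) * Complex.exp (t k * Complex.I)) = (ρ v : ℂ) * (b * Complex.exp (t k * Complex.I)) := by ring
        rw [this, Complex.re_ofReal_mul]
      rw [h2]
      have h3 : H v = h (ρ v • v) := rfl
      linarith

/-- target property -/
def Good {m : ℕ} (f : (Fin m → ℝ) → (Fin 2 → ℝ)) : Prop :=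
  ∃ P : AffineSubspace ℝ ((Fin m → ℝ) × (Fin 2 → ℝ)),
        Module.finrank ℝ P.direction = 2 ∧
        ∃ S : Finset (Fin m → ℝ), S.card = 5 ∧
          ∀ x ∈ S, (∀ i, x i ∈ Set.Ioo (-1 : ℝ) 1) ∧ (x, f x) ∈ P

theorem plane_of {m : ℕ} (f : (Fin m → ℝ) → (Fin 2 → ℝ)) (x0 : Fin m → ℝ) (κ : ℂ →ₗ[ℝ] (Fin m → ℝ))
    (hκ : Function.Injective κ) (α : Fin 2 → ℝ) (lin : ℂ →ₗ[ℝ] (Fin 2 → ℝ)) (z : Fin 5 → ℂ)
    (hz : Function.Injective z)
    (h : ∀ k, (∀ i, (x0 + κ (z k)) i ∈ Set.Ioo (-1 : ℝ) 1) ∧ f (x0 + κ (z k)) = α + lin (z k)) :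
    Good f := by
  classical
  set T : ℂ →ₗ[ℝ] ((Fin m → ℝ) × (Fin 2 → ℝ)) := κ.prod lin with hT
  have hTinj : Function.Injective T := by
    intro a b hab
    exact hκ (congrArg Prod.fst hab)
  refine ⟨AffineSubspace.mk' (x0, α) (LinearMap.range T), ?_, Finset.univ.image (fun k => x0 + κ (z k)), ?_, ?_⟩
  · rw [AffineSubspace.direction_mk', LinearMap.finrank_range_of_inj hTinj, Complex.finrank_real_complex]
  · rw [Finset.card_image_of_injective]
    · simp
    · intro a b hab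
      exact hz (hκ (add_left_cancel hab))
  · intro x hx
    obtain ⟨k, -, rfl⟩ := Finset.mem_image.mp hx
    refine ⟨(h k).1, ?_⟩
    rw [AffineSubspace.mem_mk']
    refine ⟨z k, ?_⟩
    rw [(h k).2]
    apply Prod.ext
    · simp [hT]
    · simp [hT]

end Pool.Agent.Helper18.PL
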