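import Pool.Agent.Helper18.PL3

set_option autoImplicit false

open Set Topology Filter
open scoped ContDiff

namespace Pool.Agent.Helper18.PL

/-- the open cube -/
def Q (m : ℕ) : Set (Fin m → ℝ) := {x : Fin m → ℝ | ∀ i, x i ∈ Set.Ioo (-1 : ℝ) 1}

theorem Q_open (m : ℕ) : IsOpen (Q m) := by
  have : Q m = Set.univ.pi (fun _ : Fin m => Ioo (-1:ℝ) 1) := by
    ext x; simp [Q]
  rw [this]
  exact isOpen_set_pi finite_univ fun _ _ => isOpen_Ioo

section diff
variable {m : ℕ} (g : (Fin m → ℝ) → ℝ) (hg : ContDiffOn ℝ ∞ g (Q m))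
include hg

theorem cd0 (x : Fin m → ℝ) (hx : x ∈ Q m) : ContDiffAt ℝ ∞ g x :=
  hg.contDiffAt ((Q_open m).mem_nhds hx)

theorem cd1 (x : Fin m → ℝ) (hx : x ∈ Q m) : ContDiffAt ℝ ∞ (fderiv ℝ g) x :=
  (cd0 g hg x hx).fderiv_right (m := ∞) (by simp)

theorem cd2 (x : Fin m → ℝ) (hx : x ∈ Q m) : ContDiffAt ℝ ∞ (fderiv ℝ (fderiv ℝ g)) x :=
  (cd1 g hg x hx).fderiv_right (m := ∞) (by simp)

theorem hd0 (x : Fin m → ℝ) (hx : x ∈ Q m) : HasFDerivAt g (fderiv ℝ g x) x :=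
  ((cd0 g hg x hx).differentiableAt (by simp)).hasFDerivAt

theorem hd1 (x : Fin m → ℝ) (hx : x ∈ Q m) :
    HasFDerivAt (fderiv ℝ g) (fderiv ℝ (fderiv ℝ g) x) x :=
  ((cd1 g hg x hx).differentiableAt (by simp)).hasFDerivAt

theorem hd2 (x : Fin m → ℝ) (hx : x ∈ Q m) :
    HasFDerivAt (fderiv ℝ (fderiv ℝ g)) (fderiv ℝ (fderiv ℝ (fderiv ℝ g)) x) x :=
  ((cd2 g hg x hx).differentiableAt (by simp)).hasFDerivAt

end diff

theorem line_deriv {m : ℕ} {F : Type} [NormedAddCommGroup F] [NormedSpace ℝ F]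
    (f : (Fin m → ℝ) → F) (f' : (Fin m → ℝ) →L[ℝ] F) (x0 v : Fin m → ℝ) (t : ℝ)
    (h : HasFDerivAt f f' (x0 + t • v)) : HasDerivAt (fun t : ℝ => f (x0 + t • v)) (f' v) t := by
  have h1 : HasDerivAt (fun t : ℝ => x0 + t • v) v t := by
    simpa using ((hasDerivAt_id t).smul_const v).const_add x0
  exact h.comp_hasDerivAt t h1

theorem caseA {m : ℕ} (f : (Fin m → ℝ) → (Fin 2 → ℝ)) (hf : ContDiffOn ℝ ∞ f (Q m))
    (x0 : Fin m → ℝ) (hx0 : x0 ∈ Q m) (σ : ℝ) (hσ : σ ≠ 0) (ι : (ℂ × ℂ) →L[ℝ] (Fin m → ℝ))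
    (hdef : ∀ w, w ≠ 0 → 0 < σ * fderiv ℝ (fderiv ℝ (fun x => f x 0)) x0 (ι w) (ι w)) : Good f := by
  set g : (Fin m → ℝ) → ℝ := fun x => f x 0 with hgdef
  have hg : ContDiffOn ℝ ∞ g (Q m) := (contDiffOn_pi.mp hf) 0
  have hfc : ContinuousOn f (Q m) := hf.continuousOn
  set D1 := fderiv ℝ g with hD1
  set D2 := fderiv ℝ D1 with hD2
  have hιinj : ∀ w, ι w = 0 → w = 0 := by
    intro w hw
    by_contra hne
    have := hdef w hne
    rw [hw] at this
    simp at this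
  have hAn0 : ∀ u ∈ An, u ≠ 0 := by
    rintro u hu rfl
    have : (1:ℝ)/2 ≤ ‖(0 : ℂ × ℂ)‖ := hu.1
    rw [norm_zero] at this
    norm_num at this
  -- uniform positivity
  have hev : ∀ᶠ t : ℝ in 𝓝 0, ∀ u ∈ An, x0 + t • ι u ∈ Q m ∧ 0 < σ * D2 (x0 + t • ι u) (ι u) (ι u) := by
    refine An_compact.eventually_forall_of_forall_eventually fun u hu => ?_
    have hc : ContinuousAt (fun p : ℝ × (ℂ × ℂ) => x0 + p.1 • ι p.2) (0, u) := by fun_prop
    have hval : x0 + (((0 : ℝ), u) : ℝ × (ℂ × ℂ)).1 • ι (((0 : ℝ), u) : ℝ × (ℂ × ℂ)).2 = x0 := by simp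
    have e1 : ∀ᶠ p : ℝ × (ℂ × ℂ) in 𝓝 (0, u), x0 + p.1 • ι p.2 ∈ Q m := by
      refine hc.eventually_mem ?_
      rw [hval]; exact (Q_open m).mem_nhds hx0
    have hD2c : ContinuousAt D2 x0 := (cd2 g hg x0 hx0).continuousAt
    have hD2c' : ContinuousAt (fun p : ℝ × (ℂ × ℂ) => D2 (x0 + p.1 • ι p.2)) (0, u) := by
      refine ContinuousAt.comp (g := D2) ?_ hc
      rw [hval]; exact hD2c
    have hι2 : ContinuousAt (fun p : ℝ × (ℂ × ℂ) => ι p.2) (0, u) := by fun_prop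
    have hΨ : ContinuousAt (fun p : ℝ × (ℂ × ℂ) => σ * D2 (x0 + p.1 • ι p.2) (ι p.2) (ι p.2)) (0, u) :=
      continuousAt_const.mul ((hD2c'.clm_apply hι2).clm_apply hι2)
    have e2 : ∀ᶠ p : ℝ × (ℂ × ℂ) in 𝓝 (0, u), 0 < σ * D2 (x0 + p.1 • ι p.2) (ι p.2) (ι p.2) := by
      refine continuousAt_const.eventually_lt hΨ ?_
      have := hdef u (hAn0 u hu)
      simpa using this
    exact e1.and e2
  obtain ⟨δ, hδ, hδ'⟩ := Metric.eventually_nhds_iff.mp hev
  -- the radius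
  set t0 : ℝ := δ/2 with ht0
  have ht0pos : 0 < t0 := by positivity
  have hray : ∀ t ∈ Icc 0 t0, ∀ u ∈ An, x0 + t • ι u ∈ Q m ∧ 0 < σ * D2 (x0 + t • ι u) (ι u) (ι u) := by
    intro t ht u hu
    refine hδ' ?_ u hu
    rw [Real.dist_eq, sub_zero, abs_of_nonneg ht.1]
    linarith [ht.2]
  have hball : ∀ w : ℂ × ℂ, ‖w‖ ≤ t0 → x0 + ι w ∈ Q m := by
    intro w hw
    by_cases h0 : w = 0
    · rw [h0, map_zero, add_zero]; exact hx0
    · have hpos : 0 < ‖w‖ := norm_pos_iff.mpr h0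
      have hu : ‖w‖⁻¹ • w ∈ An := by
        unfold An
        simp only [mem_ofPred_eq]
        rw [norm_smul, norm_inv, norm_norm, inv_mul_cancel₀ hpos.ne']
        norm_num
      have := (hray ‖w‖ ⟨hpos.le, hw⟩ _ hu).1
      rw [map_smul, smul_smul, mul_inv_cancel₀ hpos.ne', one_smul] at this
      exact this
  -- functions
  set G0 : ℂ × ℂ → ℝ := fun w => σ * (g (x0 + ι w) - g x0 - D1 x0 (ι w)) with hG0
  set h0 : ℂ × ℂ → ℝ := fun w => f (x0 + ι w) 1 with hh0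
  -- retraction
  set r : ℂ × ℂ → ℂ × ℂ := fun w => (max 1 (‖w‖ / t0))⁻¹ • w with hr
  have hrc : Continuous r := by
    have h1 : Continuous (fun w : ℂ × ℂ => max 1 (‖w‖ / t0)) := by fun_prop
    exact (h1.inv₀ fun w => (lt_of_lt_of_le one_pos (le_max_left _ _)).ne').smul continuous_id
  have hrb : ∀ w, ‖r w‖ ≤ t0 := by
    intro w
    simp only [hr]
    have hp : 0 < max 1 (‖w‖ / t0) := lt_of_lt_of_le one_pos (le_max_left _ _)
    rw [norm_smul, norm_inv, Real.norm_eq_abs, abs_of_pos hp, inv_mul_le_iff₀ hp]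
    have := le_max_right 1 (‖w‖ / t0)
    rw [div_le_iff₀ ht0pos] at this
    exact this
  have hrid : ∀ w, ‖w‖ ≤ t0 → r w = w := by
    intro w hw
    simp only [hr]
    have : ‖w‖ / t0 ≤ 1 := by rw [div_le_one ht0pos]; exact hw
    rw [max_eq_left this, inv_one, one_smul]
  have hmap : ∀ w, x0 + ι (r w) ∈ Q m := fun w => hball _ (hrb w)
  have hcx : Continuous (fun w => x0 + ι (r w)) := by fun_prop
  have hfx : Continuous (fun w => f (x0 + ι (r w))) :=
    continuousOn_univ.mp (hfc.comp hcx.continuousOn fun w _ => hmap w)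
  have hGc : Continuous (fun w => G0 (r w)) := by
    have h1 : Continuous (fun w => f (x0 + ι (r w)) 0) := (continuous_apply 0).comp hfx
    have h2 : Continuous (fun w => D1 x0 (ι (r w))) := by fun_prop
    exact continuous_const.mul ((h1.sub continuous_const).sub h2)
  have hhc : Continuous (fun w => h0 (r w)) := (continuous_apply 1).comp hfx
  have hrt : ∀ u ∈ An, ∀ t ∈ Icc 0 t0, r (t • u) = t • u := by
    intro u hu t ht
    apply hrid
    rw [norm_smul, Real.norm_eq_abs, abs_of_nonneg ht.1]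
    have : ‖u‖ ≤ 1 := hu.2
    nlinarith [ht.1, ht.2, norm_nonneg u]
  -- monotonicity
  have hderiv : ∀ u ∈ An, ∀ t ∈ Icc 0 t0,
      HasDerivAt (fun t : ℝ => G0 (t • u)) (σ * (D1 (x0 + t • ι u) (ι u) - D1 x0 (ι u))) t := by
    intro u hu t ht
    have h1 := line_deriv g _ x0 (ι u) t (hd0 g hg _ (hray t ht u hu).1)
    have h2 : HasDerivAt (fun t : ℝ => t * D1 x0 (ι u)) (D1 x0 (ι u)) t := by
      simpa using (hasDerivAt_id t).mul_const (D1 x0 (ι u))
    have h3 := ((h1.sub_const (g x0)).sub h2).const_mul σ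
    have h4 : (fun t : ℝ => G0 (t • u)) = fun t => σ * ((g (x0 + t • ι u) - g x0) - t * D1 x0 (ι u)) := by
      funext s
      simp only [hG0, map_smul, smul_eq_mul]
    rw [h4]
    exact h3
  have hderiv2 : ∀ u ∈ An, ∀ t ∈ Icc 0 t0,
      HasDerivAt (fun t : ℝ => σ * (D1 (x0 + t • ι u) (ι u) - D1 x0 (ι u)))
        (σ * D2 (x0 + t • ι u) (ι u) (ι u)) t := by
    intro u hu t ht
    have h1 := line_deriv D1 _ x0 (ι u) t (hd1 g hg _ (hray t ht u hu).1)
    have h2 := h1.clm_apply (hasDerivAt_const t (ι u))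
    simp only [map_zero, add_zero] at h2
    exact (h2.sub_const _).const_mul σ
  have hmono0 : ∀ u ∈ An, StrictMonoOn (fun t : ℝ => G0 (t • u)) (Icc 0 t0) := by
    intro u hu
    have hm1 : StrictMonoOn (fun t : ℝ => σ * (D1 (x0 + t • ι u) (ι u) - D1 x0 (ι u))) (Icc 0 t0) := by
      refine strictMonoOn_of_deriv_pos (convex_Icc 0 t0)
        (fun t ht => (hderiv2 u hu t ht).continuousAt.continuousWithinAt) fun t ht => ?_
      have ht' := interior_subset ht
      rw [(hderiv2 u hu t ht').deriv]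
      exact (hray t ht' u hu).2
    refine strictMonoOn_of_deriv_pos (convex_Icc 0 t0)
      (fun t ht => (hderiv u hu t ht).continuousAt.continuousWithinAt) fun t ht => ?_
    have ht' := interior_subset ht
    rw [(hderiv u hu t ht').deriv]
    rw [interior_Icc] at ht
    have := hm1 (left_mem_Icc.mpr ht0pos.le) ht' ht.1
    simpa using this
  have hmono : ∀ u ∈ An, StrictMonoOn (fun t : ℝ => G0 (r (t • u))) (Icc 0 t0) := by
    intro u hu s hs t ht hst
    show G0 (r (s • u)) < G0 (r (t • u))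
    rw [hrt u hu s hs, hrt u hu t ht]
    exact hmono0 u hu hs ht hst
  have hG00 : G0 (r 0) = 0 := by
    rw [hrid 0 (by rw [norm_zero]; exact ht0pos.le)]
    simp [hG0]
  have hAne : An.Nonempty := ⟨U 0, U_An 0 (by simp)⟩
  obtain ⟨u1, hu1, hu1'⟩ := An_compact.exists_isMinOn hAne (f := fun u => G0 (r (t0 • u)))
    (hGc.comp (by fun_prop : Continuous fun u : ℂ × ℂ => t0 • u)).continuousOn
  have hpos1 : 0 < G0 (r (t0 • u1)) := by
    have := hmono u1 hu1 (left_mem_Icc.mpr ht0pos.le) (right_mem_Icc.mpr ht0pos.le) ht0pos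
    simp only [zero_smul] at this
    rwa [hG00] at this
  set c := G0 (r (t0 • u1)) / 2 with hc
  obtain ⟨u, hu, a, b, z, hz, hz'⟩ := lemmaA (fun w => G0 (r w)) (fun w => h0 (r w)) hGc hhc t0 c ht0pos
    (by simp only [hG00]; rw [hc]; linarith) hmono (by
      intro u hu
      have : G0 (r (t0 • u1)) ≤ G0 (r (t0 • u)) := hu1' hu
      show c < G0 (r (t0 • u))
      rw [hc]; linarith)
  -- assemble
  set κ : ℂ →ₗ[ℝ] (Fin m → ℝ) := ι.toLinearMap ∘ₗ (LinearMap.toSpanSingleton ℂ (ℂ × ℂ) u).restrictScalars ℝ with hκ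
  have hκa : ∀ z, κ z = ι (z • u) := fun z => rfl
  refine plane_of f x0 κ ?_ ![g x0 + c / σ, a]
    (LinearMap.pi ![(D1 x0).toLinearMap ∘ₗ κ, Complex.reLm ∘ₗ (LinearMap.mulLeft ℝ b)]) z hz ?_
  · intro p q hpq
    rw [hκa, hκa] at hpq
    have h1 : ι ((p - q) • u) = 0 := by rw [sub_smul, map_sub, hpq, sub_self]
    have h2 := hιinj _ h1
    rcases smul_eq_zero.mp h2 with h | h
    · exact sub_eq_zero.mp h
    · exact absurd h (hAn0 u hu)
  · intro k
    obtain ⟨z1, z2, z3⟩ := hz' k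
    have hn : ‖z k • u‖ ≤ t0 := by
      rw [norm_smul]
      have : ‖u‖ ≤ 1 := hu.2
      nlinarith [norm_nonneg (z k), norm_nonneg u]
    rw [hrid _ hn] at z2 z3
    refine ⟨?_, ?_⟩
    · have := hball _ hn
      rw [hκa]; exact this
    · funext i
      fin_cases i
      · simp only [hG0] at z2
        simp [hκa]
        have h5 : g (x0 + ι (z k • u)) - g x0 - D1 x0 (ι (z k • u)) = c / σ := by
          field_simp; linarith
        have h6 : f (x0 + ι (z k • u)) 0 = g (x0 + ι (z k • u)) := rfl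
        rw [h6]; linarith
      · simp only [hh0] at z3
        simp [hκa]
        simp at z3
        linarith

end Pool.Agent.Helper18.PL
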