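import Pool.Agent.Helper18.PL4

set_option autoImplicit false
set_option maxSynthPendingDepth 3

open Set Topology Filter
open scoped ContDiff

namespace Pool.Agent.Helper18.PL

section leaf
variable {m : ℕ} (g : (Fin m → ℝ) → ℝ) (hg : ContDiffOn ℝ ∞ g (Q m))

/-- gram matrix of the second derivative -/
noncomputable def Mx {m : ℕ} (g : (Fin m → ℝ) → ℝ) {r : ℕ} (e : Fin r → (Fin m → ℝ)) (x : Fin m → ℝ) :
    Matrix (Fin r) (Fin r) ℝ := Matrix.of fun i j => fderiv ℝ (fderiv ℝ g) x (e i) (e j)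

/-- mixed vector -/
noncomputable def Ex {m : ℕ} (g : (Fin m → ℝ) → ℝ) {r : ℕ} (e : Fin r → (Fin m → ℝ)) (v x : Fin m → ℝ) :
    Fin r → ℝ := fun i => fderiv ℝ (fderiv ℝ g) x (e i) v

include hg

theorem symm2 (x : Fin m → ℝ) (hx : x ∈ Q m) (v w : Fin m → ℝ) :
    fderiv ℝ (fderiv ℝ g) x v w = fderiv ℝ (fderiv ℝ g) x w v :=
  ((cd0 g hg x hx).isSymmSndFDerivAt (by rw [minSmoothness_of_isRCLikeNormedField]; exact WithTop.coe_le_coe.mpr le_top)).eq v w

theorem symm3 (x : Fin m → ℝ) (hx : x ∈ Q m) (v w : Fin m → ℝ) :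
    fderiv ℝ (fderiv ℝ (fderiv ℝ g)) x v w = fderiv ℝ (fderiv ℝ (fderiv ℝ g)) x w v :=
  ((cd1 g hg x hx).isSymmSndFDerivAt (by rw [minSmoothness_of_isRCLikeNormedField]; exact WithTop.coe_le_coe.mpr le_top)).eq v w

/-- the rank is at most `r` -/
theorem L1 {r : ℕ} (hmax : ∀ x ∈ Q m, ∀ e' : Fin (r+1) → (Fin m → ℝ), (Mx g e' x).det = 0)
    (e : Fin r → (Fin m → ℝ)) (x : Fin m → ℝ) (hx : x ∈ Q m) (hdet : (Mx g e x).det ≠ 0)
    (k : Fin m → ℝ) (hk : ∀ i, fderiv ℝ (fderiv ℝ g) x (e i) k = 0) :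
    fderiv ℝ (fderiv ℝ g) x k k = 0 := by
  have h := hmax x hx (Fin.cons k e)
  rw [Matrix.det_succ_column_zero, Fin.sum_univ_succ] at h
  have h0 : ∀ i : Fin r, Mx g (Fin.cons k e) x i.succ 0 = 0 := by
    intro i
    simp only [Mx, Matrix.of_apply, Fin.cons_succ, Fin.cons_zero]
    exact hk i
  have h1 : ∑ i : Fin r, (-1 : ℝ)^((i.succ : Fin (r+1)) : ℕ) * Mx g (Fin.cons k e) x i.succ 0 *
      ((Mx g (Fin.cons k e) x).submatrix (i.succ).succAbove Fin.succ).det = 0 := by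
    refine Finset.sum_eq_zero fun i _ => ?_
    rw [h0 i]; ring
  rw [h1, add_zero] at h
  have h2 : ((Mx g (Fin.cons k e) x).submatrix (Fin.succAbove 0) Fin.succ) = Mx g e x := by
    ext i j
    simp [Mx]
  rw [h2] at h
  simp only [Fin.val_zero, pow_zero, one_mul] at h
  rcases mul_eq_zero.mp h with h | h
  · simpa [Mx] using h
  · exact absurd h hdet

/-- decomposition -/
theorem L2 {r : ℕ} (hmax : ∀ x ∈ Q m, ∀ e' : Fin (r+1) → (Fin m → ℝ), (Mx g e' x).det = 0)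
    (e : Fin r → (Fin m → ℝ)) (x : Fin m → ℝ) (hx : x ∈ Q m) (hdet : (Mx g e x).det ≠ 0)
    (v : Fin m → ℝ) :
    (∀ i, fderiv ℝ (fderiv ℝ g) x (e i) (v - ∑ j, ((Mx g e x)⁻¹.mulVec (Ex g e v x)) j • e j) = 0) ∧
    fderiv ℝ (fderiv ℝ g) x v v = ∑ i, Ex g e v x i * ((Mx g e x)⁻¹.mulVec (Ex g e v x)) i := by
  set y := (Mx g e x)⁻¹.mulVec (Ex g e v x) with hy
  have hMy : (Mx g e x).mulVec y = Ex g e v x := by
    rw [hy, Matrix.mulVec_mulVec, Matrix.mul_nonsing_inv _ (isUnit_iff_ne_zero.mpr hdet), Matrix.one_mulVec]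
  have h1 : ∀ i, fderiv ℝ (fderiv ℝ g) x (e i) (v - ∑ j, y j • e j) = 0 := by
    intro i
    rw [map_sub, map_sum]
    have h2 := congrFun hMy i
    simp only [Matrix.mulVec, dotProduct, Mx, Matrix.of_apply, Ex] at h2
    rw [← h2, sub_eq_zero]
    refine Finset.sum_congr rfl fun j _ => ?_
    rw [map_smul, smul_eq_mul, mul_comm]
  refine ⟨h1, ?_⟩
  set k := v - ∑ j, y j • e j with hk
  have hkk := L1 g hg hmax e x hx hdet k h1
  have hv : v = k + ∑ j, y j • e j := by rw [hk]; abel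
  have h3 : fderiv ℝ (fderiv ℝ g) x v v = fderiv ℝ (fderiv ℝ g) x v k + fderiv ℝ (fderiv ℝ g) x v (∑ j, y j • e j) := by
    rw [← map_add, ← hv]
  have h4 : fderiv ℝ (fderiv ℝ g) x v k = 0 := by
    rw [symm2 g hg x hx v k]
    have h5 : fderiv ℝ (fderiv ℝ g) x k v = fderiv ℝ (fderiv ℝ g) x k k +
        fderiv ℝ (fderiv ℝ g) x k (∑ j, y j • e j) := by rw [← map_add, ← hv]
    rw [h5, hkk, zero_add, map_sum]
    refine Finset.sum_eq_zero fun j _ => ?_
    rw [map_smul, symm2 g hg x hx k (e j), h1 j, smul_zero]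
  rw [h3, h4, zero_add, map_sum]
  refine Finset.sum_congr rfl fun j _ => ?_
  rw [map_smul, smul_eq_mul, symm2 g hg x hx v (e j), mul_comm]
  rfl

omit hg in
theorem inv_cont {α : Type} [TopologicalSpace α] {r : ℕ} (A : α → Matrix (Fin r) (Fin r) ℝ) (a : α)
    (hA : ∀ i j, ContinuousAt (fun t => A t i j) a) (hdet : (A a).det ≠ 0) (i j : Fin r) :
    ContinuousAt (fun t => (A t)⁻¹ i j) a := by
  have hA' : ContinuousAt A a := by
    refine continuousAt_pi.mpr fun i => continuousAt_pi.mpr fun j => hA i j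
  have h1 : ContinuousAt (fun t => (A t).det) a :=
    ContinuousAt.comp (g := fun B : Matrix (Fin r) (Fin r) ℝ => B.det)
      (Continuous.matrix_det continuous_id).continuousAt hA'
  have h2 : ContinuousAt (fun t => (A t).adjugate i j) a := by
    have : Continuous (fun B : Matrix (Fin r) (Fin r) ℝ => B.adjugate i j) :=
      (Continuous.matrix_adjugate continuous_id).matrix_elem i j
    exact ContinuousAt.comp (g := fun B : Matrix (Fin r) (Fin r) ℝ => B.adjugate i j) this.continuousAt hA'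
  have h3 : (fun t => (A t)⁻¹ i j) = fun t => ((A t).det)⁻¹ * (A t).adjugate i j := by
    funext t
    rw [Matrix.inv_def, Ring.inverse_eq_inv']
    rfl
  rw [h3]
  exact (h1.inv₀ hdet).mul h2

theorem D2_cont {x0 v : Fin m → ℝ} {t : ℝ} (hx : x0 + t • v ∈ Q m) (a b : Fin m → ℝ) :
    ContinuousAt (fun t : ℝ => fderiv ℝ (fderiv ℝ g) (x0 + t • v) a b) t := by
  have h1 := line_deriv (fderiv ℝ (fderiv ℝ g)) _ x0 v t (hd2 g hg _ hx)
  exact (((h1.clm_apply (hasDerivAt_const t a)).clm_apply (hasDerivAt_const t b))).continuousAt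

theorem D2_der {x0 v : Fin m → ℝ} {t : ℝ} (hx : x0 + t • v ∈ Q m) (a b : Fin m → ℝ) :
    HasDerivAt (fun t : ℝ => fderiv ℝ (fderiv ℝ g) (x0 + t • v) a b)
      (fderiv ℝ (fderiv ℝ (fderiv ℝ g)) (x0 + t • v) v a b) t := by
  have h1 := line_deriv (fderiv ℝ (fderiv ℝ g)) _ x0 v t (hd2 g hg _ hx)
  have h2 := (h1.clm_apply (hasDerivAt_const t a)).clm_apply (hasDerivAt_const t b)
  simpa using h2

theorem L3 {r : ℕ} (hmax : ∀ x ∈ Q m, ∀ e' : Fin (r+1) → (Fin m → ℝ), (Mx g e' x).det = 0)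
    (e : Fin r → (Fin m → ℝ)) (x : Fin m → ℝ) (hx : x ∈ Q m) (hdet : (Mx g e x).det ≠ 0)
    (k : Fin m → ℝ) (hk : ∀ i, fderiv ℝ (fderiv ℝ g) x (e i) k = 0) (w : Fin m → ℝ) :
    fderiv ℝ (fderiv ℝ (fderiv ℝ g)) x w k k = 0 := by
  have hx' : x + (0:ℝ) • w ∈ Q m := by simpa using hx
  have hder := D2_der g hg (x0 := x) (v := w) (t := 0) hx' k k
  rw [zero_smul, add_zero] at hder
  -- near 0 we are in the good region
  have hline : Continuous (fun s : ℝ => x + s • w) := by fun_prop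
  have ev1 : ∀ᶠ s : ℝ in 𝓝 0, x + s • w ∈ Q m :=
    hline.continuousAt.eventually_mem (by simpa using (Q_open m).mem_nhds hx)
  have hMc : ∀ i j, ContinuousAt (fun s : ℝ => Mx g e (x + s • w) i j) 0 := fun i j =>
    D2_cont g hg (x0 := x) (v := w) (t := 0) hx' (e i) (e j)
  have hMc' : ContinuousAt (fun s : ℝ => Mx g e (x + s • w)) 0 :=
    continuousAt_pi.mpr fun i => continuousAt_pi.mpr fun j => hMc i j
  have hdetc : ContinuousAt (fun s : ℝ => (Mx g e (x + s • w)).det) 0 :=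
    ContinuousAt.comp (g := fun B : Matrix (Fin r) (Fin r) ℝ => B.det)
      (Continuous.matrix_det continuous_id).continuousAt hMc'
  have hdet0 : (Mx g e (x + (0:ℝ) • w)).det ≠ 0 := by simpa using hdet
  have ev2 : ∀ᶠ s : ℝ in 𝓝 0, (Mx g e (x + s • w)).det ≠ 0 := hdetc.eventually_ne hdet0
  have hE0 : Ex g e k (x + (0:ℝ) • w) = 0 := by
    funext i
    simp only [Ex, zero_smul, add_zero]
    exact hk i
  have hEc : ∀ i, ContinuousAt (fun s : ℝ => Ex g e k (x + s • w) i) 0 := fun i =>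
    D2_cont g hg (x0 := x) (v := w) (t := 0) hx' (e i) k
  have hyc : ∀ i, ContinuousAt (fun s : ℝ => ((Mx g e (x + s • w))⁻¹.mulVec (Ex g e k (x + s • w))) i) 0 := by
    intro i
    simp only [Matrix.mulVec, dotProduct]
    exact tendsto_finsetSum _ fun j _ => (inv_cont _ 0 hMc hdet0 i j).mul (hEc j)
  have hy0 : ∀ i, ((Mx g e (x + (0:ℝ) • w))⁻¹.mulVec (Ex g e k (x + (0:ℝ) • w))) i = 0 := by
    intro i; rw [hE0, Matrix.mulVec_zero]; rfl
  -- little o
  have hlo : (fun s : ℝ => ∑ i, Ex g e k (x + s • w) i *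
      ((Mx g e (x + s • w))⁻¹.mulVec (Ex g e k (x + s • w))) i) =o[𝓝 0] (fun s : ℝ => s) := by
    refine Asymptotics.IsLittleO.fun_sum (s := Finset.univ) (A := fun (i : Fin r) (s : ℝ) =>
      Ex g e k (x + s • w) i * ((Mx g e (x + s • w))⁻¹.mulVec (Ex g e k (x + s • w))) i) fun i _ => ?_
    have h1 : (fun s : ℝ => Ex g e k (x + s • w) i) =O[𝓝 0] (fun s : ℝ => s) := by
      have hd := D2_der g hg (x0 := x) (v := w) (t := 0) hx' (e i) k
      have h2 := hd.isBigO_sub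
      have h3 : (fderiv ℝ (fderiv ℝ g) (x + (0:ℝ) • w) (e i)) k = 0 := by
        rw [zero_smul, add_zero]; exact hk i
      simp only [h3, sub_zero] at h2
      exact h2
    have h2 : (fun s : ℝ => ((Mx g e (x + s • w))⁻¹.mulVec (Ex g e k (x + s • w))) i) =o[𝓝 0] (fun _ : ℝ => (1:ℝ)) := by
      rw [Asymptotics.isLittleO_one_iff]
      have h5 := (hyc i).tendsto
      simp only [hy0 i] at h5
      exact h5
    have h3 := h1.mul_isLittleO h2
    simp only [mul_one] at h3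
    exact h3
  have hq : HasDerivAt (fun s : ℝ => fderiv ℝ (fderiv ℝ g) (x + s • w) k k) 0 0 := by
    rw [hasDerivAt_iff_isLittleO]
    have hkk := L1 g hg hmax e x hx hdet k hk
    have h0 : (fderiv ℝ (fderiv ℝ g) (x + (0:ℝ) • w) k) k = 0 := by rw [zero_smul, add_zero]; exact hkk
    simp only [h0, smul_zero, sub_zero]
    refine hlo.congr' ?_ EventuallyEq.rfl
    filter_upwards [ev1, ev2] with s hs1 hs2
    exact ((L2 g hg hmax e (x + s • w) hs1 hs2 k).2).symm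
  exact hder.unique hq

theorem L4 {r : ℕ} (hmax : ∀ x ∈ Q m, ∀ e' : Fin (r+1) → (Fin m → ℝ), (Mx g e' x).det = 0)
    (e : Fin r → (Fin m → ℝ)) (x0 v : Fin m → ℝ)
    (hseg : ∀ t ∈ Icc (0:ℝ) 1, x0 + t • v ∈ Q m ∧ (Mx g e (x0 + t • v)).det ≠ 0)
    (hv : ∀ i, fderiv ℝ (fderiv ℝ g) x0 (e i) v = 0) :
    g (x0 + v) = g x0 + fderiv ℝ g x0 v := by
  set D3 := fderiv ℝ (fderiv ℝ (fderiv ℝ g)) with hD3
  set η : ℝ → Fin r → ℝ := fun t => Ex g e v (x0 + t • v) with hη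
  set y : ℝ → Fin r → ℝ := fun t => (Mx g e (x0 + t • v))⁻¹.mulVec (η t) with hy
  set p : ℝ → Fin m → ℝ := fun t => ∑ j, y t j • e j with hp
  set k : ℝ → Fin m → ℝ := fun t => v - p t with hk
  have hηd : ∀ t ∈ Icc (0:ℝ) 1, HasDerivAt η (fun i => D3 (x0 + t • v) v (e i) v) t := by
    intro t ht
    rw [hasDerivAt_pi]
    intro i
    exact D2_der g hg (hseg t ht).1 (e i) v
  have hηc : ∀ t ∈ Icc (0:ℝ) 1, ∀ i, ContinuousAt (fun t => η t i) t := fun t ht i =>
    D2_cont g hg (hseg t ht).1 (e i) v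
  have hMi : ∀ t ∈ Icc (0:ℝ) 1, ∀ i j, ContinuousAt (fun t : ℝ => (Mx g e (x0 + t • v))⁻¹ i j) t := by
    intro t ht i j
    exact inv_cont _ t (fun i j => D2_cont g hg (hseg t ht).1 (e i) (e j)) (hseg t ht).2 i j
  have hyc : ∀ t ∈ Icc (0:ℝ) 1, ∀ i, ContinuousAt (fun t => y t i) t := by
    intro t ht i
    simp only [hy, Matrix.mulVec, dotProduct]
    exact tendsto_finsetSum _ fun j _ => (hMi t ht i j).mul (hηc t ht j)
  have hpc : ∀ t ∈ Icc (0:ℝ) 1, ContinuousAt p t := by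
    intro t ht
    simp only [hp]
    exact tendsto_finsetSum _ fun j _ => (hyc t ht j).smul continuousAt_const
  have hkc : ∀ t ∈ Icc (0:ℝ) 1, ContinuousAt k t := fun t ht => continuousAt_const.sub (hpc t ht)
  -- bound function
  set Bf : ℝ → ℝ := fun t => ∑ j, ∑ i, |(Mx g e (x0 + t • v))⁻¹ j i| * ‖e j‖ with hBf
  set E : ℝ := ∑ i, ‖e i‖ with hE
  set Kf : ℝ → ℝ := fun t => ‖D3 (x0 + t • v)‖ * E * (‖k t‖ + ‖v‖) * Bf t with hKf
  have hD3c : ∀ t ∈ Icc (0:ℝ) 1, ContinuousAt (fun t : ℝ => D3 (x0 + t • v)) t := by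
    intro t ht
    have h1 : ContinuousAt D3 (x0 + t • v) :=
      ((cd2 g hg _ (hseg t ht).1).fderiv_right (m := ∞) (by simp)).continuousAt
    exact ContinuousAt.comp (g := D3) (f := fun t : ℝ => x0 + t • v) h1 (by fun_prop)
  have hBc : ∀ t ∈ Icc (0:ℝ) 1, ContinuousAt Bf t := by
    intro t ht
    simp only [hBf]
    exact tendsto_finsetSum _ fun j _ => tendsto_finsetSum _ fun i _ => ((hMi t ht j i).abs).mul continuousAt_const
  have hKc : ContinuousOn Kf (Icc 0 1) := by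
    intro t ht
    exact ((((hD3c t ht).norm.mul continuousAt_const).mul ((hkc t ht).norm.add continuousAt_const)).mul
      (hBc t ht)).continuousWithinAt
  obtain ⟨tm, htm, htm'⟩ := isCompact_Icc.exists_isMaxOn (⟨0, by norm_num⟩ : (Icc (0:ℝ) 1).Nonempty) hKc
  have hpb : ∀ t ∈ Icc (0:ℝ) 1, ‖p t‖ ≤ Bf t * ‖η t‖ := by
    intro t ht
    simp only [hp, hBf]
    refine (norm_sum_le _ _).trans ?_
    rw [Finset.sum_mul]
    refine Finset.sum_le_sum fun j _ => ?_
    rw [norm_smul, Real.norm_eq_abs, Finset.sum_mul]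
    have h1 : |y t j| ≤ ∑ i, |(Mx g e (x0 + t • v))⁻¹ j i| * ‖η t‖ := by
      simp only [hy, Matrix.mulVec, dotProduct]
      refine (Finset.abs_sum_le_sum_abs _ _).trans (Finset.sum_le_sum fun i _ => ?_)
      rw [abs_mul]
      exact mul_le_mul_of_nonneg_left (by simpa using norm_le_pi_norm (η t) i) (abs_nonneg _)
    calc |y t j| * ‖e j‖ ≤ (∑ i, |(Mx g e (x0 + t • v))⁻¹ j i| * ‖η t‖) * ‖e j‖ :=
          mul_le_mul_of_nonneg_right h1 (norm_nonneg _)
      _ = ∑ i, |(Mx g e (x0 + t • v))⁻¹ j i| * ‖e j‖ * ‖η t‖ := by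
          rw [Finset.sum_mul]; refine Finset.sum_congr rfl fun i _ => by ring
  have hBn : ∀ t, 0 ≤ Bf t := fun t => by simp only [hBf]; positivity
  have hbound : ∀ t ∈ Icc (0:ℝ) 1, ‖(fun i => D3 (x0 + t • v) v (e i) v : Fin r → ℝ)‖ ≤ Kf tm * ‖η t‖ + 0 := by
    intro t ht
    rw [add_zero]
    have hKt : Kf t ≤ Kf tm := htm' ht
    have hKtn : 0 ≤ Kf t := by
      simp only [hKf]
      have := hBn t
      positivity
    refine le_trans ?_ (mul_le_mul_of_nonneg_right hKt (norm_nonneg _))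
    rw [pi_norm_le_iff_of_nonneg (mul_nonneg hKtn (norm_nonneg _))]
    intro i
    obtain ⟨hq, hdet⟩ := hseg t ht
    set x := x0 + t • v with hx
    have hk0 := (L2 g hg hmax e x hq hdet v).1
    have hk0' : ∀ i, fderiv ℝ (fderiv ℝ g) x (e i) (k t) = 0 := hk0
    have h3 := L3 g hg hmax e x hq hdet (k t) hk0' (e i)
    have hvk : v = k t + p t := by simp only [hk]; abel
    have h4 : D3 x v (e i) v = D3 x (e i) (k t) (p t) + D3 x (e i) (p t) v := by
      have s1 : D3 x v (e i) v = D3 x (e i) v v := by rw [hD3, symm3 g hg x hq v (e i)]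
      have s2 : D3 x (e i) v v = D3 x (e i) (k t) v + D3 x (e i) (p t) v := by
        rw [← ContinuousLinearMap.add_apply, ← map_add, ← hvk]
      have s3 : D3 x (e i) (k t) v = D3 x (e i) (k t) (k t) + D3 x (e i) (k t) (p t) := by
        rw [← map_add, ← hvk]
      rw [s1, s2, s3, h3, zero_add]
    rw [h4]
    have hei : ‖e i‖ ≤ E := Finset.single_le_sum (f := fun i => ‖e i‖) (fun i _ => norm_nonneg _) (Finset.mem_univ i)
    have b1 : ‖D3 x (e i) (k t) (p t)‖ ≤ ‖D3 x‖ * E * ‖k t‖ * ‖p t‖ := by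
      refine ((D3 x (e i)) (k t)).le_opNorm _ |>.trans ?_
      refine mul_le_mul_of_nonneg_right ?_ (norm_nonneg _)
      refine ((D3 x (e i)).le_opNorm _).trans ?_
      refine mul_le_mul_of_nonneg_right ?_ (norm_nonneg _)
      exact ((D3 x).le_opNorm _).trans (mul_le_mul_of_nonneg_left hei (norm_nonneg _))
    have b2 : ‖D3 x (e i) (p t) v‖ ≤ ‖D3 x‖ * E * ‖p t‖ * ‖v‖ := by
      refine ((D3 x (e i)) (p t)).le_opNorm _ |>.trans ?_
      refine mul_le_mul_of_nonneg_right ?_ (norm_nonneg _)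
      refine ((D3 x (e i)).le_opNorm _).trans ?_
      refine mul_le_mul_of_nonneg_right ?_ (norm_nonneg _)
      exact ((D3 x).le_opNorm _).trans (mul_le_mul_of_nonneg_left hei (norm_nonneg _))
    have hE0 : 0 ≤ E := by positivity
    have b3 := hpb t ht
    calc ‖D3 x (e i) (k t) (p t) + D3 x (e i) (p t) v‖ ≤ _ := norm_add_le _ _
      _ ≤ ‖D3 x‖ * E * ‖k t‖ * ‖p t‖ + ‖D3 x‖ * E * ‖p t‖ * ‖v‖ := add_le_add b1 b2
      _ = (‖D3 x‖ * E * (‖k t‖ + ‖v‖)) * ‖p t‖ := by ring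
      _ ≤ (‖D3 x‖ * E * (‖k t‖ + ‖v‖)) * (Bf t * ‖η t‖) := mul_le_mul_of_nonneg_left b3 (by positivity)
      _ = Kf t * ‖η t‖ := by simp only [hKf]; ring
  have hη0 : η 0 = 0 := by
    funext i
    simp only [hη, Ex, zero_smul, add_zero]
    exact hv i
  have hηz : ∀ t ∈ Icc (0:ℝ) 1, η t = 0 := by
    intro t ht
    have := norm_le_gronwallBound_of_norm_deriv_right_le (f := η)
      (f' := fun t => (fun i => D3 (x0 + t • v) v (e i) v : Fin r → ℝ)) (δ := 0) (K := Kf tm) (ε := 0)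
      (a := 0) (b := 1)
      (fun t ht => (hηd t ht).continuousAt.continuousWithinAt)
      (fun t ht => (hηd t (Ico_subset_Icc_self ht)).hasDerivWithinAt)
      (by rw [hη0, norm_zero]) (fun t ht => hbound t (Ico_subset_Icc_self ht)) t ht
    rw [gronwallBound_ε0_δ0] at this
    exact norm_le_zero_iff.mp this
  -- second derivative along the line vanishes
  have hD2v : ∀ t ∈ Icc (0:ℝ) 1, fderiv ℝ (fderiv ℝ g) (x0 + t • v) v v = 0 := by
    intro t ht
    obtain ⟨hq, hdet⟩ := hseg t ht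
    rw [(L2 g hg hmax e _ hq hdet v).2]
    have : Ex g e v (x0 + t • v) = 0 := hηz t ht
    rw [this]; simp
  have hder1 : ∀ t ∈ Icc (0:ℝ) 1, HasDerivWithinAt (fun t : ℝ => fderiv ℝ g (x0 + t • v) v) 0 (Icc 0 1) t := by
    intro t ht
    have h1 := line_deriv (fderiv ℝ g) _ x0 v t (hd1 g hg _ (hseg t ht).1)
    have h2 := h1.clm_apply (hasDerivAt_const t v)
    simp only [map_zero, add_zero] at h2
    rw [hD2v t ht] at h2
    exact h2.hasDerivWithinAt
  have hconst1 : ∀ t ∈ Icc (0:ℝ) 1, fderiv ℝ g (x0 + t • v) v = fderiv ℝ g x0 v := by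
    intro t ht
    have := (convex_Icc (0:ℝ) 1).norm_image_sub_le_of_norm_hasDerivWithin_le (C := 0) hder1
      (fun x _ => by simp) (left_mem_Icc.mpr zero_le_one) ht
    rw [zero_mul] at this
    have h2 := sub_eq_zero.mp (norm_le_zero_iff.mp this)
    simpa using h2
  have hder0 : ∀ t ∈ Icc (0:ℝ) 1, HasDerivWithinAt (fun t : ℝ => g (x0 + t • v) - t * fderiv ℝ g x0 v) 0 (Icc 0 1) t := by
    intro t ht
    have h1 := line_deriv g _ x0 v t (hd0 g hg _ (hseg t ht).1)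
    have h2 : HasDerivAt (fun t : ℝ => t * fderiv ℝ g x0 v) (fderiv ℝ g x0 v) t := by
      simpa using (hasDerivAt_id t).mul_const (fderiv ℝ g x0 v)
    have h3 := h1.sub h2
    rw [hconst1 t ht, sub_self] at h3
    exact h3.hasDerivWithinAt
  have := (convex_Icc (0:ℝ) 1).norm_image_sub_le_of_norm_hasDerivWithin_le (C := 0) hder0
      (fun x _ => by simp) (left_mem_Icc.mpr zero_le_one) (right_mem_Icc.mpr zero_le_one)
  have h1' : (0:ℝ) * ‖(1:ℝ) - 0‖ = 0 := by rw [zero_mul]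
  rw [h1'] at this
  have h2 := sub_eq_zero.mp (norm_le_zero_iff.mp this)
  simp only [one_smul, one_mul, zero_smul, add_zero, zero_mul, sub_zero] at h2
  linarith

end leaf

end Pool.Agent.Helper18.PL
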