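import Pool.Agent.Helper18.PL5

set_option autoImplicit false
set_option maxSynthPendingDepth 3

open Set Topology Filter
open scoped ContDiff

namespace Pool.Agent.Helper18.PL

theorem case4 {m : ℕ} (f : (Fin m → ℝ) → (Fin 2 → ℝ)) (hf : ContDiffOn ℝ ∞ f (Q m))
    (x0 : Fin m → ℝ) (hx0 : x0 ∈ Q m) (σ : ℝ) (hσ : σ ≠ 0) (W : Fin 4 → (Fin m → ℝ)) (μ : Fin 4 → ℝ)
    (hμ : ∀ i, 0 < σ * μ i)
    (hW : ∀ p q, fderiv ℝ (fderiv ℝ (fun x => f x 0)) x0 (W p) (W q) = if p = q then μ p else 0) :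
    Good f := by
  set ι : (ℂ × ℂ) →L[ℝ] (Fin m → ℝ) :=
    (Complex.reCLM.comp (ContinuousLinearMap.fst ℝ ℂ ℂ)).smulRight (W 0) +
    (Complex.imCLM.comp (ContinuousLinearMap.fst ℝ ℂ ℂ)).smulRight (W 1) +
    (Complex.reCLM.comp (ContinuousLinearMap.snd ℝ ℂ ℂ)).smulRight (W 2) +
    (Complex.imCLM.comp (ContinuousLinearMap.snd ℝ ℂ ℂ)).smulRight (W 3) with hι
  have hιa : ∀ w : ℂ × ℂ, ι w = w.1.re • W 0 + w.1.im • W 1 + w.2.re • W 2 + w.2.im • W 3 := fun w => rfl
  refine caseA f hf x0 hx0 σ hσ ι fun w hw => ?_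
  have hval : fderiv ℝ (fderiv ℝ (fun x => f x 0)) x0 (ι w) (ι w) =
      μ 0 * w.1.re^2 + μ 1 * w.1.im^2 + μ 2 * w.2.re^2 + μ 3 * w.2.im^2 := by
    rw [hιa]
    simp only [map_add, map_smul, ContinuousLinearMap.add_apply, ContinuousLinearMap.smul_apply, hW,
      smul_eq_mul]
    simp
    ring
  rw [hval]
  have h0 := hμ 0
  have h1 := hμ 1
  have h2 := hμ 2
  have h3 := hμ 3
  have hne : 0 < w.1.re^2 ∨ 0 < w.1.im^2 ∨ 0 < w.2.re^2 ∨ 0 < w.2.im^2 := by
    by_contra hcon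
    push Not at hcon
    obtain ⟨c0, c1, c2, c3⟩ := hcon
    have d0 : w.1.re = 0 := by nlinarith
    have d1 : w.1.im = 0 := by nlinarith
    have d2 : w.2.re = 0 := by nlinarith
    have d3 : w.2.im = 0 := by nlinarith
    apply hw
    apply Prod.ext
    · exact Complex.ext d0 d1
    · exact Complex.ext d2 d3
  have e0 := mul_nonneg h0.le (sq_nonneg w.1.re)
  have e1 := mul_nonneg h1.le (sq_nonneg w.1.im)
  have e2 := mul_nonneg h2.le (sq_nonneg w.2.re)
  have e3 := mul_nonneg h3.le (sq_nonneg w.2.im)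
  rcases hne with h | h | h | h
  · nlinarith [mul_pos h0 h]
  · nlinarith [mul_pos h1 h]
  · nlinarith [mul_pos h2 h]
  · nlinarith [mul_pos h3 h]

theorem case7 {m : ℕ} (f : (Fin m → ℝ) → (Fin 2 → ℝ)) (hf : ContDiffOn ℝ ∞ f (Q m))
    (x0 : Fin m → ℝ) (hx0 : x0 ∈ Q m) {r : ℕ} (hr : 7 ≤ r) (e : Fin r → (Fin m → ℝ))
    (hdet : (Mx (fun x => f x 0) e x0).det ≠ 0) : Good f := by
  classical
  have hg : ContDiffOn ℝ ∞ (fun x => f x 0) (Q m) := (contDiffOn_pi.mp hf) 0
  set D2 := fderiv ℝ (fderiv ℝ (fun x => f x 0)) with hD2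
  set M := Mx (fun x => f x 0) e x0 with hM
  have hMa : ∀ i j, M i j = D2 x0 (e i) (e j) := fun i j => rfl
  have hH : M.IsHermitian := by
    ext i j
    rw [Matrix.conjTranspose_apply, star_trivial, hMa, hMa]
    exact symm2 _ hg x0 hx0 _ _
  set b := hH.eigenvectorBasis with hb
  set l := hH.eigenvalues with hl
  have hlne : ∀ k, l k ≠ 0 := by
    intro k hk
    apply hdet
    rw [hH.det_eq_prod_eigenvalues]
    refine Finset.prod_eq_zero (Finset.mem_univ k) ?_
    exact_mod_cast hk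
  set W : Fin r → (Fin m → ℝ) := fun k => ∑ i, (b k).ofLp i • e i with hW
  have hWW : ∀ k q, D2 x0 (W k) (W q) = if k = q then l k else 0 := by
    intro k q
    have h1 : ∀ i, D2 x0 (e i) (W q) = l q * (b q).ofLp i := by
      intro i
      have h2 := congrFun (hH.mulVec_eigenvectorBasis q) i
      simp only [Matrix.mulVec, dotProduct, Pi.smul_apply, smul_eq_mul] at h2
      rw [← h2]
      simp only [hW, map_sum, map_smul, smul_eq_mul]
      refine Finset.sum_congr rfl fun j _ => ?_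
      rw [hMa, mul_comm]
    have h3 : D2 x0 (W k) (W q) = ∑ i, (b k).ofLp i * (l q * (b q).ofLp i) := by
      have h4 : D2 x0 (W k) = ∑ i, (b k).ofLp i • D2 x0 (e i) := by
        simp only [hW, map_sum, map_smul]
      rw [h4, ContinuousLinearMap.sum_apply]
      refine Finset.sum_congr rfl fun i _ => ?_
      rw [ContinuousLinearMap.smul_apply, smul_eq_mul, h1 i]
    have h5 : (inner ℝ (b q) (b k) : ℝ) = ∑ i, (b k).ofLp i * (b q).ofLp i := by
      rw [EuclideanSpace.inner_eq_star_dotProduct]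
      simp [dotProduct]
    have h6 : D2 x0 (W k) (W q) = l q * (inner ℝ (b q) (b k) : ℝ) := by
      rw [h3, h5, Finset.mul_sum]
      refine Finset.sum_congr rfl fun i _ => by ring
    rw [h6, orthonormal_iff_ite.mp b.orthonormal q k]
    by_cases hkq : k = q
    · subst hkq; simp
    · rw [if_neg hkq, if_neg (Ne.symm hkq), mul_zero]
  -- general finishing move
  have fin : ∀ (σ : ℝ) (S : Finset (Fin r)), σ ≠ 0 → 4 ≤ S.card → (∀ k ∈ S, 0 < σ * l k) → Good f := by
    intro σ S hσ hS hpos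
    obtain ⟨T, hTS, hT⟩ := Finset.exists_subset_card_eq hS
    set j := T.orderEmbOfFin hT with hj
    refine case4 f hf x0 hx0 σ hσ (fun p => W (j p)) (fun p => l (j p)) (fun p => ?_) (fun p q => ?_)
    · exact hpos _ (hTS (Finset.orderEmbOfFin_mem T hT p))
    · have := hWW (j p) (j q)
      rw [hD2] at this
      rw [this]
      by_cases hpq : p = q
      · subst hpq; simp
      · rw [if_neg hpq, if_neg (fun h => hpq (j.injective h))]
  have hcard : (Finset.univ.filter fun k => 0 < l k).card + (Finset.univ.filter fun k => ¬ 0 < l k).card = r := by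
    rw [Finset.card_filter_add_card_filter_not]; simp
  rcases (by omega : 4 ≤ (Finset.univ.filter fun k => 0 < l k).card ∨
    4 ≤ (Finset.univ.filter fun k => ¬ 0 < l k).card) with h | h
  · refine fin 1 _ one_ne_zero h fun k hk => ?_
    rw [Finset.mem_filter] at hk
    linarith [hk.2]
  · refine fin (-1) _ (by norm_num) h fun k hk => ?_
    rw [Finset.mem_filter] at hk
    have := lt_of_le_of_ne (not_lt.mp hk.2) (hlne k)
    linarith

/-- five points on a level set -/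
theorem five (H : ℂ → ℝ) (δ : ℝ) (hδ : 0 < δ) (hH : ContinuousOn H (Metric.ball 0 δ)) :
    ∃ (c : ℝ) (z : Fin 5 → ℂ), Function.Injective z ∧ ∀ k, ‖z k‖ < δ ∧ H (z k) = c := by
  by_cases h : ∃ a b : ℂ, ‖a‖ < δ/8 ∧ ‖b‖ < δ/8 ∧ H a < H b
  · obtain ⟨a, b, ha, hb, hab⟩ := h
    have hne : b - a ≠ 0 := by
      intro h0
      have : b = a := sub_eq_zero.mp h0
      rw [this] at hab; exact lt_irrefl _ hab
    set γ : Fin 5 → ℝ → ℂ := fun j t => a + ((t : ℂ) + (((j : ℕ) : ℝ) * (t * (1 - t)) : ℝ) * Complex.I) * (b - a) with hγ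
    have hγc : ∀ j, Continuous (γ j) := by
      intro j; simp only [hγ]; fun_prop
    have hγb : ∀ j, ∀ t ∈ Icc (0:ℝ) 1, ‖γ j t‖ < δ := by
      intro j t ht
      have h1 : ‖((t : ℂ) + (((j : ℕ) : ℝ) * (t * (1 - t)) : ℝ) * Complex.I)‖ ≤ 1 + 4 * (1/4) := by
        refine (norm_add_le _ _).trans (add_le_add ?_ ?_)
        · rw [Complex.norm_real, Real.norm_eq_abs, abs_of_nonneg ht.1]; exact ht.2
        · have j4 : ((j : ℕ) : ℝ) ≤ 4 := by exact_mod_cast (Nat.lt_succ_iff.mp j.2)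
          have j0 : (0:ℝ) ≤ ((j : ℕ) : ℝ) := Nat.cast_nonneg _
          have h2 : 0 ≤ t * (1 - t) := mul_nonneg ht.1 (by linarith [ht.2])
          have h3 : t * (1 - t) ≤ 1/4 := by nlinarith [sq_nonneg (t - 1/2)]
          rw [norm_mul, Complex.norm_I, mul_one, Complex.norm_real, Real.norm_eq_abs,
            abs_of_nonneg (mul_nonneg j0 h2)]
          exact mul_le_mul j4 h3 h2 (by norm_num)
      have h4 : ‖b - a‖ ≤ δ/4 := (norm_sub_le _ _).trans (by linarith)
      calc ‖γ j t‖ ≤ ‖a‖ + ‖((t : ℂ) + (((j : ℕ) : ℝ) * (t * (1 - t)) : ℝ) * Complex.I) * (b - a)‖ := norm_add_le _ _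
        _ ≤ ‖a‖ + (1 + 4 * (1/4)) * (δ/4) := by
            rw [norm_mul]
            exact add_le_add le_rfl (mul_le_mul h1 h4 (norm_nonneg _) (by norm_num))
        _ < δ := by linarith
    have hg0 : ∀ j, γ j 0 = a := by intro j; simp [hγ]
    have hg1 : ∀ j, γ j 1 = b := by intro j; simp [hγ]
    have hex : ∀ j, ∃ t ∈ Icc (0:ℝ) 1, H (γ j t) = (H a + H b)/2 := by
      intro j
      have hc : ContinuousOn (fun t => H (γ j t)) (Icc 0 1) :=
        hH.comp (hγc j).continuousOn fun t ht => by rw [mem_ball_zero_iff]; exact hγb j t ht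
      exact intermediate_value_Icc zero_le_one hc ⟨by simp only [hg0]; linarith, by simp only [hg1]; linarith⟩
    choose t ht ht' using hex
    refine ⟨(H a + H b)/2, fun j => γ j (t j), ?_, fun j => ⟨hγb j _ (ht j), ht' j⟩⟩
    intro j k hjk
    simp only [hγ] at hjk
    have h1 := mul_right_cancel₀ hne (add_left_cancel hjk)
    have h2 := congrArg Complex.re h1
    have h3 := congrArg Complex.im h1
    simp at h2 h3
    have t0 : t j ≠ 0 := by
      intro h0
      have := ht' j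
      rw [h0, hg0] at this
      linarith
    have t1 : t j ≠ 1 := by
      intro h0
      have := ht' j
      rw [h0, hg1] at this
      linarith
    rw [← h2] at h3
    have h4 : t j * (1 - t j) ≠ 0 := mul_ne_zero t0 (sub_ne_zero.mpr (Ne.symm t1))
    have h5 : (((j : ℕ) : ℝ)) = ((k : ℕ) : ℝ) := mul_right_cancel₀ h4 h3
    exact Fin.ext (by exact_mod_cast h5)
  · push Not at h
    refine ⟨H 0, fun k => ((((k : ℕ) : ℝ) * (δ/64) : ℝ) : ℂ), ?_, fun k => ?_⟩
    · intro j k hjk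
      simp only at hjk
      have h1 : ((j : ℕ) : ℝ) * (δ/64) = ((k : ℕ) : ℝ) * (δ/64) := by exact_mod_cast hjk
      have h2 := mul_right_cancel₀ (by positivity : δ/64 ≠ 0) h1
      exact Fin.ext (by exact_mod_cast h2)
    · have j4 : ((k : ℕ) : ℝ) ≤ 4 := by exact_mod_cast (Nat.lt_succ_iff.mp k.2)
      have j0 : (0:ℝ) ≤ ((k : ℕ) : ℝ) := Nat.cast_nonneg _
      have hn : ‖((((k : ℕ) : ℝ) * (δ/64) : ℝ) : ℂ)‖ < δ/8 := by
        rw [Complex.norm_real, Real.norm_eq_abs, abs_of_nonneg (by positivity)]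
        nlinarith
      refine ⟨by linarith, le_antisymm ?_ ?_⟩
      · exact h 0 _ (by simpa using (by positivity : 0 < δ/8)) hn
      · exact h _ 0 hn (by simpa using (by positivity : 0 < δ/8))

theorem caseB {m : ℕ} (hm : 8 ≤ m) (f : (Fin m → ℝ) → (Fin 2 → ℝ)) (hf : ContDiffOn ℝ ∞ f (Q m))
    {r : ℕ} (hr : r ≤ 6) (hmax : ∀ x ∈ Q m, ∀ e' : Fin (r+1) → (Fin m → ℝ), (Mx (fun x => f x 0) e' x).det = 0)
    (x0 : Fin m → ℝ) (hx0 : x0 ∈ Q m) (e : Fin r → (Fin m → ℝ))
    (hdet : (Mx (fun x => f x 0) e x0).det ≠ 0) : Good f := by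
  have hg : ContDiffOn ℝ ∞ (fun x => f x 0) (Q m) := (contDiffOn_pi.mp hf) 0
  set g : (Fin m → ℝ) → ℝ := fun x => f x 0 with hgd
  -- kernel
  set A : (Fin m → ℝ) →ₗ[ℝ] (Fin r → ℝ) := LinearMap.pi fun i => (fderiv ℝ (fderiv ℝ g) x0 (e i)).toLinearMap with hA
  have hker : 2 ≤ Module.finrank ℝ (LinearMap.ker A) := by
    have h1 := LinearMap.finrank_range_add_finrank_ker A
    have h2 : Module.finrank ℝ (LinearMap.range A) ≤ Module.finrank ℝ (Fin r → ℝ) := Submodule.finrank_le _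
    rw [Module.finrank_fin_fun] at h1 h2
    omega
  obtain ⟨κ0, hκ0⟩ := finrank_le_iff_exists_linearMap.mp
    (show Module.finrank ℝ ℂ ≤ Module.finrank ℝ (LinearMap.ker A) by rw [Complex.finrank_real_complex]; exact hker)
  set κ : ℂ →ₗ[ℝ] (Fin m → ℝ) := (LinearMap.ker A).subtype ∘ₗ κ0 with hκ
  have hκinj : Function.Injective κ := (Submodule.injective_subtype _).comp hκ0
  have hκk : ∀ z i, fderiv ℝ (fderiv ℝ g) x0 (e i) (κ z) = 0 := by
    intro z i
    have h1 : A (κ z) = 0 := (κ0 z).2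
    exact congrFun h1 i
  have hκc : Continuous κ := κ.continuous_of_finiteDimensional
  -- neighbourhood
  have hMc : ContinuousAt (fun x => Mx g e x) x0 := by
    refine continuousAt_pi.mpr fun i => continuousAt_pi.mpr fun j => ?_
    have h1 := (cd2 g hg x0 hx0).continuousAt
    exact (h1.clm_apply continuousAt_const).clm_apply continuousAt_const
  have hdc : ContinuousAt (fun x => (Mx g e x).det) x0 :=
    ContinuousAt.comp (g := fun B : Matrix (Fin r) (Fin r) ℝ => B.det)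
      (Continuous.matrix_det continuous_id).continuousAt hMc
  have evQ : ∀ᶠ x in 𝓝 x0, x ∈ Q m := (Q_open m).mem_nhds hx0
  have ev : ∀ᶠ x in 𝓝 x0, x ∈ Q m ∧ (Mx g e x).det ≠ 0 := evQ.and (hdc.eventually_ne hdet)
  obtain ⟨ρ, hρ, hρ'⟩ := Metric.eventually_nhds_iff.mp ev
  have ev2 : ∀ᶠ z in 𝓝 (0:ℂ), ‖κ z‖ < ρ := by
    have : ContinuousAt (fun z => ‖κ z‖) 0 := hκc.norm.continuousAt
    refine this.eventually_lt continuousAt_const ?_
    simpa using hρ
  obtain ⟨δ, hδ, hδ'⟩ := Metric.eventually_nhds_iff.mp ev2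
  have hb : ∀ z : ℂ, ‖z‖ < δ → ‖κ z‖ < ρ := fun z hz => hδ' (by rwa [dist_zero_right])
  have hQz : ∀ z : ℂ, ‖z‖ < δ → x0 + κ z ∈ Q m := fun z hz =>
    (hρ' (by rw [dist_eq_norm, add_sub_cancel_left]; exact hb z hz)).1
  have haff : ∀ z : ℂ, ‖z‖ < δ → g (x0 + κ z) = g x0 + fderiv ℝ g x0 (κ z) := by
    intro z hz
    refine L4 g hg hmax e x0 (κ z) (fun t ht => ?_) (hκk z)
    refine hρ' ?_
    rw [dist_eq_norm, add_sub_cancel_left, norm_smul, Real.norm_eq_abs, abs_of_nonneg ht.1]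
    have := hb z hz
    nlinarith [ht.1, ht.2, norm_nonneg (κ z)]
  have hHc : ContinuousOn (fun z : ℂ => f (x0 + κ z) 1) (Metric.ball 0 δ) := by
    have h1 : ContinuousOn (fun z : ℂ => f (x0 + κ z)) (Metric.ball 0 δ) :=
      hf.continuousOn.comp (continuous_const.add hκc).continuousOn fun z hz =>
        hQz z (by rwa [mem_ball_zero_iff] at hz)
    exact (continuous_apply 1).comp_continuousOn h1
  obtain ⟨c, z, hz, hz'⟩ := five (fun z : ℂ => f (x0 + κ z) 1) δ hδ hHc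
  refine plane_of f x0 κ hκinj ![g x0, c] (LinearMap.pi ![(fderiv ℝ g x0).toLinearMap ∘ₗ κ, 0]) z hz fun k => ?_
  obtain ⟨z1, z2⟩ := hz' k
  refine ⟨hQz _ z1, ?_⟩
  funext i
  fin_cases i
  · have h1 := haff _ z1
    simp
    exact h1
  · simp
    exact z2

theorem main {m : ℕ} (hm : 8 ≤ m) (f : (Fin m → ℝ) → (Fin 2 → ℝ)) (hf : ContDiffOn ℝ ∞ f (Q m)) :
    Good f := by
  classical
  set P : ℕ → Prop := fun r => ∃ x ∈ Q m, ∃ e : Fin r → (Fin m → ℝ), (Mx (fun x => f x 0) e x).det ≠ 0 with hP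
  have hP0 : P 0 := ⟨0, fun i => by simp, Fin.elim0, by simp⟩
  by_cases h7 : P 7
  · obtain ⟨x, hx, e, he⟩ := h7
    exact case7 f hf x hx le_rfl e he
  · set r := Nat.findGreatest P 6 with hr
    have h1 : P r := Nat.findGreatest_spec (m := 0) (by omega) hP0
    have hr6 : r ≤ 6 := Nat.findGreatest_le 6
    have h2 : ¬ P (r+1) := by
      by_cases h6 : r = 6
      · rw [h6]; exact h7
      · exact Nat.findGreatest_is_greatest (n := 6) (by omega) (by omega)
    obtain ⟨x, hx, e, he⟩ := h1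
    refine caseB hm f hf hr6 ?_ x hx e he
    intro y hy e'
    by_contra hcon
    exact h2 ⟨y, hy, e', hcon⟩

end Pool.Agent.Helper18.PL
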