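import Mathlib

set_option autoImplicit false

open Set
open scoped Cardinal

namespace Pool.Agent.Helper18.RB

/-- The Cantor group. -/
abbrev K : Type := ℕ → ZMod 2

theorem card_span_lt (S : Set K) (hS : #S < 𝔠) :
    #(Submodule.span (ZMod 2) S : Set K) < 𝔠 := by
  have h1 : #(Submodule.span (ZMod 2) S : Set K) ≤ #(S →₀ ZMod 2) := by
    have h2 : (Submodule.span (ZMod 2) S : Set K) =
        Set.range (Finsupp.linearCombination (ZMod 2) (Subtype.val : S → K)) := by
      rw [← LinearMap.coe_range, Finsupp.range_linearCombination, Subtype.range_coe]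
    rw [h2]
    exact Cardinal.mk_range_le
  refine h1.trans_lt ?_
  by_cases hfin : Finite S
  · haveI := Fintype.ofFinite S
    rw [Cardinal.mk_finsupp_of_fintype]
    have : #(S → ZMod 2) < ℵ₀ := Cardinal.lt_aleph0_of_finite _
    have h3 : (#(ZMod 2)) ^ (Fintype.card S) = #(S → ZMod 2) := by
      rw [← Cardinal.mk_finsupp_of_fintype, Cardinal.mk_congr (Finsupp.equivFunOnFinite)]
    exact (h3 ▸ this).trans Cardinal.aleph0_lt_continuum
  · haveI : Infinite S := not_finite_iff_infinite.mp hfin
    rw [Cardinal.mk_finsupp_of_infinite]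
    refine max_lt hS ?_
    exact (Cardinal.lt_aleph0_of_finite _).trans Cardinal.aleph0_lt_continuum

section rec
variable {ι : Type} [LinearOrder ι] [WellFoundedLT ι]

/-- earlier points -/
def early (i : ι) (r : ∀ j : ι, j < i → K × K) : Set K :=
  {x | ∃ (j : ι) (hj : j < i), x = (r j hj).1 ∨ x = (r j hj).2}

/-- good choice -/
def Good (T : Set (K × K)) (V : Set K) (q : K × K) : Prop :=
  q ∈ T ∧ q.1 ∉ V ∧ q.2 ∉ V ∧ q.1 + q.2 ∉ V

open Classical in
/-- recursion step -/
noncomputable def step (T : ι → Set (K × K)) (i : ι) (r : ∀ j : ι, j < i → K × K) : K × K :=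
  if h : ∃ q, Good (T i) (Submodule.span (ZMod 2) (early i r) : Set K) q then h.choose else 0

/-- recursively chosen points -/
noncomputable def pts (T : ι → Set (K × K)) : ι → K × K :=
  (wellFounded_lt (α := ι)).fix (step T)

theorem pts_eq (T : ι → Set (K × K)) (i : ι) : pts T i = step T i (fun j _ => pts T j) := by
  unfold pts
  rw [WellFounded.fix_eq]

/-- span of earlier points -/
def VV (T : ι → Set (K × K)) (i : ι) : Submodule (ZMod 2) K :=
  Submodule.span (ZMod 2) (early i (fun j _ => pts T j))

theorem pts_good (T : ι → Set (K × K)) (i : ι)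
    (h : ∃ q, Good (T i) (VV T i : Set K) q) : Good (T i) (VV T i : Set K) (pts T i) := by
  unfold VV at h
  rw [pts_eq, step, dif_pos h]
  exact h.choose_spec

theorem pts_zero (T : ι → Set (K × K)) (i : ι)
    (h : ¬ ∃ q, Good (T i) (VV T i : Set K) q) : pts T i = 0 := by
  unfold VV at h
  rw [pts_eq, step, dif_neg h]

/-- Big sets -/
def Big (T : Set (K × K)) : Prop := ∀ V : Set K, #V < 𝔠 → ∃ q, Good T V q

theorem card_VV (hι : ∀ i : ι, #(Set.Iio i) < 𝔠) (T : ι → Set (K × K)) (i : ι) :
    #(VV T i : Set K) < 𝔠 := by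
  apply card_span_lt
  have : early i (fun j _ => pts T j) ⊆
      (fun j => (pts T j).1) '' Set.Iio i ∪ (fun j => (pts T j).2) '' Set.Iio i := by
    rintro x ⟨j, hj, hx | hx⟩
    · exact Or.inl ⟨j, hj, hx.symm⟩
    · exact Or.inr ⟨j, hj, hx.symm⟩
  refine (Cardinal.mk_le_mk_of_subset this).trans_lt ((Cardinal.mk_union_le _ _).trans_lt ?_)
  exact Cardinal.add_lt_of_lt Cardinal.aleph0_le_continuum
    (Cardinal.mk_image_le.trans_lt (hι i)) (Cardinal.mk_image_le.trans_lt (hι i))

theorem pts_big (hι : ∀ i : ι, #(Set.Iio i) < 𝔠) (T : ι → Set (K × K)) (i : ι)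
    (h : Big (T i)) : Good (T i) (VV T i : Set K) (pts T i) :=
  pts_good T i (h _ (card_VV hι T i))

theorem span_sub (T : ι → Set (K × K)) (i : ι) (s : Set ι) (hs : ∀ j ∈ s, j < i) :
    Submodule.span (ZMod 2) ((fun j => (pts T j).1) '' s) ≤ VV T i := by
  apply Submodule.span_mono
  rintro _ ⟨j, hj, rfl⟩
  exact ⟨j, hs j hj, Or.inl rfl⟩

theorem fst_mem (T : ι → Set (K × K)) (i j : ι) (hj : j < i) : (pts T j).1 ∈ VV T i :=
  Submodule.subset_span ⟨j, hj, Or.inl rfl⟩

theorem snd_mem (T : ι → Set (K × K)) (i j : ι) (hj : j < i) : (pts T j).2 ∈ VV T i :=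
  Submodule.subset_span ⟨j, hj, Or.inr rfl⟩

theorem two_smul' (x : K) : x + x = 0 := CharTwo.add_self_eq_zero x

theorem snd_notMem_finset (T : ι → Set (K × K)) (i : ι)
    (hi : Good (T i) (VV T i : Set K) (pts T i)) (s : Finset ι) :
    (pts T i).2 ∉ Submodule.span (ZMod 2) ((fun j => (pts T j).1) '' (s : Set ι)) := by
  refine Finset.induction_on_max s ?_ ?_
  · intro h
    rw [Finset.coe_empty, Set.image_empty, Submodule.span_empty, Submodule.mem_bot] at h
    apply hi.2.2.1
    rw [h]
    exact (VV T i).zero_mem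
  · intro a s hs ih h
    rw [Finset.coe_insert, Set.image_insert_eq, Submodule.mem_span_insert] at h
    obtain ⟨c, w, hw, hc⟩ := h
    have hall : ∀ c : ZMod 2, c = 0 ∨ c = 1 := by decide
    have hc01 := hall c
    rcases hc01 with rfl | rfl
    · rw [zero_smul, zero_add] at hc
      exact ih (hc ▸ hw)
    · rw [one_smul] at hc
      -- `y_i = x_a + w`
      by_cases hga : ∃ q, Good (T a) (VV T a : Set K) q
      · have ha := pts_good T a hga
        rcases lt_trichotomy a i with hlt | heq | hgt
        · apply hi.2.2.1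
          rw [hc]
          exact (VV T i).add_mem (fst_mem T i a hlt)
            (span_sub T i _ (fun j hj => (hs j hj).trans hlt) hw)
        · subst heq
          apply hi.2.2.2
          have : (pts T a).1 + (pts T a).2 = w := by
            rw [hc, ← add_assoc, two_smul', zero_add]
          rw [this]
          exact span_sub T a _ (fun j hj => hs j hj) hw
        · apply ha.2.1
          have : (pts T a).1 = (pts T i).2 + w := by
            rw [hc, add_assoc, two_smul', add_zero]
          rw [this]
          exact (VV T a).add_mem (snd_mem T a i hgt)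
            (span_sub T a _ (fun j hj => hs j hj) hw)
      · have h0 := pts_zero T a hga
        have h00 : (pts T a).1 = 0 := by rw [h0]; rfl
        simp only [h00, zero_add] at hc
        exact ih (hc ▸ hw)

theorem snd_notMem (T : ι → Set (K × K)) (i : ι)
    (hi : Good (T i) (VV T i : Set K) (pts T i)) :
    (pts T i).2 ∉ Submodule.span (ZMod 2) (Set.range (fun j => (pts T j).1)) := by
  intro h
  rw [Finsupp.mem_span_range_iff_exists_finsupp] at h
  obtain ⟨c, hc⟩ := h
  apply snd_notMem_finset T i hi c.support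
  rw [← hc]
  apply Submodule.sum_mem
  intro j hj
  exact Submodule.smul_mem _ _ (Submodule.subset_span ⟨j, hj, rfl⟩)

end rec

theorem card_closeds : #(TopologicalSpace.Closeds (K × K)) ≤ 𝔠 := by
  have h1 : #(TopologicalSpace.countableBasis (K × K)) ≤ 𝔠 :=
    ((TopologicalSpace.countable_countableBasis (K × K)).le_aleph0).trans
      Cardinal.aleph0_le_continuum
  have h2 := MeasurableSpace.cardinal_measurableSet_le_continuum h1
  refine le_trans ?_ h2
  refine Cardinal.mk_le_of_injective (f := fun C => ⟨(C : Set (K × K)), ?_⟩) ?_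
  · have := C.isClosed
    have hb := (TopologicalSpace.isBasis_countableBasis (K × K)).borel_eq_generateFrom
    show @MeasurableSet _ (MeasurableSpace.generateFrom _) _
    rw [← hb]
    exact (@MeasurableSet.compl_iff _ _ (borel (K × K))).mp
      (MeasurableSpace.measurableSet_generateFrom this.isOpen_compl)
  · intro C D h
    exact TopologicalSpace.Closeds.ext (congrArg Subtype.val h)

/-- The main construction. -/
theorem exists_subgroup : ∃ X : Submodule (ZMod 2) K, ∀ T : Set (K × K), IsClosed T → Big T →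
    ∃ q ∈ T, q.1 ∈ X ∧ q.2 ∉ X := by
  let ι : Type := (𝔠 : Cardinal.{0}).ord.ToType
  have hcard : #(TopologicalSpace.Closeds (K × K)) ≤ #ι := by
    rw [Cardinal.mk_toType, Cardinal.card_ord]
    exact card_closeds
  obtain ⟨e⟩ := Cardinal.le_def _ _ |>.mp hcard
  have hsurj := Function.invFun_surjective e.injective
  let T : ι → Set (K × K) := fun i => ((Function.invFun e i : TopologicalSpace.Closeds (K × K)) :
    Set (K × K))
  have hι : ∀ i : ι, #(Set.Iio i) < 𝔠 := fun i => Cardinal.mk_Iio_toType_ord_lt i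
  refine ⟨Submodule.span (ZMod 2) (Set.range (fun j => (pts T j).1)), ?_⟩
  intro S hS hbig
  obtain ⟨i, hi⟩ := hsurj ⟨S, hS⟩
  have hTi : T i = S := by
    show ((Function.invFun e i : TopologicalSpace.Closeds (K × K)) : Set (K × K)) = S
    rw [hi]; rfl
  have hg := pts_big hι T i (hTi ▸ hbig)
  refine ⟨pts T i, hTi ▸ hg.1, Submodule.subset_span ⟨i, rfl⟩, snd_notMem T i hg⟩

end Pool.Agent.Helper18.RB
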