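import Pool.Agent.Helper18.RB1

set_option autoImplicit false

open Set MeasureTheory
open scoped Cardinal

namespace Pool.Agent.Helper18.RB

instance instPolishK : PolishSpace K :=
  { toSecondCountableTopology := inferInstance, toIsCompletelyMetrizableSpace := inferInstance }

theorem big_of (T : Set (K × K)) (hT : IsClosed T) (h1 : Set.InjOn Prod.fst T)
    (h2 : Set.InjOn Prod.snd T)
    (h3 : ¬ ((fun q : K × K => q.1 + q.2) '' T).Countable) : Big T := by
  intro V hV
  by_contra hno
  have hclosed : IsClosed ((fun q : K × K => q.1 + q.2) '' T) :=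
    (hT.isCompact.image (by fun_prop)).isClosed
  obtain ⟨f, hf, -, hinj⟩ := hclosed.exists_nat_bool_injection_of_not_countable h3
  have hc : 𝔠 ≤ #((fun q : K × K => q.1 + q.2) '' T) := by
    have h4 : #(ℕ → Bool) ≤ #((fun q : K × K => q.1 + q.2) '' T) :=
      Cardinal.mk_le_of_injective (f := fun x => ⟨f x, hf ⟨x, rfl⟩⟩) (fun x y hxy =>
        hinj (congrArg Subtype.val hxy))
    have h5 : #(ℕ → Bool) = 𝔠 := by simp
    rwa [h5] at h4
  have hsub : (fun q : K × K => q.1 + q.2) '' T ⊆
      V ∪ ((fun q : K × K => q.1 + q.2) '' (T ∩ Prod.fst ⁻¹' V) ∪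
        (fun q : K × K => q.1 + q.2) '' (T ∩ Prod.snd ⁻¹' V)) := by
    rintro _ ⟨q, hq, rfl⟩
    by_contra hn
    apply hno
    refine ⟨q, hq, fun h => hn (Or.inr (Or.inl ⟨q, ⟨hq, h⟩, rfl⟩)),
      fun h => hn (Or.inr (Or.inr ⟨q, ⟨hq, h⟩, rfl⟩)), fun h => hn (Or.inl h)⟩
  have hA : #(T ∩ Prod.fst ⁻¹' V : Set (K × K)) < 𝔠 := by
    refine (Cardinal.mk_le_of_injective (f := fun q => (⟨q.1.1, q.2.2⟩ : V)) ?_).trans_lt hV
    intro q q' h
    exact Subtype.ext (h1 q.2.1 q'.2.1 (congrArg Subtype.val h))
  have hB : #(T ∩ Prod.snd ⁻¹' V : Set (K × K)) < 𝔠 := by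
    refine (Cardinal.mk_le_of_injective (f := fun q => (⟨q.1.2, q.2.2⟩ : V)) ?_).trans_lt hV
    intro q q' h
    exact Subtype.ext (h2 q.2.1 q'.2.1 (congrArg Subtype.val h))
  have := (Cardinal.mk_le_mk_of_subset hsub).trans (Cardinal.mk_union_le _ _)
  have h6 : #V + #(((fun q : K × K => q.1 + q.2) '' (T ∩ Prod.fst ⁻¹' V) ∪
        (fun q : K × K => q.1 + q.2) '' (T ∩ Prod.snd ⁻¹' V) : Set K)) < 𝔠 := by
    refine Cardinal.add_lt_of_lt Cardinal.aleph0_le_continuum hV ?_
    refine (Cardinal.mk_union_le _ _).trans_lt ?_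
    exact Cardinal.add_lt_of_lt Cardinal.aleph0_le_continuum
      (Cardinal.mk_image_le.trans_lt hA) (Cardinal.mk_image_le.trans_lt hB)
  exact absurd (hc.trans this) (not_le.mpr h6)

/-- right shift -/
def shift (x : K) : K := fun n => if n = 0 then 0 else x (n - 1)

theorem shift_cont : Continuous shift := by
  refine continuous_pi fun n => ?_
  unfold shift
  by_cases h : n = 0
  · simp only [h, if_true]; exact continuous_const
  · simp only [h, if_false]; exact continuous_apply _

theorem shift_inj : Function.Injective shift := by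
  intro x y h
  funext n
  have := congrFun h (n + 1)
  simpa [shift] using this

theorem shift_add (x y : K) : shift (x + y) = shift x + shift y := by
  funext n
  by_cases h : n = 0 <;> simp [shift, h]

theorem add_shift_inj : Function.Injective (fun x : K => x + shift x) := by
  intro x y h
  have h' : ∀ n, x n + shift x n = y n + shift y n := fun n => congrFun h n
  funext n
  induction n with
  | zero => simpa [shift] using h' 0
  | succ n ih =>
    have := h' (n + 1)
    simp only [shift, Nat.succ_ne_zero, if_false, Nat.add_sub_cancel, ih] at this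
    exact add_right_cancel this

/-- property (★) of the subgroup -/
def Star (X : Submodule (ZMod 2) K) : Prop :=
  ∀ T : Set (K × K), IsClosed T → Big T → ∃ q ∈ T, q.1 ∈ X ∧ q.2 ∉ X

theorem meets (X : Submodule (ZMod 2) K) (hX : Star X) (B : Set K) (hB : IsClosed B)
    (hu : ¬ B.Countable) : ∃ x ∈ B, x ∈ X := by
  have hT : IsClosed ((fun x : K => (x, shift x)) '' B) :=
    (hB.isCompact.image (continuous_id.prodMk shift_cont)).isClosed
  obtain ⟨q, ⟨x, hxB, rfl⟩, hq1, -⟩ := hX _ hT (by
    apply big_of _ hT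
    · rintro _ ⟨x, -, rfl⟩ _ ⟨y, -, rfl⟩ h
      simp only at h
      rw [h]
    · rintro _ ⟨x, -, rfl⟩ _ ⟨y, -, rfl⟩ h
      simp only at h
      rw [shift_inj h]
    · intro hc
      apply hu
      rw [Set.image_image] at hc
      exact Set.countable_of_injective_of_countable_image (f := fun x : K => x + shift x)
        (add_shift_inj.injOn) hc)
  exact ⟨x, hxB, hq1⟩

noncomputable section meas

instance : MeasurableSpace K := borel K
instance : BorelSpace K := ⟨rfl⟩

/-- Haar measure on the Cantor group -/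
def μ : Measure K := Measure.addHaar

instance : μ.IsAddHaarMeasure := by unfold μ; infer_instance
instance : IsFiniteMeasure μ := by
  refine ⟨?_⟩
  exact isCompact_univ.measure_lt_top

theorem neBot' : (nhdsWithin (0 : K) {0}ᶜ).NeBot := by
  rw [← mem_closure_iff_nhdsWithin_neBot, mem_closure_iff_seq_limit]
  refine ⟨fun n => Pi.single n 1, fun n h => ?_, ?_⟩
  · have := congrFun h n
    simp at this
  · rw [tendsto_pi_nhds]
    intro m
    apply tendsto_const_nhds.congr'
    filter_upwards [Filter.eventually_gt_atTop m] with n hn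
    simp [hn.ne]

instance : NullSingletonClass μ := by
  haveI := neBot'
  exact Measure.IsAddHaarMeasure.nullSingletonClass μ

theorem meets_meas (X : Submodule (ZMod 2) K) (hX : Star X) (B : Set K) (hB : MeasurableSet B)
    (hu : μ B ≠ 0) : ∃ x ∈ B, x ∈ X := by
  obtain ⟨C, hCB, hC, hpos⟩ := hB.exists_lt_isCompact_of_ne_top (measure_ne_top μ B)
    (pos_iff_ne_zero.mpr hu)
  obtain ⟨x, hx, hxX⟩ := meets X hX C hC.isClosed (fun hc => hpos.ne' (hc.measure_zero μ))
  exact ⟨x, hCB hx, hxX⟩

end meas

end Pool.Agent.Helper18.RB
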