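import Pool.Agent.Helper18.RB2

set_option autoImplicit false

open Set MeasureTheory
open scoped Cardinal

namespace Pool.Agent.Helper18.RB

noncomputable section

/-- closure of the graph -/
def Gam (X : Submodule (ZMod 2) K) (f : X → X) : Set (K × K) :=
  closure (Set.range (fun x : X => ((x : K), (f x : K))))

theorem Gam_closed (X : Submodule (ZMod 2) K) (f : X → X) : IsClosed (Gam X f) := isClosed_closure

theorem Gam_mem (X : Submodule (ZMod 2) K) (f : X → X) (x : X) :
    ((x : K), (f x : K)) ∈ Gam X f := subset_closure ⟨x, rfl⟩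

theorem Gam_nhds {X : Submodule (ZMod 2) K} {f : X → X} {x y : K} (h : (x, y) ∈ Gam X f)
    {A B : Set K} (hA : IsOpen A) (hB : IsOpen B) (hx : x ∈ A) (hy : y ∈ B) :
    ∃ z : X, (z : K) ∈ A ∧ (f z : K) ∈ B := by
  obtain ⟨_, ⟨h1, h2⟩, ⟨z, rfl⟩⟩ := mem_closure_iff.mp h (A ×ˢ B) (hA.prod hB) ⟨hx, hy⟩
  exact ⟨z, h1, h2⟩

theorem Gam_fst {X : Submodule (ZMod 2) K} {f : X → X} (hf : Continuous f) {x : X} {y : K}
    (h : ((x : K), y) ∈ Gam X f) : y = f x := by
  by_contra hne
  obtain ⟨A, B, hA, hB, hyA, hfB, hdisj⟩ := t2_separation hne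
  have hO : IsOpen (f ⁻¹' (Subtype.val ⁻¹' B)) := (hB.preimage continuous_subtype_val).preimage hf
  obtain ⟨O, hO, hOeq⟩ := isOpen_induced_iff.mp hO
  have hxO : (x : K) ∈ O := by
    have : x ∈ Subtype.val ⁻¹' O := by rw [hOeq]; exact hfB
    exact this
  obtain ⟨z, hz1, hz2⟩ := Gam_nhds h hO hA hxO hyA
  have : z ∈ f ⁻¹' (Subtype.val ⁻¹' B) := by rw [← hOeq]; exact hz1
  exact Set.disjoint_left.mp hdisj hz2 this

theorem Gam_snd {X : Submodule (ZMod 2) K} {f : X → X} (hf : Topology.IsClosedEmbedding f)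
    {x : K} {y : X} (h : (x, (y : K)) ∈ Gam X f) : ∃ z : X, x = z ∧ f z = y := by
  have hy : y ∈ Set.range f := by
    by_contra hn
    obtain ⟨O, hO, hOeq⟩ := isOpen_induced_iff.mp hf.isClosed_range.isOpen_compl
    have hyO : (y : K) ∈ O := by
      have : y ∈ Subtype.val ⁻¹' O := by rw [hOeq]; exact hn
      exact this
    obtain ⟨z, -, hz2⟩ := Gam_nhds h isOpen_univ hO trivial hyO
    have : f z ∈ (Set.range f)ᶜ := by rw [← hOeq]; exact hz2
    exact this ⟨z, rfl⟩
  obtain ⟨z, rfl⟩ := hy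
  refine ⟨z, ?_, rfl⟩
  by_contra hne
  obtain ⟨A, B, hA, hB, hxA, hzB, hdisj⟩ := t2_separation hne
  obtain ⟨O, hO, hOeq⟩ := hf.isInducing.isOpen_iff.mp (hB.preimage continuous_subtype_val)
  obtain ⟨O', hO', hOeq'⟩ := isOpen_induced_iff.mp hO
  have hzO : (f z : K) ∈ O' := by
    have h1 : z ∈ f ⁻¹' O := by rw [hOeq]; exact hzB
    have h2 : f z ∈ Subtype.val ⁻¹' O' := by rw [hOeq']; exact h1
    exact h2
  obtain ⟨w, hw1, hw2⟩ := Gam_nhds h hA hO' hxA hzO
  have h3 : f w ∈ O := by rw [← hOeq']; exact hw2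
  have h4 : w ∈ Subtype.val ⁻¹' B := by rw [← hOeq]; exact h3
  exact Set.disjoint_left.mp hdisj hw1 h4

/-- translation pieces -/
def E (X : Submodule (ZMod 2) K) (f : X → X) (c : K) : Set K := {x | (x, x + c) ∈ Gam X f}

theorem E_closed (X : Submodule (ZMod 2) K) (f : X → X) (c : K) : IsClosed (E X f c) :=
  (Gam_closed X f).preimage (by fun_prop : Continuous fun x : K => (x, x + c))

/-- bad vertical sections -/
def NN (X : Submodule (ZMod 2) K) (f : X → X) (n : ℕ) : Set K :=
  {x | ∃ y y' : K, (x, y) ∈ Gam X f ∧ (x, y') ∈ Gam X f ∧ y n ≠ y' n}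

/-- bad horizontal sections -/
def MM (X : Submodule (ZMod 2) K) (f : X → X) (n : ℕ) : Set K :=
  {x | ∃ y x' : K, (x, y) ∈ Gam X f ∧ (x', y) ∈ Gam X f ∧ x n ≠ x' n}

theorem ne_closed (n : ℕ) : IsClosed {p : K × K | p.1 n ≠ p.2 n} := by
  have h : IsClosed {q : ZMod 2 × ZMod 2 | q.1 ≠ q.2} := isClosed_discrete _
  exact h.preimage (by fun_prop : Continuous fun p : K × K => (p.1 n, p.2 n))

theorem NN_closed (X : Submodule (ZMod 2) K) (f : X → X) (n : ℕ) : IsClosed (NN X f n) := by
  have h1 : IsClosed {p : K × K × K | (p.1, p.2.1) ∈ Gam X f ∧ (p.1, p.2.2) ∈ Gam X f ∧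
      p.2.1 n ≠ p.2.2 n} := by
    refine IsClosed.inter ((Gam_closed X f).preimage
      (by fun_prop : Continuous fun p : K × K × K => (p.1, p.2.1)))
      (IsClosed.inter ((Gam_closed X f).preimage
      (by fun_prop : Continuous fun p : K × K × K => (p.1, p.2.2))) ?_)
    exact (ne_closed n).preimage (by fun_prop : Continuous fun p : K × K × K => p.2)
  have h2 := (h1.isCompact.image (continuous_fst)).isClosed
  convert h2 using 1
  ext x
  constructor
  · rintro ⟨y, y', h⟩
    exact ⟨(x, y, y'), h, rfl⟩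
  · rintro ⟨⟨a, y, y'⟩, h, rfl⟩
    exact ⟨y, y', h⟩

theorem MM_closed (X : Submodule (ZMod 2) K) (f : X → X) (n : ℕ) : IsClosed (MM X f n) := by
  have h1 : IsClosed {p : K × K × K | (p.1, p.2.1) ∈ Gam X f ∧ (p.2.2, p.2.1) ∈ Gam X f ∧
      p.1 n ≠ p.2.2 n} := by
    refine IsClosed.inter ((Gam_closed X f).preimage
      (by fun_prop : Continuous fun p : K × K × K => (p.1, p.2.1)))
      (IsClosed.inter ((Gam_closed X f).preimage
      (by fun_prop : Continuous fun p : K × K × K => (p.2.2, p.2.1))) ?_)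
    exact (ne_closed n).preimage (by fun_prop : Continuous fun p : K × K × K => (p.1, p.2.2))
  have h2 := (h1.isCompact.image (continuous_fst)).isClosed
  convert h2 using 1
  ext x
  constructor
  · rintro ⟨y, y', h⟩
    exact ⟨(x, y, y'), h, rfl⟩
  · rintro ⟨⟨a, y, y'⟩, h, rfl⟩
    exact ⟨y, y', h⟩

theorem null_of_miss {X : Submodule (ZMod 2) K} (hX : Star X) {B : Set K} (hB : MeasurableSet B)
    (h : ∀ x : X, (x : K) ∉ B) : μ B = 0 := by
  by_contra hne
  obtain ⟨x, hx, hxX⟩ := meets_meas X hX B hB hne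
  exact h ⟨x, hxX⟩ hx

theorem onto (X : Submodule (ZMod 2) K) (hX : Star X) (f : X → X)
    (hf : Topology.IsClosedEmbedding f) : Function.Surjective f := by
  have hfc := hf.continuous
  have hN : ∀ n, μ (NN X f n) = 0 := fun n => null_of_miss hX (NN_closed X f n).measurableSet (by
    rintro x ⟨y, y', h1, h2, h3⟩
    rw [Gam_fst hfc h1, Gam_fst hfc h2] at h3
    exact h3 rfl)
  have hM : ∀ n, μ (MM X f n) = 0 := fun n => null_of_miss hX (MM_closed X f n).measurableSet (by
    rintro x ⟨y, x', h1, h2, h3⟩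
    rw [Gam_fst hfc h1] at h2
    obtain ⟨z, rfl, hz⟩ := Gam_snd hf h2
    rw [hf.injective hz] at h3
    exact h3 rfl)
  have hEX : ∀ (c : K) (x : X), (x : K) ∈ E X f c → (f x : K) = x + c := fun c x h =>
    (Gam_fst hfc h).symm
  have hEd : Pairwise (Function.onFun (AEDisjoint μ) (E X f)) := by
    intro c d hcd
    show μ (E X f c ∩ E X f d) = 0
    refine null_of_miss hX ((E_closed X f c).inter (E_closed X f d)).measurableSet ?_
    rintro x ⟨h1, h2⟩
    have := (hEX c x h1).symm.trans (hEX d x h2)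
    exact hcd (add_left_cancel this)
  have hC : {c | 0 < μ (E X f c)}.Countable :=
    Measure.countable_meas_pos_of_disjoint_of_meas_iUnion_ne_top₀ μ
      (fun c => (E_closed X f c).measurableSet.nullMeasurableSet) hEd (measure_ne_top _ _)
  set C : Set K := {c | 0 < μ (E X f c)} with hCdef
  -- the projection
  have hP : IsClosed (Prod.fst '' Gam X f) :=
    ((Gam_closed X f).isCompact.image continuous_fst).isClosed
  have hP0 : μ (Prod.fst '' Gam X f)ᶜ = 0 := null_of_miss hX hP.measurableSet.compl (by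
    intro x hx
    exact hx ⟨_, Gam_mem X f x, rfl⟩)
  have hUm : MeasurableSet (⋃ c ∈ C, E X f c) :=
    MeasurableSet.biUnion hC (fun c _ => (E_closed X f c).measurableSet)
  have hfull : μ (⋃ c ∈ C, E X f c)ᶜ = 0 := by
    set R : Set K := ((⋃ c ∈ C, E X f c) ∪ ((⋃ n, NN X f n) ∪ (⋃ n, MM X f n)) ∪
      (Prod.fst '' Gam X f)ᶜ)ᶜ with hR
    have hRm : MeasurableSet R := by
      refine MeasurableSet.compl (((hUm).union (MeasurableSet.union ?_ ?_)).union
        hP.measurableSet.compl)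
      · exact MeasurableSet.iUnion fun n => (NN_closed X f n).measurableSet
      · exact MeasurableSet.iUnion fun n => (MM_closed X f n).measurableSet
    have hR0 : μ R = 0 := by
      by_contra hne
      obtain ⟨B, hBR, hB, hpos⟩ := hRm.exists_lt_isCompact_of_ne_top (measure_ne_top μ R)
        (pos_iff_ne_zero.mpr hne)
      have hBc := hB.isClosed
      have hTc : IsClosed (Gam X f ∩ Prod.fst ⁻¹' B) :=
        (Gam_closed X f).inter (hBc.preimage continuous_fst)
      have hB1 : ∀ x ∈ B, ∀ n, x ∉ NN X f n := fun x hx n h =>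
        hBR hx (Or.inl (Or.inr (Or.inl (mem_iUnion.mpr ⟨n, h⟩))))
      have hB2 : ∀ x ∈ B, ∀ n, x ∉ MM X f n := fun x hx n h =>
        hBR hx (Or.inl (Or.inr (Or.inr (mem_iUnion.mpr ⟨n, h⟩))))
      have hB3 : ∀ x ∈ B, ∀ c ∈ C, x ∉ E X f c := fun x hx c hc h =>
        hBR hx (Or.inl (Or.inl (mem_biUnion hc h)))
      have hB4 : ∀ x ∈ B, x ∈ Prod.fst '' Gam X f := fun x hx => by
        by_contra hn
        exact hBR hx (Or.inr hn)
      have hbig : Big (Gam X f ∩ Prod.fst ⁻¹' B) := by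
        apply big_of _ hTc
        · rintro ⟨x, y⟩ ⟨hq, hx⟩ ⟨x', y'⟩ ⟨hq', -⟩ h
          simp only at h
          subst h
          have : y = y' := by
            funext n
            by_contra hn
            exact hB1 x hx n ⟨y, y', hq, hq', hn⟩
          rw [this]
        · rintro ⟨x, y⟩ ⟨hq, hx⟩ ⟨x', y'⟩ ⟨hq', -⟩ h
          simp only at h
          subst h
          have : x = x' := by
            funext n
            by_contra hn
            exact hB2 x hx n ⟨y, x', hq, hq', hn⟩
          rw [this]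
        · intro hS
          have hcov : B ⊆ ⋃ s ∈ ((fun q : K × K => q.1 + q.2) '' (Gam X f ∩ Prod.fst ⁻¹' B)),
              (B ∩ E X f s) := by
            intro x hx
            obtain ⟨⟨x', y⟩, hq, rfl⟩ := hB4 x hx
            refine mem_biUnion (x := x' + y) ⟨(x', y), ⟨hq, hx⟩, rfl⟩ ⟨hx, ?_⟩
            show (x', x' + (x' + y)) ∈ Gam X f
            rwa [← add_assoc, two_smul', zero_add]
          have h0 : μ B = 0 := by
            refine measure_mono_null hcov ((measure_biUnion_null_iff hS).mpr ?_)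
            intro s _
            by_cases hs : s ∈ C
            · have : B ∩ E X f s = ∅ := by
                ext x
                simp only [mem_inter_iff, mem_empty_iff_false, iff_false, not_and]
                exact fun hx => hB3 x hx s hs
              rw [this, measure_empty]
            · have : μ (E X f s) = 0 := by
                by_contra hn
                exact hs (pos_iff_ne_zero.mpr hn)
              exact measure_mono_null inter_subset_right this
          exact hpos.ne' h0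
      obtain ⟨⟨x, y⟩, ⟨hq, -⟩, hx, hy⟩ := hX _ hTc hbig
      have := Gam_fst (x := ⟨x, hx⟩) hfc hq
      exact hy (this ▸ (f ⟨x, hx⟩).2)
    have hsub : (⋃ c ∈ C, E X f c)ᶜ ⊆ R ∪ (((⋃ n, NN X f n) ∪ (⋃ n, MM X f n)) ∪
      (Prod.fst '' Gam X f)ᶜ) := by
      intro x hx
      by_cases h : x ∈ (((⋃ n, NN X f n) ∪ (⋃ n, MM X f n)) ∪ (Prod.fst '' Gam X f)ᶜ)
      · exact Or.inr h
      · refine Or.inl ?_
        rintro ((h1 | h1) | h1)
        · exact hx h1
        · exact h (Or.inl h1)
        · exact h (Or.inr h1)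
    refine measure_mono_null hsub (measure_union_null hR0 (measure_union_null
      (measure_union_null (measure_iUnion_null hN) (measure_iUnion_null hM)) hP0))
  -- images
  let E' : K → Set K := fun c => (fun y => y + c) ⁻¹' E X f c
  have hE'm : ∀ c, MeasurableSet (E' c) := fun c =>
    ((E_closed X f c).preimage (by fun_prop)).measurableSet
  have hE'X : ∀ (c : K) (y : X), (y : K) ∈ E' c → ∃ z : X, (y : K) + c = z ∧ f z = y := by
    intro c y h
    have h' : ((y : K) + c, (y : K)) ∈ Gam X f := by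
      have : ((y : K) + c, (y : K) + c + c) ∈ Gam X f := h
      rwa [add_assoc, two_smul', add_zero] at this
    exact Gam_snd hf h'
  have hE'd : Pairwise (Function.onFun (AEDisjoint μ) E') := by
    intro c d hcd
    show μ (E' c ∩ E' d) = 0
    refine null_of_miss hX ((hE'm c).inter (hE'm d)) ?_
    rintro y ⟨h1, h2⟩
    obtain ⟨z, hz, hz'⟩ := hE'X c y h1
    obtain ⟨w, hw, hw'⟩ := hE'X d y h2
    have hzw : z = w := hf.injective (hz'.trans hw'.symm)
    rw [hzw, ← hw] at hz
    exact hcd (add_left_cancel hz)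
  have hE'meas : ∀ c, μ (E' c) = μ (E X f c) := fun c => measure_preimage_add_right μ c _
  have hsum : μ (⋃ c ∈ C, E' c) = ∑' c : C, μ (E' c) :=
    measure_biUnion₀ hC (fun c _ d _ h => hE'd h) (fun c _ => (hE'm c).nullMeasurableSet)
  have hge : μ Set.univ ≤ μ (⋃ c ∈ C, E' c) := by
    rw [hsum]
    calc μ Set.univ ≤ μ (⋃ c ∈ C, E X f c) + μ (⋃ c ∈ C, E X f c)ᶜ := by
          rw [← Set.union_compl_self (⋃ c ∈ C, E X f c)]
          exact measure_union_le _ _
      _ = μ (⋃ c ∈ C, E X f c) := by rw [hfull, add_zero]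
      _ ≤ ∑' c : C, μ (E X f c) := measure_biUnion_le μ hC _
      _ = ∑' c : C, μ (E' c) := by simp only [hE'meas]
  have hE'U : MeasurableSet (⋃ c ∈ C, E' c) := MeasurableSet.biUnion hC (fun c _ => hE'm c)
  have hcompl : μ (⋃ c ∈ C, E' c)ᶜ = 0 := by
    rw [measure_compl hE'U (measure_ne_top _ _)]
    exact tsub_eq_zero_of_le hge
  -- conclusion
  by_contra hns
  have : ∃ z, z ∉ Set.range f := by
    by_contra hn
    push Not at hn
    exact hns hn
  obtain ⟨z, hz⟩ := this
  obtain ⟨O, hO, hOeq⟩ := isOpen_induced_iff.mp hf.isClosed_range.isOpen_compl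
  have hzO : (z : K) ∈ O := by
    have : z ∈ Subtype.val ⁻¹' O := by rw [hOeq]; exact hz
    exact this
  have hO0 : ∀ c, μ (O ∩ E' c) = 0 := by
    intro c
    refine null_of_miss hX (hO.measurableSet.inter (hE'm c)) ?_
    rintro y ⟨h1, h2⟩
    obtain ⟨w, -, hw⟩ := hE'X c y h2
    have : y ∈ (Set.range f)ᶜ := by rw [← hOeq]; exact h1
    exact this ⟨w, hw⟩
  have hOpos : 0 < μ O := hO.measure_pos μ ⟨z, hzO⟩
  have hsub : O ⊆ (⋃ c ∈ C, (O ∩ E' c)) ∪ (⋃ c ∈ C, E' c)ᶜ := by
    intro x hx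
    by_cases h : x ∈ ⋃ c ∈ C, E' c
    · obtain ⟨c, hc, hxc⟩ := mem_iUnion₂.mp h
      exact Or.inl (mem_iUnion₂.mpr ⟨c, hc, hx, hxc⟩)
    · exact Or.inr h
  exact hOpos.ne' (measure_mono_null hsub (measure_union_null
    ((measure_biUnion_null_iff hC).mpr (fun c _ => hO0 c)) hcompl))

end

end Pool.Agent.Helper18.RB
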