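import Pool.Agent.Helper18.RB3

set_option autoImplicit false

open Set MeasureTheory
open scoped Cardinal

namespace Pool.Agent.Helper18.RB

/-- cylinders -/
def Cyl (X : Submodule (ZMod 2) K) (m : ℕ) (x : X) : Set X :=
  {y | ∀ k < m, (y : K) k = (x : K) k}

theorem Cyl_self (X : Submodule (ZMod 2) K) (m : ℕ) (x : X) : x ∈ Cyl X m x := fun _ _ => rfl

theorem Cyl_eq {X : Submodule (ZMod 2) K} {m : ℕ} {x y : X} (h : y ∈ Cyl X m x) :
    Cyl X m y = Cyl X m x := by
  ext z
  constructor
  · intro hz k hk
    rw [hz k hk, h k hk]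
  · intro hz k hk
    rw [hz k hk, h k hk]

theorem Cyl_open (X : Submodule (ZMod 2) K) (m : ℕ) (x : X) : IsOpen (Cyl X m x) := by
  have : Cyl X m x = ⋂ k ∈ Finset.range m, {y : X | (y : K) k = (x : K) k} := by
    ext y
    simp [Cyl]
  rw [this]
  refine isOpen_biInter_finset fun k _ => ?_
  have h : IsOpen ({(x : K) k} : Set (ZMod 2)) := isOpen_discrete _
  exact h.preimage ((continuous_apply k).comp continuous_subtype_val :
    Continuous fun y : X => (y : K) k)

theorem Cyl_basis {X : Submodule (ZMod 2) K} {x : X} {U : Set X} (hU : IsOpen U) (hx : x ∈ U) :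
    ∃ m, Cyl X m x ⊆ U := by
  obtain ⟨O, hO, rfl⟩ := isOpen_induced_iff.mp hU
  obtain ⟨I, u, h1, h2⟩ := isOpen_pi_iff.mp hO (x : K) hx
  refine ⟨I.sup id + 1, fun y hy => h2 ?_⟩
  intro k hk
  have hk' : k < I.sup id + 1 := Nat.lt_succ_of_le (Finset.le_sup (f := id) hk)
  rw [hy k hk']
  exact (h1 k hk).2

theorem zero_dim (X : Submodule (ZMod 2) K) (ι : Type) (U : ι → Set X) (hU : ∀ i, IsOpen (U i))
    (hcov : (⋃ i, U i) = univ) : ∃ W : ι → Set X, (∀ i, IsOpen (W i)) ∧ (∀ i, W i ⊆ U i) ∧
      (⋃ i, W i) = univ ∧ Pairwise (Function.onFun Disjoint W) := by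
  classical
  have hm : ∀ x : X, ∃ m, ∃ i, Cyl X m x ⊆ U i := by
    intro x
    obtain ⟨i, hi⟩ := mem_iUnion.mp (hcov ▸ mem_univ x : x ∈ ⋃ i, U i)
    obtain ⟨m, hm⟩ := Cyl_basis (hU i) hi
    exact ⟨m, i, hm⟩
  let D : X → Set X := fun x => Cyl X (Nat.find (hm x)) x
  have hDU : ∀ x, ∃ i, D x ⊆ U i := fun x => Nat.find_spec (hm x)
  have hDeq : ∀ x y, y ∈ D x → D y = D x := by
    intro x y hy
    have h1 : Cyl X (Nat.find (hm x)) y = Cyl X (Nat.find (hm x)) x := Cyl_eq hy
    have h2 : Nat.find (hm y) ≤ Nat.find (hm x) := by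
      apply Nat.find_min'
      rw [h1]
      exact Nat.find_spec (hm x)
    have h3 : x ∈ Cyl X (Nat.find (hm y)) y := fun k hk => (hy k (hk.trans_le h2)).symm
    have h4 : Cyl X (Nat.find (hm y)) x = Cyl X (Nat.find (hm y)) y := Cyl_eq h3
    have h5 : Nat.find (hm x) ≤ Nat.find (hm y) := by
      apply Nat.find_min'
      rw [h4]
      exact Nat.find_spec (hm y)
    have h6 : Nat.find (hm x) = Nat.find (hm y) := le_antisymm h5 h2
    show Cyl X (Nat.find (hm y)) y = Cyl X (Nat.find (hm x)) x
    rw [h6, h4]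
  let idx : (S : Set X) → (∃ i, S ⊆ U i) → ι := fun S h => h.choose
  have hidx : ∀ S (h : ∃ i, S ⊆ U i), S ⊆ U (idx S h) := fun S h => h.choose_spec
  have hcongr : ∀ (S T : Set X) (hS : ∃ i, S ⊆ U i) (hT : ∃ i, T ⊆ U i), S = T →
      idx S hS = idx T hT := by
    rintro S T hS hT rfl
    rfl
  refine ⟨fun i => {x | idx (D x) (hDU x) = i}, ?_, ?_, ?_, ?_⟩
  · intro i
    rw [isOpen_iff_mem_nhds]
    intro x hx
    refine Filter.mem_of_superset ((Cyl_open X _ x).mem_nhds (Cyl_self X _ x) : D x ∈ _) ?_
    intro y hy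
    show idx (D y) (hDU y) = i
    rw [hcongr _ _ (hDU y) (hDU x) (hDeq x y hy)]
    exact hx
  · intro i x hx
    have h := hidx (D x) (hDU x) (Cyl_self X _ x)
    have hx' : idx (D x) (hDU x) = i := hx
    rwa [hx'] at h
  · ext x
    simp
  · intro i j hij
    refine Set.disjoint_left.mpr fun x hx hx' => hij ?_
    have h1 : idx (D x) (hDU x) = i := hx
    have h2 : idx (D x) (hDU x) = j := hx'
    exact h1.symm.trans h2

/-- swap -/
theorem exists_swap (X : Submodule (ZMod 2) K) (b z : X) (W : Set K) (hW : IsClopen W)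
    (h0 : (0 : K) ∈ W) : ∃ s : X ≃ₜ X, s b = z ∧
      ∀ x : X, (x : K) + b ∉ W → (x : K) + z ∉ W → s x = x := by
  classical
  let P : Set X := {x | (x : K) + b ∈ W ∨ (x : K) + z ∈ W}
  have hP : IsClopen P := by
    have h1 : IsClopen {x : X | (x : K) + b ∈ W} :=
      hW.preimage (by fun_prop : Continuous fun x : X => (x : K) + b)
    have h2 : IsClopen {x : X | (x : K) + z ∈ W} :=
      hW.preimage (by fun_prop : Continuous fun x : X => (x : K) + z)
    exact h1.union h2
  let s : X → X := P.piecewise (fun x => x + (b + z)) id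
  have hs1 : ∀ x ∈ P, s x = x + (b + z) := fun x hx => Set.piecewise_eq_of_mem _ _ _ hx
  have hs2 : ∀ x ∉ P, s x = x := fun x hx => Set.piecewise_eq_of_notMem _ _ _ hx
  have hXX : ∀ x : X, x + x = 0 := fun x => Subtype.ext (two_smul' (x : K))
  have hcont : Continuous s := by
    apply Continuous.piecewise
    · intro a ha
      rw [hP.frontier_eq] at ha
      exact absurd ha (notMem_empty a)
    · fun_prop
    · exact continuous_id
  have hinv : ∀ x, s (s x) = x := by
    intro x
    by_cases hx : x ∈ P
    · rw [hs1 x hx]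
      have hx' : x + (b + z) ∈ P := by
        rcases hx with h | h
        · right
          have : ((x + (b + z) : X) : K) + z = (x : K) + b := by
            have : x + (b + z) + z = x + b := by
              rw [add_assoc, add_assoc, hXX, add_zero]
            exact congrArg Subtype.val this
          rw [this]; exact h
        · left
          have : ((x + (b + z) : X) : K) + b = (x : K) + z := by
            have : x + (b + z) + b = x + z := by
              rw [add_assoc, add_comm b z, add_assoc, hXX, add_zero]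
            exact congrArg Subtype.val this
          rw [this]; exact h
      rw [hs1 _ hx', add_assoc, hXX, add_zero]
    · rw [hs2 x hx, hs2 x hx]
  refine ⟨{ toFun := s, invFun := s, left_inv := hinv, right_inv := hinv,
            continuous_toFun := hcont, continuous_invFun := hcont }, ?_, ?_⟩
  · show s b = z
    have hb : b ∈ P := by
      left
      rw [two_smul']
      exact h0
    rw [hs1 b hb, ← add_assoc, hXX, zero_add]
  · intro x h1 h2
    show s x = x
    apply hs2
    rintro (h | h)
    · exact h1 h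
    · exact h2 h

theorem moving (X : Submodule (ZMod 2) K) (hX : Star X) (A : Set X) (hA : A.Finite) :
    ∃ g : X ≃ₜ X, ∀ a ∈ A, ((g a : X) : K) 0 ≠ 0 := by
  induction A, hA using Set.Finite.induction_on with
  | empty => exact ⟨Homeomorph.refl X, fun a ha => absurd ha (notMem_empty a)⟩
  | @insert a A' _ hA' ih =>
    obtain ⟨g, hg⟩ := ih
    by_cases hb : ((g a : X) : K) 0 ≠ 0
    · refine ⟨g, ?_⟩
      rintro x (rfl | hx)
      · exact hb
      · exact hg x hx
    · push Not at hb
      -- pick z
      set Fs : Set K := (fun x : X => ((g x : X) : K)) '' A' with hFs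
      have hFfin : Fs.Finite := hA'.image _
      have hO1 : IsOpen {x : K | x 0 ≠ 0} := by
        have h : IsOpen ({0}ᶜ : Set (ZMod 2)) := isOpen_discrete _
        exact h.preimage (continuous_apply 0 : Continuous fun x : K => x 0)
      have hO : IsOpen ({x : K | x 0 ≠ 0} \ Fs) := hO1.sdiff hFfin.isClosed
      have hpos : μ ({x : K | x 0 ≠ 0} \ Fs) ≠ 0 := by
        rw [measure_sdiff_null (hFfin.measure_zero μ)]
        exact (hO1.measure_pos μ ⟨fun _ => 1, one_ne_zero⟩).ne'
      obtain ⟨z, ⟨hz0, hzF⟩, hzX⟩ := meets_meas X hX _ hO.measurableSet hpos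
      -- neighbourhood
      have hN : IsOpen {w : K | w 0 = 0 ∧ z + w ∉ Fs} := by
        have h1 : IsOpen {w : K | w 0 = 0} := by
          have h : IsOpen ({0} : Set (ZMod 2)) := isOpen_discrete _
          exact h.preimage (continuous_apply 0 : Continuous fun x : K => x 0)
        have h2 : IsOpen {w : K | z + w ∉ Fs} := by
          exact hFfin.isClosed.isOpen_compl.preimage
            (by fun_prop : Continuous fun w : K => z + w)
        exact h1.inter h2
      obtain ⟨W, hW, h0W, hWN⟩ := compact_exists_isClopen_in_isOpen hN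
        (show (0 : K) ∈ {w : K | w 0 = 0 ∧ z + w ∉ Fs} from ⟨rfl, by rwa [add_zero]⟩)
      obtain ⟨s, hs1, hs2⟩ := exists_swap X (g a) ⟨z, hzX⟩ W hW h0W
      refine ⟨g.trans s, ?_⟩
      rintro x (rfl | hx)
      · show ((s (g x) : X) : K) 0 ≠ 0
        rw [hs1]
        exact hz0
      · show ((s (g x) : X) : K) 0 ≠ 0
        have : s (g x) = g x := by
          apply hs2
          · intro h
            have h1 := (hWN h).1
            have h2 : ((g x : X) : K) 0 + ((g a : X) : K) 0 = 0 := h1
            rw [hb, add_zero] at h2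
            exact hg x hx h2
          · intro h
            have h1 := (hWN h).2
            apply h1
            refine ⟨x, hx, ?_⟩
            show ((g x : X) : K) = z + (((g x : X) : K) + z)
            rw [add_comm ((g x : X) : K) z, ← add_assoc, two_smul', zero_add]
        rw [this]
        exact hg x hx

theorem exists_star : ∃ X : Submodule (ZMod 2) K, Star X := exists_subgroup

end Pool.Agent.Helper18.RB
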