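import Mathlib

set_option autoImplicit false

open Set Topology

namespace Pool.Agent.Helper18.SC

/-- A winning strategy for the second player in the strong Choquet game on the subspace `Y`
of `X`, as a state machine. -/
structure Strat (X : Type) [TopologicalSpace X] (Y : Set X) where
  S : Type
  Inv : S → Prop
  val : S → Set X
  next : S → X → Set X → S
  s0 : S
  inv0 : Inv s0
  val0 : val s0 = univ
  step : ∀ s x O, Inv s → x ∈ Y → x ∈ O → IsOpen O → O ⊆ val s →
     Inv (next s x O) ∧ IsOpen (val (next s x O)) ∧ x ∈ val (next s x O) ∧ val (next s x O) ⊆ O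
  win : ∀ (x : ℕ → X) (O : ℕ → Set X) (s : ℕ → S), s 0 = s0 →
     (∀ n, x n ∈ Y ∧ x n ∈ O n ∧ IsOpen (O n) ∧ O n ⊆ val (s n)) →
     (∀ n, s (n+1) = next (s n) (x n) (O n)) → ∃ y ∈ Y, ∀ n, y ∈ val (s n)

theorem pf_refine {M : Type} [MetricSpace M] {ι : Type} (W : ι → Set M)
    (hW : ∀ i, IsOpen (W i)) : ∃ v : ι → Set M, (∀ i, IsOpen (v i)) ∧ (∀ i, v i ⊆ W i) ∧
      (⋃ i, W i) ⊆ (⋃ i, v i) ∧ ∀ m, {i | m ∈ v i}.Finite := by
  have hΩ : IsOpen (⋃ i, W i) := isOpen_iUnion hW
  have hcov : (⋃ i, (Subtype.val ⁻¹' (W i) : Set (⋃ i, W i : Set M))) = univ := by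
    ext ⟨x, hx⟩
    simpa using hx
  obtain ⟨v', hv1, hv2, hv3, hv4⟩ := precise_refinement
    (fun i => (Subtype.val ⁻¹' (W i) : Set (⋃ i, W i : Set M)))
    (fun i => (hW i).preimage continuous_subtype_val) hcov
  refine ⟨fun i => Subtype.val '' (v' i), fun i => hΩ.isOpenMap_subtype_val _ (hv1 i), ?_, ?_, ?_⟩
  · rintro i _ ⟨x, hx, rfl⟩
    exact hv4 i hx
  · intro x hx
    have : (⟨x, hx⟩ : (⋃ i, W i : Set M)) ∈ ⋃ i, v' i := by rw [hv2]; trivial
    obtain ⟨i, hi⟩ := mem_iUnion.mp this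
    exact mem_iUnion.mpr ⟨i, ⟨x, hx⟩, hi, rfl⟩
  · intro m
    by_cases hm : m ∈ ⋃ i, W i
    · refine (hv3.point_finite ⟨m, hm⟩).subset ?_
      rintro i ⟨x, hx, rfl⟩
      exact hx
    · convert Set.finite_empty
      ext i
      simp only [mem_ofPred_eq, mem_empty_iff_false, iff_false]
      rintro ⟨x, -, rfl⟩
      exact hm x.2

section tree
variable {X M : Type} [TopologicalSpace X] [MetricSpace M] (σ : Strat X univ) (e : X → M)

/-- β's move used in the tree -/
def mv (n : ℕ) (V : Set M) (x : X) : Set X := e ⁻¹' (V ∩ Metric.ball (e x) ((1/2 : ℝ) ^ n))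

theorem child_exists (he : IsInducing e) (n : ℕ) (s : σ.S) (V : Set M) (hs : σ.Inv s)
    (hV : IsOpen V) (hsub : e ⁻¹' V ⊆ σ.val s) :
    ∃ v : X → Set M, (∀ x, IsOpen (v x)) ∧ (∀ x, v x ⊆ V) ∧
      (∀ x, v x ⊆ Metric.ball (e x) ((1/2 : ℝ) ^ n)) ∧ (∀ x, (v x).Nonempty → e x ∈ V) ∧
      (∀ x, e ⁻¹' (v x) ⊆ σ.val (σ.next s x (mv e n V x))) ∧
      (e ⁻¹' V ⊆ ⋃ x, e ⁻¹' (v x)) ∧ ∀ m, {x | m ∈ v x}.Finite := by
  classical
  have hpos : (0 : ℝ) < (1/2 : ℝ) ^ n := by positivity
  have hstep : ∀ x, e x ∈ V → IsOpen (σ.val (σ.next s x (mv e n V x))) ∧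
      x ∈ σ.val (σ.next s x (mv e n V x)) := by
    intro x hx
    have h := σ.step s x (mv e n V x) hs trivial ⟨hx, Metric.mem_ball_self hpos⟩
      ((hV.inter Metric.isOpen_ball).preimage he.continuous)
      (fun y hy => hsub hy.1)
    exact ⟨h.2.1, h.2.2.1⟩
  have hO : ∀ x, ∃ O : Set M, e x ∈ V → (IsOpen O ∧
      e ⁻¹' O = σ.val (σ.next s x (mv e n V x))) := by
    intro x
    by_cases hx : e x ∈ V
    · obtain ⟨O, hO, hO'⟩ := he.isOpen_iff.mp (hstep x hx).1
      exact ⟨O, fun _ => ⟨hO, hO'⟩⟩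
    · exact ⟨∅, fun h => absurd h hx⟩
  choose O hO using hO
  let W : X → Set M := fun x => if e x ∈ V then
    O x ∩ (V ∩ Metric.ball (e x) ((1/2 : ℝ) ^ n)) else ∅
  have hWpos : ∀ x, e x ∈ V → W x = O x ∩ (V ∩ Metric.ball (e x) ((1/2 : ℝ) ^ n)) :=
    fun x hx => if_pos hx
  have hWneg : ∀ x, e x ∉ V → W x = ∅ := fun x hx => if_neg hx
  have hWo : ∀ x, IsOpen (W x) := by
    intro x
    by_cases hx : e x ∈ V
    · rw [hWpos x hx]
      exact (hO x hx).1.inter (hV.inter Metric.isOpen_ball)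
    · rw [hWneg x hx]; exact isOpen_empty
  obtain ⟨v, hv1, hv2, hv3, hv4⟩ := pf_refine W hWo
  have hmemW : ∀ x m, m ∈ W x → e x ∈ V := by
    intro x m hm
    by_contra hx
    rw [hWneg x hx] at hm
    exact hm
  refine ⟨v, hv1, ?_, ?_, ?_, ?_, ?_, hv4⟩
  · intro x m hm
    have h := hv2 x hm
    rw [hWpos x (hmemW x m h)] at h
    exact h.2.1
  · intro x m hm
    have h := hv2 x hm
    rw [hWpos x (hmemW x m h)] at h
    exact h.2.2
  · rintro x ⟨m, hm⟩
    exact hmemW x m (hv2 x hm)
  · intro x y hy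
    have h := hv2 x hy
    have hx := hmemW x _ h
    rw [hWpos x hx] at h
    rw [← (hO x hx).2]
    exact h.1
  · intro x hx
    have : e x ∈ ⋃ y, W y := by
      refine mem_iUnion.mpr ⟨x, ?_⟩
      rw [hWpos x hx]
      refine ⟨?_, hx, Metric.mem_ball_self hpos⟩
      have := (hstep x hx).2
      rw [← (hO x hx).2] at this
      exact this
    obtain ⟨y, hy⟩ := mem_iUnion.mp (hv3 this)
    exact mem_iUnion.mpr ⟨y, hy⟩

open Classical in
/-- chosen children -/
noncomputable def chV (he : IsInducing e) (n : ℕ) (s : σ.S) (V : Set M) : X → Set M :=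
  if h : σ.Inv s ∧ IsOpen V ∧ e ⁻¹' V ⊆ σ.val s then
    (child_exists σ e he n s V h.1 h.2.1 h.2.2).choose else fun _ => ∅

/-- nodes of the tree -/
noncomputable def node (he : IsInducing e) : List X → σ.S × Set M
  | [] => (σ.s0, univ)
  | x :: l => (σ.next (node he l).1 x (mv e l.length (node he l).2 x),
      chV σ e he l.length (node he l).1 (node he l).2 x)

/-- good data at a node -/
def Ok (s : σ.S) (V : Set M) : Prop := σ.Inv s ∧ IsOpen V ∧ e ⁻¹' V ⊆ σ.val s

theorem chV_spec (he : IsInducing e) (n : ℕ) (s : σ.S) (V : Set M) (h : Ok σ e s V) :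
    (∀ x, IsOpen (chV σ e he n s V x)) ∧ (∀ x, chV σ e he n s V x ⊆ V) ∧
      (∀ x, chV σ e he n s V x ⊆ Metric.ball (e x) ((1/2 : ℝ) ^ n)) ∧
      (∀ x, (chV σ e he n s V x).Nonempty → e x ∈ V) ∧
      (∀ x, e ⁻¹' (chV σ e he n s V x) ⊆ σ.val (σ.next s x (mv e n V x))) ∧
      (e ⁻¹' V ⊆ ⋃ x, e ⁻¹' (chV σ e he n s V x)) ∧ ∀ m, {x | m ∈ chV σ e he n s V x}.Finite := by
  have h' : σ.Inv s ∧ IsOpen V ∧ e ⁻¹' V ⊆ σ.val s := h
  unfold chV
  rw [dif_pos h']
  exact (child_exists σ e he n s V h'.1 h'.2.1 h'.2.2).choose_spec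

theorem chV_empty (he : IsInducing e) (n : ℕ) (s : σ.S) (V : Set M) (h : ¬ Ok σ e s V) (x : X) :
    chV σ e he n s V x = ∅ := by
  have h' : ¬ (σ.Inv s ∧ IsOpen V ∧ e ⁻¹' V ⊆ σ.val s) := h
  unfold chV
  rw [dif_neg h']

theorem node_ok (he : IsInducing e) (l : List X) (hne : (node σ e he l).2.Nonempty) :
    Ok σ e (node σ e he l).1 (node σ e he l).2 := by
  induction l with
  | nil =>
    refine ⟨σ.inv0, isOpen_univ, ?_⟩
    show e ⁻¹' univ ⊆ σ.val σ.s0
    rw [σ.val0]
    exact subset_univ _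
  | cons x l ih =>
    have hok : Ok σ e (node σ e he l).1 (node σ e he l).2 := by
      by_contra hn
      have : (node σ e he (x :: l)).2 = ∅ := chV_empty σ e he _ _ _ hn x
      rw [this] at hne
      exact Set.not_nonempty_empty hne
    obtain ⟨h1, h2, h3, h4, h5, h6, h7⟩ := chV_spec σ e he l.length _ _ hok
    have hx := h4 x hne
    have hpos : (0 : ℝ) < (1/2 : ℝ) ^ l.length := by positivity
    have hst := σ.step (node σ e he l).1 x (mv e l.length (node σ e he l).2 x) hok.1 trivial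
      ⟨hx, Metric.mem_ball_self hpos⟩
      ((hok.2.1.inter Metric.isOpen_ball).preimage he.continuous) (fun y hy => hok.2.2 hy.1)
    exact ⟨hst.1, h1 x, h5 x⟩

theorem node_cons_sub (he : IsInducing e) (x : X) (l : List X) :
    (node σ e he (x :: l)).2 ⊆ (node σ e he l).2 := by
  by_cases hok : Ok σ e (node σ e he l).1 (node σ e he l).2
  · exact (chV_spec σ e he l.length _ _ hok).2.1 x
  · have : (node σ e he (x :: l)).2 = ∅ := chV_empty σ e he _ _ _ hok x
    rw [this]
    exact empty_subset _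

theorem node_drop (he : IsInducing e) (l : List X) (k : ℕ) (m : M)
    (h : m ∈ (node σ e he l).2) : m ∈ (node σ e he (l.drop k)).2 := by
  induction l generalizing k with
  | nil => simpa using h
  | cons x l ih =>
    cases k with
    | zero => simpa using h
    | succ k =>
      rw [List.drop_succ_cons]
      exact ih k (node_cons_sub σ e he x l h)

theorem level_finite (he : IsInducing e) (m : M) (n : ℕ) :
    {l : List X | l.length = n ∧ m ∈ (node σ e he l).2}.Finite := by
  induction n with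
  | zero =>
    refine (Set.finite_singleton ([] : List X)).subset ?_
    rintro l ⟨hl, -⟩
    exact List.length_eq_zero_iff.mp hl
  | succ n ih =>
    have : {l : List X | l.length = n + 1 ∧ m ∈ (node σ e he l).2} ⊆
        ⋃ l ∈ {l : List X | l.length = n ∧ m ∈ (node σ e he l).2},
          (fun x => x :: l) '' {x | m ∈ (node σ e he (x :: l)).2} := by
      rintro l ⟨hl, hm⟩
      cases l with
      | nil => simp at hl
      | cons x l =>
        have hl' : l.length = n := by simpa using hl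
        exact mem_biUnion (x := l) ⟨hl', node_cons_sub σ e he x l hm⟩ ⟨x, hm, rfl⟩
    refine (ih.biUnion ?_).subset this
    rintro l ⟨hl, hm⟩
    refine Set.Finite.image _ ?_
    have hok := node_ok σ e he l ⟨m, hm⟩
    exact (chV_spec σ e he l.length _ _ hok).2.2.2.2.2.2 m

theorem level_cover (he : IsInducing e) (y : X) (n : ℕ) :
    ∃ l : List X, l.length = n ∧ e y ∈ (node σ e he l).2 := by
  induction n with
  | zero => exact ⟨[], rfl, trivial⟩
  | succ n ih =>
    obtain ⟨l, hl, hy⟩ := ih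
    have hok := node_ok σ e he l ⟨e y, hy⟩
    obtain ⟨x, hx⟩ := mem_iUnion.mp ((chV_spec σ e he l.length _ _ hok).2.2.2.2.2.1 hy)
    exact ⟨x :: l, by simp [hl], hx⟩

theorem mem_range_of_levels (he : IsInducing e) (m : M)
    (hm : ∀ n, ∃ l : List X, l.length = n ∧ m ∈ (node σ e he l).2) : m ∈ Set.range e := by
  let α : ℕ → Type := fun n => {l : List X // l.length = n ∧ m ∈ (node σ e he l).2}
  haveI hfinα : ∀ n, Finite (α n) := fun n => (level_finite σ e he m n).to_subtype
  haveI : ∀ n, Nonempty (α n) := fun n => by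
    obtain ⟨l, hl⟩ := hm n
    exact ⟨⟨l, hl⟩⟩
  let π : {i j : ℕ} → (hij : i ≤ j) → α j → α i := fun {i j} hij l =>
    ⟨l.1.drop (j - i), by
      rw [List.length_drop, l.2.1]; omega, node_drop σ e he _ _ _ l.2.2⟩
  obtain ⟨f, hf⟩ := exists_seq_forall_proj_of_forall_finite π
    (fun i a => Subtype.ext (by simp [π]))
    (fun i j k hij hjk a => Subtype.ext (by
      show List.drop (j - i) (List.drop (k - j) a.1) = List.drop (k - i) a.1
      rw [List.drop_drop]
      congr 1
      omega))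
    (fun i a => Set.toFinite _)
  have hlen : ∀ n, (f n).1.length = n := fun n => (f n).2.1
  have hcons : ∀ n, ∃ x, (f (n+1)).1 = x :: (f n).1 := by
    intro n
    have h1 := congrArg Subtype.val (hf (Nat.le_succ n))
    have h2 : List.drop (n + 1 - n) (f (n+1)).1 = (f n).1 := h1
    rw [Nat.add_sub_cancel_left] at h2
    have h3 := hlen (n+1)
    cases hfl : (f (n+1)).1 with
    | nil => rw [hfl] at h3; simp at h3
    | cons x l =>
      rw [hfl] at h2
      refine ⟨x, ?_⟩
      rw [← h2]; rfl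
  choose x hx using hcons
  have hok : ∀ n, Ok σ e (node σ e he (f n).1).1 (node σ e he (f n).1).2 :=
    fun n => node_ok σ e he _ ⟨m, (f n).2.2⟩
  have hmem : ∀ n, m ∈ chV σ e he n (node σ e he (f n).1).1 (node σ e he (f n).1).2 (x n) := by
    intro n
    have h := (f (n+1)).2.2
    rw [hx n] at h
    have h' : m ∈ chV σ e he (f n).1.length (node σ e he (f n).1).1
      (node σ e he (f n).1).2 (x n) := h
    rwa [hlen n] at h'
  obtain ⟨y, -, hy⟩ := σ.win x (fun n => mv e n (node σ e he (f n).1).2 (x n))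
    (fun n => (node σ e he (f n).1).1) (by
      have : (f 0).1 = [] := List.length_eq_zero_iff.mp (hlen 0)
      show (node σ e he (f 0).1).1 = σ.s0
      rw [this]; rfl) (by
      intro n
      obtain ⟨h1, h2, h3, h4, h5, h6, h7⟩ := chV_spec σ e he n _ _ (hok n)
      have hpos : (0 : ℝ) < (1/2 : ℝ) ^ n := by positivity
      refine ⟨trivial, ⟨h4 (x n) ⟨m, hmem n⟩, Metric.mem_ball_self hpos⟩,
        (((hok n).2.1).inter Metric.isOpen_ball).preimage he.continuous,
        fun z hz => (hok n).2.2 hz.1⟩) (by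
      intro n
      show (node σ e he (f (n+1)).1).1 = _
      rw [hx n]
      show σ.next (node σ e he (f n).1).1 (x n)
        (mv e (f n).1.length (node σ e he (f n).1).2 (x n)) = _
      rw [hlen n])
  refine ⟨y, ?_⟩
  have hdist : ∀ n : ℕ, dist (e y) m ≤ 2 * (1/2 : ℝ) ^ n := by
    intro n
    obtain ⟨h1, h2, h3, h4, h5, h6, h7⟩ := chV_spec σ e he n _ _ (hok n)
    have hmb := h3 (x n) (hmem n)
    have hyn : y ∈ σ.val (σ.next (node σ e he (f n).1).1 (x n)
        (mv e n (node σ e he (f n).1).2 (x n))) := by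
      have := hy (n+1)
      simp only [hx n] at this
      have h' : y ∈ σ.val (σ.next (node σ e he (f n).1).1 (x n)
        (mv e (f n).1.length (node σ e he (f n).1).2 (x n))) := this
      rwa [hlen n] at h'
    have hpos : (0 : ℝ) < (1/2 : ℝ) ^ n := by positivity
    have hst := σ.step (node σ e he (f n).1).1 (x n) (mv e n (node σ e he (f n).1).2 (x n))
      (hok n).1 trivial ⟨h4 (x n) ⟨m, hmem n⟩, Metric.mem_ball_self hpos⟩
      ((((hok n).2.1).inter Metric.isOpen_ball).preimage he.continuous)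
      (fun z hz => (hok n).2.2 hz.1)
    have hyb : e y ∈ Metric.ball (e (x n)) ((1/2 : ℝ) ^ n) := (hst.2.2.2 hyn).2
    have hmb' : dist m (e (x n)) < (1/2 : ℝ) ^ n := hmb
    have hyb' : dist (e y) (e (x n)) < (1/2 : ℝ) ^ n := hyb
    have := dist_triangle_right (e y) m (e (x n))
    linarith
  have hlim : Filter.Tendsto (fun n : ℕ => 2 * (1/2 : ℝ) ^ n) Filter.atTop (nhds (2 * 0)) :=
    (tendsto_pow_atTop_nhds_zero_of_lt_one (by norm_num) (by norm_num)).const_mul 2
  have := ge_of_tendsto' hlim hdist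
  have h0 : dist (e y) m ≤ 0 := by simpa using this
  exact dist_le_zero.mp h0

include σ in
theorem range_gdelta (he : IsInducing e) :
    ∃ G : ℕ → Set M, (∀ n, IsOpen (G n)) ∧ (⋂ n, G n) = Set.range e := by
  refine ⟨fun n => ⋃ l ∈ {l : List X | l.length = n ∧ (node σ e he l).2.Nonempty},
    (node σ e he l).2, ?_, ?_⟩
  · intro n
    refine isOpen_biUnion ?_
    rintro l ⟨-, hne⟩
    exact (node_ok σ e he l hne).2.1
  · ext m
    constructor
    · intro h
      apply mem_range_of_levels σ e he m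
      intro n
      obtain ⟨l, ⟨hl, -⟩, hm⟩ := mem_iUnion₂.mp (mem_iInter.mp h n)
      exact ⟨l, hl, hm⟩
    · rintro ⟨y, rfl⟩
      refine mem_iInter.mpr fun n => ?_
      obtain ⟨l, hl, hy⟩ := level_cover σ e he y n
      exact mem_iUnion₂.mpr ⟨l, ⟨hl, ⟨_, hy⟩⟩, hy⟩

end tree

theorem complete_of_gdelta {X M : Type} [TopologicalSpace X] [MetricSpace M] [CompleteSpace M]
    (e : X → M) (he : IsEmbedding e) (G : ℕ → Set M) (hG : ∀ n, IsOpen (G n))
    (hGe : (⋂ n, G n) = Set.range e) : TopologicalSpace.IsCompletelyMetrizableSpace X := by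
  let U : ℕ → TopologicalSpace.Opens M := fun n => ⟨G n, hG n⟩
  haveI : ∀ n, TopologicalSpace.IsCompletelyMetrizableSpace (U n) := fun n =>
    inferInstanceAs (TopologicalSpace.IsCompletelyMetrizableSpace
      (TopologicalSpace.Opens.CompleteCopy (U n)))
  have hmem : ∀ x n, e x ∈ U n := by
    intro x n
    have : e x ∈ ⋂ n, G n := by rw [hGe]; exact ⟨x, rfl⟩
    exact mem_iInter.mp this n
  let Φ : X → ∀ n, U n := fun x n => ⟨e x, hmem x n⟩
  have hΦc : Continuous Φ := continuous_pi fun n => he.continuous.subtype_mk _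
  have hcl : IsClosedEmbedding Φ := by
    refine ⟨⟨?_, ?_⟩, ?_⟩
    · have h1 : IsInducing ((fun f : (∀ n, U n) => (f 0 : M)) ∘ Φ) := he.isInducing
      exact IsInducing.of_comp hΦc
        ((continuous_subtype_val).comp (continuous_apply 0)) h1
    · intro x y h
      exact he.injective (congrArg (fun f : (∀ n, U n) => (f 0 : M)) h)
    · have : Set.range Φ = ⋂ n, {f : (∀ n, U n) | (f n : M) = f 0} := by
        ext f
        constructor
        · rintro ⟨x, rfl⟩
          exact mem_iInter.mpr fun n => rfl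
        · intro h
          have h' : ∀ n, (f n : M) = f 0 := fun n => mem_iInter.mp h n
          have : (f 0 : M) ∈ Set.range e := by
            rw [← hGe]
            refine mem_iInter.mpr fun n => ?_
            rw [← h' n]
            exact (f n).2
          obtain ⟨x, hx⟩ := this
          refine ⟨x, ?_⟩
          funext n
          apply Subtype.ext
          show e x = f n
          rw [h' n, hx]
      rw [this]
      refine isClosed_iInter fun n => isClosed_eq ?_ ?_
      · exact continuous_subtype_val.comp (continuous_apply n)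
      · exact continuous_subtype_val.comp (continuous_apply 0)
  exact hcl.IsCompletelyMetrizableSpace

theorem complete_of_strat (X : Type) [MetricSpace X] (σ : Strat X univ) :
    TopologicalSpace.IsCompletelyMetrizableSpace X := by
  have hiso := UniformSpace.Completion.coe_isometry (α := X)
  obtain ⟨G, hG, hGe⟩ := range_gdelta σ ((↑) : X → UniformSpace.Completion X)
    hiso.isEmbedding.isInducing
  exact complete_of_gdelta _ hiso.isEmbedding G hG hGe

end Pool.Agent.Helper18.SC
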