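import Pool.Agent.Helper18.SC1

set_option autoImplicit false

open Set Topology

namespace Pool.Agent.Helper18.SC

section merge
variable {X : Type} [MetricSpace X] (K : Set X) (Y : {x : X // x ∉ K} → Set X)
  (σ : ∀ x : {x : X // x ∉ K}, Strat X (Y x))

open Classical in
/-- radius -/
noncomputable def rad (x : X) (O : Set X) : ℝ :=
  if h : ∃ r : ℝ, 0 < r ∧ Metric.closedBall x r ⊆ O then h.choose else 1

theorem rad_spec (x : X) (O : Set X) (hO : IsOpen O) (hx : x ∈ O) :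
    0 < rad x O ∧ Metric.closedBall x (rad x O) ⊆ O := by
  have h : ∃ r : ℝ, 0 < r ∧ Metric.closedBall x r ⊆ O := by
    obtain ⟨r, hr, hr'⟩ := Metric.nhds_basis_closedBall.mem_iff.mp (hO.mem_nhds hx)
    exact ⟨r, hr, hr'⟩
  unfold rad
  rw [dif_pos h]
  exact h.choose_spec

/-- merged value -/
def mVal : Set X ⊕ (Σ x : {x : X // x ∉ K}, (σ x).S) → Set X
  | Sum.inl A => A
  | Sum.inr p => (σ p.1).val p.2

/-- merged invariant -/
def mInv : Set X ⊕ (Σ x : {x : X // x ∉ K}, (σ x).S) → Prop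
  | Sum.inl A => IsOpen A
  | Sum.inr p => (σ p.1).Inv p.2 ∧ (σ p.1).val p.2 ⊆ Y p.1

open Classical in
/-- merged step -/
noncomputable def mNext : Set X ⊕ (Σ x : {x : X // x ∉ K}, (σ x).S) → X → Set X →
    Set X ⊕ (Σ x : {x : X // x ∉ K}, (σ x).S)
  | Sum.inl _, x, O => if h : x ∈ K then Sum.inl (Metric.ball x (rad x O)) else
      Sum.inr ⟨⟨x, h⟩, (σ ⟨x, h⟩).next (σ ⟨x, h⟩).s0 x (O ∩ Y ⟨x, h⟩)⟩
  | Sum.inr p, x, O => Sum.inr ⟨p.1, (σ p.1).next p.2 x O⟩

theorem mNext_pos (A : Set X) (x : X) (O : Set X) (h : x ∈ K) :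
    mNext K Y σ (Sum.inl A) x O = Sum.inl (Metric.ball x (rad x O)) := by
  unfold mNext
  exact dif_pos h

theorem mNext_neg (A : Set X) (x : X) (O : Set X) (h : x ∉ K) :
    mNext K Y σ (Sum.inl A) x O =
      Sum.inr ⟨⟨x, h⟩, (σ ⟨x, h⟩).next (σ ⟨x, h⟩).s0 x (O ∩ Y ⟨x, h⟩)⟩ := by
  unfold mNext
  exact dif_neg h

theorem m_step (hY : ∀ x, IsOpen (Y x) ∧ (x : X) ∈ Y x)
    (s : Set X ⊕ (Σ x : {x : X // x ∉ K}, (σ x).S)) (x : X) (O : Set X)
    (hs : mInv K Y σ s) (hx : x ∈ O) (hO : IsOpen O) (hsub : O ⊆ mVal K Y σ s) :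
    mInv K Y σ (mNext K Y σ s x O) ∧ IsOpen (mVal K Y σ (mNext K Y σ s x O)) ∧
      x ∈ mVal K Y σ (mNext K Y σ s x O) ∧ mVal K Y σ (mNext K Y σ s x O) ⊆ O := by
  cases s with
  | inl A =>
    by_cases h : x ∈ K
    · rw [mNext_pos K Y σ A x O h]
      obtain ⟨h1, h2⟩ := rad_spec x O hO hx
      exact ⟨Metric.isOpen_ball, Metric.isOpen_ball, Metric.mem_ball_self h1,
        Metric.ball_subset_closedBall.trans h2⟩
    · rw [mNext_neg K Y σ A x O h]
      have hst := (σ ⟨x, h⟩).step (σ ⟨x, h⟩).s0 x (O ∩ Y ⟨x, h⟩) (σ ⟨x, h⟩).inv0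
        (hY ⟨x, h⟩).2 ⟨hx, (hY ⟨x, h⟩).2⟩ (hO.inter (hY ⟨x, h⟩).1) (by
          rw [(σ ⟨x, h⟩).val0]; exact subset_univ _)
      exact ⟨⟨hst.1, hst.2.2.2.trans inter_subset_right⟩, hst.2.1, hst.2.2.1,
        hst.2.2.2.trans inter_subset_left⟩
  | inr p =>
    have hst := (σ p.1).step p.2 x O hs.1 (hs.2 (hsub hx)) hx hO hsub
    exact ⟨⟨hst.1, (hst.2.2.2.trans hsub).trans hs.2⟩, hst.2.1, hst.2.2.1, hst.2.2.2⟩

theorem m_win (hK : IsCompact K) (hY : ∀ x, IsOpen (Y x) ∧ (x : X) ∈ Y x)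
    (x : ℕ → X) (O : ℕ → Set X) (s : ℕ → Set X ⊕ (Σ x : {x : X // x ∉ K}, (σ x).S))
    (hs0 : s 0 = Sum.inl univ)
    (hleg : ∀ n, x n ∈ O n ∧ IsOpen (O n) ∧ O n ⊆ mVal K Y σ (s n))
    (hnext : ∀ n, s (n+1) = mNext K Y σ (s n) (x n) (O n)) :
    ∃ y, ∀ n, y ∈ mVal K Y σ (s n) := by
  have hInv : ∀ n, mInv K Y σ (s n) := by
    intro n
    induction n with
    | zero => rw [hs0]; exact isOpen_univ
    | succ n ih =>
      rw [hnext n]
      exact (m_step K Y σ hY (s n) (x n) (O n) ih (hleg n).1 (hleg n).2.1 (hleg n).2.2).1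
  have hsub : ∀ n, mVal K Y σ (s (n+1)) ⊆ O n := by
    intro n
    rw [hnext n]
    exact (m_step K Y σ hY (s n) (x n) (O n) (hInv n) (hleg n).1 (hleg n).2.1 (hleg n).2.2).2.2.2
  have hanti : ∀ n k, mVal K Y σ (s (n+k)) ⊆ mVal K Y σ (s n) := by
    intro n k
    induction k with
    | zero => exact subset_rfl
    | succ k ih => exact ((hsub (n+k)).trans (hleg (n+k)).2.2).trans ih
  by_cases hall : ∀ n, x n ∈ K
  · have hinl : ∀ n, ∃ A, s n = Sum.inl A := by
      intro n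
      induction n with
      | zero => exact ⟨_, hs0⟩
      | succ n ih =>
        obtain ⟨A, hA⟩ := ih
        rw [hnext n, hA, mNext_pos K Y σ A _ _ (hall n)]
        exact ⟨_, rfl⟩
    obtain ⟨a, -, φ, hφ, hlim⟩ := hK.tendsto_subseq hall
    refine ⟨a, fun n => (hleg n).2.2 ?_⟩
    obtain ⟨A, hA⟩ := hinl n
    obtain ⟨h1, h2⟩ := rad_spec (x n) (O n) (hleg n).2.1 (hleg n).1
    apply h2
    refine Metric.isClosed_closedBall.mem_of_tendsto hlim ?_
    filter_upwards [Filter.eventually_ge_atTop (n+1)] with k hk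
    have hk' : n + 1 ≤ φ k := hk.trans (hφ.id_le k)
    obtain ⟨j, hj⟩ := Nat.exists_eq_add_of_le hk'
    have h3 : x (φ k) ∈ mVal K Y σ (s (n+1)) := by
      rw [hj]
      exact hanti (n+1) j ((hleg _).2.2 (hleg _).1)
    rw [hnext n, hA, mNext_pos K Y σ A _ _ (hall n)] at h3
    exact Metric.ball_subset_closedBall h3
  · have hex : ∃ n, x n ∉ K := by
      by_contra hn
      push Not at hn
      exact hall hn
    classical
    let N := Nat.find hex
    have hN : x N ∉ K := Nat.find_spec hex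
    have hlt : ∀ n < N, x n ∈ K := fun n hn => by
      by_contra h
      exact Nat.find_min hex hn h
    have hinl : ∀ n ≤ N, ∃ A, s n = Sum.inl A := by
      intro n
      induction n with
      | zero => exact fun _ => ⟨_, hs0⟩
      | succ n ih =>
        intro hn
        obtain ⟨A, hA⟩ := ih (by omega)
        rw [hnext n, hA, mNext_pos K Y σ A _ _ (hlt n (by omega))]
        exact ⟨_, rfl⟩
    let p : {x : X // x ∉ K} := ⟨x N, hN⟩
    let O' : ℕ → Set X := fun k => if k = 0 then O N ∩ Y p else O (N + k)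
    let s' : ℕ → (σ p).S := fun k => Nat.rec (σ p).s0
      (fun k t => (σ p).next t (x (N + k)) (O' k)) k
    have hs'0 : s' 0 = (σ p).s0 := rfl
    have hs'succ : ∀ k, s' (k+1) = (σ p).next (s' k) (x (N + k)) (O' k) := fun k => rfl
    have hss : ∀ k, s (N + (k + 1)) = Sum.inr ⟨p, s' (k+1)⟩ := by
      intro k
      induction k with
      | zero =>
        obtain ⟨A, hA⟩ := hinl N le_rfl
        show s (N + 1) = _
        rw [hnext N, hA, mNext_neg K Y σ A _ _ hN]
        rfl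
      | succ k ih =>
        show s (N + (k + 1) + 1) = _
        rw [hnext, ih]
        rfl
    have hval : ∀ k, mVal K Y σ (s (N + (k + 1))) = (σ p).val (s' (k+1)) := by
      intro k
      rw [hss k]; rfl
    have hvalY : ∀ k, (σ p).val (s' (k+1)) ⊆ Y p := by
      intro k
      have := hInv (N + (k+1))
      rw [hss k] at this
      exact this.2
    obtain ⟨y, hyY, hy⟩ := (σ p).win (fun k => x (N + k)) O' s' hs'0 (by
      intro k
      cases k with
      | zero =>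
        refine ⟨(hY p).2, ⟨(hleg N).1, (hY p).2⟩, (hleg N).2.1.inter (hY p).1, ?_⟩
        rw [hs'0, (σ p).val0]
        exact subset_univ _
      | succ k =>
        have h1 : O' (k+1) = O (N + (k+1)) := if_neg (Nat.succ_ne_zero k)
        rw [h1, ← hval k]
        have h2 := hleg (N + (k+1))
        refine ⟨hvalY k ?_, h2.1, h2.2.1, h2.2.2⟩
        rw [← hval k]
        exact h2.2.2 h2.1) hs'succ
    refine ⟨y, fun n => ?_⟩
    have h1 : ∀ k, y ∈ mVal K Y σ (s (N + (k+1))) := fun k => by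
      rw [hval k]; exact hy (k+1)
    have h2 := hanti n (N + 1)
    have h3 := h1 n
    rw [show N + (n + 1) = n + (N + 1) by ring] at h3
    exact h2 h3

end merge

theorem merge {X : Type} [MetricSpace X] (K : Set X) (hK : IsCompact K)
    (h : ∀ x ∉ K, ∃ Y : Set X, IsOpen Y ∧ x ∈ Y ∧ Nonempty (Strat X Y)) :
    Nonempty (Strat X (univ : Set X)) := by
  have h' : ∀ x : {x : X // x ∉ K}, ∃ Y : Set X, IsOpen Y ∧ (x : X) ∈ Y ∧ Nonempty (Strat X Y) :=
    fun x => h x.1 x.2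
  choose Y hY1 hY2 hY3 using h'
  let σ : ∀ x : {x : X // x ∉ K}, Strat X (Y x) := fun x => (hY3 x).some
  exact ⟨{ S := Set X ⊕ (Σ x : {x : X // x ∉ K}, (σ x).S)
           Inv := mInv K Y σ
           val := mVal K Y σ
           next := mNext K Y σ
           s0 := Sum.inl univ
           inv0 := isOpen_univ
           val0 := rfl
           step := fun s x O hs _ hx hO hsub =>
            m_step K Y σ (fun x => ⟨hY1 x, hY2 x⟩) s x O hs hx hO hsub
           win := fun x O s hs0 hleg hnext => by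
            obtain ⟨y, hy⟩ := m_win K Y σ hK (fun x => ⟨hY1 x, hY2 x⟩) x O s hs0
              (fun n => (hleg n).2) hnext
            exact ⟨y, trivial, hy⟩ }⟩

end Pool.Agent.Helper18.SC
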