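import Pool.Agent.Helper18.SC2

set_option autoImplicit false

open Set Topology

namespace Pool.Agent.Helper18.SC

/-- nonempty closed sets -/
abbrev HS (X : Type) [TopologicalSpace X] : Type := {A : Set X // IsClosed A ∧ A.Nonempty}

/-- the Wijsman topology -/
noncomputable def wij (X : Type) [m : MetricSpace X] : TopologicalSpace (HS X) :=
  ⨅ x : X, TopologicalSpace.induced
    (fun A : {A : Set X // IsClosed A ∧ A.Nonempty} =>
      @Metric.infEDist X m.toPseudoEMetricSpace x A.1) (inferInstance : TopologicalSpace ENNReal)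

/-- winning strategy predicate, as in the statement -/
def WinH (H : Type) (τ : TopologicalSpace H) (σ : List (H × Set H) → Set H) : Prop :=
  (∀ (h : List (H × Set H)) (y : H) (U : Set H), y ∈ U → @IsOpen _ τ U →
    @IsOpen _ τ (σ (h ++ [(y, U)])) ∧ y ∈ σ (h ++ [(y, U)]) ∧ σ (h ++ [(y, U)]) ⊆ U) ∧
  ∀ p : ℕ → (H × Set H), (∀ n, (p n).1 ∈ (p n).2 ∧ @IsOpen _ τ (p n).2) →
    (∀ n, (p (n + 1)).2 ⊆ σ (List.ofFn (fun i : Fin (n + 1) => p i.val))) →
    (⋂ n, σ (List.ofFn (fun i : Fin (n + 1) => p i.val))).Nonempty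

section A
variable {X : Type} [m : MetricSpace X]

/-- singletons -/
def sing (x : X) : HS X := ⟨{x}, isClosed_singleton, singleton_nonempty x⟩

theorem cont_infEdist (x : X) :
    @Continuous _ _ (wij X) _ (fun A : HS X => Metric.infEDist x A.1) :=
  continuous_iInf_dom (i := x) continuous_induced_dom

theorem cont_sing : @Continuous _ _ _ (wij X) (sing : X → HS X) := by
  refine continuous_iInf_rng.mpr fun x => continuous_induced_rng.mpr ?_
  have : (fun A : HS X => Metric.infEDist x A.1) ∘ sing = fun y => edist x y := by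
    funext y
    exact Metric.infEDist_singleton
  show Continuous ((fun A : HS X => Metric.infEDist x A.1) ∘ sing)
  rw [this]
  fun_prop

theorem open_far (x : X) : @IsOpen _ (wij X) {A : HS X | 1 < Metric.infEDist x A.1} :=
  @IsOpen.preimage _ _ (wij X) _ _ (cont_infEdist x) _ isOpen_Ioi

theorem open_meet (O : Set X) (hO : IsOpen O) :
    @IsOpen _ (wij X) {A : HS X | (A.1 ∩ O).Nonempty} := by
  letI := wij X
  rw [isOpen_iff_forall_mem_open]
  rintro A ⟨a, haA, haO⟩
  obtain ⟨ε, hε, hball⟩ := EMetric.isOpen_iff.mp hO a haO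
  refine ⟨{B : HS X | Metric.infEDist a B.1 < ε}, ?_, ?_, ?_⟩
  · intro B hB
    obtain ⟨b, hb, hab⟩ := Metric.infEDist_lt_iff.mp hB
    exact ⟨b, hb, hball (by rw [Metric.mem_eball, edist_comm]; exact hab)⟩
  · exact @IsOpen.preimage _ _ (wij X) _ _ (cont_infEdist a) _ isOpen_Iio
  · show Metric.infEDist a A.1 < ε
    rw [Metric.infEDist_zero_of_mem haA]
    exact hε

variable (σ : List (HS X × Set (HS X)) → Set (HS X)) (c : ℕ → X → X)

/-- β's simulated move -/
def UU (h : List (HS X × Set (HS X))) (x : X) (O : Set X) : Set (HS X) :=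
  {A | h ≠ [] → A ∈ σ h} ∩ ({A : HS X | 1 < Metric.infEDist (c h.length x) A.1} ∩
    {A : HS X | (A.1 ∩ O).Nonempty})

/-- values -/
def vv (h : List (HS X × Set (HS X))) : Set X := {x | h ≠ [] → sing x ∈ σ h}

/-- invariants -/
def II (h : List (HS X × Set (HS X))) : Prop := h ≠ [] → @IsOpen _ (wij X) (σ h)

theorem UU_open (h : List (HS X × Set (HS X))) (hI : II σ h) (x : X) (O : Set X)
    (hO : IsOpen O) : @IsOpen _ (wij X) (UU σ c h x O) := by
  letI := wij X
  refine IsOpen.inter ?_ (IsOpen.inter (open_far _) (open_meet O hO))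
  by_cases hh : h = []
  · have : {A : HS X | h ≠ [] → A ∈ σ h} = univ := by
      ext A; simp [hh]
    rw [this]; exact isOpen_univ
  · have : {A : HS X | h ≠ [] → A ∈ σ h} = σ h := by
      ext A; simp [hh]
    rw [this]; exact hI hh

theorem hs_step (hσ : WinH (HS X) (wij X) σ) (Y : Set X)
    (h1 : ∀ n, ∀ x ∈ Y, 1 < edist (c n x) x)
    (h : List (HS X × Set (HS X))) (x : X) (O : Set X) (hI : II σ h) (hx : x ∈ Y) (hxO : x ∈ O)
    (hO : IsOpen O) (hsub : O ⊆ vv σ h) :
    II σ (h ++ [(sing x, UU σ c h x O)]) ∧ IsOpen (vv σ (h ++ [(sing x, UU σ c h x O)])) ∧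
      x ∈ vv σ (h ++ [(sing x, UU σ c h x O)]) ∧
      vv σ (h ++ [(sing x, UU σ c h x O)]) ⊆ O ∧ sing x ∈ UU σ c h x O ∧
      σ (h ++ [(sing x, UU σ c h x O)]) ⊆ UU σ c h x O := by
  have hmem : sing x ∈ UU σ c h x O := by
    refine ⟨fun hh => hsub hxO hh, ?_, ⟨x, rfl, hxO⟩⟩
    show 1 < Metric.infEDist (c h.length x) {x}
    rw [Metric.infEDist_singleton]
    exact h1 _ x hx
  have hop := UU_open σ c h hI x O hO
  obtain ⟨a1, a2, a3⟩ := hσ.1 h (sing x) (UU σ c h x O) hmem hop
  have hne : h ++ [(sing x, UU σ c h x O)] ≠ [] := by simp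
  have hvv : vv σ (h ++ [(sing x, UU σ c h x O)]) =
      sing ⁻¹' (σ (h ++ [(sing x, UU σ c h x O)])) := by
    ext y
    constructor
    · intro hy; exact hy hne
    · intro hy _; exact hy
  refine ⟨fun _ => a1, ?_, ?_, ?_, hmem, a3⟩
  · rw [hvv]
    exact @IsOpen.preimage _ _ _ (wij X) _ cont_sing _ a1
  · rw [hvv]; exact a2
  · rw [hvv]
    intro y hy
    obtain ⟨w, hw1, hw2⟩ := (a3 hy).2.2
    have : w = y := hw1
    rwa [this] at hw2

theorem hs_strat (hσ : WinH (HS X) (wij X) σ) (Y : Set X) (V : ℕ → X → Set X)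
    (h1 : ∀ n, ∀ x ∈ Y, 1 < edist (c n x) x)
    (h2 : ∀ n, ∀ x ∈ Y, ∀ y, 1 < edist (c n x) y → y ∈ V n x)
    (h3 : ∀ n, ∀ x ∈ Y, V n x ⊆ Y)
    (h4 : ∀ x : ℕ → X, (∀ n, x n ∈ Y) → (⋂ n, V n (x n)).Subsingleton) :
    Nonempty (Strat X Y) := by
  refine ⟨{ S := List (HS X × Set (HS X))
            Inv := II σ
            val := vv σ
            next := fun h x O => h ++ [(sing x, UU σ c h x O)]
            s0 := []
            inv0 := fun h => absurd rfl h
            val0 := ?_
            step := ?_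
            win := ?_ }⟩
  · ext x
    simp [vv]
  · intro h x O hI hx hxO hO hsub
    obtain ⟨a, b, c', d, -, -⟩ := hs_step σ c hσ Y h1 h x O hI hx hxO hO hsub
    exact ⟨a, b, c', d⟩
  · intro x O s hs0 hleg hnext
    have hI : ∀ n, II σ (s n) := by
      intro n
      induction n with
      | zero => rw [hs0]; exact fun h => absurd rfl h
      | succ n ih =>
        rw [hnext n]
        exact (hs_step σ c hσ Y h1 (s n) (x n) (O n) ih (hleg n).1 (hleg n).2.1 (hleg n).2.2.1
          (hleg n).2.2.2).1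
    have hst := fun n => hs_step σ c hσ Y h1 (s n) (x n) (O n) (hI n) (hleg n).1 (hleg n).2.1
      (hleg n).2.2.1 (hleg n).2.2.2
    let p : ℕ → (HS X × Set (HS X)) := fun n => (sing (x n), UU σ c (s n) (x n) (O n))
    have hs : ∀ n, s n = List.ofFn (fun i : Fin n => p i.val) := by
      intro n
      induction n with
      | zero => rw [hs0]; simp
      | succ n ih =>
        rw [hnext n, List.ofFn_succ_last]
        congr 1
    have hne : ∀ n, s (n+1) ≠ [] := by
      intro n
      rw [hnext n]; simp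
    have hlen : ∀ n, (s n).length = n := by
      intro n
      rw [hs n, List.length_ofFn]
    obtain ⟨A, hA⟩ := hσ.2 p (fun n => ⟨(hst n).2.2.2.2.1, UU_open σ c (s n) (hI n) (x n) (O n)
      (hleg n).2.2.1⟩) (by
        intro n B hB
        rw [← hs (n+1)]
        have hB' : B ∈ UU σ c (s (n+1)) (x (n+1)) (O (n+1)) := hB
        exact hB'.1 (hne n))
    have hA' : ∀ n, A ∈ σ (s (n+1)) := by
      intro n
      rw [hs (n+1)]
      exact mem_iInter.mp hA n
    have hAV : ∀ n, A.1 ⊆ V n (x n) := by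
      intro n a ha
      have h5 := hA' n
      have h6 : A ∈ UU σ c (s n) (x n) (O n) := (hst n).2.2.2.2.2 (by rw [← hnext n]; exact h5)
      have h7 : 1 < Metric.infEDist (c (s n).length (x n)) A.1 := h6.2.1
      rw [hlen n] at h7
      exact h2 n (x n) (hleg n).1 a (h7.trans_le (Metric.infEDist_le_edist_of_mem ha))
    obtain ⟨a, ha⟩ := A.2.2
    have hAa : A = sing a := by
      apply Subtype.ext
      show A.1 = {a}
      ext b
      constructor
      · intro hb
        exact h4 x (fun n => (hleg n).1) (mem_iInter.mpr fun n => hAV n hb)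
          (mem_iInter.mpr fun n => hAV n ha)
      · intro hb
        rw [hb]; exact ha
    refine ⟨a, h3 0 (x 0) (hleg 0).1 (hAV 0 ha), ?_⟩
    intro n
    cases n with
    | zero => rw [hs0]; exact fun h => absurd rfl h
    | succ n =>
      intro _
      rw [← hAa]
      exact hA' n

end A

end Pool.Agent.Helper18.SC
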