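import Pool.Agent.Helper18.SC3

set_option autoImplicit false

open Set Topology

namespace Pool.Agent.Helper18.SC

/-- closed discrete family of points -/
def CD {X J : Type} [MetricSpace X] (z : J → X) : Prop :=
  ∀ x : X, ∃ ε : ℝ, 0 < ε ∧ ∀ j, dist x (z j) < ε → z j = x

/-- discrete family of balls -/
def DiscR {X J : Type} [MetricSpace X] (z : J → X) (r : J → ℝ) : Prop :=
  ∀ x : X, ∃ ε : ℝ, 0 < ε ∧ ∀ j k, (Metric.ball x ε ∩ Metric.ball (z j) (r j)).Nonempty →
    (Metric.ball x ε ∩ Metric.ball (z k) (r k)).Nonempty → j = k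

theorem exists_radii {X J : Type} [MetricSpace X] (z : J → X) (hz : Function.Injective z)
    (h : CD z) : ∃ r : J → ℝ, (∀ j, 0 < r j) ∧ DiscR z r := by
  choose ε hε hε' using h
  refine ⟨fun j => ε (z j) / 4, fun j => by have := hε (z j); positivity, ?_⟩
  intro x
  refine ⟨ε x / 2, by have := hε x; positivity, ?_⟩
  rintro j k ⟨a, ha1, ha2⟩ ⟨b, hb1, hb2⟩
  by_contra hjk
  rw [Metric.mem_ball] at ha1 ha2 hb1 hb2
  have h1 : dist x (z j) < ε x / 2 + ε (z j) / 4 := by
    have := dist_triangle_left x (z j) a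
    linarith
  have h2 : dist x (z k) < ε x / 2 + ε (z k) / 4 := by
    have := dist_triangle_left x (z k) b
    linarith
  have h3 : ε (z j) ≤ dist (z j) (z k) := by
    by_contra hn
    push Not at hn
    exact hjk (hz (hε' (z j) k hn)).symm
  have h4 : ε (z k) ≤ dist (z j) (z k) := by
    by_contra hn
    push Not at hn
    rw [dist_comm] at hn
    exact hjk (hz (hε' (z k) j hn))
  have h5 : dist (z j) (z k) ≤ dist x (z j) + dist x (z k) := dist_triangle_left (z j) (z k) x
  have h6 : dist x (z j) < ε x := by linarith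
  have h7 : dist x (z k) < ε x := by linarith
  exact hjk (hz ((hε' x j h6).trans (hε' x k h7).symm))

/-- discrete index -/
def DI (α : Type) : Type := α

instance (α : Type) : TopologicalSpace (DI α) := ⊥
instance (α : Type) : DiscreteTopology (DI α) := ⟨rfl⟩

noncomputable section
variable {X J : Type} [MetricSpace X] (z : J → X) (r : J → ℝ) (V : J → Set X)

/-- bump -/
def bb (j : J) (x : X) : ℝ := max 0 (1 - dist x (z j) / r j)

/-- distance to the complement -/
def gg (j : J) (x : X) : ℝ := min 1 (Metric.infDist x (V j)ᶜ)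

/-- coordinates -/
def FF : DI (J ⊕ X) → X → ℝ
  | Sum.inl j, x => bb z r j x - gg V j x
  | Sum.inr w, x => min (dist x w) (1/2)

theorem bb_nonneg (j : J) (x : X) : 0 ≤ bb z r j x := le_max_left _ _

theorem bb_le (hr : ∀ j, 0 < r j) (j : J) (x : X) : bb z r j x ≤ 1 := by
  refine max_le (by norm_num) ?_
  have : 0 ≤ dist x (z j) / r j := div_nonneg dist_nonneg (hr j).le
  linarith

theorem bb_self (j : J) : bb z r j (z j) = 1 := by simp [bb]

theorem bb_zero (hr : ∀ j, 0 < r j) (j : J) (x : X) (h : r j ≤ dist x (z j)) :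
    bb z r j x = 0 := by
  apply max_eq_left
  have : 1 ≤ dist x (z j) / r j := (one_le_div (hr j)).mpr h
  linarith

theorem gg_nonneg (j : J) (x : X) : 0 ≤ gg V j x := le_min zero_le_one Metric.infDist_nonneg

theorem gg_le (j : J) (x : X) : gg V j x ≤ 1 := min_le_left _ _

theorem gg_zero (j : J) (x : X) (h : x ∉ V j) : gg V j x = 0 := by
  have : Metric.infDist x (V j)ᶜ = 0 := Metric.infDist_zero_of_mem h
  simp [gg, this]

theorem FF_bound (hr : ∀ j, 0 < r j) (i : DI (J ⊕ X)) (x : X) : ‖FF z r V i x‖ ≤ 1 := by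
  rw [Real.norm_eq_abs, abs_le]
  match i with
  | Sum.inl j =>
    have h1 := bb_nonneg z r j x
    have h2 := bb_le z r hr j x
    have h3 := gg_nonneg V j x
    have h4 := gg_le V j x
    constructor <;> simp only [FF] <;> linarith
  | Sum.inr w =>
    have h1 : 0 ≤ min (dist x w) (1/2) := le_min dist_nonneg (by norm_num)
    have h2 : min (dist x w) (1/2) ≤ 1/2 := min_le_right _ _
    constructor <;> simp only [FF] <;> linarith

/-- the embedding -/
def Phi (hr : ∀ j, 0 < r j) (x : X) : BoundedContinuousFunction (DI (J ⊕ X)) ℝ :=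
  BoundedContinuousFunction.ofNormedAddCommGroupDiscrete (fun i => FF z r V i x) 1
    (fun i => FF_bound z r V hr i x)

theorem Phi_le (hr : ∀ j, 0 < r j) (x y : X) (C : ℝ) (hC : 0 ≤ C)
    (h : ∀ i, |FF z r V i x - FF z r V i y| ≤ C) : dist (Phi z r V hr x) (Phi z r V hr y) ≤ C :=
  (BoundedContinuousFunction.dist_le hC).mpr fun i => h i

theorem le_Phi (hr : ∀ j, 0 < r j) (x y : X) (i : DI (J ⊕ X)) :
    |FF z r V i x - FF z r V i y| ≤ dist (Phi z r V hr x) (Phi z r V hr y) := by
  have h := BoundedContinuousFunction.dist_coe_le_dist (f := Phi z r V hr x)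
    (g := Phi z r V hr y) i
  exact h

theorem gg_lip (j : J) (x y : X) : |gg V j x - gg V j y| ≤ dist x y := by
  have h1 : |Metric.infDist x (V j)ᶜ - Metric.infDist y (V j)ᶜ| ≤ dist x y := by
    have := (Metric.lipschitz_infDist_pt (V j)ᶜ).dist_le_mul x y
    simpa [Real.dist_eq] using this
  refine le_trans ?_ h1
  have := abs_min_sub_min_le_max 1 (Metric.infDist x (V j)ᶜ) 1 (Metric.infDist y (V j)ᶜ)
  simpa [gg] using this

theorem bb_lip (hr : ∀ j, 0 < r j) (j : J) (x y : X) :
    |bb z r j x - bb z r j y| ≤ dist x y / r j := by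
  have h1 : |(1 - dist x (z j) / r j) - (1 - dist y (z j) / r j)| ≤ dist x y / r j := by
    have : (1 - dist x (z j) / r j) - (1 - dist y (z j) / r j) =
        (dist y (z j) - dist x (z j)) / r j := by ring
    rw [this, abs_div, abs_of_pos (hr j)]
    have := abs_dist_sub_le y x (z j)
    rw [dist_comm y x] at this
    exact div_le_div_of_nonneg_right this (hr j).le
  refine le_trans ?_ h1
  have := abs_max_sub_max_le_max 0 (1 - dist x (z j) / r j) 0 (1 - dist y (z j) / r j)
  simpa [bb] using this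

theorem bb_zero_of_empty (hr : ∀ j, 0 < r j) (j : J) (x y : X) (ε : ℝ) (hy : y ∈ Metric.ball x ε)
    (h : ¬ (Metric.ball x ε ∩ Metric.ball (z j) (r j)).Nonempty) : bb z r j y = 0 := by
  apply bb_zero z r hr
  by_contra hn
  push Not at hn
  exact h ⟨y, hy, hn⟩

theorem Phi_cont (hr : ∀ j, 0 < r j) (hd : DiscR z r) : Continuous (Phi z r V hr) := by
  rw [continuous_iff_continuousAt]
  intro x
  rw [Metric.continuousAt_iff]
  intro ε hε
  obtain ⟨δ, hδ, hδ'⟩ := hd x
  -- a radius controlling the only active bump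
  have key : ∃ η : ℝ, 0 < η ∧ ∀ y, dist y x < η → ∀ j, |bb z r j y - bb z r j x| ≤ ε / 4 := by
    by_cases hex : ∃ j0, (Metric.ball x δ ∩ Metric.ball (z j0) (r j0)).Nonempty
    · obtain ⟨j0, hj0⟩ := hex
      refine ⟨min δ (r j0 * (ε / 4)), lt_min hδ (mul_pos (hr j0) (by positivity)), ?_⟩
      intro y hy j
      have hyδ : y ∈ Metric.ball x δ := Metric.mem_ball.mpr (hy.trans_le (min_le_left _ _))
      by_cases hj : (Metric.ball x δ ∩ Metric.ball (z j) (r j)).Nonempty
      · have hjj : j = j0 := hδ' j j0 hj hj0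
        rw [hjj]
        refine (bb_lip z r hr j0 y x).trans ?_
        rw [div_le_iff₀ (hr j0)]
        have := hy.trans_le (min_le_right _ _)
        linarith
      · rw [bb_zero_of_empty z r hr j x y δ hyδ hj,
          bb_zero_of_empty z r hr j x x δ (Metric.mem_ball_self hδ) hj]
        simp
        positivity
    · push Not at hex
      refine ⟨δ, hδ, ?_⟩
      intro y hy j
      have hj : ¬ (Metric.ball x δ ∩ Metric.ball (z j) (r j)).Nonempty := by
        rw [hex j]; exact Set.not_nonempty_empty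
      rw [bb_zero_of_empty z r hr j x y δ (Metric.mem_ball.mpr hy) hj,
          bb_zero_of_empty z r hr j x x δ (Metric.mem_ball_self hδ) hj]
      simp
      positivity
  obtain ⟨η, hη, hη'⟩ := key
  refine ⟨min η (ε / 4), lt_min hη (by positivity), ?_⟩
  intro y hy
  refine (Phi_le z r V hr y x (ε / 2) (by positivity) ?_).trans_lt (by linarith)
  intro i
  match i with
  | Sum.inl j =>
    have h1 := hη' y (hy.trans_le (min_le_left _ _)) j
    have h2 := (gg_lip V j y x).trans (hy.trans_le (min_le_right _ _)).le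
    have h3 : FF z r V (Sum.inl j) y - FF z r V (Sum.inl j) x =
        (bb z r j y - bb z r j x) - (gg V j y - gg V j x) := by simp only [FF]; ring
    rw [h3]
    refine (abs_sub _ _).trans ?_
    linarith
  | Sum.inr w =>
    have h2 := (hy.trans_le (min_le_right _ _)).le
    have h1 : |min (dist y w) (1/2) - min (dist x w) (1/2)| ≤ dist y x := by
      refine le_trans ?_ (abs_dist_sub_le y x w)
      have := abs_min_sub_min_le_max (dist y w) (1/2) (dist x w) (1/2)
      simpa using this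
    show |min (dist y w) (1/2) - min (dist x w) (1/2)| ≤ ε / 2
    linarith

theorem Phi_low (hr : ∀ j, 0 < r j) (x y : X) :
    min (dist y x) (1/2) ≤ dist (Phi z r V hr y) (Phi z r V hr x) := by
  have h := le_Phi z r V hr y x (Sum.inr x)
  have h1 : FF z r V (Sum.inr x) x = 0 := by simp [FF]
  have h2 : FF z r V (Sum.inr x) y = min (dist y x) (1/2) := rfl
  rw [h1, h2, sub_zero] at h
  exact (le_abs_self _).trans h

theorem Phi_ind (hr : ∀ j, 0 < r j) (hd : DiscR z r) : IsInducing (Phi z r V hr) := by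
  rw [isInducing_iff_nhds]
  intro x
  apply le_antisymm
  · exact Filter.map_le_iff_le_comap.mp (Phi_cont z r V hr hd).continuousAt
  · rw [Metric.nhds_basis_ball.ge_iff]
    intro ε hε
    refine Filter.mem_comap.mpr ⟨Metric.ball (Phi z r V hr x) (min ε (1/2)),
      Metric.ball_mem_nhds _ (lt_min hε (by norm_num)), ?_⟩
    intro y hy
    have hy' : dist (Phi z r V hr y) (Phi z r V hr x) < min ε (1/2) := hy
    have h1 := (Phi_low z r V hr x y).trans_lt hy'
    rw [Metric.mem_ball]
    rcases le_total (dist y x) (1/2) with h | h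
    · rw [min_eq_left h] at h1
      exact h1.trans_le (min_le_left _ _)
    · rw [min_eq_right h] at h1
      exact absurd (h1.trans_le (min_le_right _ _)) (lt_irrefl _)

theorem Phi_inj (hr : ∀ j, 0 < r j) : Function.Injective (Phi z r V hr) := by
  intro y x h
  have h1 := Phi_low z r V hr x y
  rw [h, dist_self] at h1
  rcases le_total (dist y x) (1/2) with h2 | h2
  · rw [min_eq_left h2] at h1
    exact dist_le_zero.mp h1
  · rw [min_eq_right h2] at h1
    norm_num at h1

theorem hub_far (hr : ∀ j, 0 < r j) (hd : DiscR z r) (hVz : ∀ j k, z j ∉ V k) (j : J) (y : X)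
    (h : 1 < dist (Phi z r V hr (z j)) (Phi z r V hr y)) : y ∈ V j := by
  by_contra hy
  apply absurd h
  rw [not_lt]
  refine Phi_le z r V hr _ _ 1 zero_le_one ?_
  intro i
  match i with
  | Sum.inl k =>
    show |(bb z r k (z j) - gg V k (z j)) - (bb z r k y - gg V k y)| ≤ 1
    rw [gg_zero V k (z j) (hVz j k), sub_zero]
    have b1 := bb_nonneg z r k y
    have b2 := bb_le z r hr k y
    have g1 := gg_nonneg V k y
    have g2 := gg_le V k y
    by_cases hkj : k = j
    · rw [hkj, bb_self, gg_zero V j y hy, abs_le]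
      rw [hkj] at b1 b2
      constructor <;> linarith
    · have hb0 : bb z r k (z j) = 0 := by
        apply bb_zero z r hr
        by_contra hn
        push Not at hn
        obtain ⟨δ, hδ, hδ'⟩ := hd (z j)
        exact hkj (hδ' k j ⟨z j, Metric.mem_ball_self hδ, hn⟩
          ⟨z j, Metric.mem_ball_self hδ, Metric.mem_ball_self (hr j)⟩)
      rw [hb0, abs_le]
      constructor <;> linarith
  | Sum.inr w =>
    show |min (dist (z j) w) (1/2) - min (dist y w) (1/2)| ≤ 1
    have h1 : 0 ≤ min (dist (z j) w) (1/2) := le_min dist_nonneg (by norm_num)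
    have h2 : min (dist (z j) w) (1/2) ≤ 1/2 := min_le_right _ _
    have h3 : 0 ≤ min (dist y w) (1/2) := le_min dist_nonneg (by norm_num)
    have h4 : min (dist y w) (1/2) ≤ 1/2 := min_le_right _ _
    rw [abs_le]
    constructor <;> linarith

theorem hub_near (hr : ∀ j, 0 < r j) (hV : ∀ j, IsOpen (V j)) (hVz : ∀ j k, z j ∉ V k) (j : J)
    (y : X) (hy : y ∈ V j) (hb : bb z r j y = 0) :
    1 < dist (Phi z r V hr (z j)) (Phi z r V hr y) := by
  refine lt_of_lt_of_le ?_ (le_Phi z r V hr (z j) y (Sum.inl j))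
  show 1 < |(bb z r j (z j) - gg V j (z j)) - (bb z r j y - gg V j y)|
  rw [gg_zero V j (z j) (hVz j j), bb_self, hb]
  have hg : 0 < gg V j y := by
    refine lt_min one_pos ?_
    refine ((hV j).isClosed_compl.notMem_iff_infDist_pos ⟨z j, hVz j j⟩).mp ?_
    exact fun h => h hy
  rw [abs_of_pos (by linarith)]
  linarith

end

/-- The hypothesis of the problem for a fixed topology. -/
def Hyp (X : Type) [t : TopologicalSpace X] : Prop :=
  ∀ (m : MetricSpace X), m.toUniformSpace.toTopologicalSpace = t →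
    ∀ τ : TopologicalSpace (HS X),
      τ = ⨅ x : X, TopologicalSpace.induced
        (fun A : HS X => @Metric.infEDist X m.toPseudoEMetricSpace x A.1)
        (inferInstance : TopologicalSpace ENNReal) →
      ∃ σ : List (HS X × Set (HS X)) → Set (HS X), WinH (HS X) τ σ

theorem strat_of_metric (X : Type) (t : TopologicalSpace X) (hH : Hyp X) (m : MetricSpace X)
    (hm : m.toUniformSpace.toTopologicalSpace = t) (c : ℕ → X → X)
    (Y : Set X) (V : ℕ → X → Set X)
    (h1 : ∀ n, ∀ x ∈ Y, 1 < dist (c n x) x)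
    (h2 : ∀ n, ∀ x ∈ Y, ∀ y, 1 < dist (c n x) y → y ∈ V n x)
    (h3 : ∀ n, ∀ x ∈ Y, V n x ⊆ Y)
    (h4 : ∀ x : ℕ → X, (∀ n, x n ∈ Y) → (⋂ n, V n (x n)).Subsingleton) :
    Nonempty (Strat X Y) := by
  subst hm
  obtain ⟨σ, hσ⟩ := hH m rfl _ rfl
  have key : ∀ a b : X, 1 < edist a b ↔ 1 < dist a b := by
    intro a b
    rw [edist_dist, ← ENNReal.ofReal_one, ENNReal.ofReal_lt_ofReal_iff_of_nonneg zero_le_one]
  exact hs_strat σ c hσ Y V (fun n x hx => (key _ _).mpr (h1 n x hx))
    (fun n x hx y hy => h2 n x hx y ((key _ _).mp hy)) h3 h4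

theorem piece {X J : Type} [ρ : MetricSpace X] (hH : Hyp X) (z : J → X) (hz : Function.Injective z)
    (hcd : CD z) (V : J → Set X) (hV : ∀ j, IsOpen (V j)) (hVz : ∀ j k, z j ∉ V k) (Y : Set X)
    (hVY : ∀ j, V j ⊆ Y)
    (hY : ∀ x ∈ Y, ∀ n : ℕ, ∃ j j' : J, j ≠ j' ∧ x ∈ V j ∧ x ∈ V j' ∧
      V j ⊆ Metric.ball x (1 / ((n : ℝ) + 1)) ∧ V j' ⊆ Metric.ball x (1 / ((n : ℝ) + 1))) :
    Nonempty (Strat X Y) := by
  classical
  obtain ⟨r, hr, hd⟩ := exists_radii z hz hcd
  have hch : ∀ n : ℕ, ∀ x : X, ∃ c : X, ∃ W : Set X, x ∈ Y → ∃ j : J, c = z j ∧ W = V j ∧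
      x ∈ V j ∧ bb z r j x = 0 ∧ V j ⊆ Metric.ball x (1 / ((n : ℝ) + 1)) := by
    intro n x
    by_cases hx : x ∈ Y
    · obtain ⟨j, j', hne, h1, h2, h3, h4⟩ := hY x hx n
      by_cases hb : bb z r j x = 0
      · exact ⟨z j, V j, fun _ => ⟨j, rfl, rfl, h1, hb, h3⟩⟩
      · refine ⟨z j', V j', fun _ => ⟨j', rfl, rfl, h2, ?_, h4⟩⟩
        by_contra hb'
        obtain ⟨δ, hδ, hδ'⟩ := hd x
        have hj : (Metric.ball x δ ∩ Metric.ball (z j) (r j)).Nonempty := by
          by_contra hn
          exact hb (bb_zero_of_empty z r hr j x x δ (Metric.mem_ball_self hδ) hn)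
        have hj' : (Metric.ball x δ ∩ Metric.ball (z j') (r j')).Nonempty := by
          by_contra hn
          exact hb' (bb_zero_of_empty z r hr j' x x δ (Metric.mem_ball_self hδ) hn)
        exact hne (hδ' j j' hj hj')
    · exact ⟨x, ∅, fun h => absurd h hx⟩
  choose c W hcW using hch
  obtain ⟨Ψ, hind, hinj, hfar, hnear⟩ :
      ∃ Ψ : X → BoundedContinuousFunction (DI (J ⊕ X)) ℝ, IsInducing Ψ ∧ Function.Injective Ψ ∧
        (∀ j y, 1 < dist (Ψ (z j)) (Ψ y) → y ∈ V j) ∧
        (∀ j y, y ∈ V j → bb z r j y = 0 → 1 < dist (Ψ (z j)) (Ψ y)) :=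
    ⟨Phi z r V hr, Phi_ind z r V hr hd, Phi_inj z r V hr,
      fun j y h => hub_far z r V hr hd hVz j y h,
      fun j y h h' => hub_near z r V hr hV hVz j y h h'⟩
  have f1 : ∀ n, ∀ x ∈ Y, 1 < dist (Ψ (c n x)) (Ψ x) := by
    intro n x hx
    obtain ⟨j, h1, h2, h3, h4, h5⟩ := hcW n x hx
    rw [h1]
    exact hnear j x h3 h4
  have f2 : ∀ n, ∀ x ∈ Y, ∀ y, 1 < dist (Ψ (c n x)) (Ψ y) →
      y ∈ W n x := by
    intro n x hx y hy
    obtain ⟨j, h1, h2, h3, h4, h5⟩ := hcW n x hx
    rw [h1] at hy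
    rw [h2]
    exact hfar j y hy
  have f3 : ∀ n, ∀ x ∈ Y, W n x ⊆ Y := by
    intro n x hx
    obtain ⟨j, h1, h2, h3, h4, h5⟩ := hcW n x hx
    rw [h2]
    exact hVY j
  have f4 : ∀ x : ℕ → X, (∀ n, x n ∈ Y) → (⋂ n, W n (x n)).Subsingleton := by
    intro x hx a ha b hb
    have hball : ∀ n : ℕ, ∀ y, y ∈ W n (x n) → dist y (x n) < 1 / ((n : ℝ) + 1) := by
      intro n y hy
      obtain ⟨j, h1, h2, h3, h4, h5⟩ := hcW n (x n) (hx n)
      rw [h2] at hy
      exact h5 hy
    have hle : ∀ n : ℕ, dist a b ≤ 1 / ((n : ℝ) + 1) + 1 / ((n : ℝ) + 1) := by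
      intro n
      have h1 := hball n a (mem_iInter.mp ha n)
      have h2 := hball n b (mem_iInter.mp hb n)
      have h3 := dist_triangle_right a b (x n)
      linarith
    have hlim : Filter.Tendsto (fun n : ℕ => 1 / ((n : ℝ) + 1) + 1 / ((n : ℝ) + 1))
        Filter.atTop (nhds (0 + 0)) :=
      tendsto_one_div_add_atTop_nhds_zero_nat.add tendsto_one_div_add_atTop_nhds_zero_nat
    have := ge_of_tendsto' hlim hle
    have h0 : dist a b ≤ 0 := by simpa using this
    exact dist_le_zero.mp h0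
  have hex : ∃ m : MetricSpace X, m.toUniformSpace.toTopologicalSpace =
      ρ.toPseudoMetricSpace.toUniformSpace.toTopologicalSpace ∧
      ∀ a b, @dist X m.toPseudoMetricSpace.toDist a b =
        dist (Ψ a) (Ψ b) := by
    refine ⟨MetricSpace.induced Ψ hinj inferInstance, ?_, ?_⟩
    · exact hind.eq_induced.symm
    · intro a b
      rfl
  obtain ⟨m, hm, hdist⟩ := hex
  refine @strat_of_metric X ρ.toPseudoMetricSpace.toUniformSpace.toTopologicalSpace hH m hm c Y W
    ?_ ?_ f3 f4
  · intro n x hx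
    rw [hdist]
    exact f1 n x hx
  · intro n x hx y hy
    rw [hdist] at hy
    exact f2 n x hx y hy

end Pool.Agent.Helper18.SC
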