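import Pool.Agent.Helper18.SC4

set_option autoImplicit false

open Set Topology
open scoped Cardinal

namespace Pool.Agent.Helper18.SC

variable {X : Type} [MetricSpace X]

/-- separated sets -/
def Sep (S : Set X) (δ : ℝ) : Prop := ∀ x ∈ S, ∀ y ∈ S, x ≠ y → δ ≤ dist x y

theorem exists_net (B : Set X) (δ : ℝ) : ∃ S ⊆ B, Sep S δ ∧ ∀ x ∈ B, (∃ s ∈ S, dist x s < δ) ∨
    (δ ≤ 0) := by
  obtain ⟨S, hS⟩ := zorn_subset {S : Set X | S ⊆ B ∧ Sep S δ} (by
    intro c hc hchain
    refine ⟨⋃₀ c, ⟨sUnion_subset fun s hs => (hc hs).1, ?_⟩, fun s hs => subset_sUnion_of_mem hs⟩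
    rintro x ⟨s, hs, hxs⟩ y ⟨t, ht, hyt⟩ hne
    rcases hchain.total hs ht with h | h
    · exact (hc ht).2 x (h hxs) y hyt hne
    · exact (hc hs).2 x hxs y (h hyt) hne)
  refine ⟨S, hS.prop.1, hS.prop.2, ?_⟩
  intro x hx
  by_contra hn
  push Not at hn
  obtain ⟨hn1, hn2⟩ := hn
  have hins : insert x S ∈ {S : Set X | S ⊆ B ∧ Sep S δ} := by
    refine ⟨insert_subset hx hS.prop.1, ?_⟩
    rintro a (rfl | ha) b (rfl | hb) hne
    · exact absurd rfl hne
    · exact hn1 b hb
    · rw [dist_comm]; exact hn1 a ha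
    · exact hS.prop.2 a ha b hb hne
  have hxS : x ∈ S := hS.le_of_ge hins (subset_insert x S) (mem_insert x S)
  have := hn1 x hxS
  rw [dist_self] at this
  linarith

/-- separated sets are closed discrete -/
theorem sep_cd (S : Set X) (δ : ℝ) (hδ : 0 < δ) (hS : Sep S δ) : CD (Subtype.val : S → X) := by
  intro x
  by_cases hex : ∃ s ∈ S, s ≠ x ∧ dist x s < δ / 2
  · obtain ⟨s, hs, hsx, hd⟩ := hex
    refine ⟨dist x s, dist_pos.mpr (Ne.symm hsx), ?_⟩
    rintro ⟨t, ht⟩ htd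
    by_cases hts : t = s
    · have htd' : dist x t < dist x s := htd
      rw [hts] at htd'
      exact absurd htd' (lt_irrefl _)
    · have h1 := hS t ht s hs hts
      have h2 := dist_triangle_left t s x
      have h3 : dist x t < δ / 2 := lt_trans htd hd
      linarith
  · push Not at hex
    refine ⟨δ / 2, by positivity, ?_⟩
    rintro ⟨t, ht⟩ htd
    by_contra hne
    exact absurd htd (not_lt.mpr (hex t ht hne))

theorem CD.closed {J : Type} {z : J → X} (h : CD z) : IsClosed (Set.range z) := by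
  rw [← isOpen_compl_iff, Metric.isOpen_iff]
  intro x hx
  obtain ⟨ε, hε, h'⟩ := h x
  refine ⟨ε, hε, ?_⟩
  rintro y hy ⟨j, rfl⟩
  rw [Metric.mem_ball, dist_comm] at hy
  exact hx ⟨j, h' j hy⟩

theorem CD.comp {J I : Type} {z : J → X} (h : CD z) (f : I → J) : CD (z ∘ f) := by
  intro x
  obtain ⟨ε, hε, h'⟩ := h x
  exact ⟨ε, hε, fun i => h' (f i)⟩

/-- good points -/
def GoodPt (x : X) : Prop := ∃ U : Set X, IsOpen U ∧ x ∈ U ∧ ∃ D : Set X, U ⊆ closure D ∧
  ∃ z : D × ℕ × Bool → X, Function.Injective z ∧ CD z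

theorem good_strat (hH : Hyp X) (x : X) (hx : GoodPt x) :
    ∃ Y : Set X, IsOpen Y ∧ x ∈ Y ∧ Nonempty (Strat X Y) := by
  obtain ⟨U, hU, hxU, D, hD, z, hz, hcd⟩ := hx
  have key : ∀ b : Bool, x ∉ Set.range (fun p : D × ℕ => z (p.1, p.2, b)) →
      ∃ Y : Set X, IsOpen Y ∧ x ∈ Y ∧ Nonempty (Strat X Y) := by
    intro b hxb
    have hcd' : CD (fun p : D × ℕ => z (p.1, p.2, b)) := hcd.comp (fun p : D × ℕ => (p.1, p.2, b))
    have hz' : Function.Injective (fun p : D × ℕ => z (p.1, p.2, b)) := by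
      rintro ⟨d, m⟩ ⟨d', m'⟩ h
      have := hz h
      simp only [Prod.mk.injEq] at this
      rw [this.1, this.2.1]
    have hYo : IsOpen (U \ Set.range (fun p : D × ℕ => z (p.1, p.2, b))) :=
      hU.sdiff hcd'.closed
    refine ⟨U \ Set.range (fun p : D × ℕ => z (p.1, p.2, b)), hYo, ⟨hxU, hxb⟩, ?_⟩
    refine piece hH (fun p : D × ℕ => z (p.1, p.2, b)) hz' hcd'
      (fun p => Metric.ball (p.1 : X) (1 / ((p.2 : ℝ) + 1)) ∩
        (U \ Set.range (fun p : D × ℕ => z (p.1, p.2, b)))) ?_ ?_ _ ?_ ?_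
    · intro p
      exact Metric.isOpen_ball.inter hYo
    · intro j k h
      exact h.2.2 ⟨j, rfl⟩
    · intro j
      exact inter_subset_right
    · intro y hy n
      have hfind : ∀ m : ℕ, 2 * n + 1 ≤ m → ∃ d : D, y ∈ Metric.ball (d : X) (1 / ((m : ℝ) + 1)) ∧
          Metric.ball (d : X) (1 / ((m : ℝ) + 1)) ⊆ Metric.ball y (1 / ((n : ℝ) + 1)) := by
        intro m hm
        have hm0 : (0 : ℝ) < (m : ℝ) + 1 := by positivity
        have hn0 : (0 : ℝ) < (n : ℝ) + 1 := by positivity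
        obtain ⟨d, hd, hyd⟩ := Metric.mem_closure_iff.mp (hD hy.1) (1 / ((m : ℝ) + 1))
          (by positivity)
        refine ⟨⟨d, hd⟩, hyd, ?_⟩
        intro w hw
        rw [Metric.mem_ball] at hw ⊢
        have h1 : dist w y ≤ dist w d + dist y d := dist_triangle_right w y d
        have h2 : 2 * (1 / ((m : ℝ) + 1)) ≤ 1 / ((n : ℝ) + 1) := by
          have hmn : (2 * n + 1 : ℝ) ≤ m := by exact_mod_cast hm
          rw [mul_one_div, div_le_div_iff₀ hm0 hn0]
          linarith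
        linarith
      obtain ⟨d, hd1, hd2⟩ := hfind (2 * n + 1) le_rfl
      obtain ⟨d', hd1', hd2'⟩ := hfind (2 * n + 2) (by omega)
      refine ⟨(d, 2 * n + 1), (d', 2 * n + 2), ?_, ⟨hd1, hy⟩, ⟨hd1', hy⟩,
        inter_subset_left.trans hd2, inter_subset_left.trans hd2'⟩
      intro h
      have := congrArg Prod.snd h
      simp at this
  by_cases h1 : x ∈ Set.range (fun p : D × ℕ => z (p.1, p.2, true))
  · apply key false
    rintro ⟨p, hp⟩
    obtain ⟨q, hq⟩ := h1
    have := hz (hq.trans hp.symm)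
    simp at this
  · exact key true h1

omit [MetricSpace X] in
theorem card_prod_le (D : Set X) (lam : Cardinal.{0}) (hl : ℵ₀ ≤ lam) (hD : #D ≤ lam) :
    #(D × ℕ × Bool) ≤ lam := by
  have h1 : #(D × ℕ × Bool) = #D * (ℵ₀ * 2) := by simp
  rw [h1]
  have h2 : ℵ₀ * 2 ≤ lam := by
    refine (mul_le_mul' hl (Cardinal.natCast_lt_aleph0 (n := 2)).le).trans ?_
    rw [Cardinal.mul_aleph0_eq hl]
  exact (mul_le_mul' hD h2).trans (Cardinal.mul_eq_self hl).le

omit [MetricSpace X] in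
theorem card_iUnion_le (S : ℕ → Set X) (lam : Cardinal.{0}) (hl : ℵ₀ ≤ lam)
    (hS : ∀ n, #(S n) ≤ lam) : #(⋃ n, S n) ≤ lam := by
  refine (Cardinal.mk_iUnion_le_sum_mk (f := S)).trans ?_
  refine (Cardinal.sum_le_sum _ (fun _ => lam) hS).trans ?_
  rw [Cardinal.sum_const']
  simp only [Cardinal.mk_nat]
  exact (Cardinal.aleph0_mul_eq hl).le

theorem goodPt_open : IsOpen {x : X | GoodPt x} := by
  rw [isOpen_iff_forall_mem_open]
  rintro x ⟨U, hU, hxU, h⟩
  exact ⟨U, fun y hy => ⟨U, hU, hy, h⟩, hU, hxU⟩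

theorem exists_cd_seq (K : Set X) (hKc : IsClosed K) (hK : ¬ IsCompact K) :
    ∃ v : ℕ → X, Function.Injective v ∧ CD v ∧ ∀ n, v n ∈ K := by
  rw [isCompact_iff_isSeqCompact] at hK
  unfold IsSeqCompact at hK
  push Not at hK
  obtain ⟨u, hu, hno⟩ := hK
  have hLF : ∀ x : X, ∃ ε : ℝ, 0 < ε ∧ {n | dist x (u n) < ε}.Finite := by
    intro x
    by_contra hn
    push Not at hn
    by_cases hx : x ∈ K
    · have hfreq : ∀ k : ℕ, ∃ᶠ n in Filter.atTop, dist x (u n) < 1 / ((k : ℝ) + 1) := by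
        intro k
        rw [Nat.frequently_atTop_iff_infinite]
        exact hn _ (by positivity)
      obtain ⟨φ, hφ, hφ'⟩ := Filter.extraction_forall_of_frequently hfreq
      refine hno x hx φ hφ ?_
      rw [tendsto_iff_dist_tendsto_zero]
      refine squeeze_zero (fun _ => dist_nonneg) (fun k => ?_)
        tendsto_one_div_add_atTop_nhds_zero_nat
      have := hφ' k
      rw [dist_comm] at this
      exact this.le
    · obtain ⟨ε, hε, hb⟩ := Metric.isOpen_iff.mp hKc.isOpen_compl x hx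
      refine hn ε hε ?_
      convert Set.finite_empty
      ext n
      simp only [mem_ofPred_eq, mem_empty_iff_false, iff_false, not_lt]
      by_contra hlt
      push Not at hlt
      rw [dist_comm] at hlt
      exact hb hlt (hu n)
  have hinf : (Set.range u).Infinite := by
    intro hfin
    have : Finite (Set.range u) := hfin
    obtain ⟨⟨y, hy⟩, hy'⟩ := Finite.exists_infinite_fiber (fun n => (⟨u n, n, rfl⟩ : Set.range u))
    obtain ⟨ε, hε, hf⟩ := hLF y
    have hinf' : ((fun n => (⟨u n, n, rfl⟩ : Set.range u)) ⁻¹' {⟨y, hy⟩}).Infinite :=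
      Set.infinite_coe_iff.mp hy'
    apply hinf'
    refine hf.subset ?_
    intro n hn
    have : u n = y := congrArg Subtype.val hn
    show dist y (u n) < ε
    rw [this, dist_self]
    exact hε
  let emb := Set.Infinite.natEmbedding (Set.range u) hinf
  refine ⟨fun n => (emb n : X), fun a b h => emb.injective (Subtype.ext h), ?_, ?_⟩
  · intro x
    obtain ⟨ε, hε, hf⟩ := hLF x
    have hfin : ((u '' {n | dist x (u n) < ε}) \ {x}).Finite := (hf.image u).subset
      Set.sdiff_subset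
    have hmem : ((u '' {n | dist x (u n) < ε}) \ {x})ᶜ ∈ nhds x :=
      hfin.isClosed.isOpen_compl.mem_nhds (fun h => h.2 rfl)
    obtain ⟨δ, hδ, hb⟩ := Metric.mem_nhds_iff.mp hmem
    refine ⟨min ε δ, lt_min hε hδ, ?_⟩
    intro j hj
    by_contra hne
    obtain ⟨n, hn⟩ := (emb j).2
    have h1 : (emb j : X) ∈ (u '' {n | dist x (u n) < ε}) \ {x} := by
      refine ⟨⟨n, ?_, hn⟩, hne⟩
      show dist x (u n) < ε
      rw [hn]
      exact hj.trans_le (min_le_left _ _)
    have h2 : (emb j : X) ∈ Metric.ball x δ := by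
      rw [Metric.mem_ball, dist_comm]
      exact hj.trans_le (min_le_right _ _)
    exact hb h2 h1
  · intro n
    obtain ⟨k, hk⟩ := (emb n).2
    show (emb n : X) ∈ K
    rw [← hk]
    exact hu k

theorem bad_compact : IsCompact {x : X | ¬ GoodPt x} := by
  by_contra hnc
  have hcl : IsClosed {x : X | ¬ GoodPt x} := by
    rw [← isOpen_compl_iff]
    have : {x : X | ¬ GoodPt x}ᶜ = {x : X | GoodPt x} := by
      ext x; simp
    rw [this]
    exact goodPt_open
  obtain ⟨v, hv, hcd, hbad⟩ := exists_cd_seq _ hcl hnc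
  obtain ⟨r, hr, hdisc⟩ := exists_radii v hv hcd
  have hnet : ∀ k n : ℕ, ∃ S ⊆ Metric.ball (v k) (r k), Sep S ((1/2 : ℝ) ^ n) ∧
      ∀ x ∈ Metric.ball (v k) (r k), ∃ s ∈ S, dist x s < (1/2 : ℝ) ^ n := by
    intro k n
    obtain ⟨S, h1, h2, h3⟩ := exists_net (Metric.ball (v k) (r k)) ((1/2 : ℝ) ^ n)
    refine ⟨S, h1, h2, fun x hx => ?_⟩
    rcases h3 x hx with h | h
    · exact h
    · exact absurd h (not_le.mpr (by positivity))
  choose S hSsub hSsep hSnet using hnet
  have hdense : ∀ k, Metric.ball (v k) (r k) ⊆ closure (⋃ n, S k n) := by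
    intro k x hx
    rw [Metric.mem_closure_iff]
    intro ε hε
    obtain ⟨n, hn⟩ := exists_pow_lt_of_lt_one hε (by norm_num : (1/2 : ℝ) < 1)
    obtain ⟨s, hs, hd⟩ := hSnet k n x hx
    exact ⟨s, mem_iUnion.mpr ⟨n, hs⟩, hd.trans hn⟩
  -- no closed discrete family is large enough
  have hno : ∀ k, ∀ (T : Type) (w : T → X), Function.Injective w → CD w →
      ¬ (#((⋃ n, S k n : Set X) × ℕ × Bool) ≤ #T) := by
    intro k T w hw hcdw hle
    obtain ⟨f⟩ := hle
    apply hbad k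
    exact ⟨Metric.ball (v k) (r k), Metric.isOpen_ball, Metric.mem_ball_self (hr k), _, hdense k,
      w ∘ f, hw.comp f.injective, hcdw.comp f⟩
  have hno' : ∀ k k' n', ¬ (#((⋃ n, S k n : Set X) × ℕ × Bool) ≤ #(S k' n')) := fun k k' n' =>
    hno k (S k' n') Subtype.val Subtype.val_injective
      (sep_cd _ _ (by positivity) (hSsep k' n'))
  have hne : ∀ k n, (S k n).Nonempty := by
    intro k n
    obtain ⟨s, hs, -⟩ := hSnet k n (v k) (Metric.mem_ball_self (hr k))
    exact ⟨s, hs⟩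
  have hchoose : ∀ j : ℕ, ∃ n, #(S 0 j) ≤ #(S (j+1) n) ∨ #(S 0 j) < ℵ₀ := by
    intro j
    by_cases hfin : #(S 0 j) < ℵ₀
    · exact ⟨0, Or.inr hfin⟩
    · push Not at hfin
      by_contra hn
      push Not at hn
      have hle : ∀ n, #(S (j+1) n) ≤ #(S 0 j) := fun n => (hn n).1.le
      exact hno' (j+1) 0 j (card_prod_le _ _ hfin (card_iUnion_le _ _ hfin hle))
  choose N hN using hchoose
  let T : Type := Σ j : ℕ, (S (j+1) (N j) : Set X)
  let w : T → X := fun t => (t.2 : X)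
  have hball : ∀ t : T, w t ∈ Metric.ball (v (t.1 + 1)) (r (t.1 + 1)) := fun t =>
    hSsub _ _ t.2.2
  have hw : Function.Injective w := by
    rintro ⟨j, s, hs⟩ ⟨j', s', hs'⟩ h
    have hss : s = s' := h
    obtain ⟨ε, hε, hε'⟩ := hdisc s
    have h1 := hSsub _ _ hs
    have h2 := hSsub _ _ hs'
    have hjj : j + 1 = j' + 1 := hε' _ _ ⟨s, Metric.mem_ball_self hε, h1⟩
      ⟨s, Metric.mem_ball_self hε, hss ▸ h2⟩
    have hjj' : j = j' := by omega
    subst hjj'
    subst hss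
    rfl
  have hcdw : CD w := by
    intro x
    obtain ⟨ε, hε, hε'⟩ := hdisc x
    by_cases hex : ∃ t : T, dist x (w t) < ε
    · obtain ⟨t0, ht0⟩ := hex
      obtain ⟨δ, hδ, hδ'⟩ := sep_cd _ _ (by positivity) (hSsep (t0.1+1) (N t0.1)) x
      refine ⟨min ε δ, lt_min hε hδ, ?_⟩
      rintro ⟨j, s, hs⟩ ht
      have h1 : dist x s < ε := lt_of_lt_of_le ht (min_le_left _ _)
      have h2 : dist x s < δ := lt_of_lt_of_le ht (min_le_right _ _)
      have hjj : j + 1 = t0.1 + 1 := hε' _ _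
        ⟨s, by rw [Metric.mem_ball, dist_comm]; exact h1, hSsub _ _ hs⟩
        ⟨w t0, by rw [Metric.mem_ball, dist_comm]; exact ht0, hball t0⟩
      have hjj' : j = t0.1 := by omega
      subst hjj'
      exact hδ' ⟨s, hs⟩ h2
    · push Not at hex
      exact ⟨ε, hε, fun t ht => absurd ht (not_lt.mpr (hex t))⟩
  have hTinf : ℵ₀ ≤ #T := by
    rw [Cardinal.aleph0_le_mk_iff]
    exact Infinite.of_injective (fun j : ℕ => (⟨j, ⟨_, (hne (j+1) (N j)).some_mem⟩⟩ : T))
      (fun a b h => congrArg Sigma.fst h)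
  have hTle : ∀ j, #(S 0 j) ≤ #T := by
    intro j
    rcases hN j with h | h
    · refine h.trans ?_
      exact Cardinal.mk_le_of_injective (f := fun s => (⟨j, s⟩ : T)) (fun a b h => by
        have h' : (⟨j, a⟩ : T) = ⟨j, b⟩ := h
        exact eq_of_heq (Sigma.mk.inj h').2)
    · exact h.le.trans hTinf
  exact hno 0 T w hw hcdw (card_prod_le _ _ hTinf (card_iUnion_le _ _ hTinf hTle))

theorem final (hH : Hyp X) : TopologicalSpace.IsCompletelyMetrizableSpace X := by
  obtain ⟨σ⟩ := merge {x : X | ¬ GoodPt x} bad_compact (fun x hx => by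
    have : GoodPt x := by
      by_contra hn
      exact hx hn
    exact good_strat hH x this)
  exact complete_of_strat X σ

end Pool.Agent.Helper18.SC
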