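import Mathlib

set_option autoImplicit false

open Set Topology MeasureTheory Filter

namespace Pool.Agent.Helper18.ZN

section basic
variable {E : Type} [NormedAddCommGroup E] [InnerProductSpace ℝ E]

/-- absolute value of a linear functional -/
def ab (v : E) : E → ℝ := fun x => |inner ℝ x v|

/-- finite sums -/
def S0 (E : Type) [NormedAddCommGroup E] [InnerProductSpace ℝ E] : AddSubmonoid (E → ℝ) :=
  AddSubmonoid.closure (Set.range ab)

/-- pointwise limits -/
def ZC (E : Type) [NormedAddCommGroup E] [InnerProductSpace ℝ E] : Set (E → ℝ) :=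
  closure (S0 E : Set (E → ℝ))

/-- sublinear even nonnegative -/
def Subl (f : E → ℝ) : Prop := (∀ x, 0 ≤ f x) ∧ (∀ x, f (-x) = f x) ∧
  (∀ (t : ℝ) x, 0 ≤ t → f (t • x) = t * f x) ∧ ∀ x y, f (x + y) ≤ f x + f y

theorem Subl.zero (f : E → ℝ) (h : Subl f) : f 0 = 0 := by
  have := h.2.2.1 0 0 le_rfl
  simpa using this

theorem subl_S0 (f : E → ℝ) (hf : f ∈ S0 E) : Subl f := by
  induction hf using AddSubmonoid.closure_induction with
  | mem f hf =>
    obtain ⟨v, rfl⟩ := hf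
    refine ⟨fun x => abs_nonneg _, fun x => ?_, fun t x ht => ?_, fun x y => ?_⟩
    · simp [ab]
    · simp only [ab, inner_smul_left, abs_mul]
      simp [abs_of_nonneg ht]
    · simp only [ab, inner_add_left]
      exact abs_add_le _ _
  | zero => exact ⟨fun x => le_rfl, fun x => rfl, fun t x _ => by simp, fun x y => by simp⟩
  | add f g _ _ hf hg =>
    refine ⟨fun x => add_nonneg (hf.1 x) (hg.1 x), fun x => ?_, fun t x ht => ?_, fun x y => ?_⟩
    · simp only [Pi.add_apply, hf.2.1, hg.2.1]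
    · simp only [Pi.add_apply, hf.2.2.1 t x ht, hg.2.2.1 t x ht]; ring
    · simp only [Pi.add_apply]
      linarith [hf.2.2.2 x y, hg.2.2.2 x y]

theorem closed_subl : IsClosed {f : E → ℝ | Subl f} := by
  have h1 : IsClosed {f : E → ℝ | ∀ x, 0 ≤ f x} := by
    simp only [Set.ofPred_forall]
    exact isClosed_iInter fun x => isClosed_le continuous_const (continuous_apply x)
  have h2 : IsClosed {f : E → ℝ | ∀ x, f (-x) = f x} := by
    simp only [Set.ofPred_forall]
    exact isClosed_iInter fun x => isClosed_eq (continuous_apply _) (continuous_apply _)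
  have h3 : IsClosed {f : E → ℝ | ∀ (t : ℝ) x, 0 ≤ t → f (t • x) = t * f x} := by
    simp only [Set.ofPred_forall]
    exact isClosed_iInter fun t => isClosed_iInter fun x => isClosed_iInter fun _ =>
      isClosed_eq (continuous_apply _) (continuous_const.mul (continuous_apply _))
  have h4 : IsClosed {f : E → ℝ | ∀ x y, f (x + y) ≤ f x + f y} := by
    simp only [Set.ofPred_forall]
    exact isClosed_iInter fun x => isClosed_iInter fun y =>
      isClosed_le (continuous_apply _) (by fun_prop)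
  exact h1.inter (h2.inter (h3.inter h4))

theorem subl_ZC (f : E → ℝ) (hf : f ∈ ZC E) : Subl f :=
  closure_minimal (fun f hf => subl_S0 f hf) closed_subl hf

theorem ab_mem (v : E) : ab v ∈ ZC E :=
  subset_closure (AddSubmonoid.subset_closure ⟨v, rfl⟩)

theorem zero_mem_ZC : (0 : E → ℝ) ∈ ZC E := subset_closure (S0 E).zero_mem

theorem add_mem_ZC {f g : E → ℝ} (hf : f ∈ ZC E) (hg : g ∈ ZC E) : f + g ∈ ZC E :=
  (S0 E).topologicalClosure.add_mem hf hg

theorem smul_mem_S0 {f : E → ℝ} (c : ℝ) (hc : 0 ≤ c) (hf : f ∈ S0 E) : c • f ∈ S0 E := by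
  induction hf using AddSubmonoid.closure_induction with
  | mem f hf =>
    obtain ⟨v, rfl⟩ := hf
    apply AddSubmonoid.subset_closure
    refine ⟨c • v, ?_⟩
    funext x
    simp only [ab, inner_smul_right, abs_mul, Pi.smul_apply, smul_eq_mul, abs_of_nonneg hc]
  | zero => rw [smul_zero]; exact (S0 E).zero_mem
  | add f g _ _ hf hg => rw [smul_add]; exact (S0 E).add_mem hf hg

theorem smul_mem_ZC {f : E → ℝ} (c : ℝ) (hc : 0 ≤ c) (hf : f ∈ ZC E) : c • f ∈ ZC E :=
  map_mem_closure (continuous_const_smul c) hf (fun g hg => smul_mem_S0 c hc hg)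

theorem sum_mem_ZC {ι : Type} (s : Finset ι) (f : ι → E → ℝ) (hf : ∀ i ∈ s, f i ∈ ZC E) :
    ∑ i ∈ s, f i ∈ ZC E :=
  (S0 E).topologicalClosure.sum_mem hf

theorem mem_closure_of_finite (S : Set (E → ℝ)) (F : E → ℝ)
    (h : ∀ (J : Finset E) (ε : ℝ), 0 < ε → ∃ g ∈ S, ∀ x ∈ J, |g x - F x| < ε) :
    F ∈ closure S := by
  classical
  have h' : ∀ p : Finset E × ℕ, ∃ g ∈ S, ∀ x ∈ p.1, |g x - F x| < 1 / ((p.2 : ℝ) + 1) :=
    fun p => h p.1 _ (by positivity)
  choose g hg hg' using h'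
  refine mem_closure_of_tendsto (f := g) (b := atTop) ?_ (Eventually.of_forall hg)
  rw [tendsto_pi_nhds]
  intro x
  rw [Metric.tendsto_atTop]
  intro ε hε
  obtain ⟨n, hn⟩ := exists_nat_one_div_lt hε
  refine ⟨({x}, n), fun p hp => ?_⟩
  rw [Real.dist_eq]
  refine (hg' p x (hp.1 (Finset.mem_singleton_self x))).trans_le (le_trans ?_ hn.le)
  apply one_div_le_one_div_of_le (by positivity)
  have : (n : ℝ) ≤ p.2 := by exact_mod_cast hp.2
  linarith

theorem finite_of_mem_closure (S : Set (E → ℝ)) (F : E → ℝ) (hF : F ∈ closure S)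
    (J : Finset E) (ε : ℝ) (hε : 0 < ε) : ∃ g ∈ S, ∀ x ∈ J, |g x - F x| < ε := by
  have hopen : IsOpen {g : E → ℝ | ∀ x ∈ J, |g x - F x| < ε} := by
    have : {g : E → ℝ | ∀ x ∈ J, |g x - F x| < ε} = ⋂ x ∈ J, {g : E → ℝ | |g x - F x| < ε} := by
      ext g; simp
    rw [this]
    refine isOpen_biInter_finset fun x _ => ?_
    exact isOpen_lt (by fun_prop) continuous_const
  obtain ⟨g, hg1, hg2⟩ := mem_closure_iff.mp hF _ hopen (fun x _ => by simpa using hε)
  exact ⟨g, hg2, hg1⟩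

theorem convex_ZC : Convex ℝ (ZC E) := by
  intro f hf g hg a b ha hb _
  exact add_mem_ZC (smul_mem_ZC a ha hf) (smul_mem_ZC b hb hg)

theorem integral_mem_ZC {Ω : Type} [MeasurableSpace Ω] (μ : Measure Ω) [IsProbabilityMeasure μ]
    (f : Ω → E → ℝ) (hf : ∀ ω, f ω ∈ ZC E) (hint : ∀ x, Integrable (fun ω => f ω x) μ) :
    (fun x => ∫ ω, f ω x ∂μ) ∈ ZC E := by
  have : (fun x => ∫ ω, f ω x ∂μ) ∈ closure (ZC E) := by
    apply mem_closure_of_finite
    intro J ε hε
    let r : (E → ℝ) → (J → ℝ) := fun g x => g x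
    have hr : IsLinearMap ℝ r := ⟨fun _ _ => rfl, fun _ _ => rfl⟩
    have hC : Convex ℝ (closure (r '' ZC E)) := (convex_ZC.is_linear_image hr).closure
    have hint' : Integrable (fun ω => r (f ω)) μ := Integrable.of_eval fun x => hint x
    have hmem := hC.integral_mem isClosed_closure
      (Eventually.of_forall fun ω => subset_closure ⟨f ω, hf ω, rfl⟩) hint'
    obtain ⟨_, ⟨g, hg, rfl⟩, hd⟩ := Metric.mem_closure_iff.mp hmem ε hε
    refine ⟨g, hg, fun x hx => ?_⟩
    have h1 := dist_le_pi_dist (∫ ω, r (f ω) ∂μ) (r g) ⟨x, hx⟩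
    have h2 : (∫ ω, r (f ω) ∂μ) ⟨x, hx⟩ = ∫ ω, f ω x ∂μ := by
      rw [eval_integral (fun i => Integrable.eval hint' i)]
    rw [h2, Real.dist_eq, abs_sub_comm] at h1
    exact h1.trans_lt hd
  rwa [ZC, closure_closure] at this

end basic

section fin
variable {E : Type} [NormedAddCommGroup E] [InnerProductSpace ℝ E] [FiniteDimensional ℝ E]

theorem Subl.abs_smul {f : E → ℝ} (h : Subl f) (t : ℝ) (x : E) : f (t • x) = |t| * f x := by
  rcases le_total 0 t with ht | ht
  · rw [abs_of_nonneg ht, h.2.2.1 t x ht]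
  · rw [abs_of_nonpos ht, ← h.2.1 (t • x), ← neg_smul, h.2.2.1 (-t) x (by linarith)]

theorem Subl.sum_le {f : E → ℝ} (h : Subl f) {ι : Type} (s : Finset ι) (v : ι → E) :
    f (∑ i ∈ s, v i) ≤ ∑ i ∈ s, f (v i) := by
  classical
  induction s using Finset.induction_on with
  | empty => simp [h.zero]
  | insert a s ha ih =>
    rw [Finset.sum_insert ha, Finset.sum_insert ha]
    linarith [h.2.2.2 (v a) (∑ i ∈ s, v i)]

theorem Subl.bound {f : E → ℝ} (h : Subl f) (x : E) :
    f x ≤ ‖x‖ * ∑ i, f (stdOrthonormalBasis ℝ E i) := by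
  set b := stdOrthonormalBasis ℝ E
  have h1 : x = ∑ i, (inner ℝ (b i) x : ℝ) • b i := (b.sum_repr' x).symm
  calc f x = f (∑ i, (inner ℝ (b i) x : ℝ) • b i) := by rw [← h1]
    _ ≤ ∑ i, f ((inner ℝ (b i) x : ℝ) • b i) := h.sum_le _ _
    _ ≤ ∑ i, ‖x‖ * f (b i) := by
        refine Finset.sum_le_sum fun i _ => ?_
        rw [h.abs_smul]
        refine mul_le_mul_of_nonneg_right ?_ (h.1 _)
        have := abs_real_inner_le_norm (b i) x
        rwa [b.norm_eq_one, one_mul] at this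
    _ = ‖x‖ * ∑ i, f (b i) := by rw [Finset.mul_sum]

theorem Subl.lip {f : E → ℝ} (h : Subl f) (x y : E) : |f x - f y| ≤ f (x - y) := by
  rw [abs_le]
  have h1 := h.2.2.2 (x - y) y
  have h2 := h.2.2.2 (y - x) x
  rw [sub_add_cancel] at h1 h2
  have h3 : f (y - x) = f (x - y) := by rw [← h.2.1 (y - x), neg_sub]
  constructor <;> linarith

theorem approx (h : E → ℝ) (hZ : h ∈ ZC E) (ε : ℝ) (hε : 0 < ε) :
    ∃ g ∈ S0 E, ∀ x, ‖x‖ ≤ 1 → |g x - h x| ≤ ε := by
  classical
  have hh := subl_ZC h hZ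
  set b := stdOrthonormalBasis ℝ E with hb
  set L : ℝ := ∑ i, (h (b i) + 1) + 1 with hL
  have hLpos : 0 < L := by
    have : 0 ≤ ∑ i, (h (b i) + 1) := Finset.sum_nonneg fun i _ => by linarith [hh.1 (b i)]
    linarith
  set δ : ℝ := ε / (3 * L) with hδ
  have hδpos : 0 < δ := by positivity
  obtain ⟨t, ht1, ht2, ht3⟩ := (isCompact_closedBall (0 : E) 1).finite_cover_balls hδpos
  obtain ⟨g, hg, hg'⟩ := finite_of_mem_closure _ h hZ
    (ht2.toFinset ∪ Finset.univ.image (fun i => b i)) (min (ε/3) 1) (by positivity)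
  refine ⟨g, hg, fun x hx => ?_⟩
  have hgs := subl_S0 g hg
  have hLg : ∀ y, g y ≤ ‖y‖ * L := by
    intro y
    refine (hgs.bound y).trans (mul_le_mul_of_nonneg_left ?_ (norm_nonneg y))
    have : ∑ i, g (b i) ≤ ∑ i, (h (b i) + 1) := by
      refine Finset.sum_le_sum fun i _ => ?_
      have := hg' (b i) (Finset.mem_union_right _ (Finset.mem_image_of_mem _ (Finset.mem_univ i)))
      have := (abs_lt.mp this).2
      have h2 := min_le_right (ε/3) 1
      linarith
    linarith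
  have hLh : ∀ y, h y ≤ ‖y‖ * L := by
    intro y
    refine (hh.bound y).trans (mul_le_mul_of_nonneg_left ?_ (norm_nonneg y))
    have : ∑ i, h (b i) ≤ ∑ i, (h (b i) + 1) := Finset.sum_le_sum fun i _ => by linarith
    linarith
  have hxb : x ∈ Metric.closedBall (0 : E) 1 := by simpa using hx
  obtain ⟨y, hy, hxy⟩ := mem_iUnion₂.mp (ht3 hxb)
  have hxy' : ‖x - y‖ < δ := by rwa [← dist_eq_norm]
  have h1 : |g x - g y| ≤ ε / 3 := by
    refine (hgs.lip x y).trans ((hLg _).trans ?_)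
    have : ‖x - y‖ * L ≤ δ * L := mul_le_mul_of_nonneg_right hxy'.le hLpos.le
    have h3 : δ * L = ε / 3 := by rw [hδ]; field_simp
    linarith
  have h2 : |h x - h y| ≤ ε / 3 := by
    refine (hh.lip x y).trans ((hLh _).trans ?_)
    have : ‖x - y‖ * L ≤ δ * L := mul_le_mul_of_nonneg_right hxy'.le hLpos.le
    have h3 : δ * L = ε / 3 := by rw [hδ]; field_simp
    linarith
  have h3 : |g y - h y| ≤ ε / 3 :=
    ((hg' y (Finset.mem_union_left _ (ht2.mem_toFinset.mpr hy))).trans_le (min_le_left _ _)).le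
  have : g x - h x = (g x - g y) + (g y - h y) - (h x - h y) := by ring
  rw [this]
  have a1 := abs_le.mp h1
  have a2 := abs_le.mp h2
  have a3 := abs_le.mp h3
  rw [abs_le]
  constructor <;> linarith [a1.1, a1.2, a2.1, a2.2, a3.1, a3.2]

/-- A zonotope is a finite Minkowski sum of segments. -/
def IsZonotope (P : Set E) : Prop :=
  ∃ (k : ℕ) (a b : Fin k → E),
    P = {x | ∃ y : Fin k → E, (∀ i, y i ∈ segment ℝ (a i) (b i)) ∧ x = ∑ i, y i}

/-- A (centred, full-dimensional) zonoid is a Hausdorff limit of zonotopes. -/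
def IsZonoid (Z : Set E) : Prop :=
  (∀ x ∈ Z, -x ∈ Z) ∧ (interior Z).Nonempty ∧ IsCompact Z ∧
    ∃ P : ℕ → Set E, (∀ k, IsZonotope (P k)) ∧
      Tendsto (fun k => Metric.hausdorffEDist (P k) Z) atTop (𝓝 0)

/-- sums of segments -/
def ZT {k : ℕ} (v : Fin k → E) : Set E :=
  {x | ∃ y : Fin k → E, (∀ i, y i ∈ segment ℝ (-v i) (v i)) ∧ x = ∑ i, y i}

theorem ZT_image {k : ℕ} (v : Fin k → E) :
    ZT v = (fun y : Fin k → E => ∑ i, y i) '' (Set.univ.pi fun i => segment ℝ (-v i) (v i)) := by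
  ext x
  constructor
  · rintro ⟨y, hy, rfl⟩
    exact ⟨y, fun i _ => hy i, rfl⟩
  · rintro ⟨y, hy, rfl⟩
    exact ⟨y, fun i => hy i trivial, rfl⟩

theorem ZT_compact {k : ℕ} (v : Fin k → E) : IsCompact (ZT v) := by
  rw [ZT_image]
  refine (isCompact_univ_pi fun i => ?_).image (by fun_prop)
  rw [segment_eq_image]
  exact isCompact_Icc.image (by fun_prop)

theorem ZT_convex {k : ℕ} (v : Fin k → E) : Convex ℝ (ZT v) := by
  rw [ZT_image]
  refine (convex_pi fun i _ => convex_segment _ _).is_linear_image ⟨?_, ?_⟩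
  · intro x y; simp [Finset.sum_add_distrib]
  · intro c x; simp [Finset.smul_sum]

theorem seg_inner (x v y : E) (hy : y ∈ segment ℝ (-v) v) : inner ℝ x y ≤ |inner ℝ x v| := by
  obtain ⟨a, b, ha, hb, hab, rfl⟩ := hy
  rw [inner_add_right, inner_smul_right, inner_smul_right, inner_neg_right]
  have h1 := le_abs_self (inner ℝ x v)
  have h2 := neg_abs_le (inner ℝ x v)
  nlinarith [abs_nonneg (inner ℝ x v)]

theorem ZT_sup {k : ℕ} (v : Fin k → E) (x p : E) (hp : p ∈ ZT v) :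
    inner ℝ x p ≤ ∑ i, |inner ℝ x (v i)| := by
  obtain ⟨y, hy, rfl⟩ := hp
  rw [inner_sum]
  exact Finset.sum_le_sum fun i _ => seg_inner x (v i) (y i) (hy i)

theorem ZT_att {k : ℕ} (v : Fin k → E) (x : E) : ∃ p ∈ ZT v,
    inner ℝ x p = ∑ i, |inner ℝ x (v i)| := by
  refine ⟨∑ i, (if 0 ≤ inner ℝ x (v i) then v i else - v i), ⟨_, fun i => ?_, rfl⟩, ?_⟩
  · by_cases h : 0 ≤ inner ℝ x (v i)
    · simp only [h, if_true]; exact right_mem_segment ℝ _ _
    · simp only [h, if_false]; exact left_mem_segment ℝ _ _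
  · rw [inner_sum]
    refine Finset.sum_congr rfl fun i _ => ?_
    by_cases h : 0 ≤ inner ℝ x (v i)
    · simp only [h, if_true]; exact (abs_of_nonneg h).symm
    · simp only [h, if_false, inner_neg_right]
      exact (abs_of_neg (not_le.mp h)).symm

theorem proj_close (C : Set E) (hC : Convex ℝ C) (hCc : IsCompact C) (hne : C.Nonempty) (p : E)
    (ε : ℝ) (hε : 0 ≤ ε)
    (h : ∀ u : E, ‖u‖ ≤ 1 → ∀ M, (∀ z ∈ C, inner ℝ u z ≤ M) → inner ℝ u p ≤ M + ε) :
    ∃ z ∈ C, ‖p - z‖ ≤ ε := by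
  obtain ⟨z, hz, hz'⟩ := exists_norm_eq_iInf_of_complete_convex hne hCc.isComplete hC p
  have hvar := (norm_eq_iInf_iff_real_inner_le_zero hC hz).mp hz'
  refine ⟨z, hz, ?_⟩
  by_cases h0 : p - z = 0
  · rw [h0, norm_zero]; exact hε
  · have hpos : 0 < ‖p - z‖ := norm_pos_iff.mpr h0
    have := h (‖p - z‖⁻¹ • (p - z)) (by
      rw [norm_smul, norm_inv, norm_norm, inv_mul_cancel₀ hpos.ne'])
      (inner ℝ (‖p - z‖⁻¹ • (p - z)) z) (by
      intro w hw
      have h1 := hvar w hw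
      rw [inner_sub_right] at h1
      rw [real_inner_smul_left, real_inner_smul_left]
      exact mul_le_mul_of_nonneg_left (by linarith) (inv_nonneg.mpr hpos.le))
    rw [real_inner_smul_left, real_inner_smul_left] at this
    have h2 : ‖p - z‖⁻¹ * inner ℝ (p - z) p - ‖p - z‖⁻¹ * inner ℝ (p - z) z = ‖p - z‖ := by
      rw [← mul_sub, ← inner_sub_right, real_inner_self_eq_norm_sq]
      field_simp
    linarith

theorem S0_list (g : E → ℝ) (hg : g ∈ S0 E) : ∃ (k : ℕ) (v : Fin k → E),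
    g = fun x => ∑ i, |inner ℝ x (v i)| := by
  induction hg using AddSubmonoid.closure_induction with
  | mem f hf =>
    obtain ⟨v, rfl⟩ := hf
    exact ⟨1, fun _ => v, by funext x; simp [ab]⟩
  | zero => exact ⟨0, Fin.elim0, by funext x; simp⟩
  | add f g _ _ hf hg =>
    obtain ⟨k, v, rfl⟩ := hf
    obtain ⟨l, w, rfl⟩ := hg
    refine ⟨k + l, Fin.append v w, ?_⟩
    funext x
    simp [Fin.sum_univ_add]

theorem zonoid_of (Z : Set E) (hconv : Convex ℝ Z) (hcomp : IsCompact Z)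
    (hsymm : ∀ x ∈ Z, -x ∈ Z) (hint : (interior Z).Nonempty) (h : E → ℝ) (hZC : h ∈ ZC E)
    (hsup : ∀ x, ∀ z ∈ Z, inner ℝ x z ≤ h x) (hatt : ∀ x, ∃ z ∈ Z, inner ℝ x z = h x) :
    IsZonoid Z := by
  refine ⟨hsymm, hint, hcomp, ?_⟩
  have hne : Z.Nonempty := hint.mono interior_subset
  have hap : ∀ k : ℕ, ∃ P : Set E, IsZonotope P ∧
      Metric.hausdorffEDist P Z ≤ ENNReal.ofReal (1 / ((k : ℝ) + 1)) := by
    intro k
    have hε : (0 : ℝ) < 1 / ((k : ℝ) + 1) := by positivity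
    obtain ⟨g, hg, hg'⟩ := approx h hZC (1 / ((k : ℝ) + 1)) hε
    obtain ⟨m, v, rfl⟩ := S0_list g hg
    refine ⟨ZT v, ⟨m, fun i => - v i, v, rfl⟩, ?_⟩
    apply Metric.hausdorffEDist_le_of_mem_edist
    · intro p hp
      obtain ⟨z, hz, hpz⟩ := proj_close Z hconv hcomp hne p _ hε.le (by
        intro u hu M hM
        obtain ⟨z, hz, hz'⟩ := hatt u
        have h1 := hM z hz
        have h2 := ZT_sup v u p hp
        have h3 := (abs_le.mp (hg' u hu)).2
        linarith)
      refine ⟨z, hz, ?_⟩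
      rw [edist_dist, dist_eq_norm]
      exact ENNReal.ofReal_le_ofReal hpz
    · intro z hz
      obtain ⟨p, hp, hpz⟩ := proj_close (ZT v) (ZT_convex v) (ZT_compact v)
        ((ZT_att v 0).imp fun p hp => hp.1) z _ hε.le (by
        intro u hu M hM
        obtain ⟨p, hp, hp'⟩ := ZT_att v u
        have h1 := hM p hp
        have h2 := hsup u z hz
        have h3 := (abs_le.mp (hg' u hu)).1
        linarith)
      refine ⟨p, hp, ?_⟩
      rw [edist_dist, dist_eq_norm]
      exact ENNReal.ofReal_le_ofReal hpz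
  choose P hP hP' using hap
  refine ⟨P, hP, ?_⟩
  refine tendsto_of_tendsto_of_tendsto_of_le_of_le tendsto_const_nhds ?_ (fun _ => zero_le) hP'
  have h0 : Tendsto (fun n : ℕ => (1 : ℝ) / ((n : ℝ) + 1)) atTop (𝓝 0) :=
    tendsto_one_div_add_atTop_nhds_zero_nat
  have := (ENNReal.continuous_ofReal.tendsto 0).comp h0
  rw [ENNReal.ofReal_zero] at this
  exact this

end fin

end Pool.Agent.Helper18.ZN
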