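import Pool.Agent.Helper18.ZN1

set_option autoImplicit false

open Set Topology MeasureTheory Filter ProbabilityTheory

namespace Pool.Agent.Helper18.ZN

/-- integral of the gaussian bump -/
noncomputable def Gg (u : ℝ) : ℝ := ∫ v in (0:ℝ)..u, Real.exp (-v^2/2)

/-- the basic profile -/
noncomputable def Lam (u : ℝ) : ℝ := Real.exp (-u^2/2) + u * Gg u

theorem hasDerivAt_Gg (u : ℝ) : HasDerivAt Gg (Real.exp (-u^2/2)) u := by
  have hc : Continuous (fun v : ℝ => Real.exp (-v^2/2)) := by fun_prop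
  exact (hc.integral_hasStrictDerivAt 0 u).hasDerivAt

theorem hasDerivAt_nsq (u : ℝ) : HasDerivAt (fun v : ℝ => -v^2/2) (-u) u := by
  have h1 : HasDerivAt (fun v : ℝ => v^2) (2 * u) u := by
    simpa using hasDerivAt_pow 2 u
  have h2 := (h1.neg).div_const 2
  refine h2.congr_deriv ?_
  ring

theorem hasDerivAt_Lam (u : ℝ) : HasDerivAt Lam (Gg u) u := by
  have h1 : HasDerivAt (fun v : ℝ => Real.exp (-v^2/2)) (Real.exp (-u^2/2) * (-u)) u :=
    (hasDerivAt_nsq u).exp
  have h3 := h1.add ((hasDerivAt_id u).mul (hasDerivAt_Gg u))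
  refine h3.congr_deriv ?_
  simp only [id]
  ring

theorem Gg_zero : Gg 0 = 0 := by simp [Gg]
theorem Lam_zero : Lam 0 = 1 := by simp [Lam, Gg]

theorem int1 : Integrable (fun y : ℝ => Real.exp (-y^2/2)) := by
  have := integrable_exp_neg_mul_sq (b := 1/2) (by norm_num)
  refine this.congr (Eventually.of_forall fun y => ?_)
  simp only
  congr 1; ring

theorem int2 : Integrable (fun y : ℝ => y * Real.exp (-y^2/2)) := by
  have := integrable_mul_exp_neg_mul_sq (b := 1/2) (by norm_num)
  refine this.congr (Eventually.of_forall fun y => ?_)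
  simp only
  congr 2; ring

theorem int3 (u : ℝ) (hu : 0 ≤ u) : IntegrableOn (fun y : ℝ => Real.exp (-y^2/2) * max u y) (Ioi 0) := by
  have h : Integrable (fun y : ℝ => u * Real.exp (-y^2/2) + |y * Real.exp (-y^2/2)|) :=
    (int1.const_mul u).add int2.abs
  refine Integrable.mono' h.integrableOn (by fun_prop) ?_
  refine (ae_restrict_mem measurableSet_Ioi).mono fun y hy => ?_
  have hy' : (0:ℝ) < y := hy
  have he := Real.exp_pos (-y^2/2)
  rw [Real.norm_eq_abs, abs_of_nonneg (mul_nonneg he.le (le_max_of_le_left hu)),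
    abs_of_nonneg (mul_nonneg hy'.le he.le)]
  rcases le_total u y with h | h
  · rw [max_eq_right h]
    nlinarith [mul_nonneg hu he.le]
  · rw [max_eq_left h]
    nlinarith [mul_nonneg hy'.le he.le]

theorem tail (u : ℝ) : ∫ y in Ioi u, y * Real.exp (-y^2/2) = Real.exp (-u^2/2) := by
  have h1 : ∀ x ∈ Ici u, HasDerivAt (fun v : ℝ => -Real.exp (-v^2/2)) (x * Real.exp (-x^2/2)) x := by
    intro x _
    refine ((hasDerivAt_nsq x).exp.neg).congr_deriv ?_
    ring
  have h3 : Tendsto (fun v : ℝ => -Real.exp (-v^2/2)) atTop (𝓝 (-0)) := by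
    refine Tendsto.neg ?_
    refine Real.tendsto_exp_atBot.comp ?_
    have : Tendsto (fun v : ℝ => v^2/2) atTop atTop :=
      (tendsto_pow_atTop (by norm_num)).atTop_div_const (by norm_num)
    have := tendsto_neg_atTop_atBot.comp this
    refine this.congr fun v => ?_
    simp only [Function.comp]; ring
  have := integral_Ioi_of_hasDerivAt_of_tendsto' h1 int2.integrableOn h3
  rw [this]; ring

theorem half (u : ℝ) (hu : 0 ≤ u) :
    ∫ y in Ioi 0, Real.exp (-y^2/2) * max u y = Lam u := by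
  have h0 := int3 u hu
  have h1 : IntegrableOn (fun y : ℝ => Real.exp (-y^2/2) * max u y) (Ioi u) :=
    h0.mono_set (Ioi_subset_Ioi hu)
  rw [← intervalIntegral.integral_interval_add_Ioi h0 h1]
  have h2 : ∫ y in Ioi u, Real.exp (-y^2/2) * max u y = Real.exp (-u^2/2) := by
    rw [← tail u]
    refine setIntegral_congr_fun measurableSet_Ioi fun y hy => ?_
    show Real.exp (-y^2/2) * max u y = y * Real.exp (-y^2/2)
    rw [max_eq_right (le_of_lt hy), mul_comm]
  have h3 : ∫ y in (0:ℝ)..u, Real.exp (-y^2/2) * max u y = u * Gg u := by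
    rw [Gg, ← intervalIntegral.integral_const_mul]
    refine intervalIntegral.integral_congr fun y hy => ?_
    show Real.exp (-y^2/2) * max u y = u * Real.exp (-y^2/2)
    rw [uIcc_of_le hu] at hy
    rw [max_eq_left hy.2, mul_comm]
  rw [h2, h3, Lam]; ring

theorem int_abs (a b : ℝ) (v : NNReal) : Integrable (fun y : ℝ => |a + b * y|) (gaussianReal 0 v) := by
  have h1 : Integrable (fun y : ℝ => y) (gaussianReal 0 v) := by
    have := memLp_id_gaussianReal (μ := 0) (v := v) 1
    exact this.integrable le_rfl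
  exact ((integrable_const a).add (h1.const_mul b)).abs

theorem max_id (u y : ℝ) (hu : 0 ≤ u) : |u + y| + |u - y| = 2 * max u |y| := by
  rcases le_total 0 y with hy | hy
  · rw [abs_of_nonneg hy, abs_of_nonneg (by linarith : 0 ≤ u + y)]
    rcases le_total u y with h | h
    · rw [max_eq_right h, abs_of_nonpos (by linarith)]; ring
    · rw [max_eq_left h, abs_of_nonneg (by linarith)]; ring
  · rw [abs_of_nonpos hy, abs_of_nonneg (by linarith : 0 ≤ u - y)]
    rcases le_total u (-y) with h | h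
    · rw [max_eq_right h, abs_of_nonpos (by linarith)]; ring
    · rw [max_eq_left h, abs_of_nonneg (by linarith)]; ring

theorem J_symm (u : ℝ) : ∫ y, |u + y| ∂(gaussianReal 0 1) = ∫ y, |u - y| ∂(gaussianReal 0 1) := by
  have h := @gaussianReal_map_neg 0 1
  rw [neg_zero] at h
  calc ∫ y, |u + y| ∂(gaussianReal 0 1) = ∫ y, |u + y| ∂((gaussianReal 0 1).map (fun x => -x)) := by rw [h]
    _ = ∫ y, |u + -y| ∂(gaussianReal 0 1) := by
        rw [integral_map (by fun_prop) (by fun_prop)]
    _ = _ := by simp only [← sub_eq_add_neg]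

theorem J_pos (u : ℝ) (hu : 0 ≤ u) : ∫ y, |u + y| ∂(gaussianReal 0 1) = √(2/Real.pi) * Lam u := by
  have i1 : Integrable (fun y : ℝ => |u + y|) (gaussianReal 0 1) := by simpa using int_abs u 1 1
  have i2 : Integrable (fun y : ℝ => |u - y|) (gaussianReal 0 1) := by
    simpa [sub_eq_add_neg] using int_abs u (-1) 1
  have h1 : 2 * ∫ y, |u + y| ∂(gaussianReal 0 1) = 2 * ∫ y, max u |y| ∂(gaussianReal 0 1) := by
    calc 2 * ∫ y, |u + y| ∂(gaussianReal 0 1)
        = ∫ y, |u + y| ∂(gaussianReal 0 1) + ∫ y, |u - y| ∂(gaussianReal 0 1) := by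
          rw [← J_symm]; ring
      _ = ∫ y, (|u + y| + |u - y|) ∂(gaussianReal 0 1) := (integral_add i1 i2).symm
      _ = ∫ y, 2 * max u |y| ∂(gaussianReal 0 1) := by
          refine integral_congr_ae (Eventually.of_forall fun y => ?_)
          exact max_id u y hu
      _ = _ := integral_const_mul _ _
  have h2 : ∫ y, |u + y| ∂(gaussianReal 0 1) = ∫ y, max u |y| ∂(gaussianReal 0 1) := by linarith
  rw [h2, integral_gaussianReal_eq_integral_smul (by norm_num)]
  have h3 : ∀ y : ℝ, gaussianPDFReal 0 1 y • max u |y|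
      = (fun z : ℝ => (√(2 * Real.pi))⁻¹ * (Real.exp (-z^2/2) * max u z)) |y| := by
    intro y
    simp only [gaussianPDFReal, smul_eq_mul, sub_zero, NNReal.coe_one, mul_one, sq_abs]
    ring
  rw [integral_congr_ae (Eventually.of_forall h3),
    integral_comp_abs (f := fun z : ℝ => (√(2 * Real.pi))⁻¹ * (Real.exp (-z^2/2) * max u z)),
    integral_const_mul, half u hu]
  have h4 : 2 * (√(2 * Real.pi))⁻¹ = √(2/Real.pi) := by
    have hpi := Real.pi_pos
    rw [Real.sqrt_mul (by norm_num), Real.sqrt_div (by norm_num)]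
    have h5 : √2 * √2 = (2:ℝ) := Real.mul_self_sqrt (by norm_num)
    have h6 : √Real.pi ≠ 0 := (Real.sqrt_pos.mpr hpi).ne'
    have h7 : √(2:ℝ) ≠ 0 := (Real.sqrt_pos.mpr (by norm_num)).ne'
    field_simp
    linarith [h5, sq (√(2:ℝ))]
  rw [← mul_assoc, h4]

theorem J_all (u : ℝ) : ∫ y, |u + y| ∂(gaussianReal 0 1) = √(2/Real.pi) * Lam |u| := by
  rcases le_total 0 u with h | h
  · rw [abs_of_nonneg h, J_pos u h]
  · rw [abs_of_nonpos h, ← J_pos (-u) (by linarith), J_symm u]
    congr 1
    funext y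
    rw [← abs_neg]; congr 1; ring

section blk
variable {E : Type} [NormedAddCommGroup E] [InnerProductSpace ℝ E] [FiniteDimensional ℝ E]
  [MeasurableSpace E] [BorelSpace E]

/-- projection off e -/
def pr (e x : E) : E := x - (inner ℝ x e : ℝ) • e

theorem inner_pr (e x g : E) : inner ℝ x (pr e g) = (inner ℝ (pr e x) g : ℝ) := by
  simp only [pr, inner_sub_right, inner_sub_left, inner_smul_left, inner_smul_right]
  rw [real_inner_comm e g, real_inner_comm e x]
  simp
  ring

theorem law (p : E) : (stdGaussian E).map (fun g => (inner ℝ p g : ℝ)) =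
    (gaussianReal 0 1).map (fun y => ‖p‖ * y) := by
  have h1 := IsGaussian.map_eq_gaussianReal (μ := stdGaussian E) (innerSL ℝ p)
  have h2 : (⇑(innerSL ℝ p) : E → ℝ) = fun g => (inner ℝ p g : ℝ) := by
    funext g; simp
  rw [h2] at h1
  rw [h1, gaussianReal_map_const_mul]
  have h3 : ∫ x, (inner ℝ p x : ℝ) ∂(stdGaussian E) = 0 := by
    have := integral_strongDual_stdGaussian (innerSL ℝ p)
    rw [h2] at this
    exact this
  have h4 : Var[(fun g => (inner ℝ p g : ℝ)); stdGaussian E] = ‖p‖^2 := by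
    have := variance_dual_stdGaussian (innerSL ℝ p)
    rw [h2] at this
    rw [this]
    simp
  rw [h3, h4]
  congr 1
  · simp
  · ext; simp

/-- gaussian block -/
noncomputable def blk (e : E) (m : ℝ) : E → ℝ := fun x =>
  √(Real.pi/2) * ∫ g, |inner ℝ x (m • e + pr e g)| ∂(stdGaussian E)

theorem blk_eq (e : E) (m : ℝ) (x : E) : ∫ g, |inner ℝ x (m • e + pr e g)| ∂(stdGaussian E) =
    ∫ y, |m * inner ℝ x e + ‖pr e x‖ * y| ∂(gaussianReal 0 1) := by
  have h1 : ∀ g : E, |inner ℝ x (m • e + pr e g)| =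
      (fun y : ℝ => |m * inner ℝ x e + y|) (inner ℝ (pr e x) g) := by
    intro g
    simp only [inner_add_right, inner_smul_right, inner_pr]
  simp_rw [h1]
  have h2 : ∫ g, (fun y : ℝ => |m * inner ℝ x e + y|) (inner ℝ (pr e x) g) ∂(stdGaussian E)
      = ∫ y, (fun y : ℝ => |m * inner ℝ x e + y|) y
        ∂((stdGaussian E).map (fun g => (inner ℝ (pr e x) g : ℝ))) := by
    rw [integral_map (by fun_prop) (by fun_prop)]
  rw [h2, law, integral_map (by fun_prop) (by fun_prop)]

theorem blk_int (e : E) (m : ℝ) (x : E) :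
    Integrable (fun g => |inner ℝ x (m • e + pr e g)|) (stdGaussian E) := by
  have h1 : ∀ g : E, |inner ℝ x (m • e + pr e g)| =
      (fun y : ℝ => |m * inner ℝ x e + y|) (inner ℝ (pr e x) g) := by
    intro g
    simp only [inner_add_right, inner_smul_right, inner_pr]
  simp_rw [h1]
  have h2 : Integrable (fun y : ℝ => |m * inner ℝ x e + y|)
      ((stdGaussian E).map (fun g => (inner ℝ (pr e x) g : ℝ))) := by
    rw [law, integrable_map_measure (by fun_prop) (by fun_prop)]
    exact int_abs _ _ _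
  exact (integrable_map_measure (by fun_prop) (by fun_prop)).mp h2

theorem blk_mem (e : E) (m : ℝ) : blk e m ∈ ZC E := by
  have h := integral_mem_ZC (stdGaussian E) (fun g => ab (m • e + pr e g))
    (fun g => ab_mem _) (fun x => blk_int e m x)
  have h2 := smul_mem_ZC (√(Real.pi/2)) (Real.sqrt_nonneg _) h
  exact h2

theorem blk_val (e : E) (m : ℝ) (hm : 0 ≤ m) (x : E) (hx : pr e x ≠ 0) :
    blk e m x = ‖pr e x‖ * Lam (m * (|inner ℝ x e| / ‖pr e x‖)) := by
  have hpos : 0 < ‖pr e x‖ := norm_pos_iff.mpr hx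
  rw [blk, blk_eq]
  have h1 : ∀ y : ℝ, |m * inner ℝ x e + ‖pr e x‖ * y|
      = ‖pr e x‖ * |m * inner ℝ x e / ‖pr e x‖ + y| := by
    intro y
    rw [← abs_of_pos hpos, ← abs_mul, abs_of_pos hpos]
    congr 1
    field_simp
  simp_rw [h1]
  rw [integral_const_mul, J_all]
  have h2 : |m * inner ℝ x e / ‖pr e x‖| = m * (|inner ℝ x e| / ‖pr e x‖) := by
    rw [abs_div, abs_mul, abs_of_nonneg hm, abs_of_pos hpos, mul_div_assoc]
  rw [h2]
  have h3 : √(Real.pi/2) * √(2/Real.pi) = 1 := by
    rw [← Real.sqrt_mul (by positivity)]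
    have hpi := Real.pi_pos
    have : Real.pi/2 * (2/Real.pi) = 1 := by field_simp
    rw [this, Real.sqrt_one]
  calc √(Real.pi/2) * (‖pr e x‖ * (√(2/Real.pi) * Lam (m * (|inner ℝ x e| / ‖pr e x‖))))
      = (√(Real.pi/2) * √(2/Real.pi)) * (‖pr e x‖ * Lam (m * (|inner ℝ x e| / ‖pr e x‖))) := by ring
    _ = _ := by rw [h3, one_mul]

end blk

end Pool.Agent.Helper18.ZN
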