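import Pool.Agent.Helper18.ZN2

set_option autoImplicit false

open Set Topology MeasureTheory Filter

namespace Pool.Agent.Helper18.ZN

/-- completely monotone sequence of derivatives -/
structure CM (a : ℕ → ℝ → ℝ) : Prop where
  pos : ∀ j q, 0 ≤ q → 0 ≤ a j q
  cont : ∀ j, ContinuousOn (a j) (Ici 0)
  der : ∀ j q, 0 < q → HasDerivAt (a j) (-a (j+1) q) q

theorem CM.anti {a : ℕ → ℝ → ℝ} (h : CM a) (j : ℕ) : AntitoneOn (a j) (Ici 0) := by
  refine antitoneOn_of_deriv_nonpos (convex_Ici 0) (h.cont j) ?_ ?_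
  · intro q hq
    rw [interior_Ici] at hq
    exact (h.der j q hq).differentiableAt.differentiableWithinAt
  · intro q hq
    rw [interior_Ici] at hq
    rw [(h.der j q hq).deriv]
    have := h.pos (j+1) q (le_of_lt hq)
    linarith

theorem CM.lip {a : ℕ → ℝ → ℝ} (h : CM a) (j : ℕ) (x y : ℝ) (hx : 0 ≤ x) (hxy : x ≤ y) :
    a j x - a j y ≤ a (j+1) 0 * (y - x) := by
  have hm : MonotoneOn (fun q => a j q + a (j+1) 0 * q) (Ici 0) := by
    refine monotoneOn_of_deriv_nonneg (convex_Ici 0) ?_ ?_ ?_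
    · exact (h.cont j).add (by fun_prop)
    · intro q hq
      rw [interior_Ici] at hq
      exact ((h.der j q hq).add ((hasDerivAt_id q).const_mul _)).differentiableAt.differentiableWithinAt
    · intro q hq
      rw [interior_Ici] at hq
      have hd : HasDerivAt (fun q => a j q + a (j+1) 0 * q) (-a (j+1) q + a (j+1) 0 * 1) q :=
        (h.der j q hq).add ((hasDerivAt_id q).const_mul _)
      rw [hd.deriv]
      have := h.anti (j+1) (mem_Ici.mpr le_rfl) (mem_Ici.mpr (le_of_lt hq)) (le_of_lt hq)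
      linarith
  have := hm (mem_Ici.mpr hx) (mem_Ici.mpr (hx.trans hxy)) hxy
  simp only at this
  linarith

/-- Taylor polynomial -/
noncomputable def T (a : ℕ → ℝ → ℝ) (R : ℝ) (i k : ℕ) (t : ℝ) : ℝ :=
  ∑ j ∈ Finset.range k, a (i+j) R * t^j / (j.factorial : ℝ)

theorem T_der (a : ℕ → ℝ → ℝ) (R : ℝ) (i k : ℕ) (t : ℝ) :
    HasDerivAt (T a R i (k+1)) (T a R (i+1) k t) t := by
  induction k with
  | zero =>
    have h : T a R i (0+1) = fun _ => a i R := by
      funext t; simp [T]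
    rw [h]
    simpa [T] using hasDerivAt_const t (a i R)
  | succ k ih =>
    have h : T a R i (k+1+1) = fun t => T a R i (k+1) t + a (i+(k+1)) R * t^(k+1) / ((k+1).factorial : ℝ) := by
      funext t; simp only [T]; rw [Finset.sum_range_succ]
    have h2 : T a R (i+1) (k+1) t = T a R (i+1) k t + a (i+(k+1)) R * t^k / (k.factorial : ℝ) := by
      simp only [T]; rw [Finset.sum_range_succ]
      congr 4
      omega
    rw [h, h2]
    have h3 : HasDerivAt (fun t : ℝ => t^(k+1)) (((k+1 : ℕ) : ℝ) * t^k) t := by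
      simpa using hasDerivAt_pow (k+1) t
    refine (ih.add ((h3.const_mul (a (i+(k+1)) R)).div_const _)).congr_deriv ?_
    congr 1
    rw [Nat.factorial_succ]
    push_cast
    have : (k.factorial : ℝ) ≠ 0 := by positivity
    field_simp

theorem T_nonneg {a : ℕ → ℝ → ℝ} (h : CM a) (R : ℝ) (hR : 0 ≤ R) (i k : ℕ) (t : ℝ) (ht : 0 ≤ t) :
    0 ≤ T a R i k t := by
  refine Finset.sum_nonneg fun j _ => ?_
  have := h.pos (i+j) R hR
  positivity

theorem T_mono {a : ℕ → ℝ → ℝ} (h : CM a) (R : ℝ) (hR : 0 ≤ R) (i k : ℕ) (s t : ℝ) (hs : 0 ≤ s)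
    (hst : s ≤ t) : T a R i k s ≤ T a R i k t := by
  refine Finset.sum_le_sum fun j _ => ?_
  have := h.pos (i+j) R hR
  gcongr

/-- remainder -/
noncomputable def Rm (a : ℕ → ℝ → ℝ) (R : ℝ) (i k : ℕ) (t : ℝ) : ℝ := a i (R - t) - T a R i k t

theorem Rm_cont {a : ℕ → ℝ → ℝ} (h : CM a) (R : ℝ) (i k : ℕ) :
    ContinuousOn (Rm a R i k) (Icc 0 R) := by
  refine ContinuousOn.sub ?_ ?_
  · refine (h.cont i).comp (by fun_prop) ?_
    intro t ht
    simp only [mem_Ici]
    linarith [ht.2]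
  · unfold T
    fun_prop

theorem Rm_der {a : ℕ → ℝ → ℝ} (h : CM a) (R : ℝ) (i k : ℕ) (t : ℝ) (ht : t < R) :
    HasDerivAt (Rm a R i (k+1)) (Rm a R (i+1) k t) t := by
  have h1 : HasDerivAt (fun t => a i (R - t)) (-(-a (i+1) (R - t))) t := by
    have := (h.der i (R - t) (by linarith))
    have h2 := this.comp_const_sub R t
    exact h2
  refine (h1.sub (T_der a R i k t)).congr_deriv ?_
  simp only [Rm]; ring

theorem Rm_zero (a : ℕ → ℝ → ℝ) (R : ℝ) (i k : ℕ) : Rm a R i (k+1) 0 = 0 := by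
  simp only [Rm, T]
  rw [Finset.sum_range_succ']
  simp

theorem Rm_main {a : ℕ → ℝ → ℝ} (h : CM a) (R : ℝ) (hR : 0 < R) (k : ℕ) : ∀ i : ℕ, ∀ t ∈ Icc 0 R,
    0 ≤ Rm a R i k t ∧ ∀ y ∈ Icc (0:ℝ) 1, Rm a R i k (t * y) ≤ y^k * Rm a R i k t := by
  induction k with
  | zero =>
    intro i t ht
    refine ⟨?_, ?_⟩
    · simp only [Rm, T, Finset.range_zero, Finset.sum_empty, sub_zero]
      exact h.pos i _ (by linarith [ht.2])
    · intro y hy
      simp only [Rm, T, Finset.range_zero, Finset.sum_empty, sub_zero, pow_zero, one_mul]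
      have h1 : t * y ≤ t := by nlinarith [ht.1, hy.2]
      have h2 : 0 ≤ R - t := by linarith [ht.2]
      exact h.anti i (mem_Ici.mpr h2) (mem_Ici.mpr (by linarith)) (by linarith)
  | succ k ih =>
    intro i t ht
    have hmono : MonotoneOn (Rm a R i (k+1)) (Icc 0 R) := by
      refine monotoneOn_of_deriv_nonneg (convex_Icc 0 R) (Rm_cont h R i (k+1)) ?_ ?_
      · intro s hs
        rw [interior_Icc] at hs
        exact (Rm_der h R i k s hs.2).differentiableAt.differentiableWithinAt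
      · intro s hs
        rw [interior_Icc] at hs
        rw [(Rm_der h R i k s hs.2).deriv]
        exact (ih (i+1) s ⟨hs.1.le, hs.2.le⟩).1
    refine ⟨?_, ?_⟩
    · have := hmono (left_mem_Icc.mpr hR.le) ht ht.1
      rwa [Rm_zero] at this
    · intro y hy
      have hmaps : MapsTo (fun s => s * y) (Icc 0 R) (Icc 0 R) := by
        intro s hs
        refine ⟨mul_nonneg hs.1 hy.1, ?_⟩
        have : s * y ≤ s := by nlinarith [hs.1, hy.2]
        exact this.trans hs.2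
      have hmono2 : MonotoneOn (fun s => y^(k+1) * Rm a R i (k+1) s - Rm a R i (k+1) (s * y)) (Icc 0 R) := by
        refine monotoneOn_of_deriv_nonneg (convex_Icc 0 R) ?_ ?_ ?_
        · refine ContinuousOn.sub ((Rm_cont h R i (k+1)).const_mul _) ?_
          exact (Rm_cont h R i (k+1)).comp (by fun_prop) hmaps
        · intro s hs
          rw [interior_Icc] at hs
          have hsy : s * y < R := lt_of_le_of_lt (by nlinarith [hs.1, hy.2]) hs.2
          have h1 := (Rm_der h R i k s hs.2).const_mul (y^(k+1))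
          have hy1 : HasDerivAt (fun s : ℝ => s * y) y s := by
            simpa using (hasDerivAt_id s).mul_const y
          have h2 : HasDerivAt (fun s => Rm a R i (k+1) (s * y)) (Rm a R (i+1) k (s * y) * y) s :=
            HasDerivAt.comp (h₂ := Rm a R i (k+1)) (h := fun s : ℝ => s * y) s
              (Rm_der h R i k (s * y) hsy) hy1
          exact (h1.sub h2).differentiableAt.differentiableWithinAt
        · intro s hs
          rw [interior_Icc] at hs
          have hsy : s * y < R := lt_of_le_of_lt (by nlinarith [hs.1, hy.2]) hs.2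
          have h1 := (Rm_der h R i k s hs.2).const_mul (y^(k+1))
          have hy1 : HasDerivAt (fun s : ℝ => s * y) y s := by
            simpa using (hasDerivAt_id s).mul_const y
          have h2 : HasDerivAt (fun s => Rm a R i (k+1) (s * y)) (Rm a R (i+1) k (s * y) * y) s :=
            HasDerivAt.comp (h₂ := Rm a R i (k+1)) (h := fun s : ℝ => s * y) s
              (Rm_der h R i k (s * y) hsy) hy1
          have h3 := (h1.sub h2).deriv
          have h4 : deriv (fun s => y^(k+1) * Rm a R i (k+1) s - Rm a R i (k+1) (s * y)) s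
              = y^(k+1) * Rm a R (i+1) k s - Rm a R (i+1) k (s * y) * y := h3
          rw [h4]
          have h5 := (ih (i+1) s ⟨hs.1.le, hs.2.le⟩).2 y hy
          have h6 := mul_le_mul_of_nonneg_right h5 hy.1
          have h7 : y^(k+1) * Rm a R (i+1) k s = y^k * Rm a R (i+1) k s * y := by ring
          rw [h7]; linarith
      have := hmono2 (left_mem_Icc.mpr hR.le) ht ht.1
      simp only [zero_mul, Rm_zero, mul_zero, sub_zero] at this
      linarith

theorem Rm_lim {a : ℕ → ℝ → ℝ} (h : CM a) (R : ℝ) (hR : 0 < R) (i : ℕ) (ε : ℝ) (hε : 0 < ε) :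
    ∃ k, Rm a R i k R ≤ ε := by
  -- choose y
  have hc : ContinuousWithinAt (a i) (Ici 0) 0 := h.cont i 0 (mem_Ici.mpr le_rfl)
  obtain ⟨δ, hδ, hδ'⟩ := Metric.continuousWithinAt_iff.mp hc (ε/2) (by linarith)
  set u : ℝ := min (δ/2) (R/2) with hu
  have hu0 : 0 < u := by positivity
  have huR : u < R := lt_of_le_of_lt (min_le_right _ _) (by linarith)
  have hud : u < δ := lt_of_le_of_lt (min_le_left _ _) (by linarith)
  have h1 : a i 0 - a i u < ε/2 := by
    have := hδ' (mem_Ici.mpr hu0.le) (by rw [Real.dist_eq, sub_zero, abs_of_pos hu0]; exact hud)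
    rw [Real.dist_eq] at this
    linarith [(abs_lt.mp this).1]
  set y : ℝ := (R - u)/R with hy
  have hy0 : 0 ≤ y := div_nonneg (by linarith) hR.le
  have hy1 : y < 1 := by rw [hy, div_lt_one hR]; linarith
  have hRy : R * y = R - u := by rw [hy]; field_simp
  have ha0 : 0 ≤ a i 0 := h.pos i 0 le_rfl
  obtain ⟨k, hk⟩ := exists_pow_lt_of_lt_one (show 0 < ε/2/(a i 0 + 1) by positivity) hy1
  refine ⟨k, ?_⟩
  have hRm := (Rm_main h R hR k i R (right_mem_Icc.mpr hR.le))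
  have h2 := hRm.2 y ⟨hy0, hy1.le⟩
  have h3 := T_mono h R hR.le i k (R*y) R (by rw [hRy]; linarith) (by rw [hRy]; linarith)
  have h4 := T_nonneg h R hR.le i k R hR.le
  have h5 : Rm a R i k R = a i 0 - T a R i k R := by simp [Rm]
  have h6 : Rm a R i k (R*y) = a i u - T a R i k (R*y) := by
    simp only [Rm]; rw [hRy]; congr 2; ring
  have h7 : Rm a R i k R ≤ a i 0 := by linarith
  have h8 : y^k * Rm a R i k R ≤ ε/2 := by
    have h9 : y^k * Rm a R i k R ≤ ε/2/(a i 0 + 1) * a i 0 :=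
      mul_le_mul hk.le h7 hRm.1 (by positivity)
    have h10 : ε/2/(a i 0 + 1) * a i 0 ≤ ε/2 := by
      rw [div_mul_eq_mul_div, div_le_iff₀ (by positivity)]
      nlinarith
    linarith
  linarith

theorem second_order (G G1 G2 : ℝ → ℝ) (S δ : ℝ) (hS : 0 < S) (hδ : 0 ≤ δ)
    (hG : ∀ s, HasDerivAt G (G1 s) s) (hG1 : ∀ s, HasDerivAt G1 (G2 s) s)
    (h0 : G 0 = 0) (h1 : G1 0 = 0) (hb : ∀ s ∈ Icc 0 S, |G2 s| ≤ δ) (s : ℝ) (hs : s ∈ Icc 0 S) :
    |G s| ≤ δ * S * S := by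
  have a1 : ∀ t ∈ Icc 0 S, |G1 t| ≤ δ * S := by
    intro t ht
    have := (convex_Icc 0 S).norm_image_sub_le_of_norm_hasDerivWithin_le (f := G1) (f' := G2) (C := δ)
      (fun x _ => (hG1 x).hasDerivWithinAt) (fun x hx => hb x hx) (left_mem_Icc.mpr hS.le) ht
    rw [h1, sub_zero, sub_zero, Real.norm_eq_abs, Real.norm_eq_abs, abs_of_nonneg ht.1] at this
    exact this.trans (mul_le_mul_of_nonneg_left ht.2 hδ)
  have := (convex_Icc 0 S).norm_image_sub_le_of_norm_hasDerivWithin_le (f := G) (f' := G1) (C := δ * S)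
    (fun x _ => (hG x).hasDerivWithinAt) (fun x hx => a1 x hx) (left_mem_Icc.mpr hS.le) hs
  rw [h0, sub_zero, sub_zero, Real.norm_eq_abs, Real.norm_eq_abs, abs_of_nonneg hs.1] at this
  exact this.trans (mul_le_mul_of_nonneg_left hs.2 (by positivity))

theorem coef (A R X : ℝ) (j : ℕ) (hR : R ≠ 0) :
    A * R^(j+1)/((j+1).factorial : ℝ) * (X * X^j * (2*((j:ℝ)+1)/R)) =
      2*(X*(A*(R*X)^j/(j.factorial:ℝ))) := by
  rw [Nat.factorial_succ]
  push_cast
  have hf : (j.factorial : ℝ) ≠ 0 := by positivity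
  have hj : (j : ℝ) + 1 ≠ 0 := by positivity
  field_simp
  ring

theorem bound_aux {a : ℕ → ℝ → ℝ} (h : CM a) (S δ R : ℝ) (hS : 0 < S)
    (hR0 : 0 < R) (hAR : (S^2 * a 1 0 + a 2 0 * S^4) / R ≤ δ/2) (k : ℕ) (hk : Rm a R 1 k R ≤ δ/2)
    (s : ℝ) (hs : s ∈ Icc 0 S) :
    |2 * (Real.exp (-s^2/R) * T a R 1 k (R * Real.exp (-s^2/R))) - 2 * a 1 (s^2)| ≤ 2 * δ := by
  have ha10 := h.pos 1 0 le_rfl
  have ha20 := h.pos 2 0 le_rfl
  set q : ℝ := s^2 with hq
  have hq0 : 0 ≤ q := sq_nonneg s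
  have hqS : q ≤ S^2 := by rw [hq]; exact pow_le_pow_left₀ hs.1 hs.2 2
  clear_value q
  set u : ℝ := q/R with hu
  have hu0 : 0 ≤ u := by positivity
  have hE : Real.exp (-q/R) = Real.exp (-u) := by rw [hu, neg_div]
  rw [hE]
  set X := Real.exp (-u) with hX
  have hX0 : 0 < X := Real.exp_pos _
  have hX1 : X ≤ 1 := Real.exp_le_one_iff.mpr (by linarith)
  have hX2 : 1 - u ≤ X := by have := Real.add_one_le_exp (-u); linarith
  have hX3 : X ≤ 1 - u + u^2 := by
    have h1 : (1 + u) ≤ Real.exp u := by have := Real.add_one_le_exp u; linarith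
    have h2 : X * Real.exp u = 1 := by rw [hX, ← Real.exp_add]; simp
    have h3 : X * (1 + u) ≤ 1 := by
      calc X * (1 + u) ≤ X * Real.exp u := mul_le_mul_of_nonneg_left h1 hX0.le
        _ = 1 := h2
    nlinarith [mul_nonneg hu0 hu0, mul_nonneg (mul_nonneg hu0 hu0) hu0]
  clear_value X
  have h1 := (Rm_main h R hR0 k 1 R (right_mem_Icc.mpr hR0.le)).2 X ⟨hX0.le, hX1⟩
  have h1' := (Rm_main h R hR0 k 1 (R*X) ⟨by positivity, by nlinarith⟩).1
  have hRm0 := (Rm_main h R hR0 k 1 R (right_mem_Icc.mpr hR0.le)).1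
  have h2 : X^k * Rm a R 1 k R ≤ δ/2 := by
    have : X^k ≤ 1 := pow_le_one₀ hX0.le hX1
    calc X^k * Rm a R 1 k R ≤ 1 * Rm a R 1 k R := mul_le_mul_of_nonneg_right this hRm0
      _ ≤ δ/2 := by rw [one_mul]; exact hk
  set z : ℝ := R - R * X with hz
  have hz0 : 0 ≤ z := by rw [hz]; nlinarith
  have hRmX : Rm a R 1 k (R*X) = a 1 z - T a R 1 k (R*X) := rfl
  have huR : R * u = q := by rw [hu]; field_simp
  have hzq : z ≤ q := by rw [hz, ← huR]; nlinarith
  have hzq2 : q - z ≤ q^2/R := by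
    have h' : q^2/R = R * u^2 := by rw [hu]; field_simp
    have h'' : R * X ≤ R * (1 - u + u^2) := mul_le_mul_of_nonneg_left hX3 hR0.le
    rw [h', hz]; nlinarith
  have h3 : a 1 z - a 1 q ≤ a 2 0 * (q^2/R) := by
    have := h.lip 1 z q hz0 hzq
    exact this.trans (mul_le_mul_of_nonneg_left hzq2 ha20)
  have h4 : a 1 q ≤ a 1 z := h.anti 1 (mem_Ici.mpr hz0) (mem_Ici.mpr hq0) hzq
  have h5 : a 1 z ≤ a 1 0 := h.anti 1 (mem_Ici.mpr le_rfl) (mem_Ici.mpr hz0) hz0
  have h6 : 0 ≤ a 1 z := h.pos 1 z hz0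
  have h7 : q^2/R ≤ S^4/R := by
    have : q^2 ≤ S^4 := by
      calc q^2 ≤ (S^2)^2 := pow_le_pow_left₀ hq0 hqS 2
        _ = S^4 := by ring
    gcongr
  have h8 : a 2 0 * (q^2/R) ≤ a 2 0 * (S^4/R) := mul_le_mul_of_nonneg_left h7 ha20
  have h9 : u * a 1 z ≤ S^2/R * a 1 0 := by
    have : u ≤ S^2/R := by rw [hu]; gcongr
    exact mul_le_mul this h5 h6 (by positivity)
  have hARe : (S^2 * a 1 0 + a 2 0 * S^4)/R = S^2/R * a 1 0 + a 2 0 * (S^4/R) := by field_simp
  have h10 : (1 - X) * a 1 z ≤ u * a 1 z := mul_le_mul_of_nonneg_right (by linarith) h6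
  have h11 : 0 ≤ (1 - X) * a 1 z := mul_nonneg (by linarith) h6
  have hTle : T a R 1 k (R*X) ≤ a 1 z := by linarith
  have hTge : a 1 z - T a R 1 k (R*X) ≤ δ/2 := by linarith
  have h12 : X * (a 1 z - T a R 1 k (R*X)) ≤ 1 * (δ/2) :=
    mul_le_mul hX1 hTge (by linarith) zero_le_one
  have h13 : 0 ≤ X * (a 1 z - T a R 1 k (R*X)) := mul_nonneg hX0.le (by linarith)
  rw [abs_le]
  constructor
  · linarith
  · linarith

/-- the basic profile sums approximate `F`. -/
theorem profile {a : ℕ → ℝ → ℝ} (h : CM a) (F F1 : ℝ → ℝ)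
    (hF : ∀ s, HasDerivAt F (F1 s) s) (hF1 : ∀ s, HasDerivAt F1 (2 * a 1 (s^2)) s)
    (hF0 : F 0 = a 0 0) (hF10 : F1 0 = 0) (S ε : ℝ) (hS : 0 < S) (hε : 0 < ε) :
    ∃ (c : ℝ) (k : ℕ) (κ m : ℕ → ℝ), 0 ≤ c ∧ (∀ j, 0 ≤ κ j) ∧ (∀ j, 0 ≤ m j) ∧
      ∀ s ∈ Icc 0 S, |c + ∑ j ∈ Finset.range k, κ j * Lam (m j * s) - F s| ≤ ε := by
  obtain ⟨δ, hδ0, hδ⟩ : ∃ δ : ℝ, 0 < δ ∧ 2 * δ * S * S = ε :=
    ⟨ε / (2 * S * S), by positivity, by field_simp⟩
  have ha10 := h.pos 1 0 le_rfl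
  have ha20 := h.pos 2 0 le_rfl
  obtain ⟨R, hR0, hAR⟩ : ∃ R : ℝ, 0 < R ∧ (S^2 * a 1 0 + a 2 0 * S^4) / R ≤ δ/2 := by
    have hA0 : 0 ≤ S^2 * a 1 0 + a 2 0 * S^4 := by positivity
    refine ⟨2 * ((S^2 * a 1 0 + a 2 0 * S^4) + 1) / δ, by positivity, ?_⟩
    rw [div_le_iff₀ (by positivity)]
    have : δ / 2 * (2 * ((S^2 * a 1 0 + a 2 0 * S^4)+1)/δ) = (S^2 * a 1 0 + a 2 0 * S^4) + 1 := by
      field_simp
    rw [this]; linarith
  obtain ⟨k, hk⟩ := Rm_lim h R hR0 1 (δ/2) (by linarith)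
  -- coefficients
  obtain ⟨κ, hκ⟩ : ∃ κ : ℕ → ℝ, ∀ j, κ j = a (j+1) R * R^(j+1) / ((j+1).factorial : ℝ) :=
    ⟨_, fun j => rfl⟩
  obtain ⟨m, hm⟩ : ∃ m : ℕ → ℝ, ∀ j, m j = √(2 * ((j:ℝ)+1)/R) := ⟨_, fun j => rfl⟩
  have hκ0 : ∀ j, 0 ≤ κ j := fun j => by
    have := h.pos (j+1) R hR0.le
    rw [hκ]; positivity
  obtain ⟨c, hc⟩ : ∃ c : ℝ, c = a 0 0 - ∑ j ∈ Finset.range k, κ j := ⟨_, rfl⟩
  have hc0 : 0 ≤ c := by
    have h1 := (Rm_main h R hR0 (k+1) 0 R (right_mem_Icc.mpr hR0.le)).1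
    simp only [Rm, T, sub_self] at h1
    rw [Finset.sum_range_succ'] at h1
    simp only [zero_add, Nat.factorial_zero, Nat.cast_one, pow_zero, mul_one, div_one] at h1
    have h2 := h.pos 0 R hR0.le
    rw [hc]
    simp only [hκ]
    linarith
  refine ⟨c, k, κ, m, hc0, hκ0, fun j => by rw [hm]; exact Real.sqrt_nonneg _, ?_⟩
  -- derivative data
  have d1 : ∀ s, HasDerivAt (fun s => c + ∑ j ∈ Finset.range k, κ j * Lam (m j * s))
      (∑ j ∈ Finset.range k, κ j * (Gg (m j * s) * m j)) s := by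
    intro s
    refine HasDerivAt.const_add c ?_
    refine HasDerivAt.fun_sum fun j _ => ?_
    refine HasDerivAt.const_mul _ ?_
    exact (hasDerivAt_Lam (m j * s)).comp s (by simpa using (hasDerivAt_id s).const_mul (m j))
  have d2 : ∀ s, HasDerivAt (fun s => ∑ j ∈ Finset.range k, κ j * (Gg (m j * s) * m j))
      (∑ j ∈ Finset.range k, κ j * (Real.exp (-(m j * s)^2/2) * m j * m j)) s := by
    intro s
    refine HasDerivAt.fun_sum fun j _ => ?_
    refine HasDerivAt.const_mul _ ?_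
    refine HasDerivAt.mul_const ?_ _
    exact (hasDerivAt_Gg (m j * s)).comp s (by simpa using (hasDerivAt_id s).const_mul (m j))
  have hφ2eq : ∀ s : ℝ, ∑ j ∈ Finset.range k, κ j * (Real.exp (-(m j * s)^2/2) * m j * m j)
      = 2 * (Real.exp (-s^2/R) * T a R 1 k (R * Real.exp (-s^2/R))) := by
    intro s
    rw [T, Finset.mul_sum, Finset.mul_sum]
    refine Finset.sum_congr rfl fun j _ => ?_
    have hmj : m j * m j = 2 * ((j:ℝ)+1)/R := by
      rw [hm]; exact Real.mul_self_sqrt (by positivity)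
    have he : Real.exp (-(m j * s)^2/2) = Real.exp (-s^2/R) * Real.exp (-s^2/R)^j := by
      rw [← pow_succ', ← Real.exp_nat_mul]
      congr 1
      have : (m j * s)^2 = (m j * m j) * s^2 := by ring
      rw [this, hmj]
      push_cast
      field_simp
    rw [he, mul_assoc _ (m j) (m j), hmj, hκ, add_comm 1 j]
    exact coef (a (j+1) R) R (Real.exp (-s^2/R)) j hR0.ne'
  have hbound : ∀ s ∈ Icc 0 S, |∑ j ∈ Finset.range k, κ j * (Real.exp (-(m j * s)^2/2) * m j * m j)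
      - 2 * a 1 (s^2)| ≤ 2 * δ := by
    intro s hs
    rw [hφ2eq]
    exact bound_aux h S δ R hS hR0 hAR k hk s hs
  intro s hs
  have hz0 : c + ∑ j ∈ Finset.range k, κ j * Lam (m j * 0) - F 0 = 0 := by
    have : ∑ j ∈ Finset.range k, κ j * Lam (m j * 0) = ∑ j ∈ Finset.range k, κ j :=
      Finset.sum_congr rfl fun j _ => by rw [mul_zero, Lam_zero, mul_one]
    rw [this, hF0, hc]; ring
  have hz1 : ∑ j ∈ Finset.range k, κ j * (Gg (m j * 0) * m j) - F1 0 = 0 := by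
    have : ∑ j ∈ Finset.range k, κ j * (Gg (m j * 0) * m j) = 0 :=
      Finset.sum_eq_zero fun j _ => by rw [mul_zero, Gg_zero]; ring
    rw [this, hF10]; ring
  have := second_order (fun s => c + ∑ j ∈ Finset.range k, κ j * Lam (m j * s) - F s)
    (fun s => ∑ j ∈ Finset.range k, κ j * (Gg (m j * s) * m j) - F1 s)
    (fun s => ∑ j ∈ Finset.range k, κ j * (Real.exp (-(m j * s)^2/2) * m j * m j)
      - 2 * a 1 (s^2)) S (2*δ) hS
    (by positivity) (fun s => (d1 s).sub (hF s)) (fun s => (d2 s).sub (hF1 s)) hz0 hz1 hbound s hs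
  rw [hδ] at this
  exact this

end Pool.Agent.Helper18.ZN
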