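import Pool.Agent.Helper18.ZN3

set_option autoImplicit false

open Set Topology MeasureTheory Filter

namespace Pool.Agent.Helper18.ZN

section pole
variable {E : Type} [NormedAddCommGroup E] [InnerProductSpace ℝ E] [FiniteDimensional ℝ E]
  [MeasurableSpace E] [BorelSpace E]

/-- approximations off the pole -/
theorem approx_off (e : E) {a : ℕ → ℝ → ℝ} (h : CM a) (F F1 : ℝ → ℝ)
    (hF : ∀ s, HasDerivAt F (F1 s) s) (hF1 : ∀ s, HasDerivAt F1 (2 * a 1 (s^2)) s)
    (hF0 : F 0 = a 0 0) (hF10 : F1 0 = 0) (H : E → ℝ)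
    (hH : ∀ x, pr e x ≠ 0 → H x = ‖pr e x‖ * F (|inner ℝ x e| / ‖pr e x‖))
    (J : Finset E) (ε : ℝ) (hε : 0 < ε) :
    ∃ g ∈ ZC E, ∀ x ∈ J, pr e x ≠ 0 → |g x - H x| ≤ ε := by
  classical
  set S : ℝ := ∑ x ∈ J, |inner ℝ x e| / ‖pr e x‖ + 1 with hS
  set L : ℝ := ∑ x ∈ J, ‖pr e x‖ + 1 with hL
  have hS0 : 0 < S := by positivity
  have hL0 : 0 < L := by positivity
  obtain ⟨c, k, κ, m, hc, hκ, hm, hφ⟩ := profile h F F1 hF hF1 hF0 hF10 S (ε / L) hS0 (by positivity)
  refine ⟨c • blk e 0 + ∑ j ∈ Finset.range k, κ j • blk e (m j), ?_, ?_⟩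
  · refine add_mem_ZC (smul_mem_ZC c hc (blk_mem e 0)) (sum_mem_ZC _ _ fun j _ => ?_)
    exact smul_mem_ZC _ (hκ j) (blk_mem e _)
  · intro x hx hpx
    have hpos : 0 < ‖pr e x‖ := norm_pos_iff.mpr hpx
    have hs : |inner ℝ x e| / ‖pr e x‖ ∈ Icc 0 S := by
      refine ⟨by positivity, ?_⟩
      have := Finset.single_le_sum (f := fun x => |inner ℝ x e| / ‖pr e x‖)
        (fun i _ => by positivity) hx
      linarith
    have hxL : ‖pr e x‖ ≤ L := by
      have := Finset.single_le_sum (f := fun x => ‖pr e x‖) (fun i _ => by positivity) hx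
      linarith
    have h1 := hφ _ hs
    rw [hH x hpx]
    simp only [Pi.add_apply, Pi.smul_apply, Finset.sum_apply, smul_eq_mul]
    rw [blk_val e 0 le_rfl x hpx, zero_mul, Lam_zero]
    have h2 : ∑ j ∈ Finset.range k, κ j * blk e (m j) x = ‖pr e x‖ *
        ∑ j ∈ Finset.range k, κ j * Lam (m j * (|inner ℝ x e| / ‖pr e x‖)) := by
      rw [Finset.mul_sum]
      refine Finset.sum_congr rfl fun j _ => ?_
      rw [blk_val e (m j) (hm j) x hpx]; ring
    rw [h2]
    have h3 : c * (‖pr e x‖ * 1) + ‖pr e x‖ *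
        ∑ j ∈ Finset.range k, κ j * Lam (m j * (|inner ℝ x e| / ‖pr e x‖)) -
        ‖pr e x‖ * F (|inner ℝ x e| / ‖pr e x‖) = ‖pr e x‖ * (c +
        ∑ j ∈ Finset.range k, κ j * Lam (m j * (|inner ℝ x e| / ‖pr e x‖)) -
        F (|inner ℝ x e| / ‖pr e x‖)) := by ring
    rw [h3, abs_mul, abs_of_pos hpos]
    calc ‖pr e x‖ * _ ≤ L * (ε / L) := mul_le_mul hxL h1 (abs_nonneg _) hL0.le
      _ = ε := by field_simp

omit [FiniteDimensional ℝ E] [MeasurableSpace E] [BorelSpace E] in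
theorem pole (e f : E) (hf : ‖f‖ = 1) (hef : inner ℝ f e = (0:ℝ)) (H : E → ℝ) (hH : Subl H)
    (happ : ∀ (J : Finset E) (ε : ℝ), 0 < ε →
      ∃ g ∈ ZC E, ∀ x ∈ J, pr e x ≠ 0 → |g x - H x| ≤ ε) : H ∈ ZC E := by
  classical
  have : H ∈ closure (ZC E) := by
    apply mem_closure_of_finite
    intro J ε hε
    set ε' := ε / 8 with hε'
    have hε'0 : 0 < ε' := by positivity
    set δ := ε' / (1 + H f) with hδ
    have hHf := hH.1 f
    have hδ0 : 0 < δ := by positivity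
    have hδH : δ * H f ≤ ε' := by
      rw [hδ, div_mul_eq_mul_div, div_le_iff₀ (by linarith)]
      nlinarith
    have hHδ : H (δ • f) ≤ ε' := by rw [hH.2.2.1 δ f hδ0.le]; exact hδH
    obtain ⟨g, hg, hg'⟩ := happ (J ∪ J.image (fun x => x + δ • f) ∪ J.image (fun x => x - δ • f)
      ∪ {δ • f}) ε' hε'0
    refine ⟨g, hg, fun x hx => ?_⟩
    have hgs := subl_ZC g hg
    by_cases hpx : pr e x = 0
    · have hpf : pr e (δ • f) = δ • f := by
        simp only [pr, inner_smul_left, hef]; simp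
      have hadd : ∀ u v : E, pr e (u + v) = pr e u + pr e v := by
        intro u v; simp only [pr, inner_add_left, add_smul]; abel
      have hsub : ∀ u v : E, pr e (u - v) = pr e u - pr e v := by
        intro u v; simp only [pr, inner_sub_left, sub_smul]; abel
      have hfne : δ • f ≠ 0 := by
        intro h
        rcases smul_eq_zero.mp h with h | h
        · exact hδ0.ne' h
        · rw [h, norm_zero] at hf; exact zero_ne_one hf
      have h1 := hg' (x + δ • f) (by simp [hx]) (by rw [hadd, hpx, hpf, zero_add]; exact hfne)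
      have h2 := hg' (x - δ • f) (by simp [hx]) (by rw [hsub, hpx, hpf, zero_sub]; exact neg_ne_zero.mpr hfne)
      have h3 := hg' (δ • f) (by simp) (by rw [hpf]; exact hfne)
      have a1 := abs_le.mp h1
      have a2 := abs_le.mp h2
      have a3 := abs_le.mp h3
      -- upper bound
      have b1 : 2 * g x ≤ g (x + δ • f) + g (x - δ • f) := by
        have := hgs.2.2.2 (x + δ • f) (x - δ • f)
        have h4 : x + δ • f + (x - δ • f) = (2:ℝ) • x := by rw [two_smul]; abel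
        rw [h4, hgs.2.2.1 2 x (by norm_num)] at this
        exact this
      have b2 : g (x + δ • f) ≤ g x + g (δ • f) := hgs.2.2.2 _ _
      have b3 : H (x + δ • f) ≤ H x + H (δ • f) := hH.2.2.2 _ _
      have b4 : H (x - δ • f) ≤ H x + H (δ • f) := by
        have := hH.2.2.2 x (-(δ • f))
        rw [hH.2.1, ← sub_eq_add_neg] at this
        exact this
      have b5 : H x ≤ H (x + δ • f) + H (δ • f) := by
        have := hH.2.2.2 (x + δ • f) (-(δ • f))
        rw [hH.2.1, add_neg_cancel_right] at this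
        exact this
      rw [abs_lt]
      constructor <;> linarith [a1.1, a1.2, a2.1, a2.2, a3.1, a3.2]
    · have := hg' x (by simp [hx]) hpx
      linarith
  rwa [ZC, closure_closure] at this

end pole

section cls

/-- class of functions generated by `G` -/
inductive Cls (G : Set (ℝ → ℝ)) : (ℝ → ℝ) → Prop
  | base (g : ℝ → ℝ) (h : g ∈ G) : Cls G g
  | add (f g : ℝ → ℝ) : Cls G f → Cls G g → Cls G (fun q => f q + g q)
  | mul (f g : ℝ → ℝ) : Cls G f → Cls G g → Cls G (fun q => f q * g q)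
  | smul (c : ℝ) (f : ℝ → ℝ) : 0 ≤ c → Cls G f → Cls G (fun q => c * f q)

theorem cls_good (G : Set (ℝ → ℝ)) (hG : ∀ g ∈ G, (∀ q, 0 ≤ q → 0 ≤ g q) ∧ ContinuousOn g (Ici 0) ∧
    ∃ g', Cls G g' ∧ ∀ q, 0 < q → HasDerivAt g (-g' q) q) (f : ℝ → ℝ) (hf : Cls G f) :
    (∀ q, 0 ≤ q → 0 ≤ f q) ∧ ContinuousOn f (Ici 0) ∧
    ∃ g', Cls G g' ∧ ∀ q, 0 < q → HasDerivAt f (-g' q) q := by
  induction hf with
  | base g h => exact hG g h
  | add f g hf hg ihf ihg =>
    obtain ⟨f1, f2, f', f3, f4⟩ := ihf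
    obtain ⟨g1, g2, g', g3, g4⟩ := ihg
    refine ⟨fun q hq => add_nonneg (f1 q hq) (g1 q hq), f2.add g2, _, Cls.add f' g' f3 g3, ?_⟩
    intro q hq
    refine ((f4 q hq).add (g4 q hq)).congr_deriv ?_
    ring
  | mul f g hf hg ihf ihg =>
    obtain ⟨f1, f2, f', f3, f4⟩ := ihf
    obtain ⟨g1, g2, g', g3, g4⟩ := ihg
    refine ⟨fun q hq => mul_nonneg (f1 q hq) (g1 q hq), f2.mul g2, _,
      Cls.add _ _ (Cls.mul f' g f3 hg) (Cls.mul f g' hf g3), ?_⟩
    intro q hq
    refine ((f4 q hq).mul (g4 q hq)).congr_deriv ?_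
    ring
  | smul c f hc hf ihf =>
    obtain ⟨f1, f2, f', f3, f4⟩ := ihf
    refine ⟨fun q hq => mul_nonneg hc (f1 q hq), continuousOn_const.mul f2, _, Cls.smul c f' hc f3, ?_⟩
    intro q hq
    refine ((f4 q hq).const_mul c).congr_deriv ?_
    ring

theorem cls_seq (G : Set (ℝ → ℝ)) (hG : ∀ g ∈ G, (∀ q, 0 ≤ q → 0 ≤ g q) ∧ ContinuousOn g (Ici 0) ∧
    ∃ g', Cls G g' ∧ ∀ q, 0 < q → HasDerivAt g (-g' q) q) (a0 c : ℝ → ℝ) (hc : Cls G c)
    (h1 : ∀ q, 0 ≤ q → 0 ≤ a0 q) (h2 : ContinuousOn a0 (Ici 0))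
    (h3 : ∀ q, 0 < q → HasDerivAt a0 (-c q) q) :
    ∃ a : ℕ → ℝ → ℝ, CM a ∧ a 0 = a0 ∧ a 1 = c := by
  choose! D hD1 hD2 using fun f hf => (cls_good G hG f hf).2.2
  let s : ℕ → ℝ → ℝ := fun n => Nat.rec c (fun _ f => D f) n
  have hs : ∀ n, Cls G (s n) := by
    intro n
    induction n with
    | zero => exact hc
    | succ n ih => exact hD1 _ ih
  refine ⟨fun n => Nat.casesOn n a0 s, ⟨?_, ?_, ?_⟩, rfl, rfl⟩
  · intro j q hq
    cases j with
    | zero => exact h1 q hq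
    | succ j => exact (cls_good G hG _ (hs j)).1 q hq
  · intro j
    cases j with
    | zero => exact h2
    | succ j => exact (cls_good G hG _ (hs j)).2.1
  · intro j q hq
    cases j with
    | zero => exact h3 q hq
    | succ j => exact hD2 _ (hs j) q hq

end cls

section Ncase

noncomputable def gN (q : ℝ) : ℝ := (√(1 + q))⁻¹

theorem gN_der (q : ℝ) (hq : -1 < q) : HasDerivAt gN (-(1/2 * (gN q * (gN q * gN q)))) q := by
  have hpos : 0 < 1 + q := by linarith
  have h1 : HasDerivAt (fun q : ℝ => 1 + q) 1 q := by simpa using (hasDerivAt_id q).const_add 1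
  have h2 := h1.sqrt hpos.ne'
  have hs : √(1 + q) ≠ 0 := (Real.sqrt_pos.mpr hpos).ne'
  have h3 := h2.inv hs
  refine h3.congr_deriv ?_
  simp only [gN]
  field_simp

theorem gN_sq (q : ℝ) (hq : -1 < q) : gN q * gN q * (1 + q) = 1 := by
  have hpos : 0 < 1 + q := by linarith
  have hs : √(1 + q) ≠ 0 := (Real.sqrt_pos.mpr hpos).ne'
  have h : √(1 + q) * √(1 + q) = 1 + q := Real.mul_self_sqrt hpos.le
  simp only [gN]
  calc (√(1 + q))⁻¹ * (√(1 + q))⁻¹ * (1 + q)
      = (√(1 + q))⁻¹ * (√(1 + q))⁻¹ * (√(1 + q) * √(1 + q)) := by rw [h]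
    _ = 1 := by field_simp

theorem gN_pos (q : ℝ) (hq : -1 < q) : 0 < gN q := inv_pos.mpr (Real.sqrt_pos.mpr (by linarith))

noncomputable def FN (s : ℝ) : ℝ := (s^2 + 1/2) * gN (s^2)
noncomputable def FN1 (s : ℝ) : ℝ := (s^3 + 3/2 * s) * (gN (s^2))^3

theorem gNs_der (s : ℝ) : HasDerivAt (fun s => gN (s^2)) (-(s * (gN (s^2))^3)) s := by
  have h0 : -1 < s^2 := by nlinarith [sq_nonneg s]
  have h1 : HasDerivAt (fun s : ℝ => s^2) (2 * s) s := by simpa using hasDerivAt_pow 2 s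
  have h2 := HasDerivAt.comp (h₂ := gN) (h := fun s : ℝ => s^2) s (gN_der (s^2) h0) h1
  refine h2.congr_deriv ?_
  ring

theorem FN_der (s : ℝ) : HasDerivAt FN (FN1 s) s := by
  have h0 : -1 < s^2 := by nlinarith [sq_nonneg s]
  have h1 : HasDerivAt (fun s : ℝ => s^2 + 1/2) (2 * s) s := by
    simpa using (hasDerivAt_pow 2 s).add_const (1/2)
  refine (h1.mul (gNs_der s)).congr_deriv ?_
  have h2 := gN_sq (s^2) h0
  simp only [FN1]
  set h := gN (s^2)
  linear_combination (-2 * s * h) * h2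

theorem FN1_der (s : ℝ) : HasDerivAt FN1 (2 * (3/4 * (gN (s^2))^5)) s := by
  have h0 : -1 < s^2 := by nlinarith [sq_nonneg s]
  have h1 : HasDerivAt (fun s : ℝ => s^3 + 3/2 * s) (3 * s^2 + 3/2) s := by
    have := (hasDerivAt_pow 3 s).add ((hasDerivAt_id s).const_mul (3/2))
    refine this.congr_deriv ?_
    norm_num
  have h3 := (gNs_der s).pow 3
  refine (h1.mul h3).congr_deriv ?_
  have h2 := gN_sq (s^2) h0
  set h := gN (s^2)
  norm_num
  linear_combination (-(3 * s^2 + 3/2) * h^3) * h2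

theorem exN : ∃ a : ℕ → ℝ → ℝ, CM a ∧ (a 0 0 = 1/2) ∧ ∀ s : ℝ, a 1 (s^2) = 3/4 * (gN (s^2))^5 := by
  have hcont : ContinuousOn gN (Ici 0) := by
    intro q hq
    exact (gN_der q (by have : (0:ℝ) ≤ q := hq; linarith)).continuousAt.continuousWithinAt
  have hbase : Cls {gN} gN := Cls.base _ rfl
  have hcls := Cls.smul (3/4) _ (by norm_num) (Cls.mul _ _ hbase (Cls.mul _ _ hbase
    (Cls.mul _ _ hbase (Cls.mul _ _ hbase hbase))))
  obtain ⟨a, ha, ha0, ha1⟩ := cls_seq {gN} (by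
    intro g hg
    rw [mem_singleton_iff] at hg
    subst hg
    refine ⟨fun q hq => (gN_pos q (by linarith)).le, hcont, _,
      Cls.smul (1/2) _ (by norm_num) (Cls.mul _ _ hbase (Cls.mul _ _ hbase hbase)), ?_⟩
    intro q hq
    exact gN_der q (by linarith)) (fun q => 1/2 * (gN q)^3) _ hcls
    (fun q hq => by have := gN_pos q (by linarith); positivity)
    (continuousOn_const.mul (hcont.pow 3)) (by
      intro q hq
      refine (((gN_der q (by linarith)).pow 3).const_mul (1/2)).congr_deriv ?_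
      norm_num
      ring)
  refine ⟨a, ha, ?_, ?_⟩
  · rw [ha0]; simp [gN]
  · intro s
    rw [ha1]
    ring

end Ncase

section Mcase

noncomputable def psi (w : ℝ) : ℝ := 2 * w^3 + 3 * w

theorem psi_mono : StrictMono psi := by
  intro x y hxy
  simp only [psi]
  nlinarith [sq_nonneg (x + y), sq_nonneg x, sq_nonneg y, mul_pos (sub_pos.mpr hxy) (sub_pos.mpr hxy),
    mul_nonneg (sub_pos.mpr hxy).le (sq_nonneg (x+y)), mul_nonneg (sub_pos.mpr hxy).le (sq_nonneg x),
    mul_nonneg (sub_pos.mpr hxy).le (sq_nonneg y)]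

theorem psi_cont : Continuous psi := by unfold psi; fun_prop

theorem psi_surj : Function.Surjective psi := by
  intro y
  have h1 : psi (-|y|) ≤ y := by
    have := neg_abs_le y
    have h := abs_nonneg y
    simp only [psi]
    nlinarith [pow_nonneg h 3]
  have h2 : y ≤ psi |y| := by
    have := le_abs_self y
    have h := abs_nonneg y
    simp only [psi]
    nlinarith [pow_nonneg h 3]
  have h3 : -|y| ≤ |y| := by linarith [abs_nonneg y]
  obtain ⟨w, -, hw⟩ := intermediate_value_Icc h3 psi_cont.continuousOn ⟨h1, h2⟩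
  exact ⟨w, hw⟩

noncomputable def wiso : ℝ ≃o ℝ := StrictMono.orderIsoOfSurjective psi psi_mono psi_surj
noncomputable def ww (s : ℝ) : ℝ := wiso.symm s

theorem psi_ww (s : ℝ) : psi (ww s) = s := by
  have : wiso (wiso.symm s) = s := wiso.apply_symm_apply s
  exact this

theorem ww_cont : Continuous ww := wiso.symm.continuous

theorem psi_der (w : ℝ) : HasDerivAt psi (3 * (1 + 2 * w^2)) w := by
  have h1 := ((hasDerivAt_pow 3 w).const_mul 2).add ((hasDerivAt_id w).const_mul 3)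
  refine h1.congr_deriv ?_
  norm_num
  ring

theorem ww_der (s : ℝ) : HasDerivAt ww (3 * (1 + 2 * (ww s)^2))⁻¹ s :=
  HasDerivAt.of_local_left_inverse ww_cont.continuousAt (psi_der (ww s)) (by positivity)
    (Eventually.of_forall psi_ww)

theorem ww_neg (s : ℝ) : ww (-s) = - ww s := by
  apply psi_mono.injective
  rw [psi_ww]
  have : psi (-ww s) = -psi (ww s) := by simp only [psi]; ring
  rw [this, psi_ww]

theorem ww_zero : ww 0 = 0 := by
  apply psi_mono.injective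
  rw [psi_ww]; simp [psi]

theorem ww_abs (s : ℝ) : ww |s| ^ 2 = ww s ^ 2 := by
  rcases abs_cases s with h | h
  · rw [h.1]
  · rw [h.1, ww_neg]; ring

theorem ww_nonneg (s : ℝ) (hs : 0 ≤ s) : 0 ≤ ww s := by
  have : ww 0 ≤ ww s := wiso.symm.monotone hs
  rwa [ww_zero] at this

noncomputable def TT (q : ℝ) : ℝ := 1 + (ww (√q))^2

theorem TT_ge (q : ℝ) : 1 ≤ TT q := by unfold TT; nlinarith [sq_nonneg (ww (√q))]

theorem TT_sq (s : ℝ) : TT (s^2) = 1 + (ww s)^2 := by
  rw [TT, Real.sqrt_sq_eq_abs, ww_abs]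

theorem TT_cont : Continuous TT := by
  unfold TT
  exact continuous_const.add ((ww_cont.comp Real.continuous_sqrt).pow 2)

theorem TT_der (q : ℝ) (hq : 0 < q) :
    HasDerivAt TT (1/3 * (2 * TT q - 1)⁻¹ * (2 * TT q + 1)⁻¹) q := by
  have h1 : HasDerivAt (fun q : ℝ => √q) (1 / (2 * √q)) q := (Real.hasDerivAt_sqrt hq.ne')
  have h2 := HasDerivAt.comp (h₂ := ww) (h := fun q : ℝ => √q) q (ww_der (√q)) h1
  have h3 := (h2.pow 2).const_add 1
  refine h3.congr_deriv ?_
  have hr : 0 < √q := Real.sqrt_pos.mpr hq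
  have h4 := psi_ww (√q)
  simp only [psi] at h4
  simp only [TT, Function.comp]
  set w := ww (√q)
  have hw : 0 < w := by
    by_contra hcon
    have : w ≤ 0 := not_lt.mp hcon
    have hw3 : w^3 ≤ 0 := by nlinarith [sq_nonneg w, mul_nonneg (neg_nonneg.mpr this) (sq_nonneg w)]
    linarith
  have h5 : √q = w * (2 * w^2 + 3) := by rw [← h4]; ring
  rw [h5]
  have e1 : 2 * (1 + w^2) - 1 = 1 + 2 * w^2 := by ring
  have e2 : 2 * (1 + w^2) + 1 = 2 * w^2 + 3 := by ring
  rw [e1, e2]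
  have p1 : (1 + 2 * w^2) ≠ 0 := by positivity
  have p2 : (2 * w^2 + 3) ≠ 0 := by positivity
  have p3 : w ≠ 0 := hw.ne'
  norm_num
  field_simp

noncomputable def g1 (q : ℝ) : ℝ := (√(TT q))⁻¹
noncomputable def g2 (q : ℝ) : ℝ := (2 * TT q - 1)⁻¹
noncomputable def g3 (q : ℝ) : ℝ := (2 * TT q + 1)⁻¹

theorem g1_pos (q : ℝ) : 0 < g1 q := inv_pos.mpr (Real.sqrt_pos.mpr (by linarith [TT_ge q]))
theorem g2_pos (q : ℝ) : 0 < g2 q := inv_pos.mpr (by linarith [TT_ge q])
theorem g3_pos (q : ℝ) : 0 < g3 q := inv_pos.mpr (by linarith [TT_ge q])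

theorem g1_der (q : ℝ) (hq : 0 < q) :
    HasDerivAt g1 (-(1/6 * (g1 q * (g1 q * (g1 q * (g2 q * g3 q)))))) q := by
  have hT := TT_ge q
  have hs : √(TT q) ≠ 0 := (Real.sqrt_pos.mpr (by linarith)).ne'
  refine (((TT_der q hq).sqrt (by linarith)).inv hs).congr_deriv ?_
  simp only [g1, g2, g3]
  field_simp
  norm_num

theorem g2_der (q : ℝ) (hq : 0 < q) :
    HasDerivAt g2 (-(2/3 * (g2 q * (g2 q * (g2 q * g3 q))))) q := by
  have hT := TT_ge q
  have h0 : 2 * TT q - 1 ≠ 0 := by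
    have : 0 < 2 * TT q - 1 := by linarith
    exact this.ne'
  refine ((((TT_der q hq).const_mul 2).sub_const 1).inv h0).congr_deriv ?_
  simp only [g2, g3]
  field_simp

theorem g3_der (q : ℝ) (hq : 0 < q) :
    HasDerivAt g3 (-(2/3 * (g2 q * (g3 q * (g3 q * g3 q))))) q := by
  have hT := TT_ge q
  have h0 : 2 * TT q + 1 ≠ 0 := by
    have : 0 < 2 * TT q + 1 := by linarith
    exact this.ne'
  refine ((((TT_der q hq).const_mul 2).add_const 1).inv h0).congr_deriv ?_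
  simp only [g2, g3]
  field_simp

theorem gs_cont : Continuous g1 ∧ Continuous g2 ∧ Continuous g3 := by
  refine ⟨?_, ?_, ?_⟩
  · exact (Real.continuous_sqrt.comp TT_cont).inv₀ fun q =>
      (Real.sqrt_pos.mpr (by linarith [TT_ge q])).ne'
  · exact ((continuous_const.mul TT_cont).sub continuous_const).inv₀ fun q => by
      have : 0 < 2 * TT q - 1 := by linarith [TT_ge q]
      exact this.ne'
  · exact ((continuous_const.mul TT_cont).add continuous_const).inv₀ fun q => by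
      have : 0 < 2 * TT q + 1 := by linarith [TT_ge q]
      exact this.ne'

noncomputable def FM (s : ℝ) : ℝ := 2 * (√(1 + (ww s)^2))^3
noncomputable def FM1 (s : ℝ) : ℝ := 2 * (√(1 + (ww s)^2) * ww s) * (1 + 2 * (ww s)^2)⁻¹

theorem rt_der (s : ℝ) : HasDerivAt (fun s => √(1 + (ww s)^2))
    (ww s * (3 * (1 + 2 * (ww s)^2))⁻¹ * (√(1 + (ww s)^2))⁻¹) s := by
  have h1 := ((ww_der s).pow 2).const_add 1
  have h2 : (1 + (ww s)^2) ≠ 0 := by positivity
  refine (h1.sqrt h2).congr_deriv ?_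
  have h3 : √(1 + (ww s)^2) ≠ 0 := (Real.sqrt_pos.mpr (by positivity)).ne'
  have h4 : (1 + 2 * (ww s)^2) ≠ 0 := by positivity
  norm_num
  field_simp

theorem FM_der (s : ℝ) : HasDerivAt FM (FM1 s) s := by
  refine (((rt_der s).pow 3).const_mul 2).congr_deriv ?_
  have h3 : √(1 + (ww s)^2) ≠ 0 := (Real.sqrt_pos.mpr (by positivity)).ne'
  have h4 : (1 + 2 * (ww s)^2) ≠ 0 := by positivity
  simp only [FM1]
  norm_num
  field_simp

theorem FM1_der (s : ℝ) : HasDerivAt FM1 (2 * (1/3 * (g1 (s^2) * (g2 (s^2) * (g2 (s^2) * g2 (s^2)))))) s := by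
  have h4 : (1 + 2 * (ww s)^2) ≠ 0 := by positivity
  have hd : HasDerivAt (fun s => 1 + 2 * (ww s)^2) (4 * ww s * (3 * (1 + 2 * (ww s)^2))⁻¹) s := by
    refine ((((ww_der s).pow 2).const_mul 2).const_add 1).congr_deriv ?_
    norm_num
    ring
  have h7 : HasDerivAt (fun s => (1 + 2 * (ww s)^2)⁻¹)
      (-(4 * ww s * (3 * (1 + 2 * (ww s)^2))⁻¹) / (1 + 2 * (ww s)^2)^2) s := hd.inv h4
  have h8 : HasDerivAt (fun s => 2 * (√(1 + (ww s)^2) * ww s))
      (2 * (ww s * (3 * (1 + 2 * (ww s)^2))⁻¹ * (√(1 + (ww s)^2))⁻¹ * ww s +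
        √(1 + (ww s)^2) * (3 * (1 + 2 * (ww s)^2))⁻¹)) s :=
    ((rt_der s).mul (ww_der s)).const_mul 2
  have h9 : HasDerivAt FM1 _ s := h8.mul h7
  refine h9.congr_deriv ?_
  have h3 : √(1 + (ww s)^2) ≠ 0 := (Real.sqrt_pos.mpr (by positivity)).ne'
  have h5 : √(1 + (ww s)^2) * √(1 + (ww s)^2) = 1 + (ww s)^2 := Real.mul_self_sqrt (by positivity)
  simp only [g1, g2, TT_sq]
  have e1 : 2 * (1 + (ww s)^2) - 1 = 1 + 2 * (ww s)^2 := by ring
  rw [e1]
  set w := ww s
  set r := √(1 + w^2)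
  field_simp
  have h6 : r^2 = 1 + w^2 := by rw [sq]; exact h5
  rw [h6]
  ring

theorem exM : ∃ a : ℕ → ℝ → ℝ, CM a ∧ (a 0 0 = 2) ∧
    ∀ s : ℝ, a 1 (s^2) = 1/3 * (g1 (s^2) * (g2 (s^2) * (g2 (s^2) * g2 (s^2)))) := by
  obtain ⟨c1, c2, c3⟩ := gs_cont
  have b1 : Cls {g1, g2, g3} g1 := Cls.base _ (by simp)
  have b2 : Cls {g1, g2, g3} g2 := Cls.base _ (by simp)
  have b3 : Cls {g1, g2, g3} g3 := Cls.base _ (by simp)
  have hcls := Cls.smul (1/3) _ (by norm_num) (Cls.mul _ _ b1 (Cls.mul _ _ b2 (Cls.mul _ _ b2 b2)))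
  obtain ⟨a, ha, ha0, ha1⟩ := cls_seq {g1, g2, g3} (by
    intro g hg
    simp only [mem_insert_iff, mem_singleton_iff] at hg
    rcases hg with rfl | rfl | rfl
    · exact ⟨fun q _ => (g1_pos q).le, c1.continuousOn, _, Cls.smul (1/6) _ (by norm_num)
        (Cls.mul _ _ b1 (Cls.mul _ _ b1 (Cls.mul _ _ b1 (Cls.mul _ _ b2 b3)))), g1_der⟩
    · exact ⟨fun q _ => (g2_pos q).le, c2.continuousOn, _, Cls.smul (2/3) _ (by norm_num)
        (Cls.mul _ _ b2 (Cls.mul _ _ b2 (Cls.mul _ _ b2 b3))), g2_der⟩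
    · exact ⟨fun q _ => (g3_pos q).le, c3.continuousOn, _, Cls.smul (2/3) _ (by norm_num)
        (Cls.mul _ _ b2 (Cls.mul _ _ b3 (Cls.mul _ _ b3 b3))), g3_der⟩)
    (fun q => 2 * √(TT q) * g2 q) _ hcls
    (fun q hq => by have := g2_pos q; positivity)
    ((continuous_const.mul (Real.continuous_sqrt.comp TT_cont)).mul c2).continuousOn (by
      intro q hq
      have hT := TT_ge q
      refine ((((TT_der q hq).sqrt (by linarith)).const_mul 2).mul (g2_der q hq)).congr_deriv ?_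
      have hs : √(TT q) ≠ 0 := (Real.sqrt_pos.mpr (by linarith)).ne'
      have h5 : √(TT q) * √(TT q) = TT q := Real.mul_self_sqrt (by linarith)
      have p1 : 2 * TT q - 1 ≠ 0 := by
        have : 0 < 2 * TT q - 1 := by linarith
        exact this.ne'
      have p2 : 2 * TT q + 1 ≠ 0 := by
        have : 0 < 2 * TT q + 1 := by linarith
        exact this.ne'
      simp only [g1, g2, g3]
      set r := √(TT q)
      rw [← h5] at p1 p2 ⊢
      field_simp
      ring)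
  refine ⟨a, ha, ?_, ?_⟩
  · rw [ha0]; simp [TT, ww_zero, g2]; norm_num
  · intro s
    rw [ha1]

end Mcase

end Pool.Agent.Helper18.ZN
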