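import Pool.Agent.Helper18.ZN4

set_option autoImplicit false

open Set Topology MeasureTheory Filter

namespace Pool.Agent.Helper18.ZN

section geom
variable {E : Type} [NormedAddCommGroup E] [InnerProductSpace ℝ E]

/-- the norm of the example -/
noncomputable def NN (e x : E) : ℝ := (‖x‖^2 + (inner ℝ x e)^2) / (2 * ‖x‖)

/-- polar body -/
def pol (K : Set E) : Set E := {y | ∀ x ∈ K, inner ℝ x y ≤ (1:ℝ)}

theorem sig_le (e x : E) (he : ‖e‖ = 1) : (inner ℝ x e : ℝ)^2 ≤ ‖x‖^2 := by
  have h := abs_real_inner_le_norm x e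
  rw [he, mul_one] at h
  exact sq_le_sq' (by linarith [neg_abs_le (inner ℝ x e : ℝ)]) (by linarith [le_abs_self (inner ℝ x e : ℝ)])

theorem NN_zero (e : E) : NN e 0 = 0 := by simp [NN]

theorem NN_le (e x : E) (he : ‖e‖ = 1) : NN e x ≤ ‖x‖ := by
  by_cases hx : x = 0
  · rw [hx, NN_zero, norm_zero]
  · have hpos : 0 < ‖x‖ := norm_pos_iff.mpr hx
    rw [NN, div_le_iff₀ (by positivity)]
    nlinarith [sig_le e x he]

theorem NN_ge (e x : E) : ‖x‖ / 2 ≤ NN e x := by
  by_cases hx : x = 0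
  · rw [hx, NN_zero, norm_zero]; norm_num
  · have hpos : 0 < ‖x‖ := norm_pos_iff.mpr hx
    rw [NN, le_div_iff₀ (by positivity)]
    nlinarith [sq_nonneg (inner ℝ x e : ℝ)]

theorem NN_nonneg (e x : E) : 0 ≤ NN e x := le_trans (by positivity) (NN_ge e x)

theorem NN_neg (e x : E) : NN e (-x) = NN e x := by simp [NN]

theorem NN_smul (e x : E) (t : ℝ) (ht : 0 ≤ t) : NN e (t • x) = t * NN e x := by
  simp only [NN, norm_smul, Real.norm_eq_abs, abs_of_nonneg ht, real_inner_smul_left]
  rcases ht.eq_or_lt with rfl | ht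
  · simp
  · by_cases hx : ‖x‖ = 0
    · simp [hx]
    · field_simp

/-- gradient -/
noncomputable def yy (e x : E) : E :=
  (inner ℝ x e : ℝ) • e + ((1 - (inner ℝ x e : ℝ)^2)/2) • x

theorem yy_le (e x z : E) (he : ‖e‖ = 1) (hx : ‖x‖ = 1) : inner ℝ z (yy e x) ≤ NN e z := by
  by_cases hz : z = 0
  · rw [hz, NN_zero, inner_zero_left]
  · have hpos : 0 < ‖z‖ := norm_pos_iff.mpr hz
    rw [NN, le_div_iff₀ (by positivity)]
    simp only [yy, inner_add_right, real_inner_smul_right]
    have h1 : (inner ℝ z x : ℝ) ≤ ‖z‖ := by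
      have := real_inner_le_norm z x
      rwa [hx, mul_one] at this
    have h2 : (inner ℝ x e : ℝ)^2 ≤ 1 := by
      have := sig_le e x he
      rwa [hx, one_pow] at this
    set s : ℝ := inner ℝ x e
    set k : ℝ := inner ℝ z x
    set c : ℝ := inner ℝ z e
    set r : ℝ := ‖z‖
    have h3 : (1 - s^2)/2 * k ≤ (1 - s^2)/2 * r := mul_le_mul_of_nonneg_left h1 (by linarith)
    have h4 : (s * c + (1 - s^2)/2 * k) * (2 * r) ≤ (s * c + (1 - s^2)/2 * r) * (2 * r) :=
      mul_le_mul_of_nonneg_right (by linarith) (by positivity)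
    nlinarith [sq_nonneg (c - s * r)]

theorem yy_eq (e x : E) (hx : ‖x‖ = 1) : inner ℝ x (yy e x) = NN e x := by
  simp only [yy, NN, inner_add_right, real_inner_smul_right, real_inner_self_eq_norm_sq, hx]
  ring

theorem NN_unit (e x : E) (hx : x ≠ 0) : NN e x = inner ℝ x (yy e (‖x‖⁻¹ • x)) := by
  have hpos : 0 < ‖x‖ := norm_pos_iff.mpr hx
  have hu : ‖‖x‖⁻¹ • x‖ = 1 := by rw [norm_smul, norm_inv, norm_norm, inv_mul_cancel₀ hpos.ne']
  have h1 := yy_eq e (‖x‖⁻¹ • x) hu
  rw [NN_smul e x _ (inv_nonneg.mpr hpos.le), real_inner_smul_left] at h1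
  exact (mul_left_cancel₀ (inv_ne_zero hpos.ne') h1).symm

theorem NN_subl (e : E) (he : ‖e‖ = 1) : Subl (NN e) := by
  refine ⟨NN_nonneg e, NN_neg e, fun t x ht => NN_smul e x t ht, fun x y => ?_⟩
  by_cases h : x + y = 0
  · rw [h, NN_zero]; exact add_nonneg (NN_nonneg e x) (NN_nonneg e y)
  · have hpos : 0 < ‖x + y‖ := norm_pos_iff.mpr h
    have hu : ‖‖x + y‖⁻¹ • (x + y)‖ = 1 := by
      rw [norm_smul, norm_inv, norm_norm, inv_mul_cancel₀ hpos.ne']
    rw [NN_unit e (x + y) h, inner_add_left]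
    exact add_le_add (yy_le e _ x he hu) (yy_le e _ y he hu)

theorem pr_norm (e x : E) (he : ‖e‖ = 1) : ‖pr e x‖^2 = ‖x‖^2 - (inner ℝ x e : ℝ)^2 := by
  have hee : (inner ℝ e e : ℝ) = 1 := by rw [real_inner_self_eq_norm_sq, he, one_pow]
  rw [← real_inner_self_eq_norm_sq (pr e x), ← real_inner_self_eq_norm_sq x]
  simp only [pr, inner_sub_left, inner_sub_right, real_inner_smul_left, real_inner_smul_right, hee]
  rw [real_inner_comm x e]
  ring

theorem NN_prof (e x : E) (he : ‖e‖ = 1) (hx : pr e x ≠ 0) :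
    NN e x = ‖pr e x‖ * FN (|inner ℝ x e| / ‖pr e x‖) := by
  have hpos : 0 < ‖pr e x‖ := norm_pos_iff.mpr hx
  have h1 := pr_norm e x he
  have hxpos : 0 < ‖x‖ := by
    rw [norm_pos_iff]
    rintro rfl
    apply hx; simp [pr]
  set s : ℝ := inner ℝ x e
  set t := ‖pr e x‖
  have h2 : (|s| / t)^2 = s^2 / t^2 := by rw [div_pow, sq_abs]
  have h3 : 1 + s^2/t^2 = (‖x‖/t)^2 := by
    field_simp; linarith
  simp only [FN, NN, gN]
  rw [h2, h3, Real.sqrt_sq (by positivity)]
  have h4 : ‖x‖^2 = t^2 + s^2 := by linarith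
  rw [h4]
  field_simp
  ring

end geom

section geom2
variable {E : Type} [NormedAddCommGroup E] [InnerProductSpace ℝ E] [FiniteDimensional ℝ E]
  [MeasurableSpace E] [BorelSpace E]

/-- the example -/
def KK (e : E) : Set E := {x | NN e x ≤ 1}

omit [MeasurableSpace E] [BorelSpace E] in
theorem KK_compact (e : E) (he : ‖e‖ = 1) : IsCompact (KK e) := by
  have hsub := NN_subl e he
  have hcont : Continuous (NN e) := by
    have : LipschitzWith 1 (NN e) := by
      refine LipschitzWith.of_dist_le_mul fun x y => ?_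
      rw [Real.dist_eq, dist_eq_norm, NNReal.coe_one, one_mul]
      exact (hsub.lip x y).trans (NN_le e _ he)
    exact this.continuous
  refine Metric.isCompact_of_isClosed_isBounded (isClosed_le hcont continuous_const) ?_
  refine (Metric.isBounded_closedBall (x := (0:E)) (r := 2)).subset fun x hx => ?_
  rw [mem_closedBall_zero_iff]
  have h1 := NN_ge e x
  have h2 : NN e x ≤ 1 := hx
  linarith

omit [FiniteDimensional ℝ E] [MeasurableSpace E] [BorelSpace E] in
theorem KK_convex (e : E) (he : ‖e‖ = 1) : Convex ℝ (KK e) := by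
  have hsub := NN_subl e he
  intro x hx y hy a b ha hb hab
  have hx' : NN e x ≤ 1 := hx
  have hy' : NN e y ≤ 1 := hy
  show NN e (a • x + b • y) ≤ 1
  refine (hsub.2.2.2 _ _).trans ?_
  rw [NN_smul e x a ha, NN_smul e y b hb]
  nlinarith

omit [FiniteDimensional ℝ E] [MeasurableSpace E] [BorelSpace E] in
theorem ball_sub_KK (e : E) (he : ‖e‖ = 1) : Metric.closedBall (0:E) 1 ⊆ KK e := by
  intro x hx
  rw [mem_closedBall_zero_iff] at hx
  exact (NN_le e x he).trans hx

omit [FiniteDimensional ℝ E] [MeasurableSpace E] [BorelSpace E] in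
theorem KK_scale (e x : E) (hx : x ≠ 0) : (NN e x)⁻¹ • x ∈ KK e ∧ 0 < NN e x := by
  have hpos : 0 < ‖x‖ := norm_pos_iff.mpr hx
  have h1 : 0 < NN e x := lt_of_lt_of_le (by positivity) (NN_ge e x)
  refine ⟨?_, h1⟩
  show NN e ((NN e x)⁻¹ • x) ≤ 1
  rw [NN_smul e x _ (inv_nonneg.mpr h1.le), inv_mul_cancel₀ h1.ne']

theorem KK_zonoid (e f : E) (he : ‖e‖ = 1) (hf : ‖f‖ = 1) (hef : inner ℝ f e = (0:ℝ)) :
    IsZonoid (KK e) := by
  have hcomp := KK_compact e he
  have hsub := NN_subl e he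
  have h0 : (0:E) ∈ KK e := by show NN e 0 ≤ 1; rw [NN_zero]; exact zero_le_one
  have hneg : ∀ x ∈ KK e, -x ∈ KK e := fun x hx => by
    show NN e (-x) ≤ 1
    rw [NN_neg]; exact hx
  have hex : ∀ x : E, ∃ z ∈ KK e, ∀ z' ∈ KK e, (inner ℝ x z' : ℝ) ≤ inner ℝ x z := by
    intro x
    obtain ⟨z, hz, hz'⟩ := hcomp.exists_isMaxOn ⟨0, h0⟩
      (f := fun z => (inner ℝ x z : ℝ)) (by fun_prop)
    exact ⟨z, hz, fun z' h => hz' h⟩
  choose zz hz1 hz2 using hex
  have hM : Subl (fun x => (inner ℝ x (zz x) : ℝ)) := by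
    refine ⟨fun x => ?_, fun x => ?_, fun t x ht => ?_, fun x y => ?_⟩
    · have := hz2 x 0 h0
      rwa [inner_zero_right] at this
    · apply le_antisymm
      · have := hz2 x _ (hneg _ (hz1 (-x)))
        rw [inner_neg_right] at this
        show (inner ℝ (-x) (zz (-x)) : ℝ) ≤ inner ℝ x (zz x)
        rw [inner_neg_left]; exact this
      · have := hz2 (-x) _ (hneg _ (hz1 x))
        rw [inner_neg_left, inner_neg_right, neg_neg] at this
        exact this
    · apply le_antisymm
      · show (inner ℝ (t • x) (zz (t • x)) : ℝ) ≤ t * inner ℝ x (zz x)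
        rw [real_inner_smul_left]
        exact mul_le_mul_of_nonneg_left (hz2 x _ (hz1 _)) ht
      · have := hz2 (t • x) _ (hz1 x)
        rw [real_inner_smul_left] at this
        exact this
    · show (inner ℝ (x + y) (zz (x + y)) : ℝ) ≤ inner ℝ x (zz x) + inner ℝ y (zz y)
      rw [inner_add_left]
      exact add_le_add (hz2 x _ (hz1 _)) (hz2 y _ (hz1 _))
  have hprof : ∀ x, pr e x ≠ 0 → (fun x => (inner ℝ x (zz x) : ℝ)) x =
      ‖pr e x‖ * FM (|inner ℝ x e| / ‖pr e x‖) := by
    intro x hx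
    have hpos : 0 < ‖pr e x‖ := norm_pos_iff.mpr hx
    set t := ‖pr e x‖ with ht
    set s : ℝ := inner ℝ x e with hs
    set w := ww (s / t) with hw
    have hww : (ww (|s| / t))^2 = w^2 := by
      rw [hw, ← ww_abs (s / t), abs_div, abs_of_pos hpos]
    set r := √(1 + w^2) with hr
    have hr0 : 0 < r := Real.sqrt_pos.mpr (by positivity)
    have hr2 : r^2 = 1 + w^2 := Real.sq_sqrt (by positivity)
    set u := t⁻¹ • pr e x with hu
    have hun : ‖u‖ = 1 := by rw [hu, norm_smul, norm_inv, Real.norm_eq_abs, abs_of_pos hpos, ← ht,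
      inv_mul_cancel₀ hpos.ne']
    have hee : (inner ℝ e e : ℝ) = 1 := by rw [real_inner_self_eq_norm_sq, he, one_pow]
    have hue : (inner ℝ u e : ℝ) = 0 := by
      simp only [hu, pr, real_inner_smul_left, inner_sub_left, hee]
      ring
    set z := r⁻¹ • (w • e + u) with hz
    have hzn : ‖z‖ = 1 := by
      have h1 : ‖w • e + u‖^2 = r^2 := by
        rw [← real_inner_self_eq_norm_sq]
        simp only [inner_add_left, inner_add_right, real_inner_smul_left, real_inner_smul_right,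
          hee, hue, real_inner_comm u e, real_inner_self_eq_norm_sq u, hun]
        rw [hr2]
        have : (inner ℝ e u : ℝ) = 0 := by rw [real_inner_comm]; exact hue
        try rw [this]
        ring
      have h2 : ‖w • e + u‖ = r := by
        nlinarith [norm_nonneg (w • e + u), sq_nonneg (‖w • e + u‖ - r), h1, hr0]
      rw [hz, norm_smul, norm_inv, Real.norm_eq_abs, abs_of_pos hr0, h2, inv_mul_cancel₀ hr0.ne']
    have hze : (inner ℝ z e : ℝ) = w / r := by
      simp only [hz, real_inner_smul_left, inner_add_left, hee, hue]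
      field_simp
      ring
    have hxy : x = (2 * t * r^3) • yy e z := by
      have h1 : x = s • e + pr e x := by simp only [pr, hs]; abel
      have h2 : pr e x = t • u := by
        rw [hu, smul_smul, mul_inv_cancel₀ hpos.ne', one_smul]
      have hpsi := psi_ww (s / t)
      rw [← hw] at hpsi
      simp only [psi] at hpsi
      have hst : s = t * (2 * w^3 + 3 * w) := by rw [hpsi]; field_simp
      have h3 : (2 * t * r^3) * (w / r) + (2 * t * r^3) * ((1 - (w/r)^2)/2) * (r⁻¹ * w) = s := by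
        have : 1 - (w/r)^2 = 1/r^2 := by field_simp; linarith
        rw [this, hst]
        have hr2' : r^2 = 1 + w^2 := hr2
        field_simp
        rw [hr2']; ring
      have h4 : (2 * t * r^3) * ((1 - (w/r)^2)/2) * r⁻¹ = t := by
        have : 1 - (w/r)^2 = 1/r^2 := by field_simp; linarith
        rw [this]
        field_simp
      calc x = s • e + t • u := by rw [← h2]; exact h1
        _ = ((2 * t * r^3) * (w / r) + (2 * t * r^3) * ((1 - (w/r)^2)/2) * (r⁻¹ * w)) • e +
            ((2 * t * r^3) * ((1 - (w/r)^2)/2) * r⁻¹) • u := by rw [h3, h4]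
        _ = (2 * t * r^3) • yy e z := by
            rw [yy, hze, hz]
            module
    have hM1 : (inner ℝ (yy e z) (zz (yy e z)) : ℝ) = 1 := by
      apply le_antisymm
      · rw [real_inner_comm]
        exact (yy_le e z _ he hzn).trans (hz1 _)
      · have hzne : z ≠ 0 := by
          intro h; rw [h, norm_zero] at hzn; exact zero_ne_one hzn
        obtain ⟨k1, k2⟩ := KK_scale e z hzne
        have := hz2 (yy e z) _ k1
        rw [real_inner_smul_right, real_inner_comm, yy_eq e z hzn, inv_mul_cancel₀ k2.ne'] at this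
        exact this
    have hhom := hM.2.2.1 (2 * t * r^3) (yy e z) (by positivity)
    rw [← hxy] at hhom
    rw [hhom]
    simp only [hM1, FM]
    rw [hww]
    ring
  obtain ⟨a, ha, ha0, ha1⟩ := exM
  have hZC : (fun x => (inner ℝ x (zz x) : ℝ)) ∈ ZC E := by
    refine pole e f hf hef _ hM fun J ε hε => ?_
    refine approx_off e ha FM FM1 FM_der (fun s => ?_) ?_ ?_ _ hprof J ε hε
    · rw [ha1]; exact FM1_der s
    · rw [ha0]; simp [FM, ww_zero]
    · simp [FM1, ww_zero]
  refine zonoid_of (KK e) (KK_convex e he) hcomp hneg ?_ _ hZC (fun x z hz => hz2 x z hz)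
    (fun x => ⟨zz x, hz1 x, rfl⟩)
  refine ⟨0, ?_⟩
  rw [mem_interior]
  exact ⟨Metric.ball 0 1, Metric.ball_subset_closedBall.trans (ball_sub_KK e he), Metric.isOpen_ball,
    Metric.mem_ball_self one_pos⟩

theorem pol_zonoid (e f : E) (he : ‖e‖ = 1) (hf : ‖f‖ = 1) (hef : inner ℝ f e = (0:ℝ)) :
    IsZonoid (pol (KK e)) := by
  have hsub := NN_subl e he
  obtain ⟨a, ha, ha0, ha1⟩ := exN
  have hZC : NN e ∈ ZC E := by
    refine pole e f hf hef _ hsub fun J ε hε => ?_
    refine approx_off e ha FN FN1 FN_der (fun s => ?_) ?_ ?_ _ (fun x hx => NN_prof e x he hx) J ε hε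
    · rw [ha1]; exact FN1_der s
    · rw [ha0]; simp [FN, gN]
    · simp [FN1]
  have hneg : ∀ x ∈ KK e, -x ∈ KK e := fun x hx => by
    show NN e (-x) ≤ 1
    rw [NN_neg]; exact hx
  refine zonoid_of (pol (KK e)) ?_ ?_ ?_ ?_ _ hZC ?_ ?_
  · intro x hx y hy a b ha hb hab k hk
    rw [inner_add_right, real_inner_smul_right, real_inner_smul_right]
    have h1 := hx k hk
    have h2 := hy k hk
    nlinarith
  · refine Metric.isCompact_of_isClosed_isBounded ?_ ?_
    · have : pol (KK e) = ⋂ x ∈ KK e, {y | inner ℝ x y ≤ (1:ℝ)} := by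
        ext y; simp [pol]
      rw [this]
      exact isClosed_biInter fun x _ => isClosed_le (by fun_prop) continuous_const
    · refine (Metric.isBounded_closedBall (x := (0:E)) (r := 1)).subset fun y hy => ?_
      rw [mem_closedBall_zero_iff]
      by_cases h0 : y = 0
      · rw [h0, norm_zero]; exact zero_le_one
      · have hpos : 0 < ‖y‖ := norm_pos_iff.mpr h0
        have := hy (‖y‖⁻¹ • y) (ball_sub_KK e he (by
          rw [mem_closedBall_zero_iff, norm_smul, norm_inv, norm_norm, inv_mul_cancel₀ hpos.ne']))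
        rw [real_inner_smul_left, real_inner_self_eq_norm_sq] at this
        have h3 : ‖y‖⁻¹ * ‖y‖^2 = ‖y‖ := by field_simp
        linarith
  · intro y hy x hx
    have := hy (-x) (hneg x hx)
    rw [inner_neg_left] at this
    rw [inner_neg_right]; exact this
  · refine ⟨0, ?_⟩
    rw [mem_interior]
    refine ⟨Metric.ball 0 (1/2), ?_, Metric.isOpen_ball, Metric.mem_ball_self (by norm_num)⟩
    intro y hy x hx
    rw [mem_ball_zero_iff] at hy
    have h1 := real_inner_le_norm x y
    have h2 := NN_ge e x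
    have h3 : NN e x ≤ 1 := hx
    nlinarith [norm_nonneg x, norm_nonneg y]
  · intro x y hy
    by_cases hx : x = 0
    · rw [hx, inner_zero_left, NN_zero]
    · obtain ⟨k1, k2⟩ := KK_scale e x hx
      have := hy _ k1
      rw [real_inner_smul_left, inv_mul_le_iff₀ k2, mul_one] at this
      exact this
  · intro x
    by_cases hx : x = 0
    · refine ⟨0, ?_, by rw [hx, inner_zero_left, NN_zero]⟩
      intro k _
      rw [inner_zero_right]; exact zero_le_one
    · refine ⟨yy e (‖x‖⁻¹ • x), ?_, (NN_unit e x hx).symm⟩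
      have hpos : 0 < ‖x‖ := norm_pos_iff.mpr hx
      have hun : ‖‖x‖⁻¹ • x‖ = 1 := by rw [norm_smul, norm_inv, norm_norm, inv_mul_cancel₀ hpos.ne']
      intro k hk
      exact (yy_le e _ k he hun).trans hk

open scoped Pointwise

omit [FiniteDimensional ℝ E] [MeasurableSpace E] [BorelSpace E] in
theorem bm_bound (e f : E) (he : ‖e‖ = 1) (hf : ‖f‖ = 1) (hef : inner ℝ f e = (0:ℝ))
    (lam : ℝ) (hlam : 1 ≤ lam) (T : E ≃ₗ[ℝ] E) (h1 : Metric.closedBall (0:E) 1 ⊆ T '' (KK e))
    (h2 : T '' (KK e) ⊆ lam • Metric.closedBall (0:E) 1) : √(9/8) ≤ lam := by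
  have hlam0 : 0 < lam := by linarith
  have up : ∀ x, ‖T x‖ ≤ lam * NN e x := by
    intro x
    by_cases hx : x = 0
    · rw [hx, map_zero, norm_zero, NN_zero, mul_zero]
    · obtain ⟨k1, k2⟩ := KK_scale e x hx
      obtain ⟨y, hy, hy'⟩ := h2 ⟨_, k1, rfl⟩
      have hy1 : ‖y‖ ≤ 1 := by rwa [mem_closedBall_zero_iff] at hy
      simp only at hy'
      rw [map_smul] at hy'
      have h3 := congrArg norm hy'
      rw [norm_smul, norm_smul, Real.norm_eq_abs, Real.norm_eq_abs, abs_of_pos hlam0,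
        abs_of_pos (inv_pos.mpr k2)] at h3
      have h4 : (NN e x)⁻¹ * ‖T x‖ ≤ lam := by
        rw [← h3]; nlinarith
      rwa [inv_mul_le_iff₀ k2, mul_comm] at h4
  have low : ∀ x, NN e x ≤ ‖T x‖ := by
    intro x
    by_cases hx : x = 0
    · rw [hx, map_zero, norm_zero, NN_zero]
    · have hTx : T x ≠ 0 := by
        intro h; exact hx (T.map_eq_zero_iff.mp h)
      have hpos : 0 < ‖T x‖ := norm_pos_iff.mpr hTx
      obtain ⟨y, hy, hy'⟩ := h1 (show ‖T x‖⁻¹ • T x ∈ Metric.closedBall (0:E) 1 by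
        rw [mem_closedBall_zero_iff, norm_smul, norm_inv, norm_norm, inv_mul_cancel₀ hpos.ne'])
      rw [← map_smul] at hy'
      have h3 := T.injective hy'
      have h4 : NN e y ≤ 1 := hy
      rw [h3, NN_smul e x _ (inv_nonneg.mpr hpos.le), inv_mul_le_iff₀ hpos, mul_one] at h4
      exact h4
  have hee : (inner ℝ e e : ℝ) = 1 := by rw [real_inner_self_eq_norm_sq, he, one_pow]
  have hff : (inner ℝ f f : ℝ) = 1 := by rw [real_inner_self_eq_norm_sq, hf, one_pow]
  have hfe : (inner ℝ e f : ℝ) = 0 := by rw [real_inner_comm]; exact hef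
  set b : ℝ := √2 with hb
  have hb0 : 0 < b := Real.sqrt_pos.mpr (by norm_num)
  have hb2 : b^2 = 2 := Real.sq_sqrt (by norm_num)
  have n1 : NN e e = 1 := by simp only [NN, he, hee]; norm_num
  have n2 : NN e (b • f) = b/2 := by
    rw [NN_smul e f b hb0.le]
    simp only [NN, hf, hef]; norm_num
    ring
  have nn : ∀ c : ℝ, c^2 = 2 → (NN e (e + c • f))^2 = 4/3 := by
    intro c hc
    have m1 : ‖e + c • f‖^2 = 3 := by
      rw [← real_inner_self_eq_norm_sq]
      simp only [inner_add_left, inner_add_right, real_inner_smul_left, real_inner_smul_right,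
        hee, hff, hfe, hef]
      linarith
    have m2 : (inner ℝ (e + c • f) e : ℝ) = 1 := by
      simp only [inner_add_left, real_inner_smul_left, hee, hef]; ring
    rw [NN, div_pow, mul_pow, m1, m2]; norm_num
  have para := parallelogram_law_with_norm ℝ (T e) (T (b • f))
  have q1 : (NN e e)^2 ≤ ‖T e‖^2 := pow_le_pow_left₀ (NN_nonneg _ _) (low e) 2
  have q2 : (NN e (b • f))^2 ≤ ‖T (b • f)‖^2 := pow_le_pow_left₀ (NN_nonneg _ _) (low _) 2
  have q3 : ‖T e + T (b • f)‖^2 ≤ lam^2 * (4/3) := by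
    rw [← map_add, ← nn b hb2, ← mul_pow]
    exact pow_le_pow_left₀ (norm_nonneg _) (up _) 2
  have q4 : ‖T e - T (b • f)‖^2 ≤ lam^2 * (4/3) := by
    have : T e - T (b • f) = T (e + (-b) • f) := by
      rw [map_add, neg_smul, map_neg, sub_eq_add_neg]
    rw [this, ← nn (-b) (by rw [neg_sq]; exact hb2), ← mul_pow]
    exact pow_le_pow_left₀ (norm_nonneg _) (up _) 2
  rw [n1] at q1
  rw [n2, div_pow, hb2] at q2
  have : 9/8 ≤ lam^2 := by
    nlinarith [para, q1, q2, q3, q4]
  calc √(9/8) ≤ √(lam^2) := Real.sqrt_le_sqrt this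
    _ = lam := Real.sqrt_sq hlam0.le

end geom2

end Pool.Agent.Helper18.ZN
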