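import Mathlib

set_option autoImplicit false

namespace Pool.Agent.Helper18.Zig

open Set Topology

/-! ### The folding map -/

/-- the even integers -/
def Ev : Set ℝ := {x | ∃ k : ℤ, x = 2 * k}

theorem Ev_nonempty : Ev.Nonempty := ⟨0, 0, by simp⟩

/-- distance to the nearest even integer -/
noncomputable def fold (x : ℝ) : ℝ := Metric.infDist x Ev

theorem fold_cont : Continuous fold := Metric.continuous_infDist_pt _

theorem fold_lip (x y : ℝ) : |fold x - fold y| ≤ |x - y| := by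
  rw [abs_sub_le_iff]
  constructor
  · have := Metric.infDist_le_infDist_add_dist (s := Ev) (x := x) (y := y)
    rw [Real.dist_eq] at this
    unfold fold
    linarith
  · have := Metric.infDist_le_infDist_add_dist (s := Ev) (x := y) (y := x)
    rw [Real.dist_eq, abs_sub_comm] at this
    unfold fold
    linarith

theorem fold_even (N : ℤ) (hN : Even N) (p : ℝ) (h0 : 0 ≤ p) (h1 : p ≤ 1) : fold (N + p) = p := by
  obtain ⟨k, rfl⟩ := hN
  unfold fold
  apply le_antisymm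
  · have hmem : (2 * (k : ℝ)) ∈ Ev := ⟨k, rfl⟩
    have := Metric.infDist_le_dist_of_mem (x := (((k + k : ℤ) : ℝ) + p)) hmem
    rw [Real.dist_eq] at this
    have h2 : ((k + k : ℤ) : ℝ) + p - 2 * (k : ℝ) = p := by push_cast; ring
    rw [h2, abs_of_nonneg h0] at this
    exact this
  · rw [Metric.le_infDist Ev_nonempty]
    rintro y ⟨l, rfl⟩
    rw [Real.dist_eq]
    push_cast
    rcases lt_trichotomy l k with h | h | h
    · have : (l : ℝ) + 1 ≤ k := by exact_mod_cast h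
      rw [le_abs]; left; linarith
    · subst h
      rw [le_abs]; left; linarith
    · have : (k : ℝ) + 1 ≤ l := by exact_mod_cast h
      rw [le_abs]; right; linarith

theorem fold_odd (N : ℤ) (hN : ¬ Even N) (p : ℝ) (h0 : 0 ≤ p) (h1 : p ≤ 1) :
    fold (N + p) = 1 - p := by
  rw [Int.not_even_iff_odd] at hN
  obtain ⟨k, rfl⟩ := hN
  unfold fold
  apply le_antisymm
  · have hmem : (2 * ((k + 1 : ℤ) : ℝ)) ∈ Ev := ⟨k + 1, rfl⟩
    have := Metric.infDist_le_dist_of_mem (x := (((2 * k + 1 : ℤ) : ℝ) + p)) hmem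
    rw [Real.dist_eq] at this
    have h2 : ((2 * k + 1 : ℤ) : ℝ) + p - 2 * ((k + 1 : ℤ) : ℝ) = -(1 - p) := by push_cast; ring
    rw [h2, abs_neg, abs_of_nonneg (by linarith)] at this
    exact this
  · rw [Metric.le_infDist Ev_nonempty]
    rintro y ⟨l, rfl⟩
    rw [Real.dist_eq]
    push_cast
    rcases le_or_gt l k with h | h
    · have : (l : ℝ) ≤ k := by exact_mod_cast h
      rw [le_abs]; left; linarith
    · have : (k : ℝ) + 1 ≤ l := by exact_mod_cast h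
      rw [le_abs]; right; linarith

theorem fold_mem (x : ℝ) : 0 ≤ fold x ∧ fold x ≤ 1 := by
  have h0 := Int.fract_nonneg x
  have h1 := (Int.fract_lt_one x).le
  have h2 : ((⌊x⌋ : ℤ) : ℝ) + Int.fract x = x := Int.floor_add_fract x
  by_cases h : Even ⌊x⌋
  · have := fold_even ⌊x⌋ h _ h0 h1
    rw [h2] at this
    rw [this]; exact ⟨h0, h1⟩
  · have := fold_odd ⌊x⌋ h _ h0 h1
    rw [h2] at this
    rw [this]; constructor <;> linarith

/-! ### The combinatorial lemma -/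

/-- The unimodality property. -/
def R (Γ : ℝ → ℝ) (δ : ℝ) : Prop :=
  ∀ s₁ s₂ a : ℝ, (s₁ < 0 ∨ Γ s₁ ≤ a) → (1 < s₂ ∨ Γ s₂ ≤ a) →
    (∃ s, s₁ < s ∧ s < s₂ ∧ 0 ≤ s ∧ s ≤ 1 ∧ a + 2 * δ ≤ Γ s) →
    ∃ s, s₁ < s ∧ s < s₂ ∧ 0 ≤ s ∧ s ≤ 1 ∧ 1 - δ < Γ s

/-- `Γ` or `1 - Γ` according to the parity of `N`. -/
noncomputable def par (Γ : ℝ → ℝ) (N : ℤ) : ℝ → ℝ := by
  classical exact if Even N then Γ else fun s => 1 - Γ s

theorem par_even (Γ : ℝ → ℝ) (N : ℤ) (h : Even N) : par Γ N = Γ := by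
  unfold par; rw [if_pos h]

theorem par_odd (Γ : ℝ → ℝ) (N : ℤ) (h : ¬ Even N) (s : ℝ) : par Γ N s = 1 - Γ s := by
  unfold par; rw [if_neg h]

theorem par_succ (Γ : ℝ → ℝ) (N : ℤ) (s : ℝ) : par Γ (N + 1) s = 1 - par Γ N s := by
  by_cases h : Even N
  · rw [par_even Γ N h, par_odd]
    rw [Int.even_add_one]
    exact not_not.2 h
  · rw [par_odd Γ N h, par_even Γ (N + 1) (Int.even_add_one.2 h)]
    ring

theorem fold_par (Γ : ℝ → ℝ) (N : ℤ) (p s : ℝ) (h0 : 0 ≤ p) (h1 : p ≤ 1) :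
    |fold (N + p) - Γ s| = |p - par Γ N s| := by
  by_cases h : Even N
  · rw [fold_even N h p h0 h1, par_even Γ N h]
  · rw [fold_odd N h p h0 h1, par_odd Γ N h, ← abs_neg]
    congr 1
    ring

theorem par_R (Γ : ℝ → ℝ) (δ : ℝ) (h1 : R Γ δ) (h2 : R (fun s => 1 - Γ s) δ) (N : ℤ) :
    R (par Γ N) δ := by
  by_cases h : Even N
  · rw [par_even Γ N h]; exact h1
  · have : par Γ N = fun s => 1 - Γ s := by funext s; exact par_odd Γ N h s
    rw [this]; exact h2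

theorem par_cont (Γ : ℝ → ℝ) (hc : Continuous Γ) (N : ℤ) : Continuous (par Γ N) := by
  by_cases h : Even N
  · rw [par_even Γ N h]; exact hc
  · have : par Γ N = fun s => 1 - Γ s := by funext s; exact par_odd Γ N h s
    rw [this]; exact continuous_const.sub hc

theorem par_mem (Γ : ℝ → ℝ) (h01 : ∀ s, 0 ≤ Γ s ∧ Γ s ≤ 1) (N : ℤ) (s : ℝ) :
    0 ≤ par Γ N s ∧ par Γ N s ≤ 1 := by
  by_cases h : Even N
  · rw [par_even Γ N h]; exact h01 s
  · rw [par_odd Γ N h]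
    constructor <;> linarith [(h01 s).1, (h01 s).2]

theorem par_dist (Γ : ℝ → ℝ) (N : ℤ) (s t : ℝ) : |par Γ N s - par Γ N t| = |Γ s - Γ t| := by
  by_cases h : Even N
  · rw [par_even Γ N h]
  · rw [par_odd Γ N h, par_odd Γ N h, ← abs_neg]
    congr 1
    ring

/-- running maximum -/
noncomputable def runmax (Δ : ℝ → ℝ) (x s : ℝ) : ℝ :=
  sSup ((fun u => Δ (x + u * (max x s - x))) '' Icc (0 : ℝ) 1)

theorem runmax_cont (Δ : ℝ → ℝ) (hc : Continuous Δ) (x : ℝ) : Continuous (runmax Δ x) := by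
  unfold runmax
  apply IsCompact.continuous_sSup (f := fun (s u : ℝ) => Δ (x + u * (max x s - x))) isCompact_Icc
  have : (↿(fun (s u : ℝ) => Δ (x + u * (max x s - x)))) =
      fun p : ℝ × ℝ => Δ (x + p.2 * (max x p.1 - x)) := rfl
  rw [this]
  fun_prop

theorem runmax_bdd (Δ : ℝ → ℝ) (h01 : ∀ s, 0 ≤ Δ s ∧ Δ s ≤ 1) (x s : ℝ) :
    BddAbove ((fun u => Δ (x + u * (max x s - x))) '' Icc (0 : ℝ) 1) := by
  refine ⟨1, ?_⟩
  rintro _ ⟨u, -, rfl⟩
  exact (h01 _).2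

theorem le_runmax (Δ : ℝ → ℝ) (h01 : ∀ s, 0 ≤ Δ s ∧ Δ s ≤ 1) (x s t : ℝ) (h1 : x ≤ t)
    (h2 : t ≤ max x s) : Δ t ≤ runmax Δ x s := by
  apply le_csSup (runmax_bdd Δ h01 x s)
  rcases eq_or_lt_of_le (le_trans h1 h2) with h | h
  · refine ⟨0, ⟨le_refl _, zero_le_one⟩, ?_⟩
    have : t = x := le_antisymm (h ▸ h2) h1
    simp [this]
  · refine ⟨(t - x) / (max x s - x), ⟨?_, ?_⟩, ?_⟩
    · apply div_nonneg <;> linarith
    · rw [div_le_one (by linarith)]; linarith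
    · show Δ (x + (t - x) / (max x s - x) * (max x s - x)) = Δ t
      congr 1
      rw [div_mul_cancel₀ _ (by linarith)]
      ring

theorem runmax_le (Δ : ℝ → ℝ) (x s c : ℝ) (h : ∀ t, x ≤ t → t ≤ max x s → Δ t ≤ c) :
    runmax Δ x s ≤ c := by
  apply csSup_le
  · exact (nonempty_Icc.2 zero_le_one).image _
  · rintro _ ⟨u, ⟨hu0, hu1⟩, rfl⟩
    have hm : x ≤ max x s := le_max_left _ _
    apply h
    · nlinarith
    · nlinarith

theorem runmax_mono (Δ : ℝ → ℝ) (h01 : ∀ s, 0 ≤ Δ s ∧ Δ s ≤ 1) (x : ℝ) :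
    Monotone (runmax Δ x) := by
  intro s s' hs
  apply runmax_le
  intro t h1 h2
  exact le_runmax Δ h01 x s' t h1 (h2.trans (max_le_max (le_refl _) hs))

/-- progress function -/
noncomputable def prog (Δ : ℝ → ℝ) (δ x s : ℝ) : ℝ :=
  min 1 (max 0 ((runmax Δ x s - δ) / (1 - 2 * δ)))

theorem prog_cont (Δ : ℝ → ℝ) (hc : Continuous Δ) (δ x : ℝ) : Continuous (prog Δ δ x) := by
  unfold prog
  exact continuous_const.min (continuous_const.max
    (((runmax_cont Δ hc x).sub continuous_const).div_const _))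

theorem prog_mem (Δ : ℝ → ℝ) (δ x s : ℝ) : 0 ≤ prog Δ δ x s ∧ prog Δ δ x s ≤ 1 := by
  unfold prog
  exact ⟨le_min zero_le_one (le_max_left _ _), min_le_left _ _⟩

theorem prog_mono (Δ : ℝ → ℝ) (h01 : ∀ s, 0 ≤ Δ s ∧ Δ s ≤ 1) (δ x : ℝ) (hδ : δ ≤ 1 / 16) :
    Monotone (prog Δ δ x) := by
  intro s s' hs
  unfold prog
  apply min_le_min (le_refl _)
  apply max_le_max (le_refl _)
  apply div_le_div_of_nonneg_right _ (by linarith)
  linarith [runmax_mono Δ h01 x hs]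

theorem prog_zero (Δ : ℝ → ℝ) (δ x s : ℝ) (hδ : δ ≤ 1 / 16) (hs : s ≤ x) (hx : Δ x ≤ δ) :
    prog Δ δ x s = 0 := by
  have h1 : runmax Δ x s ≤ δ := by
    apply runmax_le
    intro t h1 h2
    rw [max_eq_left hs] at h2
    rw [le_antisymm h2 h1]
    exact hx
  have h2 : (runmax Δ x s - δ) / (1 - 2 * δ) ≤ 0 :=
    div_nonpos_of_nonpos_of_nonneg (by linarith) (by linarith)
  unfold prog
  rw [max_eq_left h2]
  exact min_eq_right zero_le_one

theorem prog_one (Δ : ℝ → ℝ) (h01 : ∀ s, 0 ≤ Δ s ∧ Δ s ≤ 1) (δ x x' s : ℝ) (hδ : δ ≤ 1 / 16)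
    (hxx' : x ≤ x') (hs : x' ≤ s) (hx : 1 - δ ≤ Δ x') : prog Δ δ x s = 1 := by
  have h1 : 1 - δ ≤ runmax Δ x s :=
    hx.trans (le_runmax Δ h01 x s x' hxx' (hs.trans (le_max_right _ _)))
  have h2 : 1 ≤ (runmax Δ x s - δ) / (1 - 2 * δ) := by
    rw [le_div_iff₀ (by linarith)]
    linarith
  unfold prog
  exact min_eq_left (h2.trans (le_max_right _ _))

theorem prog_close (Δ : ℝ → ℝ) (h01 : ∀ s, 0 ≤ Δ s ∧ Δ s ≤ 1) (δ x s : ℝ) (hδ0 : 0 < δ)
    (hδ : δ ≤ 1 / 16) : |prog Δ δ x s - runmax Δ x s| ≤ 2 * δ := by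
  have hm1 : runmax Δ x s ≤ 1 := runmax_le Δ x s 1 (fun t _ _ => (h01 t).2)
  have hm0 : 0 ≤ runmax Δ x s :=
    (h01 x).1.trans (le_runmax Δ h01 x s x (le_refl _) (le_max_left _ _))
  set m := runmax Δ x s with hm
  have hne : (1 - 2 * δ) ≠ 0 := by linarith
  have h2 : (m - δ) / (1 - 2 * δ) - m = δ * (2 * m - 1) / (1 - 2 * δ) := by
    have e1 : δ * (2 * m - 1) = (m - δ) - m * (1 - 2 * δ) := by ring
    rw [e1, sub_div (m - δ) (m * (1 - 2 * δ)), mul_div_assoc, div_self hne, mul_one]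
  have h3 : |(m - δ) / (1 - 2 * δ) - m| ≤ 2 * δ := by
    rw [h2, abs_le]
    constructor
    · rw [le_div_iff₀ (by linarith)]
      nlinarith
    · rw [div_le_iff₀ (by linarith)]
      nlinarith
  rw [abs_le] at h3 ⊢
  unfold prog
  rw [← hm]
  constructor
  · have h4 : m - 2 * δ ≤ min 1 (max 0 ((m - δ) / (1 - 2 * δ))) := by
      apply le_min
      · linarith
      · exact le_max_of_le_right (by linarith)
    linarith
  · have h4 : min 1 (max 0 ((m - δ) / (1 - 2 * δ))) ≤ m + 2 * δ := by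
      apply min_le_of_right_le
      apply max_le
      · linarith
      · linarith
    linarith

/-- The state of the induction. -/
def St (Γ : ℝ → ℝ) (δ : ℝ) (N₀ : ℤ) (c : ℝ) : Prop :=
  ∃ (x : ℝ) (N : ℤ) (θ : ℝ → ℝ), 0 ≤ x ∧ x ≤ 1 ∧ c ≤ x ∧ Continuous θ ∧ Monotone θ ∧ θ 0 = N₀ ∧
    (∀ s, x ≤ s → θ s = N) ∧ (∀ s, 0 ≤ s → s ≤ x → |fold (θ s) - Γ s| ≤ 5 * δ) ∧ par Γ N x ≤ δ

/-- The goal of the induction. -/
def Fin (Γ : ℝ → ℝ) (δ : ℝ) (N₀ : ℤ) : Prop :=
  ∃ (N : ℤ) (θ : ℝ → ℝ), Continuous θ ∧ Monotone θ ∧ θ 0 = N₀ ∧ θ 1 = N ∧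
    (∀ s, 0 ≤ s → s ≤ 1 → |fold (θ s) - Γ s| ≤ 5 * δ)

theorem step (Γ : ℝ → ℝ) (hc : Continuous Γ) (h01 : ∀ s, 0 ≤ Γ s ∧ Γ s ≤ 1) (δ : ℝ) (hδ0 : 0 < δ)
    (hδ : δ ≤ 1 / 16) (h1 : R Γ δ) (h2 : R (fun s => 1 - Γ s) δ) (N₀ : ℤ) (ρ : ℝ)
    (hρ : ∀ s t, 0 ≤ s → s ≤ 1 → 0 ≤ t → t ≤ 1 → |s - t| < ρ → |Γ s - Γ t| < 1 / 2)
    (c : ℝ) (h : St Γ δ N₀ c) :
    Fin Γ δ N₀ ∨ St Γ δ N₀ (c + ρ) := by
  obtain ⟨x, N, θ, hx0, hx1, hcx, hθc, hθm, hθ0, hθN, hθclose, hxN⟩ := h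
  set Δ := par Γ N with hΔ
  have hΔ01 : ∀ s, 0 ≤ Δ s ∧ Δ s ≤ 1 := par_mem Γ h01 N
  have hΔR : R Δ δ := par_R Γ δ h1 h2 N
  have hΔc : Continuous Δ := par_cont Γ hc N
  by_cases hE : ∃ s, x ≤ s ∧ s ≤ 1 ∧ 1 - δ ≤ Δ s
  · right
    -- the first point
    have hcomp : IsCompact (Icc x 1 ∩ {s | 1 - δ ≤ Δ s}) :=
      isCompact_Icc.inter_right (isClosed_le continuous_const hΔc)
    have hne : (Icc x 1 ∩ {s | 1 - δ ≤ Δ s}).Nonempty := by
      obtain ⟨s, hs1, hs2, hs3⟩ := hE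
      exact ⟨s, ⟨hs1, hs2⟩, hs3⟩
    obtain ⟨x', ⟨⟨hxx', hx'1⟩, hx'Δ⟩, hleast⟩ := hcomp.exists_isLeast hne
    have hbefore : ∀ s, x ≤ s → s < x' → Δ s < 1 - δ := by
      intro s hs1 hs2
      by_contra hno
      push Not at hno
      exact absurd (hleast ⟨⟨hs1, by linarith⟩, hno⟩) (not_le.2 hs2)
    have hx'Δ' : 1 - δ ≤ Δ x' := hx'Δ
    -- almost monotone
    have hmono : ∀ t s, x ≤ t → t ≤ s → s ≤ x' → Δ t ≤ Δ s + 3 * δ := by
      intro t s hxt hts hsx'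
      by_contra hno
      push Not at hno
      rcases eq_or_lt_of_le hxt with h3 | h3
      · subst h3
        linarith [(hΔ01 s).1]
      · rcases eq_or_lt_of_le hts with h4 | h4
        · subst h4; linarith
        · rcases eq_or_lt_of_le hsx' with h5 | h5
          · subst h5
            linarith [(hΔ01 t).2]
          · obtain ⟨u, hu1, hu2, hu3, hu4, hu5⟩ := hΔR x s (max δ (Δ s)) (Or.inr (hxN.trans (le_max_left _ _)))
              (Or.inr (le_max_right _ _)) ⟨t, h3, h4, by linarith, by linarith, by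
                rcases le_total δ (Δ s) with h6 | h6
                · rw [max_eq_right h6]; linarith
                · rw [max_eq_left h6]; linarith [(hΔ01 s).1]⟩
            linarith [hbefore u hu1.le (by linarith)]
    have hmax : ∀ s, x ≤ s → s ≤ x' → |runmax Δ x s - Δ s| ≤ 3 * δ := by
      intro s hs1 hs2
      rw [abs_le]
      constructor
      · have := le_runmax Δ hΔ01 x s s hs1 (le_max_right _ _)
        linarith
      · have : runmax Δ x s ≤ Δ s + 3 * δ := by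
          apply runmax_le
          intro t ht1 ht2
          rw [max_eq_right hs1] at ht2
          exact hmono t s ht1 ht2 hs2
        linarith
    refine ⟨x', N + 1, fun s => θ s + prog Δ δ x s, by linarith, hx'1, ?_,
      hθc.add (prog_cont Δ hΔc δ x), hθm.add (prog_mono Δ hΔ01 δ x hδ), ?_, ?_, ?_, ?_⟩
    · by_contra hno
      push Not at hno
      have h3 : |x' - x| < ρ := by
        rw [abs_of_nonneg (by linarith)]; linarith
      have h4 := hρ x' x (by linarith) hx'1 hx0 hx1 h3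
      rw [← par_dist Γ N x' x] at h4
      have h5 := (abs_lt.1 h4).2
      rw [← hΔ] at h5
      linarith
    · show θ 0 + prog Δ δ x 0 = N₀
      rw [prog_zero Δ δ x 0 hδ hx0 hxN, hθ0, add_zero]
    · intro s hs
      show θ s + prog Δ δ x s = ((N + 1 : ℤ) : ℝ)
      rw [prog_one Δ hΔ01 δ x x' s hδ hxx' hs hx'Δ', hθN s (by linarith)]
      push_cast; ring
    · intro s hs0 hs
      show |fold (θ s + prog Δ δ x s) - Γ s| ≤ 5 * δ
      rcases le_total s x with h3 | h3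
      · rw [prog_zero Δ δ x s hδ h3 hxN, add_zero]
        exact hθclose s hs0 h3
      · rw [hθN s h3, fold_par Γ N _ s (prog_mem Δ δ x s).1 (prog_mem Δ δ x s).2]
        have h4 := prog_close Δ hΔ01 δ x s hδ0 hδ
        have h5 := hmax s h3 hs
        rw [← hΔ]
        calc |prog Δ δ x s - Δ s| = |(prog Δ δ x s - runmax Δ x s) + (runmax Δ x s - Δ s)| := by
              congr 1; ring
          _ ≤ |prog Δ δ x s - runmax Δ x s| + |runmax Δ x s - Δ s| := abs_add_le _ _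
          _ ≤ 2 * δ + 3 * δ := add_le_add h4 h5
          _ = 5 * δ := by ring
    · rw [par_succ, ← hΔ]
      linarith
  · left
    push Not at hE
    refine ⟨N, θ, hθc, hθm, hθ0, hθN 1 hx1, ?_⟩
    intro s hs0 hs1
    rcases le_total s x with h3 | h3
    · exact hθclose s hs0 h3
    · have h4 : Δ s < 3 * δ := by
        by_contra hno
        push Not at hno
        rcases eq_or_lt_of_le h3 with h5 | h5
        · subst h5; linarith
        · obtain ⟨u, hu1, hu2, hu3, hu4, hu5⟩ := hΔR x 2 δ (Or.inr hxN) (Or.inl (by norm_num))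
            ⟨s, h5, by linarith, hs0, hs1, by linarith⟩
          linarith [hE u hu1.le hu4]
      have h5 : θ s = (N : ℝ) + 0 := by rw [hθN s h3, add_zero]
      rw [h5, fold_par Γ N 0 s (le_refl _) zero_le_one, ← hΔ, zero_sub, abs_neg,
        abs_of_nonneg (hΔ01 s).1]
      linarith

theorem start (Γ : ℝ → ℝ) (hc : Continuous Γ) (h01 : ∀ s, 0 ≤ Γ s ∧ Γ s ≤ 1) (δ : ℝ) (hδ0 : 0 < δ)
    (h1 : R Γ δ) (h2 : R (fun s => 1 - Γ s) δ) :
    ∃ N₀ : ℤ, St Γ δ N₀ 0 := by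
  have hcomp : IsCompact (Icc (0 : ℝ) 1 ∩ ({s | Γ s ≤ δ} ∪ {s | 1 - δ ≤ Γ s})) :=
    isCompact_Icc.inter_right ((isClosed_le hc continuous_const).union
      (isClosed_le continuous_const hc))
  have hne : (Icc (0 : ℝ) 1 ∩ ({s | Γ s ≤ δ} ∪ {s | 1 - δ ≤ Γ s})).Nonempty := by
    obtain ⟨s, -, -, hs0, hs1, hs⟩ := h1 (-1) 2 (-(2 * δ)) (Or.inl (by norm_num))
      (Or.inl (by norm_num)) ⟨0, by norm_num, by norm_num, le_refl _, zero_le_one, by
        linarith [(h01 0).1]⟩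
    exact ⟨s, ⟨hs0, hs1⟩, Or.inr hs.le⟩
  obtain ⟨x, ⟨⟨hx0, hx1⟩, hxE⟩, hleast⟩ := hcomp.exists_isLeast hne
  have hbefore : ∀ s, 0 ≤ s → s < x → δ < Γ s ∧ Γ s < 1 - δ := by
    intro s hs0 hs
    by_contra hno
    rw [not_and_or, not_lt, not_lt] at hno
    exact absurd (hleast ⟨⟨hs0, by linarith⟩, hno⟩) (not_le.2 hs)
  obtain ⟨N, hN⟩ : ∃ N : ℤ, par Γ N x ≤ δ := by
    rcases hxE with h | h
    · exact ⟨0, by rw [par_even Γ 0 (by decide)]; exact h⟩
    · refine ⟨1, ?_⟩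
      rw [par_odd Γ 1 (by decide)]
      have : 1 - δ ≤ Γ x := h
      linarith
  have hR := par_R Γ δ h1 h2 N
  have hN01 := par_mem Γ h01 N
  refine ⟨N, x, N, fun _ => (N : ℝ), hx0, hx1, hx0, continuous_const, monotone_const, rfl,
    fun _ _ => rfl, ?_, hN⟩
  intro s hs0 hs
  have h5 : (N : ℝ) = (N : ℝ) + 0 := (add_zero _).symm
  show |fold (N : ℝ) - Γ s| ≤ 5 * δ
  rw [h5, fold_par Γ N 0 s (le_refl _) zero_le_one, zero_sub, abs_neg, abs_of_nonneg (hN01 s).1]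
  by_contra hno
  push Not at hno
  rcases eq_or_lt_of_le hs with h6 | h6
  · subst h6; linarith
  · obtain ⟨u, hu1, hu2, hu3, hu4, hu5⟩ := hR (-1) x δ (Or.inl (by norm_num)) (Or.inr hN)
      ⟨s, by linarith, h6, hs0, by linarith, by linarith⟩
    have h7 := hbefore u hu3 hu2
    by_cases he : Even N
    · rw [par_even Γ N he] at hu5; linarith
    · rw [par_odd Γ N he] at hu5; linarith

theorem zig (Γ : ℝ → ℝ) (hc : Continuous Γ) (h01 : ∀ s, 0 ≤ Γ s ∧ Γ s ≤ 1) (δ : ℝ) (hδ0 : 0 < δ)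
    (hδ : δ ≤ 1 / 16) (h1 : R Γ δ) (h2 : R (fun s => 1 - Γ s) δ) :
    ∃ (m n : ℤ) (θ : ℝ → ℝ), m < n ∧ Continuous θ ∧ Monotone θ ∧ θ 0 = m ∧ θ 1 = n ∧
      ∀ s, 0 ≤ s → s ≤ 1 → |fold (θ s) - Γ s| ≤ 5 * δ := by
  obtain ⟨N₀, hSt⟩ := start Γ hc h01 δ hδ0 h1 h2
  -- uniform continuity
  obtain ⟨ρ, hρ0, hρ⟩ : ∃ ρ > 0, ∀ s t, 0 ≤ s → s ≤ 1 → 0 ≤ t → t ≤ 1 → |s - t| < ρ →
      |Γ s - Γ t| < 1 / 2 := by
    have hu := isCompact_Icc.uniformContinuousOn_of_continuous (s := Icc (0 : ℝ) 1) hc.continuousOn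
    rw [Metric.uniformContinuousOn_iff] at hu
    obtain ⟨ρ, hρ0, hρ⟩ := hu (1 / 2) (by norm_num)
    refine ⟨ρ, hρ0, ?_⟩
    intro s t hs0 hs1 ht0 ht1 hst
    have := hρ s ⟨hs0, hs1⟩ t ⟨ht0, ht1⟩ (by rw [Real.dist_eq]; exact hst)
    rwa [Real.dist_eq] at this
  have hind : ∀ k : ℕ, Fin Γ δ N₀ ∨ St Γ δ N₀ (k * ρ) := by
    intro k
    induction k with
    | zero => right; simpa using hSt
    | succ k ih =>
      rcases ih with h | h
      · left; exact h
      · have := step Γ hc h01 δ hδ0 hδ h1 h2 N₀ ρ hρ _ h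
        have e : ((k + 1 : ℕ) : ℝ) * ρ = k * ρ + ρ := by push_cast; ring
        rw [e]
        exact this
  have hFin : Fin Γ δ N₀ := by
    obtain ⟨k, hk⟩ := exists_nat_gt (1 / ρ)
    rcases hind k with h | ⟨x, _, _, _, hx1, hx2, _⟩
    · exact h
    · exfalso
      rw [div_lt_iff₀ hρ0] at hk
      linarith
  obtain ⟨N, θ, hθc, hθm, hθ0, hθ1, hclose⟩ := hFin
  refine ⟨N₀, N, θ, ?_, hθc, hθm, hθ0, hθ1, hclose⟩
  have hle : (N₀ : ℝ) ≤ N := by rw [← hθ0, ← hθ1]; exact hθm zero_le_one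
  rcases eq_or_lt_of_le (show N₀ ≤ N by exact_mod_cast hle) with h | h
  · exfalso
    subst h
    have hconst : ∀ s, 0 ≤ s → s ≤ 1 → θ s = (N₀ : ℝ) := by
      intro s hs0 hs1
      apply le_antisymm
      · rw [← hθ1]; exact hθm hs1
      · rw [← hθ0]; exact hθm hs0
    obtain ⟨s, -, -, hs0, hs1, hs⟩ := h1 (-1) 2 (-(2 * δ)) (Or.inl (by norm_num))
      (Or.inl (by norm_num)) ⟨0, by norm_num, by norm_num, le_refl _, zero_le_one, by
        linarith [(h01 0).1]⟩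
    obtain ⟨t, -, -, ht0, ht1, ht⟩ := h2 (-1) 2 (-(2 * δ)) (Or.inl (by norm_num))
      (Or.inl (by norm_num)) ⟨0, by norm_num, by norm_num, le_refl _, zero_le_one, by
        have := (h01 0).2
        show -(2 * δ) + 2 * δ ≤ 1 - Γ 0
        linarith⟩
    have h3 := hclose s hs0 hs1
    have h4 := hclose t ht0 ht1
    rw [hconst s hs0 hs1] at h3
    rw [hconst t ht0 ht1] at h4
    rw [abs_le] at h3 h4
    linarith [h3.1, h3.2, h4.1, h4.2]
  · exact h

/-! ### Openness -/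

abbrev I := unitInterval

theorem open_of_no_extrema (F : I → I) (hF : Continuous F)
    (h1 : ∀ s : I, (F s : ℝ) < 1 → ∀ ε > 0, ∃ s' : I, dist s' s < ε ∧ F s < F s')
    (h2 : ∀ s : I, 0 < (F s : ℝ) → ∀ ε > 0, ∃ s' : I, dist s' s < ε ∧ F s' < F s) :
    IsOpenMap F := by
  rw [isOpenMap_iff_nhds_le]
  intro s V hV
  rw [Filter.mem_map] at hV
  obtain ⟨ε, hε, hball⟩ := Metric.mem_nhds_iff.1 hV
  -- the image of the ball is order connected
  have hoc : (Metric.ball s ε).OrdConnected := by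
    constructor
    intro a ha b hb c hc
    rw [Metric.mem_ball, Subtype.dist_eq, Real.dist_eq, abs_lt] at ha hb ⊢
    have h3 : (a : ℝ) ≤ c := hc.1
    have h4 : (c : ℝ) ≤ b := hc.2
    constructor <;> linarith [ha.1, ha.2, hb.1, hb.2]
  have hpre : (F '' Metric.ball s ε).OrdConnected :=
    (hoc.isPreconnected.image F hF.continuousOn).ordConnected
  have hsub : F '' Metric.ball s ε ⊆ V := by
    rintro _ ⟨x, hx, rfl⟩
    exact hball hx
  have hs : F s ∈ F '' Metric.ball s ε := ⟨s, Metric.mem_ball_self hε, rfl⟩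
  apply Filter.mem_of_superset _ hsub
  by_cases c1 : (F s : ℝ) < 1
  · obtain ⟨a, ha1, ha2⟩ := h1 s c1 ε hε
    have ha : F a ∈ F '' Metric.ball s ε := ⟨a, ha1, rfl⟩
    by_cases c2 : 0 < (F s : ℝ)
    · obtain ⟨b, hb1, hb2⟩ := h2 s c2 ε hε
      have hb : F b ∈ F '' Metric.ball s ε := ⟨b, hb1, rfl⟩
      exact Filter.mem_of_superset (Icc_mem_nhds hb2 ha2) (hpre.out hb ha)
    · have h0 : (F s : ℝ) = 0 := le_antisymm (not_lt.1 c2) (F s).2.1
      apply Filter.mem_of_superset (Iic_mem_nhds ha2)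
      intro y hy
      apply hpre.out hs ha
      refine ⟨?_, hy⟩
      show (F s : ℝ) ≤ y
      rw [h0]; exact y.2.1
  · have h0 : (F s : ℝ) = 1 := le_antisymm (F s).2.2 (not_lt.1 c1)
    obtain ⟨b, hb1, hb2⟩ := h2 s (by rw [h0]; exact zero_lt_one) ε hε
    have hb : F b ∈ F '' Metric.ball s ε := ⟨b, hb1, rfl⟩
    apply Filter.mem_of_superset (Ici_mem_nhds hb2)
    intro y hy
    apply hpre.out hb hs
    refine ⟨hy, ?_⟩
    show (y : ℝ) ≤ F s
    rw [h0]; exact y.2.2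

/-- `fold` composed with a strictly increasing surjection onto `[m,n]` is open. -/
theorem open_fold (m n : ℤ) (θ : ℝ → ℝ) (hc : Continuous θ) (hm : StrictMono θ)
    (h0 : θ 0 = m) (h1 : θ 1 = n) (F : I → I) (hF : ∀ s : I, (F s : ℝ) = fold (θ s)) :
    Continuous F ∧ IsOpenMap F := by
  have hFc : Continuous F := by
    rw [continuous_induced_rng]
    have : (Subtype.val ∘ F) = fun s : I => fold (θ s) := by
      funext s; exact hF s
    rw [this]
    exact fold_cont.comp (hc.comp continuous_subtype_val)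
  refine ⟨hFc, ?_⟩
  have hmn : m < n := by
    have : θ 0 < θ 1 := hm zero_lt_one
    rw [h0, h1] at this
    exact_mod_cast this
  -- each point lies in a lap
  have hlap : ∀ s : I, ∃ k : ℤ, m ≤ k ∧ k + 1 ≤ n ∧ (k : ℝ) ≤ θ s ∧ θ s ≤ k + 1 := by
    intro s
    have hs0 : (m : ℝ) ≤ θ s := by rw [← h0]; exact hm.monotone s.2.1
    have hs1 : θ s ≤ n := by rw [← h1]; exact hm.monotone s.2.2
    by_cases h : θ s < n
    · refine ⟨⌊θ s⌋, Int.le_floor.2 hs0, ?_, Int.floor_le _, (Int.lt_floor_add_one _).le⟩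
      have : ⌊θ s⌋ < n := Int.floor_lt.2 h
      omega
    · refine ⟨n - 1, by omega, by omega, ?_, ?_⟩
      · push_cast; linarith [not_lt.1 h]
      · push_cast; linarith
  -- move to the right / left inside a lap
  have hright : ∀ (s : I) (k : ℤ), k + 1 ≤ n → θ s < k + 1 → ∀ ε > 0,
      ∃ s' : I, dist s' s < ε ∧ θ s < θ s' ∧ θ s' ≤ k + 1 := by
    intro s k hk hs ε hε
    have hs1 : (s : ℝ) < 1 := by
      by_contra hno
      have h3 : θ 1 ≤ θ s := hm.monotone (not_lt.1 hno)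
      rw [h1] at h3
      have h4 : ((k + 1 : ℤ) : ℝ) ≤ n := by exact_mod_cast hk
      push_cast at h4
      linarith
    obtain ⟨η, hη, hη2⟩ := Metric.continuous_iff.1 hc s (k + 1 - θ s) (by linarith)
    let t := min ((s : ℝ) + min (ε / 2) (η / 2)) 1
    have ht1 : t ≤ 1 := min_le_right _ _
    have hst : (s : ℝ) < t := lt_min (by linarith [lt_min (half_pos hε) (half_pos hη)]) hs1
    have htle : t ≤ (s : ℝ) + min (ε / 2) (η / 2) := min_le_left _ _
    have hta : t ≤ (s : ℝ) + ε / 2 := htle.trans (by linarith [min_le_left (ε / 2) (η / 2)])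
    have htb : t ≤ (s : ℝ) + η / 2 := htle.trans (by linarith [min_le_right (ε / 2) (η / 2)])
    refine ⟨⟨t, by linarith [s.2.1], ht1⟩, ?_, hm hst, ?_⟩
    · rw [Subtype.dist_eq, Real.dist_eq, abs_of_nonneg]
      · show t - (s : ℝ) < ε
        linarith
      · show 0 ≤ t - (s : ℝ)
        linarith
    · have := hη2 t (by rw [Real.dist_eq, abs_of_nonneg (by linarith)]; linarith)
      rw [Real.dist_eq] at this
      have := (abs_lt.1 this).2
      show θ t ≤ k + 1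
      linarith
  have hleft : ∀ (s : I) (k : ℤ), m ≤ k → (k : ℝ) < θ s → ∀ ε > 0,
      ∃ s' : I, dist s' s < ε ∧ θ s' < θ s ∧ (k : ℝ) ≤ θ s' := by
    intro s k hk hs ε hε
    have hs1 : 0 < (s : ℝ) := by
      by_contra hno
      have h3 : θ s ≤ θ 0 := hm.monotone (not_lt.1 hno)
      rw [h0] at h3
      have h4 : (m : ℝ) ≤ k := by exact_mod_cast hk
      linarith
    obtain ⟨η, hη, hη2⟩ := Metric.continuous_iff.1 hc s (θ s - k) (by linarith)
    let t := max ((s : ℝ) - min (ε / 2) (η / 2)) 0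
    have ht1 : 0 ≤ t := le_max_right _ _
    have hst : t < (s : ℝ) := max_lt (by linarith [lt_min (half_pos hε) (half_pos hη)]) hs1
    have htle : (s : ℝ) - min (ε / 2) (η / 2) ≤ t := le_max_left _ _
    have hta : (s : ℝ) - ε / 2 ≤ t := by linarith [min_le_left (ε / 2) (η / 2)]
    have htb : (s : ℝ) - η / 2 ≤ t := by linarith [min_le_right (ε / 2) (η / 2)]
    refine ⟨⟨t, ht1, by linarith [s.2.2]⟩, ?_, hm hst, ?_⟩
    · rw [Subtype.dist_eq, Real.dist_eq, abs_sub_comm, abs_of_nonneg]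
      · show (s : ℝ) - t < ε
        linarith
      · show 0 ≤ (s : ℝ) - t
        linarith
    · have := hη2 t (by rw [Real.dist_eq, abs_sub_comm, abs_of_nonneg (by linarith)]; linarith)
      rw [Real.dist_eq, abs_sub_comm] at this
      have := (abs_lt.1 this).2
      show (k : ℝ) ≤ θ t
      linarith
  -- value of `fold` in a lap
  have hev : ∀ (k : ℤ) (y : ℝ), Even k → (k : ℝ) ≤ y → y ≤ k + 1 → fold y = y - k := by
    intro k y hk h3 h4
    have := fold_even k hk (y - k) (by linarith) (by linarith)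
    rwa [add_sub_cancel] at this
  have hod : ∀ (k : ℤ) (y : ℝ), ¬ Even k → (k : ℝ) ≤ y → y ≤ k + 1 → fold y = 1 - (y - k) := by
    intro k y hk h3 h4
    have := fold_odd k hk (y - k) (by linarith) (by linarith)
    rwa [add_sub_cancel] at this
  apply open_of_no_extrema F hFc
  · intro s hs ε hε
    obtain ⟨k, hk1, hk2, hk3, hk4⟩ := hlap s
    rw [hF] at hs
    by_cases he : Even k
    · rw [hev k _ he hk3 hk4] at hs
      obtain ⟨s', hs1, hs2, hs3⟩ := hright s k hk2 (by linarith) ε hε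
      refine ⟨s', hs1, ?_⟩
      show (F s : ℝ) < F s'
      rw [hF, hF, hev k _ he hk3 hk4, hev k _ he (by linarith) hs3]
      linarith
    · rw [hod k _ he hk3 hk4] at hs
      obtain ⟨s', hs1, hs2, hs3⟩ := hleft s k hk1 (by linarith) ε hε
      refine ⟨s', hs1, ?_⟩
      show (F s : ℝ) < F s'
      rw [hF, hF, hod k _ he hk3 hk4, hod k _ he hs3 (by linarith)]
      linarith
  · intro s hs ε hε
    obtain ⟨k, hk1, hk2, hk3, hk4⟩ := hlap s
    rw [hF] at hs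
    by_cases he : Even k
    · rw [hev k _ he hk3 hk4] at hs
      obtain ⟨s', hs1, hs2, hs3⟩ := hleft s k hk1 (by linarith) ε hε
      refine ⟨s', hs1, ?_⟩
      show (F s' : ℝ) < F s
      rw [hF, hF, hev k _ he hk3 hk4, hev k _ he hs3 (by linarith)]
      linarith
    · rw [hod k _ he hk3 hk4] at hs
      obtain ⟨s', hs1, hs2, hs3⟩ := hright s k hk2 (by linarith) ε hε
      refine ⟨s', hs1, ?_⟩
      show (F s' : ℝ) < F s
      rw [hF, hF, hod k _ he hk3 hk4, hod k _ he (by linarith) hs3]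
      linarith

theorem exists_open (Γ : ℝ → ℝ) (hc : Continuous Γ) (h01 : ∀ s, 0 ≤ Γ s ∧ Γ s ≤ 1) (δ : ℝ)
    (hδ0 : 0 < δ) (hδ : δ ≤ 1 / 16) (h1 : R Γ δ) (h2 : R (fun s => 1 - Γ s) δ) :
    ∃ F : I → I, Continuous F ∧ IsOpenMap F ∧ ∀ s : I, |(F s : ℝ) - Γ s| ≤ 6 * δ := by
  obtain ⟨m, n, θ, hmn, hθc, hθm, hθ0, hθ1, hclose⟩ := zig Γ hc h01 δ hδ0 hδ h1 h2
  have hmn' : (m : ℝ) + 1 ≤ n := by exact_mod_cast hmn
  have hpos : 0 < (n : ℝ) - m + δ := by linarith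
  let θ' : ℝ → ℝ := fun s => m + (n - m) * (θ s - m + δ * s) / (n - m + δ)
  have hθ'c : Continuous θ' := by
    show Continuous fun s => (m : ℝ) + (n - m) * (θ s - m + δ * s) / (n - m + δ)
    fun_prop
  have hθ'm : StrictMono θ' := by
    intro s t hst
    show (m : ℝ) + (n - m) * (θ s - m + δ * s) / (n - m + δ) <
      m + (n - m) * (θ t - m + δ * t) / (n - m + δ)
    have h3 : θ s - m + δ * s < θ t - m + δ * t := by
      have := hθm hst.le
      nlinarith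
    have h4 : (n - m : ℝ) * (θ s - m + δ * s) < (n - m) * (θ t - m + δ * t) :=
      mul_lt_mul_of_pos_left h3 (by linarith)
    have h5 := div_lt_div_of_pos_right h4 hpos
    linarith
  have hθ'0 : θ' 0 = m := by
    show (m : ℝ) + (n - m) * (θ 0 - m + δ * 0) / (n - m + δ) = m
    rw [hθ0]; simp
  have hθ'1 : θ' 1 = n := by
    show (m : ℝ) + (n - m) * (θ 1 - m + δ * 1) / (n - m + δ) = n
    rw [hθ1, mul_one, mul_div_assoc, div_self hpos.ne']
    ring
  have hclose' : ∀ s, 0 ≤ s → s ≤ 1 → |θ' s - θ s| ≤ δ := by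
    intro s hs0 hs1
    have hθs0 : (m : ℝ) ≤ θ s := by rw [← hθ0]; exact hθm hs0
    have hθs1 : θ s ≤ n := by rw [← hθ1]; exact hθm hs1
    have e : θ' s - θ s = δ * ((n - m) * s - (θ s - m)) / (n - m + δ) := by
      show (m : ℝ) + (n - m) * (θ s - m + δ * s) / (n - m + δ) - θ s = _
      have := hpos.ne'
      field_simp
      ring
    rw [e, abs_le]
    have h3 : 0 ≤ (n - m : ℝ) * s := mul_nonneg (by linarith) hs0
    have h4 : (n - m : ℝ) * s ≤ n - m := by nlinarith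
    constructor
    · rw [le_div_iff₀ hpos]
      nlinarith
    · rw [div_le_iff₀ hpos]
      nlinarith
  let F : I → I := fun s => ⟨fold (θ' s), fold_mem _⟩
  obtain ⟨hF1, hF2⟩ := open_fold m n θ' hθ'c hθ'm hθ'0 hθ'1 F (fun _ => rfl)
  refine ⟨F, hF1, hF2, ?_⟩
  intro s
  show |fold (θ' s) - Γ s| ≤ 6 * δ
  calc |fold (θ' s) - Γ s| = |(fold (θ' s) - fold (θ s)) + (fold (θ s) - Γ s)| := by
        congr 1; ring
    _ ≤ |fold (θ' s) - fold (θ s)| + |fold (θ s) - Γ s| := abs_add_le _ _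
    _ ≤ δ + 5 * δ := add_le_add ((fold_lip _ _).trans (hclose' s s.2.1 s.2.2))
        (hclose s s.2.1 s.2.2)
    _ = 6 * δ := by ring

end Pool.Agent.Helper18.Zig
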